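import Pool.Agent.Helper27.D6BT
import Pool.Agent.Helper96.PNT

set_option autoImplicit false

namespace Pool.Agent.Helper27.D6

open Finset

/-- primes in `(a, b]` -/
def pr (a b : ℕ) : Finset ℕ := (Ioc a b).filter Nat.Prime

theorem mem_pr {a b p : ℕ} : p ∈ pr a b ↔ (a < p ∧ p ≤ b) ∧ p.Prime := by
  unfold pr; rw [Finset.mem_filter, Finset.mem_Ioc]

/-- total exponent of `p` in the product of the interval `(a, b]` -/
def V (p a b : ℕ) : ℕ := ∑ n ∈ Ioc a b, n.factorization p

theorem V_self (p a : ℕ) : V p a a = 0 := by simp [V]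

theorem V_succ (p a b : ℕ) (hab : a ≤ b) : V p a (b + 1) = V p a b + (b + 1).factorization p := by
  unfold V
  rw [← Finset.insert_Ioc_right_eq_Ioc_add_one (by omega : a ≤ b), Finset.sum_insert (by simp)]
  ring

theorem V_fac (p a b : ℕ) (hab : a ≤ b) :
    b.factorial.factorization p = a.factorial.factorization p + V p a b := by
  induction b, hab using Nat.le_induction with
  | base => simp [V_self]
  | succ b hb ih =>
    rw [Nat.factorial_succ, Nat.factorization_mul (by omega) (Nat.factorial_ne_zero b), V_succ p a b hb,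
      Finsupp.add_apply, ih]
    ring

theorem V_zero (p b : ℕ) : V p 0 b = b.factorial.factorization p := by
  have := V_fac p 0 b (Nat.zero_le _)
  simpa using this.symm

theorem V_choose (p a b : ℕ) (hab : a ≤ b) :
    V p a b = (b - a).factorial.factorization p + (Nat.choose b a).factorization p := by
  have h1 := V_fac p a b hab
  have h2 := Nat.choose_mul_factorial_mul_factorial hab
  have h3 : b.factorial.factorization p = (Nat.choose b a).factorization p +
      a.factorial.factorization p + (b - a).factorial.factorization p := by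
    rw [← h2, Nat.factorization_mul (mul_ne_zero (Nat.choose_pos hab).ne' (Nat.factorial_ne_zero a))
      (Nat.factorial_ne_zero _), Nat.factorization_mul (Nat.choose_pos hab).ne' (Nat.factorial_ne_zero a),
      Finsupp.add_apply, Finsupp.add_apply]
  omega

theorem V_le (p a b : ℕ) (hab : a ≤ b) :
    V p a b ≤ (b - a).factorial.factorization p + Nat.log p b := by
  rw [V_choose p a b hab]
  have := Nat.factorization_choose_le_log (p := p) (n := b) (k := a)
  omega

theorem log_eq_sum (n M : ℕ) (hn : 0 < n) (hM : n ≤ M) :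
    Real.log n = ∑ p ∈ pr 0 M, (n.factorization p : ℝ) * Real.log p := by
  rw [Real.log_nat_eq_sum_factorization, Finsupp.sum]
  apply Finset.sum_subset
  · intro p hp
    rw [Nat.support_factorization, Nat.mem_primeFactors] at hp
    rw [mem_pr]
    exact ⟨⟨hp.1.pos, (Nat.le_of_dvd hn hp.2.1).trans hM⟩, hp.1⟩
  · intro p _ hp
    rw [Finsupp.mem_support_iff, not_not] at hp
    rw [hp]; simp

theorem sum_log_eq (a b M : ℕ) (hM : b ≤ M) :
    ∑ n ∈ Ioc a b, Real.log n = ∑ p ∈ pr 0 M, (V p a b : ℝ) * Real.log p := by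
  have h1 : ∀ n ∈ Ioc a b, Real.log n = ∑ p ∈ pr 0 M, (n.factorization p : ℝ) * Real.log p := by
    intro n hn
    rw [Finset.mem_Ioc] at hn
    exact log_eq_sum n M (by omega) (by omega)
  rw [Finset.sum_congr rfl h1, Finset.sum_comm]
  apply Finset.sum_congr rfl
  intro p _
  unfold V
  push_cast
  rw [Finset.sum_mul]

theorem log_fac_le (h : ℕ) : Real.log (h.factorial) ≤ h * Real.log h := by
  rcases Nat.eq_zero_or_pos h with rfl | hh
  · simp
  have h1 : ((h.factorial : ℕ) : ℝ) ≤ (h : ℝ) ^ h := by exact_mod_cast Nat.factorial_le_pow h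
  have h2 := Real.log_le_log (by exact_mod_cast Nat.factorial_pos h) h1
  rwa [Real.log_pow] at h2

theorem small_mass (a b M : ℕ) (hab : a ≤ b) (hb : 1 ≤ b) :
    ∑ p ∈ pr 0 M, (V p a b : ℝ) * Real.log p ≤
      ((b : ℝ) - a) * Real.log ((b : ℝ) - a) + (pr 0 M).card * Real.log b := by
  have h1 : ∀ p ∈ pr 0 M, (V p a b : ℝ) * Real.log p ≤
      ((b - a).factorial.factorization p : ℝ) * Real.log p + Real.log b := by
    intro p hp
    rw [mem_pr] at hp
    have hp1 : 0 ≤ Real.log p := Real.log_nonneg (by exact_mod_cast hp.2.one_lt.le)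
    have h2 : (V p a b : ℝ) ≤ ((b - a).factorial.factorization p : ℝ) + Nat.log p b := by
      exact_mod_cast V_le p a b hab
    have h3 : (Nat.log p b : ℝ) * Real.log p ≤ Real.log b := by
      rw [← Real.log_pow]
      apply Real.log_le_log
      · have := hp.2.pos; positivity
      · exact_mod_cast Nat.pow_log_le_self p (by omega)
    calc (V p a b : ℝ) * Real.log p ≤ (((b - a).factorial.factorization p : ℝ) + Nat.log p b) * Real.log p :=
          mul_le_mul_of_nonneg_right h2 hp1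
      _ ≤ _ := by rw [add_mul]; linarith
  refine (Finset.sum_le_sum h1).trans ?_
  rw [Finset.sum_add_distrib, Finset.sum_const, nsmul_eq_mul]
  have h4 : ∑ p ∈ pr 0 M, ((b - a).factorial.factorization p : ℝ) * Real.log p ≤
      Real.log ((b - a).factorial : ℝ) := by
    rw [Real.log_nat_eq_sum_factorization, Finsupp.sum]
    have h5 : ∑ p ∈ pr 0 M, ((b - a).factorial.factorization p : ℝ) * Real.log p =
        ∑ p ∈ (pr 0 M).filter (fun p => p ∈ (b - a).factorial.factorization.support),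
          ((b - a).factorial.factorization p : ℝ) * Real.log p := by
      rw [Finset.sum_filter_of_ne]
      intro p _ hp
      rw [Finsupp.mem_support_iff]
      intro h0; apply hp; rw [h0]; simp
    rw [h5]
    apply Finset.sum_le_sum_of_subset_of_nonneg
    · intro p hp; exact (Finset.mem_filter.mp hp).2
    · intro p hp _
      rw [Nat.support_factorization, Nat.mem_primeFactors] at hp
      have : 0 ≤ Real.log p := Real.log_nonneg (by exact_mod_cast hp.1.one_lt.le)
      positivity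
  have h6 := log_fac_le (b - a)
  rw [Nat.cast_sub hab] at h6
  linarith

theorem sum_log_ge (a b : ℕ) (hab : a ≤ b) :
    ((b : ℝ) - a) * (Real.log b - 1) ≤ ∑ n ∈ Ioc a b, Real.log n := by
  have h1 : ∀ b : ℕ, a ≤ b → (b : ℝ) * Real.log b - b - a * Real.log a + a ≤ ∑ n ∈ Ioc a b, Real.log n := by
    intro b hb
    induction b, hb using Nat.le_induction with
    | base => simp
    | succ b hb ih =>
      rw [← Finset.insert_Ioc_right_eq_Ioc_add_one (by omega : a ≤ b), Finset.sum_insert (by simp)]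
      have h2 : ((b : ℝ) + 1) * Real.log (b + 1) - b * Real.log b - 1 ≤ Real.log (b + 1) := by
        rcases Nat.eq_zero_or_pos b with rfl | hb0
        · simp
        have hb1 : (0 : ℝ) < b := by exact_mod_cast hb0
        have h3 : Real.log (((b : ℝ) + 1) / b) ≤ ((b : ℝ) + 1) / b - 1 :=
          Real.log_le_sub_one_of_pos (by positivity)
        rw [Real.log_div (by positivity) hb1.ne'] at h3
        have h4 : ((b : ℝ) + 1) / b - 1 = 1 / b := by field_simp; ring
        rw [h4] at h3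
        have h5 : (b : ℝ) * (Real.log (b + 1) - Real.log b) ≤ 1 := by
          calc (b : ℝ) * (Real.log (b + 1) - Real.log b) ≤ b * (1 / b) :=
                mul_le_mul_of_nonneg_left h3 hb1.le
            _ = 1 := by field_simp
        nlinarith
      push_cast
      linarith
  refine le_trans ?_ (h1 b hab)
  rcases Nat.eq_zero_or_pos a with rfl | ha
  · simp; nlinarith
  have h2 : Real.log a ≤ Real.log b := Real.log_le_log (by exact_mod_cast ha) (by exact_mod_cast hab)
  have ha0 : (0 : ℝ) < a := by exact_mod_cast ha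
  nlinarith

theorem theta_le (n : ℕ) : ∑ p ∈ pr 0 n, Real.log p ≤ Real.log 4 * n := by
  have h := Chebyshev.theta_le_log4_mul_x (x := (n : ℝ)) (Nat.cast_nonneg _)
  unfold Chebyshev.theta at h
  rw [Nat.floor_natCast] at h
  exact h

theorem pi_le : ∃ C : ℝ, 0 < C ∧ ∀ n : ℕ, 2 ≤ n → ((pr 0 n).card : ℝ) ≤ C * (n / Real.log n) := by
  obtain ⟨C, hC, h⟩ := brun_titchmarsh
  refine ⟨C, hC, fun n hn => ?_⟩
  have := h 0 n hn
  rwa [zero_add] at this

theorem V_ge_div (p n : ℕ) (hp : p.Prime) : n / p ≤ V p 0 n := by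
  rw [← Nat.Ioc_filter_dvd_card_eq_div, Finset.card_eq_sum_ones, Finset.sum_filter]
  unfold V
  apply Finset.sum_le_sum
  intro m hm
  rw [Finset.mem_Ioc] at hm
  split_ifs with h
  · exact (hp.dvd_iff_one_le_factorization (by omega)).mp h
  · exact Nat.zero_le _

theorem mertens (n : ℕ) (hn : 1 ≤ n) :
    ∑ p ∈ pr 0 n, Real.log p / p ≤ Real.log n + 2 := by
  have hn0 : (0 : ℝ) < n := by exact_mod_cast hn
  have h1 : ∑ p ∈ pr 0 n, (V p 0 n : ℝ) * Real.log p ≤ n * Real.log n := by
    rw [← sum_log_eq 0 n n le_rfl]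
    have h2 : ∀ m ∈ Ioc 0 n, Real.log m ≤ Real.log n := by
      intro m hm
      rw [Finset.mem_Ioc] at hm
      exact Real.log_le_log (by exact_mod_cast hm.1) (by exact_mod_cast hm.2)
    refine (Finset.sum_le_sum h2).trans ?_
    rw [Finset.sum_const, Nat.card_Ioc, nsmul_eq_mul]; simp
  have h2 : ∀ p ∈ pr 0 n, n * (Real.log p / p) ≤ (V p 0 n : ℝ) * Real.log p + Real.log p := by
    intro p hp
    rw [mem_pr] at hp
    have hp0 : (0 : ℝ) < p := by exact_mod_cast hp.2.pos
    have hp1 : 0 ≤ Real.log p := Real.log_nonneg (by exact_mod_cast hp.2.one_lt.le)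
    have h3 : (n : ℝ) / p ≤ (V p 0 n : ℝ) + 1 := by
      have h4 := V_ge_div p n hp.2
      have h5 : n < (n / p + 1) * p := by
        have := Nat.lt_div_mul_add (a := n) hp.2.pos
        rw [add_mul, one_mul]; omega
      rw [div_le_iff₀ hp0]
      have h6 : n ≤ (V p 0 n + 1) * p := h5.le.trans (Nat.mul_le_mul_right _ (by omega))
      exact_mod_cast h6
    calc n * (Real.log p / p) = (n / p) * Real.log p := by ring
      _ ≤ ((V p 0 n : ℝ) + 1) * Real.log p := mul_le_mul_of_nonneg_right h3 hp1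
      _ = _ := by ring
  have h3 := Finset.sum_le_sum h2
  rw [← Finset.mul_sum, Finset.sum_add_distrib] at h3
  have h4 := theta_le n
  have h5 : Real.log 4 ≤ 2 := by
    have : Real.log 4 = 2 * Real.log 2 := by
      rw [show (4 : ℝ) = 2 ^ 2 by norm_num, Real.log_pow]; norm_num
    rw [this]; have := Real.log_two_lt_d9; linarith
  have h6 : n * ∑ p ∈ pr 0 n, Real.log p / p ≤ n * (Real.log n + 2) := by
    have : Real.log 4 * n ≤ 2 * n := mul_le_mul_of_nonneg_right h5 hn0.le
    nlinarith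
  exact le_of_mul_le_mul_left h6 hn0

theorem mertens' : ∃ C : ℝ, 0 < C ∧ ∀ n : ℕ, 1 ≤ n →
    ∑ p ∈ pr 0 n, Real.log p / (p - 1) ≤ Real.log n + C := by
  have hs : Summable (fun n : ℕ => 1 / (n : ℝ) ^ (3 / 2 : ℝ)) :=
    Real.summable_one_div_nat_rpow.mpr (by norm_num)
  set T := ∑' n : ℕ, 1 / (n : ℝ) ^ (3 / 2 : ℝ) with hT
  have hT0 : 0 ≤ T := tsum_nonneg fun _ => by positivity
  refine ⟨2 + 4 * T, by positivity, fun n hn => ?_⟩
  have h1 : ∀ p ∈ pr 0 n, Real.log p / ((p : ℝ) - 1) ≤ Real.log p / p + 4 * (1 / (p : ℝ) ^ (3 / 2 : ℝ)) := by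
    intro p hp
    rw [mem_pr] at hp
    have hp2 : (2 : ℝ) ≤ p := by exact_mod_cast hp.2.two_le
    have hp0 : (0 : ℝ) < p := by linarith
    have h2 : Real.log p ≤ 2 * Real.sqrt p := by
      have h3 : Real.log (Real.sqrt p) ≤ Real.sqrt p - 1 :=
        Real.log_le_sub_one_of_pos (Real.sqrt_pos.mpr hp0)
      rw [Real.log_sqrt hp0.le] at h3
      linarith
    have h3 : Real.log p / ((p : ℝ) - 1) = Real.log p / p + Real.log p / (p * (p - 1)) := by
      have : (p : ℝ) - 1 ≠ 0 := by linarith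
      field_simp; ring
    rw [h3]
    gcongr
    have h4 : (p : ℝ) ^ (3 / 2 : ℝ) = p * Real.sqrt p := by
      rw [Real.sqrt_eq_rpow, ← Real.rpow_one_add' hp0.le (by norm_num)]; norm_num
    rw [h4, ← mul_div_assoc, mul_one, div_le_div_iff₀ (by nlinarith) (by positivity)]
    have hsq : Real.sqrt p * Real.sqrt p = p := Real.mul_self_sqrt hp0.le
    have h5 : Real.log p * (p * Real.sqrt p) ≤ 2 * Real.sqrt p * (p * Real.sqrt p) :=
      mul_le_mul_of_nonneg_right h2 (by positivity)
    nlinarith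
  refine (Finset.sum_le_sum h1).trans ?_
  rw [Finset.sum_add_distrib, ← Finset.mul_sum]
  have h2 := mertens n hn
  have h3 : ∑ p ∈ pr 0 n, 1 / (p : ℝ) ^ (3 / 2 : ℝ) ≤ T :=
    hs.sum_le_tsum _ (fun _ _ => by positivity)
  linarith

theorem primes_short (c : ℝ) (hc0 : 0 < c) (hc1 : c < 1) : ∃ x₀ : ℕ, 2 ≤ x₀ ∧ ∀ x : ℕ, x₀ ≤ x →
    c / 2 * x / Real.log x ≤ (((pr 0 x).filter (fun p : ℕ => (1 - c) * x < p)).card : ℝ) := by
  have h := Helper96.PNT.eventually_primes_short hc0 hc1
  rw [Filter.eventually_atTop] at h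
  obtain ⟨x₁, hx₁⟩ := h
  refine ⟨max 2 ⌈x₁⌉₊, le_max_left _ _, fun x hx => ?_⟩
  have h1 : x₁ ≤ (x : ℝ) := (Nat.le_ceil x₁).trans (by exact_mod_cast (le_max_right _ _).trans hx)
  refine (hx₁ x h1).trans (le_of_eq ?_)
  congr 2
  rw [Nat.floor_natCast]
  ext p
  simp only [Finset.mem_filter, Finset.mem_Icc, mem_pr]
  constructor
  · rintro ⟨⟨h1, h2⟩, h3, h4⟩; exact ⟨⟨⟨h1, h2⟩, h3⟩, h4⟩
  · rintro ⟨⟨⟨h1, h2⟩, h3⟩, h4⟩; exact ⟨⟨h1, h2⟩, h3, h4⟩

theorem primes_half : ∃ x₀ : ℕ, 2 ≤ x₀ ∧ ∀ x : ℕ, x₀ ≤ x →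
    (1 / 4) * (x / Real.log x) ≤ ((pr (x / 2) x).card : ℝ) := by
  obtain ⟨x₀, h0, h⟩ := primes_short (1 / 2) (by norm_num) (by norm_num)
  refine ⟨x₀, h0, fun x hx => ?_⟩
  have h1 := h x hx
  have h2 : ((pr 0 x).filter (fun p : ℕ => (1 - 1 / 2 : ℝ) * x < p)) ⊆ pr (x / 2) x := by
    intro p hp
    rw [Finset.mem_filter, mem_pr] at hp
    rw [mem_pr]
    refine ⟨⟨?_, hp.1.1.2⟩, hp.1.2⟩
    have h3 : (x : ℝ) < 2 * p := by linarith [hp.2]
    have h4 : x < 2 * p := by exact_mod_cast h3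
    omega
  have h3 : (((pr 0 x).filter (fun p : ℕ => (1 - 1 / 2 : ℝ) * x < p)).card : ℝ) ≤ (pr (x / 2) x).card := by
    exact_mod_cast Finset.card_le_card h2
  have e : (1 / 4 : ℝ) * (x / Real.log x) = 1 / 2 / 2 * x / Real.log x := by ring
  rw [e]
  exact h1.trans h3

end Pool.Agent.Helper27.D6
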