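import Mathlib
import Pool.Agent.Helper27.D6Basic
import Pool.Prelude.Def_F_1b46b985

set_option autoImplicit false

namespace Pool.Agent.Helper27.D6

open Finset

structure Rep (m w x y z : ℕ) : Prop where
  hzy : z ≤ y
  hyx : y ≤ x
  hxw : x ≤ w
  hwm : w < m
  par : ∀ p : ℕ, p.Prime → Even (V p w m + V p y x + V p 0 z)

theorem V_eq_zero {p a b : ℕ} (h : ∀ n ∈ Ioc a b, ¬ p ∣ n) : V p a b = 0 := by
  unfold V
  apply Finset.sum_eq_zero
  intro n hn
  exact Nat.factorization_eq_zero_of_not_dvd (h n hn)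

theorem exists_of_V_ne {p a b : ℕ} (h : V p a b ≠ 0) : ∃ n ∈ Ioc a b, p ∣ n := by
  by_contra hc
  push Not at hc
  exact h (V_eq_zero hc)

theorem V_single {p a b n : ℕ} (hn : n ∈ Ioc a b) (hu : ∀ n' ∈ Ioc a b, p ∣ n' → n' = n) :
    V p a b = n.factorization p := by
  unfold V
  rw [Finset.sum_eq_single_of_mem n hn]
  intro n' hn' hne
  apply Nat.factorization_eq_zero_of_not_dvd
  intro hd
  exact hne (hu n' hn' hd)

theorem mult_unique {p a b n n' : ℕ} (hp : b - a ≤ p) (hn : n ∈ Ioc a b) (hn' : n' ∈ Ioc a b)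
    (h : p ∣ n) (h' : p ∣ n') : n' = n := by
  rw [Finset.mem_Ioc] at hn hn'
  by_contra hne
  rcases lt_or_gt_of_ne hne with h1 | h1
  · have h2 := Nat.dvd_sub h h'
    have h3 := Nat.le_of_dvd (by omega) h2
    omega
  · have h2 := Nat.dvd_sub h' h
    have h3 := Nat.le_of_dvd (by omega) h2
    omega

theorem V_pos_of_dvd {p a b n : ℕ} (hp : p.Prime) (hn : n ∈ Ioc a b) (h : p ∣ n) : 1 ≤ V p a b := by
  unfold V
  have h1 : n.factorization p ≤ ∑ n ∈ Ioc a b, n.factorization p :=
    Finset.single_le_sum (f := fun n => n.factorization p) (fun _ _ => Nat.zero_le _) hn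
  rw [Finset.mem_Ioc] at hn
  have h2 := (hp.dvd_iff_one_le_factorization (by omega : n ≠ 0)).mp h
  omega

theorem V_low_zero {p z : ℕ} (hz : z < p) : V p 0 z = 0 := by
  apply V_eq_zero
  intro n hn hd
  rw [Finset.mem_Ioc] at hn
  have := Nat.le_of_dvd hn.1 hd
  omega

theorem V_half_one {p z : ℕ} (hp : p.Prime) (h1 : z < 2 * p) (h2 : p ≤ z) : V p 0 z = 1 := by
  rw [V_single (n := p) (Finset.mem_Ioc.mpr ⟨hp.pos, h2⟩)]
  · exact hp.factorization_self
  · intro n hn hd
    rw [Finset.mem_Ioc] at hn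
    obtain ⟨c, rfl⟩ := hd
    have hc : c < 2 := by
      by_contra hc
      have : p * 2 ≤ p * c := Nat.mul_le_mul_left _ (by omega)
      omega
    have hc0 : 0 < c := Nat.pos_of_mul_pos_left hn.1
    have : c = 1 := by omega
    rw [this, mul_one]

theorem fac_one {p n : ℕ} (hp : p.Prime) (hn : n ≠ 0) (h : p ∣ n) (h2 : ¬ p ^ 2 ∣ n) :
    n.factorization p = 1 := by
  have h3 := (hp.dvd_iff_one_le_factorization hn).mp h
  have h4 : ¬ 2 ≤ n.factorization p := fun h5 => h2 ((hp.pow_dvd_iff_le_factorization hn).mpr h5)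
  omega

theorem match_J {m w x y z : ℕ} (R : Rep m w x y z) {p n : ℕ} (hp : p.Prime) (hn : n ∈ Ioc w m)
    (hpn : p ∣ n) (hp2 : ¬ p ^ 2 ∣ n) (hH : m - w ≤ p) (hz : z < p) : ∃ n' ∈ Ioc y x, p ∣ n' := by
  have hn0 : n ≠ 0 := by rw [Finset.mem_Ioc] at hn; omega
  have h1 : V p w m = 1 := by
    rw [V_single hn (fun n' hn' hd => mult_unique hH hn hn' hpn hd)]
    exact fac_one hp hn0 hpn hp2
  have h2 := R.par p hp
  rw [h1, V_low_zero hz, add_zero] at h2
  apply exists_of_V_ne
  intro h0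
  rw [h0] at h2
  exact absurd h2 (by decide)

theorem match_I {m w x y z : ℕ} (R : Rep m w x y z) {p n : ℕ} (hp : p.Prime) (hn : n ∈ Ioc y x)
    (hpn : p ∣ n) (hp2 : ¬ p ^ 2 ∣ n) (hH : x - y ≤ p) (hz : z < p) : ∃ n' ∈ Ioc w m, p ∣ n' := by
  have hn0 : n ≠ 0 := by rw [Finset.mem_Ioc] at hn; omega
  have h1 : V p y x = 1 := by
    rw [V_single hn (fun n' hn' hd => mult_unique hH hn hn' hpn hd)]
    exact fac_one hp hn0 hpn hp2
  have h2 := R.par p hp
  rw [h1, V_low_zero hz, add_zero] at h2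
  apply exists_of_V_ne
  intro h0
  rw [h0] at h2
  exact absurd h2 (by decide)

/-- exponents of primes larger than `M` in elements of `J` are even unless `p` divides `I`. -/
theorem even_J {m w x y z : ℕ} (R : Rep m w x y z) {p n : ℕ} (hp : p.Prime) (hn : n ∈ Ioc y x)
    (hI : ∀ n' ∈ Ioc w m, ¬ p ∣ n') (hH : x - y ≤ p) (hz : z < p) : Even (n.factorization p) := by
  by_cases hd : p ∣ n
  · have h1 := V_single hn (fun n' hn' hd' => mult_unique hH hn hn' hd hd')
    have h2 := R.par p hp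
    rwa [V_eq_zero hI, V_low_zero hz, add_zero, zero_add, h1] at h2
  · rw [Nat.factorization_eq_zero_of_not_dvd hd]; exact Even.zero

theorem isSquare_of_even {n : ℕ} (hn : n ≠ 0) (h : ∀ p : ℕ, p.Prime → Even (n.factorization p)) :
    IsSquare n := by
  obtain ⟨a, b, hab, ha⟩ := Nat.sq_mul_squarefree n
  by_cases h1 : a = 1
  · exact ⟨b, by rw [← hab, h1]; ring⟩
  · exfalso
    obtain ⟨q, hq, hqa⟩ := Nat.exists_prime_and_dvd h1
    have hb0 : b ≠ 0 := by rintro rfl; simp at hab; exact hn hab.symm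
    have ha0 : a ≠ 0 := ha.ne_zero
    have h2 := h q hq
    rw [← hab, Nat.factorization_mul (pow_ne_zero 2 hb0) ha0, Finsupp.add_apply,
      Nat.factorization_pow, Finsupp.smul_apply, smul_eq_mul] at h2
    have h3 : a.factorization q = 1 := by
      apply fac_one hq ha0 hqa
      intro h4
      have h5 := ha q (by rwa [sq] at h4)
      exact hq.one_lt.ne' (Nat.isUnit_iff.mp h5)
    rw [h3] at h2
    rw [Nat.even_iff] at h2
    omega

theorem even_of_isSquare {n : ℕ} (h : IsSquare n) (p : ℕ) : Even (n.factorization p) := by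
  obtain ⟨r, rfl⟩ := h
  rcases Nat.eq_zero_or_pos r with rfl | hr
  · simp
  · rw [Nat.factorization_mul hr.ne' hr.ne', Finsupp.add_apply]
    exact ⟨_, rfl⟩

theorem rep_of_hasRep {m j : ℕ} (hj : 2 ≤ j) (hj' : j < 6)
    (h : N140ae710.HasRepresentation m j) : ∃ w x y z, Rep m w x y z := by
  classical
  obtain ⟨s, hcard, hm, hs, hsq⟩ := h
  set T := s.erase m with hT
  have hTc : T.card = j - 1 := by rw [hT, Finset.card_erase_of_mem hm, hcard]
  have hTm : ∀ a ∈ T, 0 < a ∧ a < m := by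
    intro a ha
    rw [hT, Finset.mem_erase] at ha
    have := hs a ha.2
    exact ⟨this.1, lt_of_le_of_ne this.2 ha.1⟩
  have hev : ∀ p : ℕ, Even (m.factorial.factorization p + ∑ a ∈ T, a.factorial.factorization p) := by
    intro p
    have h1 := even_of_isSquare hsq p
    rw [← Finset.mul_prod_erase s _ hm, Nat.factorization_mul (Nat.factorial_ne_zero m)
      (Finset.prod_ne_zero_iff.mpr fun a _ => Nat.factorial_ne_zero a), Finsupp.add_apply,
      Nat.factorization_prod_apply (fun a _ => Nat.factorial_ne_zero a)] at h1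
    exact h1
  have key : ∀ w x y z : ℕ, z ≤ y → y ≤ x → x ≤ w → w < m →
      (∀ p : ℕ, Even (∑ a ∈ T, a.factorial.factorization p + w.factorial.factorization p +
        x.factorial.factorization p + y.factorial.factorization p + z.factorial.factorization p)) →
      Rep m w x y z := by
    intro w x y z h1 h2 h3 h4 h5
    refine ⟨h1, h2, h3, h4, fun p _ => ?_⟩
    have e1 := hev p
    have e2 := h5 p
    have f1 := V_fac p w m h4.le
    have f2 := V_fac p y x h2
    have f3 := V_zero p z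
    rw [Nat.even_iff] at *
    omega
  have hemb : ∀ k : ℕ, (hk : T.card = k) → ∀ f : ℕ → ℕ,
      ∑ a ∈ T, f a = ∑ i : Fin k, f (T.orderEmbOfFin hk i) := by
    intro k hk f
    conv_lhs => rw [← Finset.map_orderEmbOfFin_univ T hk]
    rw [Finset.sum_map]
    rfl
  have hmemT : ∀ k : ℕ, (hk : T.card = k) → ∀ i : Fin k, T.orderEmbOfFin hk i ∈ T :=
    fun k hk i => Finset.orderEmbOfFin_mem T hk i
  have hcases : j = 2 ∨ j = 3 ∨ j = 4 ∨ j = 5 := by omega
  rcases hcases with rfl | rfl | rfl | rfl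
  · -- one other element
    have hk : T.card = 1 := hTc
    refine ⟨T.orderEmbOfFin hk 0, 0, 0, 0, key _ _ _ _ le_rfl le_rfl (Nat.zero_le _)
      (hTm _ (hmemT 1 hk 0)).2 fun p => ?_⟩
    rw [hemb 1 hk (fun a => a.factorial.factorization p), Fin.sum_univ_one]
    simp only [Nat.factorial_zero, Nat.factorization_one, Finsupp.coe_zero, Pi.zero_apply, add_zero]
    exact ⟨_, rfl⟩
  · have hk : T.card = 2 := hTc
    have hlt : T.orderEmbOfFin hk 0 < T.orderEmbOfFin hk 1 := by
      rw [OrderEmbedding.lt_iff_lt]; decide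
    refine ⟨T.orderEmbOfFin hk 1, T.orderEmbOfFin hk 0, T.orderEmbOfFin hk 0, T.orderEmbOfFin hk 0,
      key _ _ _ _ le_rfl le_rfl hlt.le (hTm _ (hmemT 2 hk 1)).2 fun p => ?_⟩
    rw [hemb 2 hk (fun a => a.factorial.factorization p), Fin.sum_univ_two]
    rw [Nat.even_iff]
    omega
  · have hk : T.card = 3 := hTc
    have hlt : T.orderEmbOfFin hk 0 < T.orderEmbOfFin hk 1 := by
      rw [OrderEmbedding.lt_iff_lt]; decide
    have hlt2 : T.orderEmbOfFin hk 1 < T.orderEmbOfFin hk 2 := by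
      rw [OrderEmbedding.lt_iff_lt]; decide
    refine ⟨T.orderEmbOfFin hk 2, T.orderEmbOfFin hk 1, T.orderEmbOfFin hk 0, 0,
      key _ _ _ _ (Nat.zero_le _) hlt.le hlt2.le (hTm _ (hmemT 3 hk 2)).2 fun p => ?_⟩
    rw [hemb 3 hk (fun a => a.factorial.factorization p), Fin.sum_univ_three]
    simp only [Nat.factorial_zero, Nat.factorization_one, Finsupp.coe_zero, Pi.zero_apply, add_zero]
    rw [Nat.even_iff]
    omega
  · have hk : T.card = 4 := hTc
    have hlt : T.orderEmbOfFin hk 0 < T.orderEmbOfFin hk 1 := by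
      rw [OrderEmbedding.lt_iff_lt]; decide
    have hlt2 : T.orderEmbOfFin hk 1 < T.orderEmbOfFin hk 2 := by
      rw [OrderEmbedding.lt_iff_lt]; decide
    have hlt3 : T.orderEmbOfFin hk 2 < T.orderEmbOfFin hk 3 := by
      rw [OrderEmbedding.lt_iff_lt]; decide
    refine ⟨T.orderEmbOfFin hk 3, T.orderEmbOfFin hk 2, T.orderEmbOfFin hk 1, T.orderEmbOfFin hk 0,
      key _ _ _ _ hlt.le hlt2.le hlt3.le (hTm _ (hmemT 4 hk 3)).2 fun p => ?_⟩
    rw [hemb 4 hk (fun a => a.factorial.factorization p), Fin.sum_univ_four]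
    rw [Nat.even_iff]
    omega

/-- The Erdős–Graham six-factor identity. -/
theorem hasRep_six {a b : ℕ} (ha : 2 ≤ a) (hab : a + 2 ≤ b) :
    N140ae710.HasRepresentation (a * b) 6 := by
  classical
  have h1 : a * 2 ≤ a * b := Nat.mul_le_mul_left _ (by omega)
  have h2 : 2 * b ≤ a * b := Nat.mul_le_mul_right _ ha
  have hne : ∀ c : ℕ, c ∈ ({a * b - 1, a, a - 1, b, b - 1} : Finset ℕ) → c < a * b := by
    intro c hc
    simp only [Finset.mem_insert, Finset.mem_singleton] at hc
    omega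
  refine ⟨{a * b, a * b - 1, a, a - 1, b, b - 1}, ?_, by simp, ?_, ?_⟩
  · rw [Finset.card_insert_of_notMem, Finset.card_insert_of_notMem, Finset.card_insert_of_notMem,
      Finset.card_insert_of_notMem, Finset.card_insert_of_notMem, Finset.card_singleton]
    all_goals simp only [Finset.mem_insert, Finset.mem_singleton]
    all_goals omega
  · intro c hc
    simp only [Finset.mem_insert, Finset.mem_singleton] at hc
    omega
  · rw [Finset.prod_insert, Finset.prod_insert, Finset.prod_insert, Finset.prod_insert,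
      Finset.prod_insert, Finset.prod_singleton]
    · refine ⟨a * b * (a * b - 1).factorial * (a - 1).factorial * (b - 1).factorial, ?_⟩
      have e1 : (a * b).factorial = a * b * (a * b - 1).factorial :=
        (Nat.mul_factorial_pred (by omega)).symm
      have e2 : a.factorial = a * (a - 1).factorial := (Nat.mul_factorial_pred (by omega)).symm
      have e3 : b.factorial = b * (b - 1).factorial := (Nat.mul_factorial_pred (by omega)).symm
      rw [e1, e2, e3]
      ring
    all_goals simp only [Finset.mem_insert, Finset.mem_singleton]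
    all_goals omega

/-- Σ over primes of `S` dividing `n` of `log p` is at most `log n`. -/
theorem sum_log_dvd (S : Finset ℕ) (hS : ∀ p ∈ S, p.Prime) (n : ℕ) (hn : 0 < n) :
    ∑ p ∈ S.filter (fun p => p ∣ n), Real.log p ≤ Real.log n := by
  have h1 : ∏ p ∈ S.filter (fun p => p ∣ n), p ∣ n := by
    apply Finset.prod_primes_dvd
    · intro p hp; exact (hS p (Finset.mem_filter.mp hp).1).prime
    · intro p hp; exact (Finset.mem_filter.mp hp).2
  have h2 := Nat.le_of_dvd hn h1
  have h3 : ∑ p ∈ S.filter (fun p => p ∣ n), Real.log p =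
      Real.log ((∏ p ∈ S.filter (fun p => p ∣ n), p : ℕ) : ℝ) := by
    push_cast
    rw [Real.log_prod]
    intro p hp
    have := (hS p (Finset.mem_filter.mp hp).1).pos
    positivity
  rw [h3]
  apply Real.log_le_log
  · have : 0 < ∏ p ∈ S.filter (fun p => p ∣ n), p :=
      Finset.prod_pos fun p hp => (hS p (Finset.mem_filter.mp hp).1).pos
    exact_mod_cast this
  · exact_mod_cast h2

theorem card_dvd_le (S : Finset ℕ) (t : ℝ) (ht : 1 < t) (hS : ∀ p ∈ S, p.Prime ∧ t ≤ p) (n N : ℕ)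
    (hn : 0 < n) (hN : n ≤ N) :
    ((S.filter (fun p => p ∣ n)).card : ℝ) ≤ Real.log N / Real.log t := by
  have h1 := sum_log_dvd S (fun p hp => (hS p hp).1) n hn
  have hlt : 0 < Real.log t := Real.log_pos ht
  rw [le_div_iff₀ hlt]
  have h2 : ((S.filter (fun p => p ∣ n)).card : ℝ) * Real.log t ≤
      ∑ p ∈ S.filter (fun p => p ∣ n), Real.log p := by
    rw [← nsmul_eq_mul]
    apply Finset.card_nsmul_le_sum
    intro p hp
    exact Real.log_le_log (by linarith) (hS p (Finset.mem_filter.mp hp).1).2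
  have h3 : Real.log n ≤ Real.log N := Real.log_le_log (by exact_mod_cast hn) (by exact_mod_cast hN)
  linarith

/-- number of primes of `S` dividing some element of the interval -/
theorem card_dvd_interval (S : Finset ℕ) (t : ℝ) (ht : 1 < t) (hS : ∀ p ∈ S, p.Prime ∧ t ≤ p)
    (a b N : ℕ) (hab : a ≤ b) (hN : b ≤ N) :
    ((S.filter (fun p => ∃ n ∈ Ioc a b, p ∣ n)).card : ℝ) ≤
      ((b : ℝ) - a) * (Real.log N / Real.log t) := by
  classical
  have h1 : S.filter (fun p => ∃ n ∈ Ioc a b, p ∣ n) ⊆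
      (Ioc a b).biUnion (fun n => S.filter (fun p => p ∣ n)) := by
    intro p hp
    rw [Finset.mem_filter] at hp
    obtain ⟨h1, n, hn, hd⟩ := hp
    rw [Finset.mem_biUnion]
    exact ⟨n, hn, Finset.mem_filter.mpr ⟨h1, hd⟩⟩
  have h2 : ((S.filter (fun p => ∃ n ∈ Ioc a b, p ∣ n)).card : ℝ) ≤
      ∑ n ∈ Ioc a b, ((S.filter (fun p => p ∣ n)).card : ℝ) := by
    have := (Finset.card_le_card h1).trans Finset.card_biUnion_le
    exact_mod_cast this
  refine h2.trans ?_
  have h3 : ∀ n ∈ Ioc a b, ((S.filter (fun p => p ∣ n)).card : ℝ) ≤ Real.log N / Real.log t := by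
    intro n hn
    rw [Finset.mem_Ioc] at hn
    exact card_dvd_le S t ht hS n N (by omega) (by omega)
  refine (Finset.sum_le_sum h3).trans ?_
  rw [Finset.sum_const, Nat.card_Ioc, nsmul_eq_mul, Nat.cast_sub hab]

/-- Primes in `(z/2, z]` divide `I` or `J`. -/
theorem half_dvd {m w x y z : ℕ} (R : Rep m w x y z) {p : ℕ} (hp : p ∈ pr (z / 2) z) :
    (∃ n ∈ Ioc w m, p ∣ n) ∨ (∃ n ∈ Ioc y x, p ∣ n) := by
  rw [mem_pr] at hp
  have h1 := V_half_one hp.2 (by omega) hp.1.2
  have h2 := R.par p hp.2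
  rw [h1] at h2
  by_contra hc
  push Not at hc
  rw [V_eq_zero (fun n hn => hc.1 n hn), V_eq_zero (fun n hn => hc.2 n hn)] at h2
  exact absurd h2 (by decide)

/-- Step (1). -/
theorem z_bound : ∃ C : ℝ, 0 < C ∧ ∀ m w x y z N : ℕ, Rep m w x y z → m ≤ N → 2 ≤ N →
    (z : ℝ) ≤ C * (((m : ℝ) - w) + ((x : ℝ) - y)) * Real.log N := by
  obtain ⟨x₀, h0, h⟩ := primes_half
  refine ⟨(max x₀ 4 : ℕ) * 2 + 8, by positivity, fun m w x y z N R hmN hN => ?_⟩
  have hT1 : (1 : ℝ) ≤ ((m : ℝ) - w) + ((x : ℝ) - y) := by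
    have h1 : (w : ℝ) + 1 ≤ m := by exact_mod_cast R.hwm
    have h2 : (y : ℝ) ≤ x := by exact_mod_cast R.hyx
    linarith
  set T := ((m : ℝ) - w) + ((x : ℝ) - y) with hT
  have hlogN : Real.log 2 ≤ Real.log N := Real.log_le_log (by norm_num) (by exact_mod_cast hN)
  have hl2 : (1 / 2 : ℝ) ≤ Real.log 2 := by have := Real.log_two_gt_d9; linarith
  have hTL : 1 / 2 ≤ T * Real.log N := by nlinarith
  rcases lt_or_ge z (max x₀ 4) with hz | hz
  · have h1 : (z : ℝ) ≤ (max x₀ 4 : ℕ) := by exact_mod_cast hz.le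
    have h2 : ((max x₀ 4 : ℕ) : ℝ) ≤ ((max x₀ 4 : ℕ) * 2) * (T * Real.log N) := by
      have : (0 : ℝ) ≤ (max x₀ 4 : ℕ) := Nat.cast_nonneg _
      nlinarith
    have h3 : ((((max x₀ 4 : ℕ) : ℝ) * 2 + 8) * T) * Real.log N =
      (((max x₀ 4 : ℕ) : ℝ) * 2) * (T * Real.log N) + 8 * (T * Real.log N) := by ring
    rw [h3]
    linarith
  · have hz4 : 4 ≤ z := (le_max_right _ _).trans hz
    have hzx : x₀ ≤ z := (le_max_left _ _).trans hz
    have h1 := h z hzx
    have hz0 : (4 : ℝ) ≤ z := by exact_mod_cast hz4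
    set t : ℝ := z / 2 with ht
    have ht1 : 1 < t := by rw [ht]; linarith
    have hS : ∀ p ∈ pr (z / 2) z, p.Prime ∧ t ≤ p := by
      intro p hp
      rw [mem_pr] at hp
      refine ⟨hp.2, ?_⟩
      have : z ≤ 2 * p := by omega
      have : (z : ℝ) ≤ 2 * p := by exact_mod_cast this
      rw [ht]; linarith
    have c1 := card_dvd_interval (pr (z / 2) z) t ht1 hS w m N R.hwm.le hmN
    have c2 := card_dvd_interval (pr (z / 2) z) t ht1 hS y x N R.hyx
      ((R.hxw.trans R.hwm.le).trans hmN)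
    have hsub : pr (z / 2) z ⊆ (pr (z / 2) z).filter (fun p => ∃ n ∈ Ioc w m, p ∣ n) ∪
        (pr (z / 2) z).filter (fun p => ∃ n ∈ Ioc y x, p ∣ n) := by
      intro p hp
      rw [Finset.mem_union, Finset.mem_filter, Finset.mem_filter]
      rcases half_dvd R hp with h2 | h2
      · exact Or.inl ⟨hp, h2⟩
      · exact Or.inr ⟨hp, h2⟩
    have c3 : ((pr (z / 2) z).card : ℝ) ≤ T * (Real.log N / Real.log t) := by
      have := (Finset.card_le_card hsub).trans (Finset.card_union_le _ _)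
      have h' : ((pr (z / 2) z).card : ℝ) ≤
        (((pr (z / 2) z).filter (fun p => ∃ n ∈ Ioc w m, p ∣ n)).card : ℝ) +
        (((pr (z / 2) z).filter (fun p => ∃ n ∈ Ioc y x, p ∣ n)).card : ℝ) := by exact_mod_cast this
      rw [hT, add_mul]; linarith
    have hlt : 0 < Real.log t := Real.log_pos ht1
    have hlz : 0 < Real.log z := Real.log_pos (by linarith)
    have hlzt : Real.log z ≤ 2 * Real.log t := by
      have : Real.log z ≤ Real.log (t ^ 2) := by
        apply Real.log_le_log (by linarith)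
        rw [ht]; nlinarith
      rwa [Real.log_pow] at this
    have h2 : (1 / 4) * ((z : ℝ) / Real.log z) ≤ T * (Real.log N / Real.log t) := h1.trans c3
    have h3 : (z : ℝ) ≤ 4 * (T * (Real.log N / Real.log t)) * Real.log z := by
      have hh : 4 * (1 / 4 * ((z : ℝ) / Real.log z)) ≤ 4 * (T * (Real.log N / Real.log t)) := by linarith
      calc (z : ℝ) = 4 * ((1 / 4) * ((z : ℝ) / Real.log z)) * Real.log z := by field_simp
        _ ≤ _ := mul_le_mul_of_nonneg_right hh hlz.le
    have h4 : 4 * (T * (Real.log N / Real.log t)) * Real.log z ≤ 8 * (T * Real.log N) := by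
      have h5 : 4 * (T * (Real.log N / Real.log t)) * Real.log z ≤
          4 * (T * (Real.log N / Real.log t)) * (2 * Real.log t) := by
        apply mul_le_mul_of_nonneg_left hlzt
        have : 0 ≤ Real.log N := by linarith
        positivity
      refine h5.trans (le_of_eq ?_)
      field_simp
      ring
    have h5 : ((((max x₀ 4 : ℕ) : ℝ) * 2 + 8) * T) * Real.log N =
      (((max x₀ 4 : ℕ) : ℝ) * 2) * (T * Real.log N) + 8 * (T * Real.log N) := by ring
    rw [h5]
    have h6 : 0 ≤ (((max x₀ 4 : ℕ) : ℝ) * 2) * (T * Real.log N) := by positivity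
    linarith

end Pool.Agent.Helper27.D6
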