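import Mathlib

open Matrix

namespace Pool.Agent.Helper27.Boomerang

variable {n : ℕ}

/-- The weak recurrence property of a subgroup. -/
def WR {G : Type*} [Group G] (Δ : Subgroup G) : Prop :=
  ∀ δ ∈ Δ, ∀ g : G, ∃ k : ℕ, 1 ≤ k ∧ (g ^ k)⁻¹ * δ * g ^ k ∈ Δ

/-- the underlying matrix -/
def mt : SpecialLinearGroup (Fin n) ℚ →* Matrix (Fin n) (Fin n) ℚ where
  toFun x := (x : Matrix (Fin n) (Fin n) ℚ)
  map_one' := rfl
  map_mul' _ _ := rfl

lemma mt_inj {x y : SpecialLinearGroup (Fin n) ℚ} (h : mt x = mt y) : x = y := Subtype.ext h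

/-- `1 + a fᵀ` is (the matrix of) an element of `Δ`. -/
def P (Δ : Subgroup (SpecialLinearGroup (Fin n) ℚ)) (a f : Fin n → ℚ) : Prop :=
  ∃ x ∈ Δ, mt x = 1 + vecMulVec a f

lemma det_tv (a f : Fin n → ℚ) (h : f ⬝ᵥ a = 0) : (1 + vecMulVec a f).det = 1 := by
  rw [vecMulVec_eq Unit, det_one_add_mul_comm]
  have : replicateRow Unit f * replicateCol Unit a = 0 := by
    ext i j
    simpa [Matrix.mul_apply, dotProduct] using h
  rw [this]; simp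

/-- transvection -/
def tv (a f : Fin n → ℚ) (h : f ⬝ᵥ a = 0) : SpecialLinearGroup (Fin n) ℚ :=
  ⟨1 + vecMulVec a f, det_tv a f h⟩

lemma mt_tv (a f : Fin n → ℚ) (h : f ⬝ᵥ a = 0) : mt (tv a f h) = 1 + vecMulVec a f := rfl

lemma vv (a f b g : Fin n → ℚ) : vecMulVec a f * vecMulVec b g = (f ⬝ᵥ b) • vecMulVec a g := by
  rw [vecMulVec_mul_vecMulVec]
  ext i j
  simp [vecMulVec_apply]
  ring

lemma tv_pow (a f : Fin n → ℚ) (h : f ⬝ᵥ a = 0) (k : ℕ) :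
    ((tv a f h) ^ k : SpecialLinearGroup (Fin n) ℚ) = tv ((k : ℚ) • a) f (by simp [h]) := by
  induction k with
  | zero => apply mt_inj; simp [mt_tv]
  | succ k ih =>
    rw [pow_succ, ih]
    apply mt_inj
    simp only [mt_tv, map_mul, mul_add, add_mul, one_mul, mul_one, vv,
      smul_vecMulVec, smul_mul_assoc, h]
    push_cast
    module

lemma tv_inv (a f : Fin n → ℚ) (h : f ⬝ᵥ a = 0) :
    (tv a f h)⁻¹ = tv (-a) f (by simp [h]) := by
  apply inv_eq_of_mul_eq_one_left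
  apply mt_inj
  simp [mt_tv, mul_add, add_mul, vv, h, neg_vecMulVec]

lemma P_iff {Δ : Subgroup (SpecialLinearGroup (Fin n) ℚ)} {a f : Fin n → ℚ} (h : f ⬝ᵥ a = 0) :
    P Δ a f ↔ tv a f h ∈ Δ := by
  constructor
  · rintro ⟨x, hx, hx'⟩
    have : x = tv a f h := Subtype.ext hx'
    rwa [← this]
  · intro hx
    exact ⟨_, hx, rfl⟩

variable {Δ : Subgroup (SpecialLinearGroup (Fin n) ℚ)}

lemma P_congr {a f b g : Fin n → ℚ} (h : P Δ a f) (e : vecMulVec a f = vecMulVec b g) :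
    P Δ b g := by
  obtain ⟨x, hx, hx'⟩ := h
  exact ⟨x, hx, by rw [hx', e]⟩

lemma P_zero (f : Fin n → ℚ) : P Δ 0 f := ⟨1, one_mem _, by simp⟩

lemma P_zero' (a : Fin n → ℚ) : P Δ a 0 := ⟨1, one_mem _, by simp⟩

lemma P_add {a b f : Fin n → ℚ} (h1 : P Δ a f) (h2 : P Δ b f) (hb : f ⬝ᵥ b = 0) :
    P Δ (a + b) f := by
  obtain ⟨x, hx, hx'⟩ := h1
  obtain ⟨y, hy, hy'⟩ := h2
  refine ⟨x * y, mul_mem hx hy, ?_⟩
  simp only [map_mul, hx', hy', mul_add, add_mul, one_mul, mul_one, vv, hb,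
    add_vecMulVec]
  module

lemma P_neg {a f : Fin n → ℚ} (h1 : P Δ a f) (hb : f ⬝ᵥ a = 0) :
    P Δ (-a) f := by
  rw [P_iff hb] at h1
  rw [P_iff (by simp [hb]), ← tv_inv a f hb]
  exact inv_mem h1

lemma P_add' {a f g : Fin n → ℚ} (h1 : P Δ a f) (h2 : P Δ a g) (hb : f ⬝ᵥ a = 0) :
    P Δ a (f + g) := by
  obtain ⟨x, hx, hx'⟩ := h1
  obtain ⟨y, hy, hy'⟩ := h2
  refine ⟨x * y, mul_mem hx hy, ?_⟩
  simp only [map_mul, hx', hy', mul_add, add_mul, one_mul, mul_one, vv, hb,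
    vecMulVec_add]
  module

lemma P_nsmul {a f : Fin n → ℚ} (h1 : P Δ a f) (hb : f ⬝ᵥ a = 0) (k : ℕ) :
    P Δ ((k : ℚ) • a) f := by
  rw [P_iff hb] at h1
  rw [P_iff (by simp [hb]), ← tv_pow a f hb]
  exact pow_mem h1 k

lemma P_zsmul {a f : Fin n → ℚ} (h1 : P Δ a f) (hb : f ⬝ᵥ a = 0) (k : ℤ) :
    P Δ ((k : ℚ) • a) f := by
  obtain ⟨m, rfl | rfl⟩ := k.eq_nat_or_neg
  · simpa using P_nsmul h1 hb m
  · have := P_neg (P_nsmul h1 hb m) (by simp [hb])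
    simpa using this

/-- conjugation -/
lemma P_conj (hΔ : WR Δ) {a f : Fin n → ℚ} (h : P Δ a f) (g : SpecialLinearGroup (Fin n) ℚ) :
    ∃ k : ℕ, 1 ≤ k ∧ P Δ (mt (g ^ k)⁻¹ *ᵥ a) (f ᵥ* mt (g ^ k)) := by
  obtain ⟨x, hx, hx'⟩ := h
  obtain ⟨k, hk, hk'⟩ := hΔ x hx g
  refine ⟨k, hk, _, hk', ?_⟩
  have e : mt (g ^ k)⁻¹ * mt (g ^ k) = 1 := by
    rw [← map_mul]; simp
  rw [map_mul, map_mul, hx', mul_add, add_mul, mul_one, e,
    mul_vecMulVec, vecMulVec_mul]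

lemma exists_dot_one {f : Fin n → ℚ} (hf : f ≠ 0) : ∃ w, f ⬝ᵥ w = 1 := by
  obtain ⟨i, hi⟩ := Function.ne_iff.1 hf
  refine ⟨Pi.single i (f i)⁻¹, ?_⟩
  rw [dotProduct_single]
  exact mul_inv_cancel₀ hi

/-- the dilation -/
lemma exists_dil {a f : Fin n → ℚ} (ha : a ≠ 0) (hf : f ≠ 0) (hfa : f ⬝ᵥ a = 0) (p : ℚ)
    (hp : p ≠ 0) : ∃ g : SpecialLinearGroup (Fin n) ℚ, mt g *ᵥ a = p • a ∧ f ᵥ* mt g = p⁻¹ • f := by
  obtain ⟨w0, hw0⟩ := exists_dot_one hf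
  obtain ⟨φ, hφ'⟩ := exists_dot_one ha
  have hφ : φ ⬝ᵥ a = 1 := by rw [dotProduct_comm]; exact hφ'
  set w := w0 - (φ ⬝ᵥ w0) • a with hw
  have h1 : f ⬝ᵥ w = 1 := by simp [hw, hw0, hfa]
  have h2 : φ ⬝ᵥ w = 0 := by simp [hw, hφ]
  have hdet : ((1 + vecMulVec ((p - 1) • a) φ) * (1 + vecMulVec ((p⁻¹ - 1) • w) f)).det = 1 := by
    rw [det_mul]
    have key : ∀ (u v : Fin n → ℚ), (1 + vecMulVec u v).det = 1 + v ⬝ᵥ u := by
      intro u v
      rw [vecMulVec_eq Unit, det_one_add_mul_comm]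
      simp [Matrix.det_unique, Matrix.mul_apply, dotProduct]
    rw [key, key]
    simp only [dotProduct_smul, hφ, h1, smul_eq_mul, mul_one]
    field_simp
    ring
  refine ⟨⟨_, hdet⟩, ?_, ?_⟩
  · change ((1 + vecMulVec ((p - 1) • a) φ) * (1 + vecMulVec ((p⁻¹ - 1) • w) f)) *ᵥ a = _
    rw [← mulVec_mulVec]
    have e1 : (1 + vecMulVec ((p⁻¹ - 1) • w) f) *ᵥ a = a := by
      rw [add_mulVec, one_mulVec, vecMulVec_mulVec, hfa]; simp
    rw [e1, add_mulVec, one_mulVec, vecMulVec_mulVec, hφ]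
    simp only [MulOpposite.op_one, one_smul]
    module
  · change f ᵥ* ((1 + vecMulVec ((p - 1) • a) φ) * (1 + vecMulVec ((p⁻¹ - 1) • w) f)) = _
    rw [← vecMul_vecMul]
    have e1 : f ᵥ* (1 + vecMulVec ((p - 1) • a) φ) = f := by
      rw [vecMul_add, vecMul_one, vecMul_vecMulVec]
      simp [hfa]
    rw [e1, vecMul_add, vecMul_one, vecMul_vecMulVec]
    simp only [dotProduct_smul, h1, smul_eq_mul, mul_one]
    module

/-- Step 3 -/
lemma P_all (hΔ : WR Δ) {a f : Fin n → ℚ} (hfa : f ⬝ᵥ a = 0) (ha : a ≠ 0) (hf : f ≠ 0)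
    (h : P Δ a f) (x : ℚ) : P Δ (x • a) f := by
  -- division by naturals
  have hdiv : ∀ y : ℚ, P Δ (y • a) f → ∀ p : ℕ, p ≠ 0 → P Δ ((y / p) • a) f := by
    intro y hy p hp
    have hpq : (p : ℚ) ≠ 0 := by exact_mod_cast hp
    obtain ⟨g, hg1, hg2⟩ := exists_dil ha hf hfa (p : ℚ) hpq
    obtain ⟨k, hk, hk'⟩ := P_conj hΔ hy g
    have e1 : ∀ k : ℕ, mt (g ^ k) *ᵥ a = ((p : ℚ) ^ k) • a := by
      intro k
      induction k with
      | zero => simp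
      | succ k ih =>
        rw [pow_succ, map_mul, ← mulVec_mulVec, hg1, mulVec_smul, ih]
        rw [smul_smul]; congr 1; ring
    have e2 : ∀ k : ℕ, f ᵥ* mt (g ^ k) = ((p : ℚ)⁻¹ ^ k) • f := by
      intro k
      induction k with
      | zero => simp
      | succ k ih =>
        rw [pow_succ, map_mul, ← vecMul_vecMul, ih, smul_vecMul, hg2]
        rw [smul_smul, pow_succ]
    have e3 : mt (g ^ k)⁻¹ *ᵥ a = ((p : ℚ)⁻¹ ^ k) • a := by
      have e : mt (g ^ k)⁻¹ * mt (g ^ k) = 1 := by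
        rw [← map_mul]; simp
      have : mt (g ^ k)⁻¹ *ᵥ (mt (g ^ k) *ᵥ a) = a := by
        rw [mulVec_mulVec, e, one_mulVec]
      rw [e1, mulVec_smul] at this
      have h3 : ((p : ℚ)⁻¹ ^ k) • (((p : ℚ) ^ k) •
          (mt (g ^ k)⁻¹ *ᵥ a)) = ((p : ℚ)⁻¹ ^ k) • a := by
        rw [this]
      rw [smul_smul, ← mul_pow, inv_mul_cancel₀ hpq, one_pow, one_smul] at h3
      exact h3
    rw [mulVec_smul, e3, e2] at hk'
    have h4 : P Δ ((y * (p : ℚ)⁻¹ ^ k * (p : ℚ)⁻¹ ^ k) • a) f := by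
      refine P_congr hk' ?_
      ext i j
      simp [vecMulVec_apply]
      ring
    have h5 := P_nsmul h4 (by simp [hfa]) (p ^ (2 * k - 1))
    refine P_congr h5 ?_
    congr 1
    rw [smul_smul]
    congr 1
    push_cast
    obtain ⟨m, rfl⟩ : ∃ m, k = m + 1 := ⟨k - 1, by omega⟩
    have : 2 * (m + 1) - 1 = 2 * m + 1 := by omega
    rw [this]
    simp only [inv_pow]
    have hpm : (p : ℚ) ^ (m + 1) ≠ 0 := pow_ne_zero _ hpq
    field_simp
    ring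
  have h1 := hdiv 1 (by simpa using h) x.den x.den_ne_zero
  have h2 := P_zsmul h1 (by simp [hfa]) x.num
  refine P_congr h2 ?_
  congr 1
  rw [smul_smul]
  congr 1
  rw [one_div, ← div_eq_mul_inv]
  exact Rat.num_div_den x

lemma exists_dual_vec {a w : Fin n → ℚ} (h : a ∉ Submodule.span ℚ {w}) :
    ∃ ψ : Fin n → ℚ, ψ ⬝ᵥ w = 0 ∧ ψ ⬝ᵥ a ≠ 0 := by
  obtain ⟨F, hF, hF'⟩ := Submodule.exists_le_ker_of_notMem h
  have key : ∀ x : Fin n → ℚ, (fun i => F (Pi.single i 1)) ⬝ᵥ x = F x := by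
    intro x
    conv_rhs => rw [LinearMap.pi_apply_eq_sum_univ F x]
    simp only [dotProduct, smul_eq_mul]
    refine Finset.sum_congr rfl fun i _ => ?_
    rw [mul_comm]
    congr 2
    ext j
    simp [Pi.single_apply, eq_comm]
  refine ⟨fun i => F (Pi.single i 1), ?_, ?_⟩
  · rw [key]
    exact hF' (Submodule.mem_span_singleton_self w)
  · rw [key]; exact hF

/-- Step 4a -/
lemma P_left (hΔ : WR Δ) {a f : Fin n → ℚ} (hfa : f ⬝ᵥ a = 0) (ha : a ≠ 0) (hf : f ≠ 0)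
    (h : P Δ a f) (w : Fin n → ℚ) (hw : f ⬝ᵥ w = 0) : P Δ w f := by
  by_cases hw0 : w = 0
  · subst hw0; exact P_zero f
  by_cases hs : a ∈ Submodule.span ℚ {w}
  · obtain ⟨c, rfl⟩ := Submodule.mem_span_singleton.1 hs
    have hc : c ≠ 0 := by rintro rfl; simp at ha
    have := P_all hΔ hfa ha hf h c⁻¹
    rwa [smul_smul, inv_mul_cancel₀ hc, one_smul] at this
  · obtain ⟨ψ, hψ1, hψ2⟩ := exists_dual_vec hs
    obtain ⟨k, hk, hk'⟩ := P_conj hΔ h (tv w ψ hψ1)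
    rw [tv_pow, tv_inv] at hk'
    have e1 : mt (tv (-((k : ℚ) • w)) ψ (by simp [hψ1])) *ᵥ a
        = a + (-((k : ℚ) * (ψ ⬝ᵥ a))) • w := by
      simp only [mt_tv]
      rw [add_mulVec, one_mulVec, vecMulVec_mulVec]
      ext i
      simp
      ring
    have e2 : f ᵥ* mt (tv ((k : ℚ) • w) ψ (by simp [hψ1])) = f := by
      simp only [mt_tv]
      rw [vecMul_add, vecMul_one, vecMul_vecMulVec]
      simp [hw]
    rw [e1, e2] at hk'
    have h3 := P_add hk' (P_neg h hfa) (by simp [hfa])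
    have h4 : P Δ ((-((k : ℚ) * (ψ ⬝ᵥ a))) • w) f := by
      refine P_congr h3 ?_
      congr 1
      module
    have hc : (-((k : ℚ) * (ψ ⬝ᵥ a))) ≠ 0 := by
      have : (k : ℚ) ≠ 0 := by
        have : k ≠ 0 := by omega
        exact_mod_cast this
      exact neg_ne_zero.2 (mul_ne_zero this hψ2)
    have h5 := P_all hΔ (by simp [hw]) (smul_ne_zero hc hw0) hf h4 (-((k : ℚ) * (ψ ⬝ᵥ a)))⁻¹
    rwa [smul_smul, inv_mul_cancel₀ hc, one_smul] at h5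

/-- Step 4b -/
lemma P_right (hΔ : WR Δ) {a f : Fin n → ℚ} (hfa : f ⬝ᵥ a = 0) (ha : a ≠ 0) (hf : f ≠ 0)
    (h : P Δ a f) (g : Fin n → ℚ) (hg : g ⬝ᵥ a = 0) : P Δ a g := by
  by_cases hg0 : g = 0
  · subst hg0; exact P_zero' a
  by_cases hs : f ∈ Submodule.span ℚ {g}
  · obtain ⟨c, rfl⟩ := Submodule.mem_span_singleton.1 hs
    have hc : c ≠ 0 := by rintro rfl; simp at hf
    have := P_all hΔ hfa ha hf h c⁻¹
    refine P_congr this ?_
    ext i j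
    simp [vecMulVec_apply]
    field_simp
  · obtain ⟨w, hw1, hw2⟩ := exists_dual_vec hs
    -- `τ = 1 + w gᵀ`, with `g w = 0`, `f w ≠ 0`
    have hgw : g ⬝ᵥ w = 0 := by rw [dotProduct_comm]; exact hw1
    have hfw : f ⬝ᵥ w ≠ 0 := by rw [dotProduct_comm]; exact hw2
    obtain ⟨k, hk, hk'⟩ := P_conj hΔ h (tv w g hgw)
    rw [tv_pow, tv_inv] at hk'
    have e1 : mt (tv (-((k : ℚ) • w)) g (by simp [hgw])) *ᵥ a = a := by
      simp only [mt_tv]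
      rw [add_mulVec, one_mulVec, vecMulVec_mulVec]
      simp [hg]
    have e2 : f ᵥ* mt (tv ((k : ℚ) • w) g (by simp [hgw])) = f + ((k : ℚ) * (f ⬝ᵥ w)) • g := by
      simp only [mt_tv]
      rw [vecMul_add, vecMul_one, vecMul_vecMulVec]
      simp
    rw [e1, e2] at hk'
    have h2 : P Δ a (-f) := by
      refine P_congr (P_neg h hfa) ?_
      ext i j; simp [vecMulVec_apply]
    have h3 := P_add' hk' h2 (by simp [hfa, hg])
    have h4 : P Δ a (((k : ℚ) * (f ⬝ᵥ w)) • g) := by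
      refine P_congr h3 ?_
      congr 1
      module
    have hc : ((k : ℚ) * (f ⬝ᵥ w)) ≠ 0 := by
      have : (k : ℚ) ≠ 0 := by
        have : k ≠ 0 := by omega
        exact_mod_cast this
      exact mul_ne_zero this hfw
    have h5 := P_all hΔ (by simp [hg]) ha (smul_ne_zero hc hg0) h4 ((k : ℚ) * (f ⬝ᵥ w))⁻¹
    refine P_congr h5 ?_
    ext i j
    simp only [vecMulVec_apply, Pi.smul_apply, smul_eq_mul]
    field_simp

/-- a common annihilator of three vectors when `n ≥ 4` -/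
lemma exists_ann3 (hn : 4 ≤ n) (u v w : Fin n → ℚ) :
    ∃ f : Fin n → ℚ, f ≠ 0 ∧ f ⬝ᵥ u = 0 ∧ f ⬝ᵥ v = 0 ∧ f ⬝ᵥ w = 0 := by
  let M : Matrix (Fin 3) (Fin n) ℚ := ![u, v, w]
  have hlt : Module.finrank ℚ (Fin 3 → ℚ) < Module.finrank ℚ (Fin n → ℚ) := by
    simp; omega
  have hker := LinearMap.ker_ne_bot_of_finrank_lt (f := M.mulVecLin) hlt
  obtain ⟨f, hf, hf0⟩ := Submodule.exists_mem_ne_zero_of_ne_bot hker
  refine ⟨f, hf0, ?_, ?_, ?_⟩
  · rw [dotProduct_comm]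
    exact congrFun (LinearMap.mem_ker.1 hf) 0
  · rw [dotProduct_comm]
    exact congrFun (LinearMap.mem_ker.1 hf) 1
  · rw [dotProduct_comm]
    exact congrFun (LinearMap.mem_ker.1 hf) 2

/-- all transvections -/
lemma P_forall (hn : 4 ≤ n) (hΔ : WR Δ) {a f : Fin n → ℚ} (hfa : f ⬝ᵥ a = 0) (ha : a ≠ 0)
    (hf : f ≠ 0) (h : P Δ a f) (b g : Fin n → ℚ) (hgb : g ⬝ᵥ b = 0) : P Δ b g := by
  by_cases hb : b = 0
  · subst hb; exact P_zero g
  obtain ⟨φ, hφ, h1, h2, -⟩ := exists_ann3 hn a b 0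
  have s1 := P_right hΔ hfa ha hf h φ h1
  have s2 := P_left hΔ h1 ha hφ s1 b h2
  exact P_right hΔ h2 hb hφ s2 g hgb

end Pool.Agent.Helper27.Boomerang
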