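import Pool.Agent.Helper27.BoomA

open Matrix

namespace Pool.Agent.Helper27.Boomerang

variable {n : ℕ} {Δ : Subgroup (SpecialLinearGroup (Fin n) ℚ)}

lemma mt_inv_mul (x : SpecialLinearGroup (Fin n) ℚ) : mt x⁻¹ * mt x = 1 := by
  rw [← map_mul]; simp

lemma mt_mul_inv (x : SpecialLinearGroup (Fin n) ℚ) : mt x * mt x⁻¹ = 1 := by
  rw [← map_mul]; simp

/-- a common annihilator of a range of rank `≤ 2` and a vector. -/
lemma step2 (hn : 4 ≤ n) (hΔ : WR Δ) {u : SpecialLinearGroup (Fin n) ℚ} (hu : u ∈ Δ)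
    (a b f g : Fin n → ℚ) (huN : mt u = 1 + (vecMulVec a f + vecMulVec b g))
    (hN2 : (vecMulVec a f + vecMulVec b g) * (vecMulVec a f + vecMulVec b g) = 0)
    (hN : vecMulVec a f + vecMulVec b g ≠ 0) :
    ∃ a' f' : Fin n → ℚ, f' ⬝ᵥ a' = 0 ∧ a' ≠ 0 ∧ f' ≠ 0 ∧ P Δ a' f' := by
  set N := vecMulVec a f + vecMulVec b g with hNdef
  -- pick w with N w ≠ 0
  obtain ⟨w, hw⟩ : ∃ w, N *ᵥ w ≠ 0 := by
    by_contra hcon
    push Not at hcon
    apply hN
    ext i j
    have := congrFun (hcon (Pi.single j 1)) i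
    simpa using this
  obtain ⟨ψ, hψ, h1, h2, h3⟩ := exists_ann3 hn a b w
  have hψN : ψ ᵥ* N = 0 := by
    rw [hNdef, vecMul_add, vecMul_vecMulVec, vecMul_vecMulVec, h1, h2]; simp
  have hψNw : ψ ⬝ᵥ (N *ᵥ w) = 0 := by
    rw [dotProduct_mulVec, hψN]; simp
  obtain ⟨k, hk, hk'⟩ := hΔ u hu (tv w ψ h3)
  rw [tv_pow, tv_inv] at hk'
  have hmem := mul_mem (inv_mem hu) hk'
  have hkq : (k : ℚ) ≠ 0 := by
    have : k ≠ 0 := by omega
    exact_mod_cast this
  refine ⟨(k : ℚ) • (N *ᵥ w), ψ, by simp [hψNw], smul_ne_zero hkq hw, hψ, _, hmem, ?_⟩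
  have hinv : mt u⁻¹ = 1 - N := by
    have h4 : mt u * (1 - N) = 1 := by
      rw [huN]
      have : (1 + N) * (1 - N) = 1 - N * N := by noncomm_ring
      rw [this, hN2, sub_zero]
    calc mt u⁻¹ = mt u⁻¹ * (mt u * (1 - N)) := by rw [h4, mul_one]
      _ = 1 - N := by rw [← mul_assoc, mt_inv_mul, one_mul]
  simp only [map_mul, mt_tv, hinv, huN]
  have hwψ : vecMulVec w ψ * N = 0 := by
    rw [vecMulVec_mul, hψN]; simp
  have hNwψ : N * vecMulVec w ψ = vecMulVec (N *ᵥ w) ψ := by rw [mul_vecMulVec]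
  have hwψw : vecMulVec w ψ * vecMulVec w ψ = 0 := by rw [vv, h3]; simp
  have hNN : N * N = 0 := hN2
  set W := vecMulVec w ψ with hW
  have e1 : vecMulVec (-((k : ℚ) • w)) ψ = -((k : ℚ) • W) := by
    rw [neg_vecMulVec, smul_vecMulVec]
  have e2 : vecMulVec ((k : ℚ) • w) ψ = (k : ℚ) • W := by rw [smul_vecMulVec]
  have e3 : vecMulVec ((k : ℚ) • (N *ᵥ w)) ψ = (k : ℚ) • (N * W) := by
    rw [smul_vecMulVec, hNwψ]
  rw [e1, e2, e3]
  have e4 : (1 + -((k : ℚ) • W)) * (1 + N) = 1 + N - (k : ℚ) • W := by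
    simp only [mul_add, add_mul, one_mul, mul_one, neg_mul, smul_mul_assoc, hwψ]
    module
  rw [e4]
  have e5 : (1 + N - (k : ℚ) • W) * (1 + (k : ℚ) • W) = 1 + N + (k : ℚ) • (N * W) := by
    simp only [mul_add, add_mul, sub_mul, one_mul, mul_one, smul_mul_assoc, mul_smul_comm, hwψw]
    module
  rw [e5]
  have e6 : N * (N * W) = 0 := by rw [← mul_assoc, hNN, zero_mul]
  simp only [mul_add, sub_mul, one_mul, mul_one, mul_smul_comm, hNN, e6]
  module

/-- a nontrivial element gives a nontrivial transvection (n odd ensures that nontrivial elements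
are nonscalar) -/
lemma step1 (hn : 4 ≤ n) (hΔ : WR Δ) {δ : SpecialLinearGroup (Fin n) ℚ} (hδ : δ ∈ Δ)
    (v : Fin n → ℚ) (hv : LinearIndependent ℚ ![v, mt δ *ᵥ v]) :
    ∃ a' f' : Fin n → ℚ, f' ⬝ᵥ a' = 0 ∧ a' ≠ 0 ∧ f' ≠ 0 ∧ P Δ a' f' := by
  obtain ⟨f, hf, h1, h2, h3⟩ := exists_ann3 hn v (mt δ *ᵥ v) (mt δ⁻¹ *ᵥ v)
  obtain ⟨k, hk, hk'⟩ := hΔ δ hδ (tv v f h1)
  rw [tv_pow, tv_inv] at hk'
  have hmem := mul_mem (inv_mem hδ) hk'
  have hkq : (k : ℚ) ≠ 0 := by
    have : k ≠ 0 := by omega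
    exact_mod_cast this
  -- N = v f - (δ⁻¹ v) (f δ)
  set V := vecMulVec v f with hV
  have e1 : vecMulVec (-((k : ℚ) • v)) f = -((k : ℚ) • V) := by
    rw [neg_vecMulVec, smul_vecMulVec]
  have e2 : vecMulVec ((k : ℚ) • v) f = (k : ℚ) • V := by rw [smul_vecMulVec]
  have hδV : mt δ⁻¹ * V * mt δ = vecMulVec (mt δ⁻¹ *ᵥ v) (f ᵥ* mt δ) := by
    rw [hV, mul_vecMulVec, vecMulVec_mul]
  have hfδv : (f ᵥ* mt δ) ⬝ᵥ v = 0 := by rw [← dotProduct_mulVec, h2]
  have hfδδv : (f ᵥ* mt δ) ⬝ᵥ (mt δ⁻¹ *ᵥ v) = 0 := by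
    rw [← dotProduct_mulVec, mulVec_mulVec, mt_mul_inv, one_mulVec, h1]
  set D := vecMulVec (mt δ⁻¹ *ᵥ v) (f ᵥ* mt δ) with hD
  have hDV : D * V = 0 := by rw [hD, hV, vv, hfδv]; simp
  have hVD : V * D = 0 := by rw [hD, hV, vv, h3]; simp
  have hVV : V * V = 0 := by rw [hV, vv, h1]; simp
  have hDD : D * D = 0 := by rw [hD, vv, hfδδv]; simp
  have hmt : mt (δ⁻¹ * (tv (-((k : ℚ) • v)) f (by simp [h1]) * δ * tv ((k : ℚ) • v) f (by simp [h1])))
      = 1 + (vecMulVec ((k : ℚ) • v) f + vecMulVec (-((k : ℚ) • (mt δ⁻¹ *ᵥ v))) (f ᵥ* mt δ)) := by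
    simp only [map_mul, mt_tv]
    simp only [neg_vecMulVec, smul_vecMulVec]
    rw [← hV, ← hD]
    have : mt δ⁻¹ * ((1 + -((k : ℚ) • V)) * mt δ * (1 + (k : ℚ) • V))
        = (mt δ⁻¹ * mt δ + -((k : ℚ) • (mt δ⁻¹ * V * mt δ))) * (1 + (k : ℚ) • V) := by
      simp only [mul_add, add_mul, one_mul, mul_one, smul_mul_assoc, mul_smul_comm, neg_mul,
        mul_neg, mul_assoc]
    rw [this, mt_inv_mul, hδV]
    simp only [mul_add, add_mul, one_mul, mul_one, smul_mul_assoc, mul_smul_comm, neg_mul,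
      hDV]
    module
  refine step2 hn hΔ hmem _ _ _ _ hmt ?_ ?_
  · rw [neg_vecMulVec, smul_vecMulVec, smul_vecMulVec, ← hV, ← hD]
    simp only [mul_add, add_mul, smul_mul_assoc, mul_smul_comm, neg_mul, mul_neg, hVV, hDD, hVD,
      hDV]
    simp
  · rw [neg_vecMulVec, smul_vecMulVec, smul_vecMulVec, ← hV, ← hD]
    intro h0
    have h4 : V = D := by
      have : (k : ℚ) • (V - D) = 0 := by rw [smul_sub, ← h0]; module
      rcases smul_eq_zero.1 this with h | h
      · exact absurd h hkq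
      · exact sub_eq_zero.1 h
    -- apply both to a vector where f is nonzero
    obtain ⟨x, hx⟩ := exists_dot_one hf
    have h5 : V *ᵥ x = D *ᵥ x := by rw [h4]
    rw [hV, hD, vecMulVec_mulVec, vecMulVec_mulVec, hx] at h5
    simp only [MulOpposite.op_one, one_smul] at h5
    -- v = c • δ⁻¹ v, so δ v = c • v
    have h6 := congrArg (fun y => mt δ *ᵥ y) h5
    simp only [op_smul_eq_smul, mulVec_smul, mulVec_mulVec, mt_mul_inv, one_mulVec] at h6
    rw [LinearIndependent.pair_iff] at hv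
    have := hv (((f ᵥ* mt δ) ⬝ᵥ x)) (-1) (by rw [h6]; module)
    exact absurd this.2 (by norm_num)

lemma exists_nonscalar (hn : Odd n) {δ : SpecialLinearGroup (Fin n) ℚ} (hδ : δ ≠ 1) :
    ∃ v, LinearIndependent ℚ ![v, mt δ *ᵥ v] := by
  by_contra hcon
  push Not at hcon
  obtain ⟨c, hc⟩ := (mt δ).mulVecLin.exists_eq_smul_id_of_forall_notLinearIndependent
    (fun v => by simpa using hcon v)
  apply hδ
  have hmt : mt δ = c • (1 : Matrix (Fin n) (Fin n) ℚ) := by
    ext i j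
    have := congrFun (LinearMap.congr_fun hc (Pi.single j 1)) i
    simp at this
    rw [this]
    simp [Matrix.one_apply, Pi.single_apply]
  have hdet : (mt δ).det = 1 := δ.2
  rw [hmt, det_smul, det_one, mul_one, Fintype.card_fin] at hdet
  have hc1 : c = 1 := by
    exact hn.pow_inj.1 (by simpa using hdet)
  apply mt_inj
  rw [hmt, hc1]; simp

/-- the diagonal elements -/
lemma diag2n_mem (h : ∀ (i j : Fin n) (hij : i ≠ j) (c : ℚ), SpecialLinearGroup.transvection hij c ∈ Δ)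
    (i j : Fin n) (hij : i ≠ j) {c : ℚ} (hc : c ≠ 0) : SpecialLinearGroup.diag2n hij c hc ∈ Δ := by
  have key : SpecialLinearGroup.diag2n hij c hc =
      SpecialLinearGroup.transvection hij c *
      SpecialLinearGroup.transvection hij.symm (- c⁻¹) *
      SpecialLinearGroup.transvection hij c *
      SpecialLinearGroup.transvection hij (-1) *
      SpecialLinearGroup.transvection hij.symm 1 *
      SpecialLinearGroup.transvection hij (-1) := by
    apply Subtype.ext
    set A : Matrix (Fin n) (Fin n) ℚ := single i j 1 with hA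
    set B : Matrix (Fin n) (Fin n) ℚ := single j i 1 with hB
    set E : Matrix (Fin n) (Fin n) ℚ := single i i 1 with hE
    set F : Matrix (Fin n) (Fin n) ℚ := single j j 1 with hF
    have hAA : A * A = 0 := by rw [hA, single_mul_single_of_ne]; exact hij.symm
    have hBB : B * B = 0 := by rw [hB, single_mul_single_of_ne]; exact hij
    have hAB : A * B = E := by rw [hA, hB, single_mul_single_same, one_mul]
    have hBA : B * A = F := by rw [hA, hB, single_mul_single_same, one_mul]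
    have hEA : E * A = A := by rw [hA, hE, single_mul_single_same, one_mul]
    have hFB : F * B = B := by rw [hF, hB, single_mul_single_same, one_mul]
    have hFA : F * A = 0 := by rw [hA, hF, single_mul_single_of_ne]; exact hij.symm
    have hEB : E * B = 0 := by rw [hB, hE, single_mul_single_of_ne]; exact hij
    have hAE : A * E = 0 := by rw [hA, hE, single_mul_single_of_ne]; exact hij.symm
    have hAF : A * F = A := by rw [hA, hF, single_mul_single_same, one_mul]
    have hBE : B * E = B := by rw [hB, hE, single_mul_single_same, one_mul]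
    have hBF : B * F = 0 := by rw [hB, hF, single_mul_single_of_ne]; exact hij
    have hEE : E * E = E := by rw [hE, single_mul_single_same, one_mul]
    have hFF : F * F = F := by rw [hF, single_mul_single_same, one_mul]
    have hEF : E * F = 0 := by rw [hE, hF, single_mul_single_of_ne]; exact hij
    have hFE : F * E = 0 := by rw [hE, hF, single_mul_single_of_ne]; exact hij.symm
    have hW : ∀ d : ℚ, d ≠ 0 → (1 + d • A) * (1 + (-d⁻¹) • B) * (1 + d • A)
        = (1 - E - F) + (d • A + (-d⁻¹) • B) := by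
      intro d hd
      simp only [mul_add, add_mul, one_mul, mul_one, smul_mul_assoc, mul_smul_comm, hAB, hBA, hAA,
        smul_smul, hEA, smul_add, smul_zero]
      have h1 : d * -d⁻¹ = -1 := by field_simp
      have h1' : -d⁻¹ * d = -1 := by field_simp
      rw [h1', h1]
      module
    have htv : ∀ (i j : Fin n) (h : i ≠ j) (c : ℚ),
        (SpecialLinearGroup.transvection h c).1 = 1 + c • single i j (1 : ℚ) := by
      intro i j h c
      rw [SpecialLinearGroup.transvection_coe, smul_single]; simp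
    have hd : (SpecialLinearGroup.diag2n hij c hc).1 = (1 - E - F) + (c • E + c⁻¹ • F) := by
      rw [SpecialLinearGroup.diag2n_coe]
      ext a b
      simp only [hE, hF, diagonal_apply, Matrix.add_apply, Matrix.sub_apply, Matrix.smul_apply,
        one_apply, single_apply, smul_eq_mul]
      grind
    have e1 := hW c hc
    have e2 := hW (-1) (by norm_num)
    rw [hd]
    change _ = (SpecialLinearGroup.transvection hij c).1 *
      (SpecialLinearGroup.transvection hij.symm (- c⁻¹)).1 *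
      (SpecialLinearGroup.transvection hij c).1 *
      (SpecialLinearGroup.transvection hij (-1)).1 *
      (SpecialLinearGroup.transvection hij.symm 1).1 *
      (SpecialLinearGroup.transvection hij (-1)).1
    rw [htv, htv, htv, htv, ← hA, ← hB]
    have e3 : (1 + c • A) * (1 + -c⁻¹ • B) * (1 + c • A) * (1 + (-1 : ℚ) • A) * (1 + (1 : ℚ) • B) *
        (1 + (-1 : ℚ) • A) = ((1 + c • A) * (1 + -c⁻¹ • B) * (1 + c • A)) *
          ((1 + (-1 : ℚ) • A) * (1 + (-(-1 : ℚ)⁻¹) • B) * (1 + (-1 : ℚ) • A)) := by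
      have : (-(-1 : ℚ)⁻¹) = 1 := by norm_num
      rw [this]
      simp only [mul_assoc]
    rw [e3, e1, e2]
    have : (-(-1 : ℚ)⁻¹) = 1 := by norm_num
    rw [this]
    simp only [mul_add, add_mul, mul_sub, sub_mul, one_mul, mul_one, smul_mul_assoc,
      mul_smul_comm, hAB, hBA, hAA, hBB, hEA, hFB, hFA, hEB, hAE, hAF, hBE, hBF, hEE, hFF, hEF, hFE,
      smul_add, smul_sub, smul_zero]
    module
  rw [key]
  refine mul_mem (mul_mem (mul_mem (mul_mem (mul_mem ?_ ?_) ?_) ?_) ?_) ?_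
  all_goals exact h _ _ _ _

/-- Main algebraic statement. -/
theorem eq_bot_or_top (hn4 : 4 ≤ n) (hn : Odd n) (hΔ : WR Δ) : Δ = ⊥ ∨ Δ = ⊤ := by
  by_cases h : Δ = ⊥
  · exact Or.inl h
  right
  obtain ⟨⟨δ, hδ⟩, hδ1'⟩ := Subgroup.ne_bot_iff_exists_ne_one.1 h
  have hδ1 : δ ≠ 1 := fun h => hδ1' (Subtype.ext h)
  obtain ⟨v, hv⟩ := exists_nonscalar hn hδ1
  obtain ⟨a, f, hfa, ha, hf, hP⟩ := step1 hn4 hΔ hδ v hv
  have hall := P_forall hn4 hΔ hfa ha hf hP
  have htr : ∀ (i j : Fin n) (hij : i ≠ j) (c : ℚ), SpecialLinearGroup.transvection hij c ∈ Δ := by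
    intro i j hij c
    have h0 : (Pi.single j (1 : ℚ) : Fin n → ℚ) ⬝ᵥ (Pi.single i c : Fin n → ℚ) = 0 := by
      simp [hij]
    have := (P_iff h0).1 (hall _ _ h0)
    convert this using 1
    apply Subtype.ext
    rw [SpecialLinearGroup.transvection_coe]
    simp only [tv]
    congr 1
    ext a b
    simp only [vecMulVec_apply, Matrix.single_apply, Pi.single_apply]
    grind
  have : Nontrivial (Fin n) := by
    rw [Fin.nontrivial_iff_two_le]; omega
  rw [eq_top_iff]
  intro M _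
  exact SpecialLinearGroup.diagonal_transvection_induction' (fun M => M ∈ Δ) M
    (fun i j hij c hc => diag2n_mem htr i j hij hc) htr (fun A B hA hB => mul_mem hA hB)

end Pool.Agent.Helper27.Boomerang
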