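import Mathlib

/-! Weyl's criterion: vanishing of normalised exponential sums implies uniform distribution. -/

open MeasureTheory Filter Topology

namespace Pool.Agent.Helper27.Cs

/-- `e(t) = exp(2 π i t)` -/
noncomputable def ee (t : ℝ) : ℂ := Complex.exp (2 * Real.pi * Complex.I * t)

/-- uniform distribution modulo one -/
def UDMod1 (x : ℕ → ℝ) : Prop :=
  ∀ a b : ℝ, 0 ≤ a → a ≤ b → b ≤ 1 →
    Tendsto (fun N : ℕ => (((Finset.range N).filter
      (fun n => a ≤ Int.fract (x n) ∧ Int.fract (x n) < b)).card : ℝ) / N) atTop (𝓝 (b - a))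

lemma ee_fourier (h : ℤ) (t : ℝ) : (fourier h (t : AddCircle (1 : ℝ)) : ℂ) = ee (h * t) := by
  rw [fourier_coe_apply, ee]
  congr 1
  push_cast
  ring

lemma ee_neg (t : ℝ) : ee (-t) = (starRingEnd ℂ) (ee t) := by
  rw [ee, ee, ← Complex.exp_conj]
  congr 1
  simp only [Complex.ofReal_neg, mul_neg, map_mul, Complex.conj_ofReal, Complex.conj_I,
    neg_mul, Complex.conj_ofNat]

lemma norm_ee (t : ℝ) : ‖ee t‖ = 1 := by
  rw [ee, Complex.norm_exp]
  simp

lemma ee_add (s t : ℝ) : ee (s + t) = ee s * ee t := by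
  rw [ee, ee, ee, ← Complex.exp_add]
  congr 1
  push_cast
  ring

lemma ee_zero : ee 0 = 1 := by simp [ee]

/-- the normalised sums of a function on the circle along the sequence. -/
noncomputable def avgC (x : ℕ → ℝ) (N : ℕ) (f : C(AddCircle (1 : ℝ), ℂ)) : ℂ :=
  (∑ n ∈ Finset.range N, f (x n : AddCircle (1 : ℝ))) / N

lemma norm_avgC_le (x : ℕ → ℝ) (N : ℕ) (f : C(AddCircle (1 : ℝ), ℂ)) : ‖avgC x N f‖ ≤ ‖f‖ := by
  unfold avgC
  rcases Nat.eq_zero_or_pos N with rfl | hN
  · simp
  rw [norm_div]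
  have h1 : ‖∑ n ∈ Finset.range N, f (x n : AddCircle (1 : ℝ))‖ ≤ N * ‖f‖ := by
    refine (norm_sum_le _ _).trans ?_
    refine (Finset.sum_le_sum fun n _ => f.norm_coe_le_norm _).trans ?_
    simp
  have h2 : ‖(N : ℂ)‖ = N := by simp
  rw [h2, div_le_iff₀ (by exact_mod_cast hN)]
  linarith [mul_comm (N : ℝ) ‖f‖]

lemma avgC_sub (x : ℕ → ℝ) (N : ℕ) (f g : C(AddCircle (1 : ℝ), ℂ)) :
    avgC x N (f - g) = avgC x N f - avgC x N g := by
  unfold avgC
  simp only [ContinuousMap.sub_apply, Finset.sum_sub_distrib]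
  ring

lemma int_fourier (h : ℤ) (hh : h ≠ 0) :
    (∫ t, fourier h t ∂(AddCircle.haarAddCircle : Measure (AddCircle (1 : ℝ)))) = 0 := by
  have : Fact (0 < (1 : ℝ)) := ⟨one_pos⟩
  have h1 := congrFun (fourierCoeff_fourier (T := (1 : ℝ)) h) 0
  rw [Pi.single_eq_of_ne (Ne.symm hh)] at h1
  simpa [fourierCoeff] using h1

lemma int_le (f : C(AddCircle (1 : ℝ), ℂ)) :
    ‖∫ t, f t ∂(AddCircle.haarAddCircle : Measure (AddCircle (1 : ℝ)))‖ ≤ ‖f‖ := by
  have : Fact (0 < (1 : ℝ)) := ⟨one_pos⟩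
  have := norm_integral_le_of_norm_le_const
    (μ := (AddCircle.haarAddCircle : Measure (AddCircle (1 : ℝ))))
    (f := fun t => f t) (C := ‖f‖) (Eventually.of_forall fun t => f.norm_coe_le_norm t)
  simpa using this

lemma integrable_cont (f : C(AddCircle (1 : ℝ), ℂ)) :
    Integrable (fun t => f t) (AddCircle.haarAddCircle : Measure (AddCircle (1 : ℝ))) := by
  have : Fact (0 < (1 : ℝ)) := ⟨one_pos⟩
  exact f.continuous.integrable_of_hasCompactSupport (HasCompactSupport.of_compactSpace _)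

theorem tendsto_avgC {x : ℕ → ℝ}
    (hx : ∀ h : ℕ, 1 ≤ h → Tendsto (fun N : ℕ => (∑ n ∈ Finset.range N, ee (h * x n)) / (N : ℂ))
      atTop (𝓝 0)) (f : C(AddCircle (1 : ℝ), ℂ)) :
    Tendsto (fun N => avgC x N f) atTop
      (𝓝 (∫ t, f t ∂(AddCircle.haarAddCircle : Measure (AddCircle (1 : ℝ))))) := by
  have : Fact (0 < (1 : ℝ)) := ⟨one_pos⟩
  -- monomials
  have hmono : ∀ h : ℤ, Tendsto (fun N => avgC x N (fourier h)) atTop
      (𝓝 (∫ t, fourier h t ∂(AddCircle.haarAddCircle : Measure (AddCircle (1 : ℝ))))) := by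
    intro h
    rcases lt_trichotomy h 0 with hh | hh | hh
    · rw [int_fourier h hh.ne]
      obtain ⟨k, hk⟩ : ∃ k : ℕ, h = -(k : ℤ) := ⟨h.natAbs, by omega⟩
      have hk1 : 1 ≤ k := by omega
      have := (hx k hk1)
      have h2 := (Complex.continuous_conj.tendsto 0).comp this
      simp only [map_zero] at h2
      refine h2.congr fun N => ?_
      simp only [Function.comp, avgC, map_div₀, map_sum, Complex.conj_natCast]
      congr 1
      refine Finset.sum_congr rfl fun n _ => ?_
      rw [ee_fourier, hk, ← ee_neg]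
      congr 1
      push_cast; ring
    · subst hh
      have : (∫ t, fourier 0 t ∂(AddCircle.haarAddCircle : Measure (AddCircle (1 : ℝ)))) = 1 := by
        simp
      rw [this]
      refine Tendsto.congr' ?_ tendsto_const_nhds
      filter_upwards [eventually_ge_atTop 1] with N hN
      have hN' : (N : ℂ) ≠ 0 := by
        have : N ≠ 0 := by omega
        exact_mod_cast this
      simp [avgC, hN']
    · rw [int_fourier h hh.ne']
      obtain ⟨k, hk⟩ : ∃ k : ℕ, h = (k : ℤ) := ⟨h.natAbs, by omega⟩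
      have hk1 : 1 ≤ k := by omega
      refine (hx k hk1).congr fun N => ?_
      simp only [avgC]
      congr 1
      refine Finset.sum_congr rfl fun n _ => ?_
      rw [ee_fourier, hk]
      congr 1
  -- span
  have hspan : ∀ g ∈ Submodule.span ℂ (Set.range (@fourier (1 : ℝ))),
      Tendsto (fun N => avgC x N g) atTop
        (𝓝 (∫ t, g t ∂(AddCircle.haarAddCircle : Measure (AddCircle (1 : ℝ))))) := by
    intro g hg
    induction hg using Submodule.span_induction with
    | mem g hg => obtain ⟨h, rfl⟩ := hg; exact hmono h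
    | zero => simp [avgC]
    | add g1 g2 _ _ h1 h2 =>
      have h3 := h1.add h2
      rw [← integral_add (integrable_cont g1) (integrable_cont g2)] at h3
      refine h3.congr fun N => ?_
      simp only [avgC, ContinuousMap.add_apply, Finset.sum_add_distrib]
      ring
    | smul c g _ h1 =>
      have h3 := h1.const_mul c
      rw [← integral_const_mul] at h3
      refine h3.congr fun N => ?_
      simp only [avgC, ContinuousMap.smul_apply, smul_eq_mul, ← Finset.mul_sum]
      ring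
  -- density
  have hdense : f ∈ closure ((Submodule.span ℂ (Set.range (@fourier (1 : ℝ)))) :
      Set C(AddCircle (1 : ℝ), ℂ)) := by
    have := span_fourier_closure_eq_top (T := (1 : ℝ))
    rw [← Submodule.topologicalClosure_coe, this]
    trivial
  rw [Metric.tendsto_atTop]
  intro ε hε
  obtain ⟨g, hg, hfg⟩ := Metric.mem_closure_iff.1 hdense (ε / 3) (by positivity)
  obtain ⟨N0, hN0⟩ := Metric.tendsto_atTop.1 (hspan g hg) (ε / 3) (by positivity)
  refine ⟨N0, fun N hN => ?_⟩
  have h1 := hN0 N hN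
  rw [dist_eq_norm] at h1 hfg ⊢
  have h2 : ‖avgC x N f - avgC x N g‖ ≤ ‖f - g‖ := by
    rw [← avgC_sub]; exact norm_avgC_le _ _ _
  have h3 : ‖(∫ t, g t ∂(AddCircle.haarAddCircle : Measure (AddCircle (1 : ℝ)))) -
      ∫ t, f t ∂(AddCircle.haarAddCircle : Measure (AddCircle (1 : ℝ)))‖ ≤ ‖f - g‖ := by
    rw [← integral_sub (integrable_cont g) (integrable_cont f), ← norm_neg (f - g), neg_sub]
    exact int_le (g - f)
  calc ‖avgC x N f - ∫ t, f t ∂(AddCircle.haarAddCircle : Measure (AddCircle (1 : ℝ)))‖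
      = ‖(avgC x N f - avgC x N g) + (avgC x N g -
          ∫ t, g t ∂(AddCircle.haarAddCircle : Measure (AddCircle (1 : ℝ)))) +
        ((∫ t, g t ∂(AddCircle.haarAddCircle : Measure (AddCircle (1 : ℝ)))) -
          ∫ t, f t ∂(AddCircle.haarAddCircle : Measure (AddCircle (1 : ℝ))))‖ := by congr 1; ring
    _ ≤ ‖avgC x N f - avgC x N g‖ + ‖avgC x N g -
          ∫ t, g t ∂(AddCircle.haarAddCircle : Measure (AddCircle (1 : ℝ)))‖ +
        ‖(∫ t, g t ∂(AddCircle.haarAddCircle : Measure (AddCircle (1 : ℝ)))) -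
          ∫ t, f t ∂(AddCircle.haarAddCircle : Measure (AddCircle (1 : ℝ)))‖ :=
        (norm_add_le _ _).trans (by gcongr; exact norm_add_le _ _)
    _ < ε := by linarith

end Pool.Agent.Helper27.Cs
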