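import Pool.Agent.Helper27.CsA

open MeasureTheory Filter Topology

namespace Pool.Agent.Helper27.Cs

local instance : Fact (0 < (1 : ℝ)) := ⟨one_pos⟩

/-- empirical measures -/
noncomputable def emp (x : ℕ → ℝ) (N : ℕ) : Measure (AddCircle (1 : ℝ)) :=
  ((N : ENNReal) + 1)⁻¹ • ∑ n ∈ Finset.range (N + 1), Measure.dirac (x n : AddCircle (1 : ℝ))

instance emp_prob (x : ℕ → ℝ) (N : ℕ) : IsProbabilityMeasure (emp x N) := by
  constructor
  simp only [emp, Measure.smul_apply, Measure.finsetSum_apply, Measure.dirac_apply_of_mem,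
    Set.mem_univ, smul_eq_mul, Finset.sum_const, Finset.card_range, nsmul_eq_mul, mul_one]
  push_cast
  exact ENNReal.inv_mul_cancel (by simp) (by finiteness)

lemma emp_real (x : ℕ → ℝ) (N : ℕ) (E : Set (AddCircle (1 : ℝ))) (hE : MeasurableSet E)
    (p : ℕ → Prop) [DecidablePred p] (hp : ∀ n, (x n : AddCircle (1 : ℝ)) ∈ E ↔ p n) :
    (emp x N) E = ENNReal.ofReal
      ((((Finset.range (N + 1)).filter p).card : ℝ) / ((N : ℝ) + 1)) := by
  classical
  simp only [emp, Measure.smul_apply, Measure.finsetSum_apply, smul_eq_mul]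
  have h1 : ∑ n ∈ Finset.range (N + 1), (Measure.dirac (x n : AddCircle (1 : ℝ))) E =
      (((Finset.range (N + 1)).filter p).card : ENNReal) := by
    rw [Finset.card_filter]
    push_cast
    refine Finset.sum_congr rfl fun n _ => ?_
    rw [Measure.dirac_apply' _ hE]
    by_cases h : p n
    · simp [h, (hp n).2 h]
    · have : (x n : AddCircle (1 : ℝ)) ∉ E := fun hh => h ((hp n).1 hh)
      simp [h, this]
  rw [h1, ENNReal.ofReal_div_of_pos (by positivity)]
  rw [ENNReal.div_eq_inv_mul]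
  congr 1
  · rw [ENNReal.ofReal_add (by positivity) (by positivity)]; simp
  · simp

lemma integral_emp (x : ℕ → ℝ) (N : ℕ) (f : C(AddCircle (1 : ℝ), ℂ)) :
    ∫ t, f t ∂(emp x N) = avgC x (N + 1) f := by
  unfold emp avgC
  rw [integral_smul_measure, integral_finsetSum_measure]
  · simp only [integral_dirac]
    rw [ENNReal.toReal_inv, ENNReal.toReal_add (by simp) (by simp)]
    simp only [ENNReal.toReal_natCast, ENNReal.toReal_one, Complex.real_smul]
    push_cast
    rw [div_eq_inv_mul]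
  · intro n _
    exact integrable_dirac (by simp)

lemma haar_eq : (volume : Measure (AddCircle (1 : ℝ))) = AddCircle.haarAddCircle := by
  rw [AddCircle.volume_eq_smul_haarAddCircle]; simp

lemma volume_singleton (p : AddCircle (1 : ℝ)) : (volume : Measure (AddCircle (1 : ℝ))) {p} = 0 := by
  have := AddCircle.volume_closedBall (1 : ℝ) (x := p) 0
  rw [Metric.closedBall_zero] at this
  rw [this]; simp

lemma mem_image_Ico {a b : ℝ} (ha : 0 ≤ a) (hb : b ≤ 1) (t : ℝ) :
    ((t : ℝ) : AddCircle (1 : ℝ)) ∈ ((↑) : ℝ → AddCircle (1 : ℝ)) '' Set.Ico a b ↔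
      a ≤ Int.fract t ∧ Int.fract t < b := by
  constructor
  · rintro ⟨s, ⟨hs1, hs2⟩, hs⟩
    rw [← AddCircle.coe_fract t] at hs
    have := (AddCircle.coe_eq_coe_iff_of_mem_Ico (p := (1 : ℝ)) (a := 0)
      (x := s) (y := Int.fract t) ⟨by linarith, by linarith⟩
      ⟨Int.fract_nonneg t, by linarith [Int.fract_lt_one t]⟩).1 hs
    rw [← this]; exact ⟨hs1, hs2⟩
  · rintro ⟨h1, h2⟩
    exact ⟨Int.fract t, ⟨h1, h2⟩, AddCircle.coe_fract t⟩

lemma image_Ioo_open (a b : ℝ) : IsOpen (((↑) : ℝ → AddCircle (1 : ℝ)) '' Set.Ioo a b) :=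
  QuotientAddGroup.isOpenMap_coe _ isOpen_Ioo

lemma image_Icc_closed (a b : ℝ) : IsClosed (((↑) : ℝ → AddCircle (1 : ℝ)) '' Set.Icc a b) :=
  (isCompact_Icc.image (AddCircle.continuous_mk' (1 : ℝ))).isClosed

lemma frontier_null (a b : ℝ) :
    (volume : Measure (AddCircle (1 : ℝ)))
      (frontier (((↑) : ℝ → AddCircle (1 : ℝ)) '' Set.Ico a b)) = 0 := by
  have hsub : frontier (((↑) : ℝ → AddCircle (1 : ℝ)) '' Set.Ico a b) ⊆
      {(a : AddCircle (1 : ℝ))} ∪ {(b : AddCircle (1 : ℝ))} := by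
    intro p hp
    have h1 : p ∈ ((↑) : ℝ → AddCircle (1 : ℝ)) '' Set.Icc a b := by
      have : closure (((↑) : ℝ → AddCircle (1 : ℝ)) '' Set.Ico a b) ⊆
          ((↑) : ℝ → AddCircle (1 : ℝ)) '' Set.Icc a b :=
        closure_minimal (Set.image_mono Set.Ico_subset_Icc_self) (image_Icc_closed a b)
      exact this hp.1
    have h2 : p ∉ ((↑) : ℝ → AddCircle (1 : ℝ)) '' Set.Ioo a b := by
      intro h
      have : ((↑) : ℝ → AddCircle (1 : ℝ)) '' Set.Ioo a b ⊆
          interior (((↑) : ℝ → AddCircle (1 : ℝ)) '' Set.Ico a b) :=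
        interior_maximal (Set.image_mono Set.Ioo_subset_Ico_self) (image_Ioo_open a b)
      exact hp.2 (this h)
    obtain ⟨s, hs, rfl⟩ := h1
    rcases eq_or_lt_of_le hs.1 with h | h
    · left; rw [h]; rfl
    rcases eq_or_lt_of_le hs.2 with h' | h'
    · right; rw [h']; rfl
    · exact absurd ⟨s, ⟨h, h'⟩, rfl⟩ h2
  refine measure_mono_null hsub ?_
  rw [measure_union_null_iff]
  exact ⟨volume_singleton _, volume_singleton _⟩

lemma meas_Ico (a b : ℝ) :
    MeasurableSet (((↑) : ℝ → AddCircle (1 : ℝ)) '' Set.Ico a b) := by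
  rcases lt_or_ge a b with h | h
  · rw [← Set.Ioo_insert_left h, Set.image_insert_eq]
    exact (image_Ioo_open a b).measurableSet.insert _
  · rw [Set.Ico_eq_empty (not_lt.2 h)]; simp

lemma volume_Ico {a b : ℝ} (ha : 0 ≤ a) (hab : a ≤ b) (hb : b ≤ 1) :
    (volume : Measure (AddCircle (1 : ℝ))) (((↑) : ℝ → AddCircle (1 : ℝ)) '' Set.Ico a b)
      = ENNReal.ofReal (b - a) := by
  rw [AddCircle.add_projection_respects_measure (1 : ℝ) 0 (meas_Ico a b)]
  have h1 : (volume : Measure ℝ) (((↑) : ℝ → AddCircle (1 : ℝ)) ⁻¹'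
      (((↑) : ℝ → AddCircle (1 : ℝ)) '' Set.Ico a b) ∩ Set.Ioc 0 (0 + 1)) = volume (Set.Ico a b) := by
    apply measure_congr
    have hz : (volume : Measure ℝ) ({0, 1} : Set ℝ) = 0 :=
      (Set.Finite.countable (by simp)).measure_zero _
    rw [Filter.eventuallyEq_set]
    have : ∀ᵐ t : ℝ, t ∉ ({0, 1} : Set ℝ) := measure_eq_zero_iff_ae_notMem.1 hz
    filter_upwards [this] with t ht
    simp only [Set.mem_insert_iff, Set.mem_singleton_iff, not_or] at ht
    rw [Set.mem_inter_iff, Set.mem_preimage, mem_image_Ico ha hb]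
    constructor
    · rintro ⟨h1, h2⟩
      have h3 : t < 1 := lt_of_le_of_ne (by linarith [h2.2]) ht.2
      have : Int.fract t = t := Int.fract_eq_self.2 ⟨h2.1.le, h3⟩
      rw [this] at h1
      exact h1
    · intro h1
      have h4 : 0 < t := lt_of_le_of_ne (ha.trans h1.1) (Ne.symm ht.1)
      have : Int.fract t = t := Int.fract_eq_self.2 ⟨h4.le, by linarith [h1.2]⟩
      rw [this]
      exact ⟨h1, h4, by linarith [h1.2]⟩
  exact h1.trans (by rw [Real.volume_Ico])

/-- **Weyl's criterion** (the direction used here). -/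
theorem udMod1_of_exp_sums {x : ℕ → ℝ}
    (hx : ∀ h : ℕ, 1 ≤ h → Tendsto (fun N : ℕ => (∑ n ∈ Finset.range N, ee (h * x n)) / (N : ℂ))
      atTop (𝓝 0)) : UDMod1 x := by
  classical
  intro a b ha hab hb
  set μs : ℕ → ProbabilityMeasure (AddCircle (1 : ℝ)) := fun N => ⟨emp x N, emp_prob x N⟩ with hμs
  set μ : ProbabilityMeasure (AddCircle (1 : ℝ)) :=
    ⟨(volume : Measure (AddCircle (1 : ℝ))), ⟨by simp⟩⟩ with hμ
  have hlim : Tendsto μs atTop (𝓝 μ) := by
    rw [ProbabilityMeasure.tendsto_iff_forall_integral_tendsto]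
    intro f
    set g : C(AddCircle (1 : ℝ), ℂ) := ⟨fun t => (f t : ℂ), by fun_prop⟩ with hg
    have h1 := (tendsto_add_atTop_iff_nat 1).2 (tendsto_avgC hx g)
    have h2 := (Complex.continuous_re.tendsto _).comp h1
    have e1 : (∫ t, g t ∂(AddCircle.haarAddCircle : Measure (AddCircle (1 : ℝ)))).re =
        ∫ t, f t ∂(μ : Measure (AddCircle (1 : ℝ))) := by
      rw [← haar_eq]
      change (∫ t, ((f t : ℝ) : ℂ) ∂(volume : Measure (AddCircle (1 : ℝ)))).re = _
      rw [integral_complex_ofReal]; simp [hμ]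
    rw [e1] at h2
    refine h2.congr fun N => ?_
    simp only [Function.comp]
    rw [← integral_emp]
    change (∫ t, ((f t : ℝ) : ℂ) ∂(emp x N)).re = _
    rw [integral_complex_ofReal]; simp [hμs]
  have key := ProbabilityMeasure.tendsto_measure_of_null_frontier_of_tendsto' hlim
    (E := ((↑) : ℝ → AddCircle (1 : ℝ)) '' Set.Ico a b) (frontier_null a b)
  have key2 : Tendsto (fun N => ((emp x N) (((↑) : ℝ → AddCircle (1 : ℝ)) '' Set.Ico a b)).toReal)
      atTop (𝓝 (b - a)) := by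
    have h3 := (ENNReal.tendsto_toReal (by
      change (volume : Measure (AddCircle (1 : ℝ))) _ ≠ ⊤
      rw [volume_Ico ha hab hb]; simp)).comp key
    have h4 : ((μ : Measure (AddCircle (1 : ℝ)))
        (((↑) : ℝ → AddCircle (1 : ℝ)) '' Set.Ico a b)).toReal = b - a := by
      change ((volume : Measure (AddCircle (1 : ℝ))) _).toReal = _
      rw [volume_Ico ha hab hb, ENNReal.toReal_ofReal (by linarith)]
    rw [h4] at h3
    exact h3
  rw [← tendsto_add_atTop_iff_nat 1]
  refine key2.congr fun N => ?_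
  rw [emp_real x N _ (meas_Ico a b) (fun n => a ≤ Int.fract (x n) ∧ Int.fract (x n) < b)
    (fun n => mem_image_Ico ha hb (x n)), ENNReal.toReal_ofReal (by positivity)]
  push_cast
  rfl

end Pool.Agent.Helper27.Cs
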