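import Pool.Agent.Helper27.CsA

open MeasureTheory Filter Topology

namespace Pool.Agent.Helper27.Cs

/-- average of `F` over the points `t + ∑ b_i x_i`, `b_i ∈ {0,1}`. -/
noncomputable def EE : List ℝ → (ℝ → ℂ) → ℝ → ℂ
  | [], F, t => F t
  | x :: l, F, t => (EE l F t + EE l F (t + x)) / 2

/-- average of a real function over the points `t + ∑ b_i x_i`, `b_i ∈ {0,1}`. -/
noncomputable def ER : List ℝ → (ℝ → ℝ) → ℝ → ℝ
  | [], F, t => F t
  | x :: l, F, t => (ER l F t + ER l F (t + x)) / 2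

lemma EE_append (l1 l2 : List ℝ) (F : ℝ → ℂ) (t : ℝ) :
    EE (l1 ++ l2) F t = EE l1 (EE l2 F) t := by
  induction l1 generalizing t with
  | nil => rfl
  | cons x l ih => simp only [List.cons_append, EE, ih]

lemma norm_EE_le (l : List ℝ) (F : ℝ → ℂ) (t : ℝ) : ‖EE l F t‖ ≤ ER l (fun s => ‖F s‖) t := by
  induction l generalizing t with
  | nil => exact le_rfl
  | cons x l ih =>
    simp only [EE, ER]
    rw [norm_div, Complex.norm_ofNat]
    have h1 := norm_add_le (EE l F t) (EE l F (t + x))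
    have h2 := ih t
    have h3 := ih (t + x)
    linarith

lemma ER_mono {l : List ℝ} {F G : ℝ → ℝ} {t : ℝ} (hl : ∀ x ∈ l, 0 ≤ x)
    (h : ∀ s, t ≤ s → s ≤ t + l.sum → F s ≤ G s) : ER l F t ≤ ER l G t := by
  induction l generalizing t with
  | nil => exact h t le_rfl (by simp)
  | cons x l ih =>
    simp only [ER]
    have hx : 0 ≤ x := hl x (by simp)
    have hl' : ∀ x ∈ l, 0 ≤ x := fun x hx => hl x (by simp [hx])
    have hs : 0 ≤ l.sum := List.sum_nonneg hl'
    have h1 : ER l F t ≤ ER l G t := ih hl' fun s hs1 hs2 => h s hs1 (by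
      rw [List.sum_cons]; linarith)
    have h2 : ER l F (t + x) ≤ ER l G (t + x) := ih hl' fun s hs1 hs2 => h s (by linarith) (by
      rw [List.sum_cons]; linarith)
    linarith

lemma ER_mul_const (l : List ℝ) (F : ℝ → ℝ) (c t : ℝ) :
    ER l (fun s => c * F s) t = c * ER l F t := by
  induction l generalizing t with
  | nil => rfl
  | cons x l ih => simp only [ER, ih]; ring

lemma ER_add_const (l : List ℝ) (F : ℝ → ℝ) (c t : ℝ) :
    ER l (fun s => F s + c) t = ER l F t + c := by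
  induction l generalizing t with
  | nil => rfl
  | cons x l ih => simp only [ER, ih]; ring

lemma ER_const (l : List ℝ) (c t : ℝ) : ER l (fun _ => c) t = c := by
  induction l generalizing t with
  | nil => rfl
  | cons x l ih => simp only [ER, ih]; ring

lemma EE_sub (l : List ℝ) (F G : ℝ → ℂ) (t : ℝ) :
    EE l (fun s => F s - G s) t = EE l F t - EE l G t := by
  induction l generalizing t with
  | nil => rfl
  | cons x l ih => simp only [EE, ih]; ring

lemma EE_mult (l : List ℝ) (H : ℝ → ℂ) (m : ℝ → ℂ) (hm : ∀ s y, H (s + y) = H s * m y) (t : ℝ) :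
    EE l H t = H t * (l.map fun y => (1 + m y) / 2).prod := by
  induction l generalizing t with
  | nil => simp [EE]
  | cons x l ih =>
    simp only [EE, List.map_cons, List.prod_cons]
    rw [ih, ih, hm]
    ring

lemma norm_ee_sub_one_le (t : ℝ) : ‖ee t - 1‖ ≤ 2 * Real.pi * |t| := by
  have h := Real.norm_exp_I_mul_ofReal_sub_one_le (x := 2 * Real.pi * t)
  have e : Complex.exp (Complex.I * ((2 * Real.pi * t : ℝ) : ℂ)) = ee t := by
    rw [ee]; congr 1; push_cast; ring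
  rw [e] at h
  refine h.trans ?_
  rw [Real.norm_eq_abs, abs_mul, abs_of_pos (by positivity)]

lemma norm_ee_sub_le (s t : ℝ) : ‖ee s - ee t‖ ≤ 2 * Real.pi * |s - t| := by
  have : ee s - ee t = ee t * (ee (s - t) - 1) := by
    rw [mul_sub, ← ee_add, mul_one]; congr 2; ring
  rw [this, norm_mul, norm_ee, one_mul]
  exact norm_ee_sub_one_le _

lemma norm_one_sub_ee {d : ℝ} (h0 : 0 ≤ d) (h1 : d ≤ 1 / 2) : 4 * d ≤ ‖ee d - 1‖ := by
  have h := Complex.norm_exp_I_mul_ofReal_sub_one (x := 2 * Real.pi * d)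
  have e : Complex.exp (Complex.I * ((2 * Real.pi * d : ℝ) : ℂ)) = ee d := by
    rw [ee]; congr 1; push_cast; ring
  rw [e] at h
  rw [h]
  have h2 : 2 * Real.pi * d / 2 = Real.pi * d := by ring
  rw [h2]
  have h3 := Real.mul_le_sin (x := Real.pi * d) (by positivity) (by nlinarith [Real.pi_pos])
  have h4 : 2 / Real.pi * (Real.pi * d) = 2 * d := by field_simp
  rw [h4] at h3
  rw [Real.norm_eq_abs]
  refine le_trans ?_ (le_abs_self _)
  linarith

/-- the oscillating function -/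
noncomputable def Phi (ξ t : ℝ) : ℂ := ee (ξ / (1 + t))

noncomputable def gg (ξ y t : ℝ) : ℝ := ‖(1 + ee (-(ξ * y / (1 + t) ^ 2))) / 2‖

lemma gg_nonneg (ξ y t : ℝ) : 0 ≤ gg ξ y t := norm_nonneg _

lemma gg_le_one (ξ y t : ℝ) : gg ξ y t ≤ 1 := by
  unfold gg
  rw [norm_div, Complex.norm_ofNat]
  have := norm_add_le (1 : ℂ) (ee (-(ξ * y / (1 + t) ^ 2)))
  rw [norm_ee, norm_one] at this
  linarith

lemma lemmaB {ξ t : ℝ} (hξ : 0 ≤ ξ) (ht : 0 ≤ t) {ys : List ℝ} (hys : ∀ y ∈ ys, 0 ≤ y) :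
    ‖EE ys (Phi ξ) t‖ ≤ (ys.map fun y => gg ξ y t).prod + 2 * Real.pi * (ξ * ys.sum ^ 2) := by
  set H : ℝ → ℂ := fun s => ee (ξ / (1 + t) - ξ / (1 + t) ^ 2 * (s - t)) with hH
  have hm : ∀ s y, H (s + y) = H s * ee (-(ξ * y / (1 + t) ^ 2)) := by
    intro s y
    simp only [hH]
    rw [← ee_add]; congr 1; ring
  have h1 : ‖EE ys H t‖ = (ys.map fun y => gg ξ y t).prod := by
    rw [EE_mult ys H _ hm, norm_mul, norm_ee, one_mul]
    unfold gg
    induction ys with
    | nil => simp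
    | cons y l ih =>
      simp only [List.map_cons, List.prod_cons, norm_mul]
      rw [ih (fun x hx => hys x (by simp [hx]))]
  have h2 : EE ys (Phi ξ) t = EE ys H t + EE ys (fun s => Phi ξ s - H s) t := by
    rw [EE_sub]; ring
  have h3 : ‖EE ys (fun s => Phi ξ s - H s) t‖ ≤ 2 * Real.pi * (ξ * ys.sum ^ 2) := by
    refine (norm_EE_le _ _ _).trans ?_
    rw [← ER_const ys (2 * Real.pi * (ξ * ys.sum ^ 2)) t]
    refine ER_mono hys fun s hs1 hs2 => ?_
    refine (norm_ee_sub_le _ _).trans ?_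
    have hs : s - t ≤ ys.sum := by linarith
    have hs0 : 0 ≤ s := by linarith
    have e : ξ / (1 + s) - (ξ / (1 + t) - ξ / (1 + t) ^ 2 * (s - t)) =
        ξ * ((s - t) ^ 2 / ((1 + t) ^ 2 * (1 + s))) := by
      have : 1 + s ≠ 0 := by linarith
      have : 1 + t ≠ 0 := by linarith
      field_simp
      ring
    rw [e, abs_of_nonneg (by positivity)]
    gcongr
    rw [div_le_iff₀ (by positivity)]
    have h5 : (s - t) ^ 2 ≤ ys.sum ^ 2 := by
      apply pow_le_pow_left₀ (by linarith) hs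
    have h6 : 1 ≤ (1 + t) ^ 2 * (1 + s) := by nlinarith [mul_nonneg ht ht]
    nlinarith [sq_nonneg ys.sum]
  rw [h2]
  refine (norm_add_le _ _).trans ?_
  rw [h1]
  linarith

/-- well separated list of pairs of scales. -/
def Good (ξ : ℝ) : List (ℝ × ℝ) → Prop
  | [] => True
  | p :: L => 0 < p.1 ∧ 0 < p.2 ∧ 1 / 2 ^ 10 < ξ * p.1 * p.2 ∧ ξ * p.1 * p.2 ≤ 1 / 8 ∧
      (L.map Prod.fst).sum ≤ p.1 / 2 ∧ Good ξ L

lemma Good.pos {ξ : ℝ} {L : List (ℝ × ℝ)} (h : Good ξ L) :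
    ∀ x ∈ L.map Prod.fst, 0 ≤ x := by
  induction L with
  | nil => simp
  | cons p L ih =>
    intro x hx
    simp only [List.map_cons, List.mem_cons] at hx
    rcases hx with rfl | hx
    · exact h.1.le
    · exact ih h.2.2.2.2.2 x hx

lemma Good.pos' {ξ : ℝ} {L : List (ℝ × ℝ)} (h : Good ξ L) :
    ∀ x ∈ L.map Prod.snd, 0 ≤ x := by
  induction L with
  | nil => simp
  | cons p L ih =>
    intro x hx
    simp only [List.map_cons, List.mem_cons] at hx
    rcases hx with rfl | hx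
    · exact h.2.1.le
    · exact ih h.2.2.2.2.2 x hx

/-- decay rate -/
noncomputable def rr : ℝ := 1 - 1 / 2 ^ 32

lemma sq_identity (z : ℂ) (hz : ‖z‖ = 1) : ‖z - 1‖ ^ 2 + ‖1 + z‖ ^ 2 = 4 := by
  have h1 : z.re * z.re + z.im * z.im = 1 := by
    have := Complex.normSq_eq_norm_sq z
    rw [hz, Complex.normSq_apply] at this
    linarith
  rw [← Complex.normSq_eq_norm_sq, ← Complex.normSq_eq_norm_sq, Complex.normSq_apply,
    Complex.normSq_apply]
  simp
  nlinarith

/-- two points whose phases differ noticeably cannot both be near maximal -/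
lemma not_both {ξ y s0 s1 : ℝ} (h1 : 1 / 2 ^ 14 ≤ ξ * y / (1 + s0) ^ 2 - ξ * y / (1 + s1) ^ 2)
    (h2 : ξ * y / (1 + s0) ^ 2 - ξ * y / (1 + s1) ^ 2 ≤ 1 / 2)
    (h3 : 1 - 1 / 2 ^ 31 < gg ξ y s0) (h4 : 1 - 1 / 2 ^ 31 < gg ξ y s1) : False := by
  set u0 := ξ * y / (1 + s0) ^ 2 with hu0
  set u1 := ξ * y / (1 + s1) ^ 2 with hu1
  have key : ∀ u : ℝ, 1 - 1 / 2 ^ 31 < ‖(1 + ee (-u)) / 2‖ → ‖ee (-u) - 1‖ ≤ 1 / 2 ^ 14 := by
    intro u hu
    rw [norm_div, Complex.norm_ofNat] at hu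
    have h5 := sq_identity (ee (-u)) (norm_ee _)
    have h6 : 0 ≤ ‖ee (-u) - 1‖ := norm_nonneg _
    have h7 : (2 * (1 - 1 / 2 ^ 31)) ^ 2 < ‖1 + ee (-u)‖ ^ 2 := by
      apply pow_lt_pow_left₀ _ (by norm_num) (by norm_num)
      linarith
    have h8 : ‖ee (-u) - 1‖ ^ 2 ≤ (1 / 2 ^ 14) ^ 2 := by
      have : (4 : ℝ) - (2 * (1 - 1 / 2 ^ 31)) ^ 2 ≤ (1 / 2 ^ 14) ^ 2 := by norm_num
      linarith
    exact (pow_le_pow_iff_left₀ h6 (by positivity) (by norm_num)).1 h8
  have h5 := key u0 h3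
  have h6 := key u1 h4
  have h7 := norm_one_sub_ee (d := u0 - u1) (by linarith [show (0:ℝ) ≤ 1 / 2 ^ 14 by positivity]) h2
  have h8 : ‖ee (u0 - u1) - 1‖ = ‖ee (-u1) - ee (-u0)‖ := by
    have : ee (-u1) - ee (-u0) = ee (-u0) * (ee (u0 - u1) - 1) := by
      rw [mul_sub, ← ee_add, mul_one]; congr 2; ring
    rw [this, norm_mul, norm_ee, one_mul]
  have h9 : ‖ee (-u1) - ee (-u0)‖ ≤ ‖ee (-u1) - 1‖ + ‖ee (-u0) - 1‖ := by
    have : ee (-u1) - ee (-u0) = (ee (-u1) - 1) - (ee (-u0) - 1) := by ring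
    rw [this]; exact norm_sub_le _ _
  have h10 : (4 : ℝ) * (1 / 2 ^ 14) ≤ 1 / 2 ^ 14 + 1 / 2 ^ 14 := by
    calc (4 : ℝ) * (1 / 2 ^ 14) ≤ 4 * (u0 - u1) := by linarith
      _ ≤ _ := h7
      _ ≤ _ := by rw [h8]; linarith
  norm_num at h10

lemma lemmaA {ξ : ℝ} (hξ : 0 < ξ) {L : List (ℝ × ℝ)} (hL : Good ξ L) {t : ℝ} (ht : 0 ≤ t)
    (ht1 : t + (L.map Prod.fst).sum ≤ 1) :
    ER (L.map Prod.fst) (fun s => (L.map fun p => gg ξ p.2 s).prod) t ≤ rr ^ L.length := by
  induction L generalizing t with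
  | nil => simp [ER]
  | cons p L ih =>
    obtain ⟨x, y⟩ := p
    obtain ⟨hx, hy, h1, h2, h3, hL'⟩ := hL
    simp only at hx hy h1 h2 h3
    simp only [List.map_cons, List.sum_cons, List.length_cons, List.prod_cons] at ht1 ⊢
    simp only [ER]
    set X := (L.map Prod.fst).sum with hX
    have hXpos : 0 ≤ X := List.sum_nonneg hL'.pos
    set G : ℝ → ℝ := fun s => (L.map fun p => gg ξ p.2 s).prod with hG
    have hGnn : ∀ s, 0 ≤ G s := by
      intro s
      apply List.prod_nonneg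
      intro a ha
      obtain ⟨q, _, rfl⟩ := List.mem_map.1 ha
      exact gg_nonneg _ _ _
    have i0 := ih hL' ht (by linarith)
    have i1 := ih hL' (t := t + x) (by linarith) (by linarith)
    have a0 : ER (L.map Prod.fst) (fun s => gg ξ y s * G s) t ≤ rr ^ L.length := by
      refine le_trans (ER_mono hL'.pos fun s _ _ => ?_) i0
      exact mul_le_of_le_one_left (hGnn s) (gg_le_one _ _ _)
    have a1 : ER (L.map Prod.fst) (fun s => gg ξ y s * G s) (t + x) ≤ rr ^ L.length := by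
      refine le_trans (ER_mono hL'.pos fun s _ _ => ?_) i1
      exact mul_le_of_le_one_left (hGnn s) (gg_le_one _ _ _)
    have hrr : (0 : ℝ) ≤ rr := by unfold rr; norm_num
    have hrl : (0 : ℝ) ≤ rr ^ L.length := pow_nonneg hrr _
    have hor : (∀ s, t ≤ s → s ≤ t + X → gg ξ y s ≤ 1 - 1 / 2 ^ 31) ∨
        (∀ s, t + x ≤ s → s ≤ t + x + X → gg ξ y s ≤ 1 - 1 / 2 ^ 31) := by
      by_contra hcon
      push Not at hcon
      obtain ⟨⟨s0, b1, b2, b3⟩, ⟨s1, c1, c2, c3⟩⟩ := hcon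
      have hs0 : 0 ≤ s0 := by linarith
      have hs1 : 0 ≤ s1 := by linarith
      have hs01 : s0 ≤ 1 := by linarith
      have hs11 : s1 ≤ 1 := by linarith
      have hd1 : x / 2 ≤ s1 - s0 := by linarith
      have hd2 : s1 - s0 ≤ 3 * x / 2 := by linarith
      have e : ξ * y / (1 + s0) ^ 2 - ξ * y / (1 + s1) ^ 2 =
          ξ * y * (s1 - s0) * ((2 + s0 + s1) / ((1 + s0) ^ 2 * (1 + s1) ^ 2)) := by
        have : 1 + s0 ≠ 0 := by linarith
        have : 1 + s1 ≠ 0 := by linarith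
        field_simp
        ring
      have hq1 : 1 / 8 ≤ (2 + s0 + s1) / ((1 + s0) ^ 2 * (1 + s1) ^ 2) := by
        rw [le_div_iff₀ (by positivity)]
        have q1 : (1 + s0) ^ 2 ≤ 4 := by nlinarith
        have q2 : (1 + s1) ^ 2 ≤ 4 := by nlinarith
        have q3 : (1 + s0) ^ 2 * (1 + s1) ^ 2 ≤ 4 * 4 := by
          apply mul_le_mul q1 q2 (by positivity) (by norm_num)
        linarith
      have hq2 : (2 + s0 + s1) / ((1 + s0) ^ 2 * (1 + s1) ^ 2) ≤ 2 := by
        rw [div_le_iff₀ (by positivity)]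
        have q1 : 1 + s0 ≤ (1 + s0) ^ 2 := by nlinarith
        have q2 : 1 + s1 ≤ (1 + s1) ^ 2 := by nlinarith
        have q3 : (1 + s0) * (1 + s1) ≤ (1 + s0) ^ 2 * (1 + s1) ^ 2 := by
          apply mul_le_mul q1 q2 (by positivity) (by positivity)
        nlinarith [mul_nonneg hs0 hs1]
      have hA1 : ξ * y * (x / 2) ≤ ξ * y * (s1 - s0) := by gcongr
      have hA2 : ξ * y * (s1 - s0) ≤ ξ * y * (3 * x / 2) := by gcongr
      have hA3 : 0 ≤ ξ * y * (s1 - s0) := by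
        have : 0 ≤ s1 - s0 := by linarith
        positivity
      refine not_both (ξ := ξ) (y := y) (s0 := s0) (s1 := s1) ?_ ?_ b3 c3
      · rw [e]
        calc (1 : ℝ) / 2 ^ 14 = (1 / 2 ^ 10 / 2) * (1 / 8) := by norm_num
          _ ≤ ξ * y * (s1 - s0) * ((2 + s0 + s1) / ((1 + s0) ^ 2 * (1 + s1) ^ 2)) := by
            apply mul_le_mul _ hq1 (by norm_num) hA3
            linarith
      · rw [e]
        calc ξ * y * (s1 - s0) * ((2 + s0 + s1) / ((1 + s0) ^ 2 * (1 + s1) ^ 2))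
            ≤ (3 / 16) * 2 := by
              apply mul_le_mul _ hq2 (by positivity) (by norm_num)
              linarith
          _ ≤ 1 / 2 := by norm_num
    have hfin : ∀ (A B : ℝ), A ≤ (1 - 1 / 2 ^ 31) * rr ^ L.length → B ≤ rr ^ L.length →
        (A + B) / 2 ≤ rr ^ (L.length + 1) := by
      intro A B hA hB
      have : rr ^ (L.length + 1) = rr ^ L.length * (1 - 1 / 2 ^ 32) := by
        rw [pow_succ]; rfl
      rw [this]
      linarith
    rcases hor with h | h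
    · apply hfin _ _ _ a1
      calc ER (L.map Prod.fst) (fun s => gg ξ y s * G s) t
          ≤ ER (L.map Prod.fst) (fun s => (1 - 1 / 2 ^ 31) * G s) t :=
            ER_mono hL'.pos fun s hs1 hs2 => mul_le_mul_of_nonneg_right (h s hs1 hs2) (hGnn s)
        _ = (1 - 1 / 2 ^ 31) * ER (L.map Prod.fst) G t := ER_mul_const _ _ _ _
        _ ≤ _ := mul_le_mul_of_nonneg_left i0 (by norm_num)
    · rw [add_comm]
      apply hfin _ _ _ a0
      calc ER (L.map Prod.fst) (fun s => gg ξ y s * G s) (t + x)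
          ≤ ER (L.map Prod.fst) (fun s => (1 - 1 / 2 ^ 31) * G s) (t + x) :=
            ER_mono hL'.pos fun s hs1 hs2 => mul_le_mul_of_nonneg_right (h s hs1 hs2) (hGnn s)
        _ = (1 - 1 / 2 ^ 31) * ER (L.map Prod.fst) G (t + x) := ER_mul_const _ _ _ _
        _ ≤ _ := mul_le_mul_of_nonneg_left i1 (by norm_num)

/-- the main deterministic bound -/
lemma main_bound {ξ : ℝ} (hξ : 0 < ξ) {L : List (ℝ × ℝ)} (hL : Good ξ L) {t : ℝ} (ht : 0 ≤ t)
    (ht1 : t + (L.map Prod.fst).sum ≤ 1) :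
    ‖EE (L.map Prod.fst ++ L.map Prod.snd) (Phi ξ) t‖ ≤
      rr ^ L.length + 2 * Real.pi * (ξ * (L.map Prod.snd).sum ^ 2) := by
  rw [EE_append]
  refine (norm_EE_le _ _ _).trans ?_
  calc ER (L.map Prod.fst) (fun s => ‖EE (L.map Prod.snd) (Phi ξ) s‖) t
      ≤ ER (L.map Prod.fst) (fun s => (L.map fun p => gg ξ p.2 s).prod +
          2 * Real.pi * (ξ * (L.map Prod.snd).sum ^ 2)) t := by
        refine ER_mono hL.pos fun s hs1 _ => ?_
        have := lemmaB hξ.le (ht.trans hs1) hL.pos'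
        simpa [List.map_map, Function.comp_def] using this
    _ = ER (L.map Prod.fst) (fun s => (L.map fun p => gg ξ p.2 s).prod) t +
          2 * Real.pi * (ξ * (L.map Prod.snd).sum ^ 2) := ER_add_const _ _ _ _
    _ ≤ _ := by
        have := lemmaA hξ hL ht ht1
        linarith

end Pool.Agent.Helper27.Cs
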