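import Pool.Agent.Helper27.CsC

open MeasureTheory Filter Topology

namespace Pool.Agent.Helper27.Cs

/-- partial products of a basic sequence; `A q n = q_1 ⋯ q_n` with `q_{i+1} = q i`. -/
def A (q : ℕ → ℕ) (n : ℕ) : ℕ := ∏ i ∈ Finset.range n, q i

variable {q : ℕ → ℕ}

lemma A_zero : A q 0 = 1 := by simp [A]

lemma A_succ (n : ℕ) : A q (n + 1) = A q n * q n := by
  simp [A, Finset.prod_range_succ]

lemma A_pos (hq : ∀ n, 2 ≤ q n) (n : ℕ) : 0 < A q n := by
  apply Finset.prod_pos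
  intro i _
  have := hq i
  omega

lemma A_add (hq : ∀ n, 2 ≤ q n) (n k : ℕ) : 2 ^ k * A q n ≤ A q (n + k) := by
  induction k with
  | zero => simp
  | succ k ih =>
    rw [← add_assoc, A_succ, pow_succ]
    calc 2 ^ k * 2 * A q n = (2 ^ k * A q n) * 2 := by ring
      _ ≤ A q (n + k) * q (n + k) := Nat.mul_le_mul ih (hq _)

lemma A_dvd {m n : ℕ} (h : m ≤ n) : A q m ∣ A q n := by
  obtain ⟨k, rfl⟩ := Nat.exists_eq_add_of_le h
  induction k with
  | zero => simp
  | succ k ih =>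
    rw [← add_assoc, A_succ]
    exact Dvd.dvd.mul_right (ih (by omega)) _

lemma A_mono (hq : ∀ n, 2 ≤ q n) {m n : ℕ} (h : m ≤ n) : A q m ≤ A q n :=
  Nat.le_of_dvd (A_pos hq n) (A_dvd h)

lemma A_ge (hq : ∀ n, 2 ≤ q n) (n : ℕ) : 2 ^ n ≤ A q n := by
  have := A_add hq 0 n
  simpa [A_zero] using this

/-- the allowed scales -/
def Lam (q : ℕ → ℕ) : Set ℕ :=
  {l | 1 ≤ l ∧ ∀ m, ¬ (A q (8 * m) < 2 ^ l ∧ 2 ^ l ≤ 32 * A q (8 * m))}

lemma exists_Lam (hq : ∀ n, 2 ≤ q n) {l0 : ℕ} (h0 : 1 ≤ l0) :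
    ∃ l ∈ Lam q, l0 ≤ l ∧ l ≤ l0 + 5 := by
  classical
  by_cases hl : l0 ∈ Lam q
  · exact ⟨l0, hl, le_rfl, by omega⟩
  · simp only [Lam, Set.mem_ofPred_eq, not_and, not_forall, not_not] at hl
    obtain ⟨m, h1, h2⟩ := hl h0
    have hex : ∃ l, 32 * A q (8 * m) < 2 ^ l := ⟨l0 + 5, by
      rw [pow_add]; omega⟩
    set l := Nat.find hex with hl
    have h3 : 32 * A q (8 * m) < 2 ^ l := Nat.find_spec hex
    have h4 : l ≤ l0 + 5 := Nat.find_min' hex (by rw [pow_add]; omega)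
    have h5 : l0 < l := by
      by_contra hcon
      push Not at hcon
      have : 2 ^ l ≤ 2 ^ l0 := Nat.pow_le_pow_right (by norm_num) hcon
      omega
    have h6 : 2 ^ (l - 1) ≤ 32 * A q (8 * m) := by
      have := Nat.find_min hex (m := l - 1) (by omega)
      omega
    have h7 : 2 ^ l ≤ 64 * A q (8 * m) := by
      have : l = (l - 1) + 1 := by omega
      rw [this, pow_succ]; omega
    refine ⟨l, ⟨by omega, ?_⟩, h5.le, h4⟩
    rintro m' ⟨a1, a2⟩
    rcases le_or_gt m' m with hm | hm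
    · have := A_mono hq (m := 8 * m') (n := 8 * m) (by omega)
      omega
    · have b1 := A_mono hq (m := 8 * m + 8) (n := 8 * m') (by omega)
      have b2 := A_add hq (8 * m) 8
      omega

lemma exists_nn (hq : ∀ n, 2 ≤ q n) (l : ℕ) : ∃ n, 2 ^ l ≤ A q n := ⟨l, A_ge hq l⟩

open Classical in
/-- the weights of the bits -/
noncomputable def cc (q : ℕ → ℕ) (l : ℕ) : ℝ :=
  if h : l ∈ Lam q ∧ ∃ n, 2 ^ l ≤ A q n then
    ((A q (Nat.find h.2) / 2 ^ l : ℕ) : ℝ) / (A q (Nat.find h.2) : ℝ) else 0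

lemma cc_of_not {l : ℕ} (h : l ∉ Lam q) : cc q l = 0 := by
  unfold cc
  rw [dif_neg (fun h' => h h'.1)]

lemma cc_nonneg (l : ℕ) : 0 ≤ cc q l := by
  unfold cc
  split_ifs
  · positivity
  · exact le_rfl

lemma cc_le (l : ℕ) : cc q l ≤ (1 / 2) ^ l := by
  classical
  unfold cc
  split_ifs with h
  · set n := Nat.find h.2 with hn
    have h1 : 2 ^ l ≤ A q n := Nat.find_spec h.2
    have hA : 0 < (A q n : ℝ) := by
      have : 0 < A q n := lt_of_lt_of_le (by positivity) h1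
      exact_mod_cast this
    rw [div_le_iff₀ hA]
    have h2 : (A q n / 2 ^ l) * 2 ^ l ≤ A q n := Nat.div_mul_le_self _ _
    have h3 : ((A q n / 2 ^ l : ℕ) : ℝ) * 2 ^ l ≤ A q n := by exact_mod_cast h2
    rw [one_div, inv_pow, ← div_eq_inv_mul, le_div_iff₀ (by positivity)]
    exact h3
  · positivity

lemma lt_cc (hq : ∀ n, 2 ≤ q n) {l : ℕ} (hl : l ∈ Lam q) : (1 / 2) ^ (l + 1) < cc q l := by
  classical
  unfold cc
  have h : l ∈ Lam q ∧ ∃ n, 2 ^ l ≤ A q n := ⟨hl, exists_nn hq l⟩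
  rw [dif_pos h]
  set n := Nat.find h.2 with hn
  have h1 : 2 ^ l ≤ A q n := Nat.find_spec h.2
  have hA' : 0 < A q n := lt_of_lt_of_le (by positivity) h1
  have hA : 0 < (A q n : ℝ) := by exact_mod_cast hA'
  rw [lt_div_iff₀ hA]
  have h2 : 1 ≤ A q n / 2 ^ l := (Nat.one_le_div_iff (by positivity)).2 h1
  have h3 : A q n < (A q n / 2 ^ l + 1) * 2 ^ l := by
    have := Nat.lt_div_mul_add (a := A q n) (b := 2 ^ l) (by positivity)
    rw [add_mul, one_mul]; exact this
  have h4 : A q n < (2 * (A q n / 2 ^ l)) * 2 ^ l := lt_of_lt_of_le h3 (by gcongr; omega)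
  have h5 : (A q n : ℝ) < (2 * ((A q n / 2 ^ l : ℕ) : ℝ)) * 2 ^ l := by exact_mod_cast h4
  rw [one_div, inv_pow, ← div_eq_inv_mul, div_lt_iff₀ (by positivity), pow_succ]
  linarith

lemma cc_int {l m : ℕ} (h : 2 ^ l ≤ A q m) : ∃ k : ℕ, (A q m : ℝ) * cc q l = k := by
  classical
  unfold cc
  split_ifs with h'
  · set n := Nat.find h'.2 with hn
    have h1 : 2 ^ l ≤ A q n := Nat.find_spec h'.2
    have hA : 0 < (A q n : ℝ) := by
      have : 0 < A q n := lt_of_lt_of_le (by positivity) h1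
      exact_mod_cast this
    have h2 : n ≤ m := Nat.find_min' h'.2 h
    obtain ⟨k, hk⟩ := A_dvd (q := q) h2
    refine ⟨k * (A q n / 2 ^ l), ?_⟩
    rw [hk]
    push_cast
    field_simp
  · exact ⟨0, by simp⟩

/-- the random point -/
noncomputable def zz (q : ℕ → ℕ) (ε : ℕ → Bool) : ℝ := ∑' l, if ε l then cc q l else 0

lemma bit_le (ε : ℕ → Bool) (l : ℕ) : (if ε l then cc q l else 0) ≤ (1 / 2) ^ l := by
  split_ifs
  · exact cc_le l
  · positivity

lemma bit_nonneg (ε : ℕ → Bool) (l : ℕ) : 0 ≤ (if ε l then cc q l else 0) := by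
  split_ifs
  · exact cc_nonneg l
  · exact le_rfl

lemma summable_bits (ε : ℕ → Bool) : Summable (fun l => if ε l then cc q l else 0) :=
  Summable.of_nonneg_of_le (bit_nonneg ε) (bit_le ε) summable_geometric_two

lemma zz_nonneg (ε : ℕ → Bool) : 0 ≤ zz q ε := tsum_nonneg (bit_nonneg ε)

lemma zero_notMem : 0 ∉ Lam q := fun h => absurd h.1 (by norm_num)

lemma one_notMem : 1 ∉ Lam q := fun h => h.2 0 (by simp [A_zero])

lemma zz_le (ε : ℕ → Bool) : zz q ε ≤ 1 / 2 := by
  unfold zz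
  rw [← (summable_bits ε).sum_add_tsum_nat_add 2]
  have h1 : ∑ i ∈ Finset.range 2, (if ε i then cc q i else 0) = 0 := by
    rw [Finset.sum_range_succ, Finset.sum_range_one, cc_of_not zero_notMem, cc_of_not one_notMem]
    simp
  rw [h1, zero_add]
  have hs : Summable (fun i : ℕ => ((1 : ℝ) / 2) ^ (i + 2)) :=
    (summable_nat_add_iff 2).2 summable_geometric_two
  calc ∑' i, (if ε (i + 2) then cc q (i + 2) else 0) ≤ ∑' i : ℕ, ((1 : ℝ) / 2) ^ (i + 2) :=
        ((summable_nat_add_iff 2).2 (summable_bits ε)).tsum_le_tsum (fun i => bit_le ε (i + 2)) hs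
    _ = 1 / 2 := by
        simp only [pow_add]
        rw [tsum_mul_right, tsum_geometric_two]; norm_num

/-- positions divisible by `8` see a very small fractional part. -/
lemma fract_lt (hq : ∀ n, 2 ≤ q n) (ε : ℕ → Bool) (m : ℕ) :
    Int.fract ((A q (8 * m) : ℝ) * zz q ε) < 1 / 16 := by
  classical
  set a := A q (8 * m) with ha
  have hex : ∃ l, a < 2 ^ l := ⟨a, Nat.lt_two_pow_self⟩
  set L := Nat.find hex with hL
  have h1 : a < 2 ^ L := Nat.find_spec hex
  have h2 : ∀ l < L, 2 ^ l ≤ a := fun l hl => by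
    have := Nat.find_min hex hl
    omega
  have hapos : 0 < a := A_pos hq _
  -- vanishing weights
  have h3 : ∀ l, L ≤ l → l < L + 5 → cc q l = 0 := by
    intro l hl1 hl2
    apply cc_of_not
    rintro ⟨-, h4⟩
    apply h4 m
    constructor
    · exact lt_of_lt_of_le h1 (Nat.pow_le_pow_right (by norm_num) hl1)
    · have hLpos : 1 ≤ L := by
        by_contra hcon
        have : L = 0 := by omega
        rw [this] at h1
        simp at h1
        omega
      have h5 := h2 (L - 1) (by omega)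
      have h6 : 2 ^ l ≤ 2 ^ (L - 1 + 5) := Nat.pow_le_pow_right (by norm_num) (by omega)
      rw [pow_add] at h6
      omega
  unfold zz
  rw [← (summable_bits ε).sum_add_tsum_nat_add (L + 5), mul_add, Finset.mul_sum]
  have h4 : ∃ k : ℕ, ∑ i ∈ Finset.range (L + 5), (a : ℝ) * (if ε i then cc q i else 0) = k := by
    have : ∀ i ∈ Finset.range (L + 5), ∃ k : ℕ, (a : ℝ) * (if ε i then cc q i else 0) = k := by
      intro i hi
      rw [Finset.mem_range] at hi
      split_ifs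
      · rcases lt_or_ge i L with h | h
        · exact cc_int (h2 i h)
        · exact ⟨0, by rw [h3 i h hi]; simp⟩
      · exact ⟨0, by simp⟩
    choose! k hk using this
    refine ⟨∑ i ∈ Finset.range (L + 5), k i, ?_⟩
    push_cast
    exact Finset.sum_congr rfl hk
  obtain ⟨k, hk⟩ := h4
  rw [hk, Int.fract_natCast_add]
  set T := (a : ℝ) * ∑' i, (if ε (i + (L + 5)) then cc q (i + (L + 5)) else 0) with hT
  have hT0 : 0 ≤ T := by
    apply mul_nonneg (by positivity)
    exact tsum_nonneg fun i => bit_nonneg ε _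
  have hT1 : T < 1 / 16 := by
    have hs : Summable (fun i : ℕ => ((1 : ℝ) / 2) ^ (i + (L + 5))) :=
      (summable_nat_add_iff (L + 5)).2 summable_geometric_two
    have h5 : ∑' i, (if ε (i + (L + 5)) then cc q (i + (L + 5)) else 0) ≤
        2 * (1 / 2) ^ (L + 5) := by
      calc _ ≤ ∑' i : ℕ, ((1 : ℝ) / 2) ^ (i + (L + 5)) :=
            ((summable_nat_add_iff (L + 5)).2 (summable_bits ε)).tsum_le_tsum
              (fun i => bit_le ε _) hs
        _ = _ := by
            simp only [pow_add _ _ (L + 5)]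
            rw [tsum_mul_right, tsum_geometric_two]
    have h6 : (a : ℝ) * (1 / 2) ^ L < 1 := by
      rw [one_div, inv_pow, ← div_eq_mul_inv, div_lt_one (by positivity)]
      exact_mod_cast h1
    calc T ≤ a * (2 * (1 / 2) ^ (L + 5)) := mul_le_mul_of_nonneg_left h5 (by positivity)
      _ = (a * (1 / 2) ^ L) * (1 / 16) := by rw [pow_add]; ring
      _ < 1 * (1 / 16) := mul_lt_mul_of_pos_right h6 (by norm_num)
      _ = 1 / 16 := one_mul _
  rw [Int.fract_eq_self.2 ⟨hT0, by linarith⟩]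
  exact hT1

end Pool.Agent.Helper27.Cs
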