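import Pool.Agent.Helper27.CsD

open MeasureTheory Filter Topology

namespace Pool.Agent.Helper27.Cs

variable {q : ℕ → ℕ}

lemma exists_I (hq : ∀ n, 2 ≤ q n) :
    ∃ I : ℕ → ℕ, ∀ k, 1 ≤ k → I k ∈ Lam q ∧ 20 * k ≤ I k ∧ I k ≤ 20 * k + 5 := by
  have : ∀ k, ∃ i, 1 ≤ k → i ∈ Lam q ∧ 20 * k ≤ i ∧ i ≤ 20 * k + 5 := by
    intro k
    by_cases hk : 1 ≤ k
    · obtain ⟨l, h1, h2, h3⟩ := exists_Lam hq (l0 := 20 * k) (by omega)
      exact ⟨l, fun _ => ⟨h1, h2, h3⟩⟩
    · exact ⟨0, fun h => absurd h hk⟩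
  choose I hI using this
  exact ⟨I, hI⟩

lemma exists_j (hq : ∀ n, 2 ≤ q n) {X : ℝ} (hX : 1 ≤ X) :
    ∃ j ∈ Lam q, 1 / 2 ^ 7 < X * cc q j ∧ X * cc q j ≤ 1 := by
  obtain ⟨m, h1, h2⟩ := exists_nat_pow_near hX (by norm_num : (1 : ℝ) < 2)
  obtain ⟨j, hj, h3, h4⟩ := exists_Lam hq (l0 := m + 1) (by omega)
  refine ⟨j, hj, ?_, ?_⟩
  · have h5 := lt_cc hq hj
    have h6 : ((1 : ℝ) / 2) ^ (m + 7) ≤ (1 / 2) ^ (j + 1) :=
      pow_le_pow_of_le_one (by norm_num) (by norm_num) (by omega)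
    calc (1 : ℝ) / 2 ^ 7 = 2 ^ m * (1 / 2) ^ (m + 7) := by
          rw [pow_add, ← mul_assoc, ← mul_pow]; norm_num
      _ < 2 ^ m * cc q j := by
          apply mul_lt_mul_of_pos_left (lt_of_le_of_lt h6 h5) (by positivity)
      _ ≤ X * cc q j := mul_le_mul_of_nonneg_right h1 (cc_nonneg j)
  · have h5 := cc_le (q := q) j
    have h6 : ((1 : ℝ) / 2) ^ j ≤ (1 / 2) ^ (m + 1) :=
      pow_le_pow_of_le_one (by norm_num) (by norm_num) h3
    calc X * cc q j ≤ 2 ^ (m + 1) * (1 / 2) ^ (m + 1) :=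
          mul_le_mul h2.le (h5.trans h6) (cc_nonneg j) (by positivity)
      _ = 1 := by rw [← mul_pow]; norm_num

/-- the list of pairs of weights -/
noncomputable def LL (q : ℕ → ℕ) (I J : ℕ → ℕ) (k r : ℕ) : List (ℝ × ℝ) :=
  (List.range' k r).map fun i => (cc q (I i), cc q (J i))

lemma sum_I_le {I : ℕ → ℕ} (hI : ∀ k, 1 ≤ k → I k ∈ Lam q ∧ 20 * k ≤ I k ∧ I k ≤ 20 * k + 5)
    (J : ℕ → ℕ) {k : ℕ} (hk : 1 ≤ k) (r : ℕ) :
    ((LL q I J k r).map Prod.fst).sum ≤ 2 * (1 / 2) ^ (20 * k) := by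
  induction r generalizing k with
  | zero => simp [LL]
  | succ r ih =>
    have h1 := ih (k := k + 1) (by omega)
    have h2 : cc q (I k) ≤ (1 / 2) ^ (20 * k) :=
      (cc_le _).trans (pow_le_pow_of_le_one (by norm_num) (by norm_num) (hI k hk).2.1)
    have e : ((LL q I J k (r + 1)).map Prod.fst).sum =
        cc q (I k) + ((LL q I J (k + 1) r).map Prod.fst).sum := by
      simp [LL, List.range'_succ]
    rw [e]
    have h3 : (2 : ℝ) * (1 / 2) ^ (20 * (k + 1)) ≤ (1 / 2) ^ (20 * k) := by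
      rw [show 20 * (k + 1) = 20 * k + 20 by ring, pow_add]
      have : (0 : ℝ) ≤ (1 / 2) ^ (20 * k) := by positivity
      nlinarith
    linarith

theorem exists_pairs (hq : ∀ n, 2 ≤ q n) (w : ℕ) {ξ : ℝ} (hξ : 2 ^ (80 * w + 24) ≤ ξ) :
    ∃ (il jl : List ℕ) (L : List (ℝ × ℝ)), (il ++ jl).Nodup ∧ il.map (cc q) = L.map Prod.fst ∧
      jl.map (cc q) = L.map Prod.snd ∧ L.length = w ∧ Good ξ L ∧
      (L.map Prod.fst).sum ≤ 1 / 2 ∧
      ξ * (L.map Prod.snd).sum ^ 2 ≤ w ^ 2 * (1 / 2) ^ (40 * w + 18) := by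
  obtain ⟨I, hI⟩ := exists_I hq
  have hξ0 : 0 < ξ := lt_of_lt_of_le (by positivity) hξ
  -- lower bound for x_k
  have hx : ∀ k, 1 ≤ k → (1 / 2) ^ (20 * k + 6) < cc q (I k) := by
    intro k hk
    obtain ⟨h1, h2, h3⟩ := hI k hk
    refine lt_of_le_of_lt ?_ (lt_cc hq h1)
    exact pow_le_pow_of_le_one (by norm_num) (by norm_num) (by omega)
  have hxu : ∀ k, 1 ≤ k → cc q (I k) ≤ (1 / 2) ^ (20 * k) := by
    intro k hk
    exact (cc_le _).trans (pow_le_pow_of_le_one (by norm_num) (by norm_num) (hI k hk).2.1)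
  have hX : ∀ k, 1 ≤ k → k ≤ w → 1 ≤ 8 * ξ * cc q (I k) := by
    intro k hk hkw
    have h1 := hx k hk
    have h2 : ((1 : ℝ) / 2) ^ (20 * w + 6) ≤ (1 / 2) ^ (20 * k + 6) :=
      pow_le_pow_of_le_one (by norm_num) (by norm_num) (by omega)
    have h3 : (2 : ℝ) ^ (20 * w + 6) ≤ ξ :=
      le_trans (pow_le_pow_right₀ (by norm_num) (by omega)) hξ
    calc (1 : ℝ) = 2 ^ (20 * w + 6) * (1 / 2) ^ (20 * w + 6) := by
          rw [← mul_pow]; norm_num
      _ ≤ ξ * cc q (I k) := by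
          apply mul_le_mul h3 (by linarith) (by positivity) hξ0.le
      _ ≤ 8 * ξ * cc q (I k) := by
          have : 0 ≤ ξ * cc q (I k) := mul_nonneg hξ0.le (cc_nonneg _)
          linarith
  have hJex : ∀ k, ∃ j, 1 ≤ k → k ≤ w → j ∈ Lam q ∧ 1 / 2 ^ 7 < 8 * ξ * cc q (I k) * cc q j ∧
      8 * ξ * cc q (I k) * cc q j ≤ 1 := by
    intro k
    by_cases h : 1 ≤ k ∧ k ≤ w
    · obtain ⟨j, hj⟩ := exists_j hq (hX k h.1 h.2)
      exact ⟨j, fun _ _ => hj⟩
    · exact ⟨0, fun h1 h2 => absurd ⟨h1, h2⟩ h⟩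
  choose J hJ using hJex
  refine ⟨(List.range' 1 w).map I, (List.range' 1 w).map J, LL q I J 1 w, ?_, ?_, ?_, ?_, ?_, ?_, ?_⟩
  · -- nodup
    rw [List.nodup_append]
    refine ⟨?_, ?_, ?_⟩
    · apply List.Nodup.map_on _ List.nodup_range'
      intro a ha b hb hab
      rw [List.mem_range'_1] at ha hb
      have h1 := hI a (by omega)
      have h2 := hI b (by omega)
      omega
    · apply List.Nodup.map_on _ List.nodup_range'
      intro a ha b hb hab
      rw [List.mem_range'_1] at ha hb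
      by_contra hne
      wlog hlt : a < b generalizing a b
      · exact this b hb a ha hab.symm (Ne.symm hne) (by omega)
      have h1 := (hJ a (by omega) (by omega)).2
      have h2 := (hJ b (by omega) (by omega)).2
      rw [← hab] at h2
      have h3 := hx a (by omega)
      have h4 := hxu b (by omega)
      have h5 : ((1 : ℝ) / 2) ^ (20 * b) ≤ (1 / 2) ^ 14 * (1 / 2) ^ (20 * a + 6) := by
        rw [← pow_add]
        exact pow_le_pow_of_le_one (by norm_num) (by norm_num) (by omega)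
      have h6 : cc q (I b) ≤ (1 / 2) ^ 14 * cc q (I a) := by
        have : ((1 : ℝ) / 2) ^ 14 * (1 / 2) ^ (20 * a + 6) ≤ (1 / 2) ^ 14 * cc q (I a) :=
          mul_le_mul_of_nonneg_left h3.le (by norm_num)
        linarith
      have h7 : 8 * ξ * cc q (I b) * cc q (J a) ≤ (1 / 2) ^ 14 * (8 * ξ * cc q (I a) * cc q (J a)) := by
        have hJa := cc_nonneg (q := q) (J a)
        have : 8 * ξ * cc q (I b) * cc q (J a) ≤ 8 * ξ * ((1 / 2) ^ 14 * cc q (I a)) * cc q (J a) := by
          gcongr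
        linarith
      have h8 : (1 : ℝ) / 2 ^ 7 < (1 / 2) ^ 14 * 1 := by
        have := mul_le_mul_of_nonneg_left h1.2 (show (0 : ℝ) ≤ (1 / 2) ^ 14 by norm_num)
        linarith [h2.1]
      norm_num at h8
    · -- disjoint
      intro i hi j hj hij
      rw [List.mem_map] at hi hj
      obtain ⟨k, hk, rfl⟩ := hi
      obtain ⟨k', hk', rfl⟩ := hj
      rw [List.mem_range'_1] at hk hk'
      have h1 := (hJ k' (by omega) (by omega)).2.2
      rw [← hij] at h1
      have h2 := hx k (by omega)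
      have h3 := hx k' (by omega)
      have a2 : ((1 : ℝ) / 2) ^ (20 * w + 6) ≤ cc q (I k) :=
        le_trans (pow_le_pow_of_le_one (by norm_num) (by norm_num) (by omega)) h2.le
      have a3 : ((1 : ℝ) / 2) ^ (20 * w + 6) ≤ cc q (I k') :=
        le_trans (pow_le_pow_of_le_one (by norm_num) (by norm_num) (by omega)) h3.le
      have a4 : 8 * (2 : ℝ) ^ (80 * w + 24) * (1 / 2) ^ (20 * w + 6) * (1 / 2) ^ (20 * w + 6) ≤
          8 * ξ * cc q (I k') * cc q (I k) := by
        have n1 := cc_nonneg (q := q) (I k')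
        have n2 : 0 ≤ 8 * ξ * cc q (I k') := by positivity
        gcongr
      have a5 : 8 * (2 : ℝ) ^ (80 * w + 24) * (1 / 2) ^ (20 * w + 6) * (1 / 2) ^ (20 * w + 6) =
          8 * 2 ^ (40 * w + 12) := by
        rw [show 80 * w + 24 = (40 * w + 12) + (20 * w + 6) + (20 * w + 6) by ring,
          pow_add, pow_add]
        have : (2 : ℝ) ^ (20 * w + 6) * (1 / 2) ^ (20 * w + 6) = 1 := by
          rw [← mul_pow]; norm_num
        linear_combination (8 * 2 ^ (40 * w + 12) * (2 ^ (20 * w + 6) * (1 / 2) ^ (20 * w + 6)) +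
          8 * 2 ^ (40 * w + 12)) * this
      have a6 : (1 : ℝ) ≤ 2 ^ (40 * w + 12) := one_le_pow₀ (by norm_num)
      linarith
  · simp [LL, List.map_map, Function.comp_def]
  · simp [LL, List.map_map, Function.comp_def]
  · simp [LL]
  · -- Good
    have hgood : ∀ r k, 1 ≤ k → k + r ≤ w + 1 → Good ξ (LL q I J k r) := by
      intro r
      induction r with
      | zero => intro k _ _; simp [LL, Good]
      | succ r ih =>
        intro k hk hkr
        have e : LL q I J k (r + 1) = (cc q (I k), cc q (J k)) :: LL q I J (k + 1) r := by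
          simp [LL, List.range'_succ]
        rw [e]
        have h1 := hJ k hk (by omega)
        refine ⟨?_, ?_, ?_, ?_, ?_, ih (k + 1) (by omega) (by omega)⟩
        · exact lt_trans (by positivity) (hx k hk)
        · exact lt_trans (by positivity) (lt_cc hq h1.1)
        · have := h1.2.1
          simp only
          have e2 : (1 : ℝ) / 2 ^ 7 = 8 * (1 / 2 ^ 10) := by norm_num
          rw [e2] at this
          linarith
        · have := h1.2.2
          simp only
          linarith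
        · simp only
          have h2 := sum_I_le hI J (k := k + 1) (by omega) r
          have h3 := hx k hk
          have h4 : (2 : ℝ) * (1 / 2) ^ (20 * (k + 1)) ≤ (1 / 2) ^ (20 * k + 6) / 2 := by
            rw [show 20 * (k + 1) = (20 * k + 6) + 14 by ring, pow_add]
            have : (0 : ℝ) ≤ (1 / 2) ^ (20 * k + 6) := by positivity
            nlinarith
          linarith
    exact hgood w 1 le_rfl (by omega)
  · refine (sum_I_le hI J le_rfl w).trans ?_
    norm_num
  · -- the error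
    have hy : ∀ y ∈ (LL q I J 1 w).map Prod.snd, y ≤ 2 ^ (20 * w + 3) / ξ := by
      intro y hy
      simp only [LL, List.map_map, List.mem_map, Function.comp] at hy
      obtain ⟨k, hk, rfl⟩ := hy
      rw [List.mem_range'_1] at hk
      have h1 := (hJ k (by omega) (by omega)).2.2
      have h2 : ((1 : ℝ) / 2) ^ (20 * w + 6) ≤ cc q (I k) :=
        le_trans (pow_le_pow_of_le_one (by norm_num) (by norm_num) (by omega))
          (hx k (by omega)).le
      rw [le_div_iff₀ hξ0]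
      have h3 : 8 * ξ * (1 / 2) ^ (20 * w + 6) * cc q (J k) ≤ 1 := by
        refine le_trans ?_ h1
        have := cc_nonneg (q := q) (J k)
        gcongr
      have h4 : (2 : ℝ) ^ (20 * w + 6) * (1 / 2) ^ (20 * w + 6) = 1 := by
        rw [← mul_pow]; norm_num
      have h5 : (2 : ℝ) ^ (20 * w + 6) * (8 * ξ * (1 / 2) ^ (20 * w + 6) * cc q (J k)) ≤
          2 ^ (20 * w + 6) * 1 := mul_le_mul_of_nonneg_left h3 (by positivity)
      have h6 : (2 : ℝ) ^ (20 * w + 6) = 8 * 2 ^ (20 * w + 3) := by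
        rw [show 20 * w + 6 = (20 * w + 3) + 3 by ring, pow_add]; norm_num; ring
      have h7 : (2 : ℝ) ^ (20 * w + 6) * (8 * ξ * (1 / 2) ^ (20 * w + 6) * cc q (J k)) =
          8 * (cc q (J k) * ξ) := by
        linear_combination (8 * ξ * cc q (J k)) * h4
      rw [h7, h6] at h5
      linarith
    have hsum : ((LL q I J 1 w).map Prod.snd).sum ≤ w * (2 ^ (20 * w + 3) / ξ) := by
      have := List.sum_le_card_nsmul ((LL q I J 1 w).map Prod.snd) _ hy
      simpa [LL] using this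
    have hnn : 0 ≤ ((LL q I J 1 w).map Prod.snd).sum := by
      apply List.sum_nonneg
      intro y hy
      simp only [LL, List.map_map, List.mem_map, Function.comp] at hy
      obtain ⟨k, _, rfl⟩ := hy
      exact cc_nonneg _
    have h1 : ((LL q I J 1 w).map Prod.snd).sum ^ 2 ≤ (w * (2 ^ (20 * w + 3) / ξ)) ^ 2 :=
      pow_le_pow_left₀ hnn hsum 2
    calc ξ * ((LL q I J 1 w).map Prod.snd).sum ^ 2 ≤ ξ * (w * (2 ^ (20 * w + 3) / ξ)) ^ 2 :=
          mul_le_mul_of_nonneg_left h1 hξ0.le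
      _ = w ^ 2 * (2 ^ (40 * w + 6) / ξ) := by
          rw [show 40 * w + 6 = (20 * w + 3) * 2 by ring, pow_mul]
          field_simp
      _ ≤ w ^ 2 * (1 / 2) ^ (40 * w + 18) := by
          apply mul_le_mul_of_nonneg_left _ (by positivity)
          rw [div_le_iff₀ hξ0]
          calc (2 : ℝ) ^ (40 * w + 6) = (1 / 2) ^ (40 * w + 18) * 2 ^ (80 * w + 24) := by
                rw [show 80 * w + 24 = (40 * w + 18) + (40 * w + 6) by ring, pow_add (2 : ℝ) (40 * w + 18),
                  ← mul_assoc, ← mul_pow]; norm_num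
            _ ≤ (1 / 2) ^ (40 * w + 18) * ξ := mul_le_mul_of_nonneg_left hξ (by positivity)

end Pool.Agent.Helper27.Cs
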