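import Pool.Agent.Helper27.CsB
import Pool.Agent.Helper27.CsE

open MeasureTheory Filter Topology

namespace Pool.Agent.Helper27.Cs

variable {q : ℕ → ℕ}

/-- a fair bit -/
noncomputable def nu : Measure Bool := (2⁻¹ : ENNReal) • (Measure.dirac true + Measure.dirac false)

instance : IsProbabilityMeasure nu := by
  constructor
  simp only [nu, Measure.smul_apply, Measure.add_apply, Measure.dirac_apply_of_mem, Set.mem_univ,
    smul_eq_mul]
  rw [one_add_one_eq_two]
  exact ENNReal.inv_mul_cancel (by norm_num) (by norm_num)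

lemma nu_map_not : nu.map (fun b => !b) = nu := by
  unfold nu
  have hm : Measurable (fun b : Bool => !b) := measurable_of_finite _
  rw [Measure.map_smul, Measure.map_add _ _ hm, Measure.map_dirac' hm, Measure.map_dirac' hm]
  simp [add_comm]

/-- independent fair bits -/
noncomputable def PP : Measure (ℕ → Bool) := Measure.infinitePi (fun _ => nu)

instance : IsProbabilityMeasure PP := by unfold PP; infer_instance

/-- flip the bit `i` -/
def flp (i : ℕ) (ε : ℕ → Bool) : ℕ → Bool := fun k => (if k = i then (fun b => !b) else id) (ε k)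

lemma meas_flp (i : ℕ) : Measurable (flp i) := by
  apply measurable_pi_lambda
  intro k
  unfold flp
  exact (measurable_of_finite _).comp (measurable_pi_apply k)

lemma map_flp (i : ℕ) : PP.map (flp i) = PP := by
  unfold PP
  have h := Measure.infinitePi_map_pi (X := fun _ : ℕ => Bool) (Y := fun _ : ℕ => Bool)
    (fun _ => nu) (f := fun k => if k = i then (fun b => !b) else id)
    (fun k => measurable_of_finite _)
  have e : (fun (x : ℕ → Bool) k => (if k = i then (fun b => !b) else id) (x k)) = flp i := rfl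
  rw [e] at h
  rw [h]
  congr 1
  ext1 k
  by_cases hk : k = i
  · simp only [hk, if_true]; exact nu_map_not
  · simp only [hk, if_false]; exact Measure.map_id

lemma integral_flp (i : ℕ) {F : (ℕ → Bool) → ℂ} (hF : Measurable F) :
    ∫ ε, F (flp i ε) ∂PP = ∫ ε, F ε ∂PP := by
  conv_rhs => rw [← map_flp i]
  rw [integral_map (meas_flp i).aemeasurable hF.aestronglyMeasurable]

lemma integrable_bdd {F : (ℕ → Bool) → ℂ} (hF : Measurable F) (hb : ∀ ε, ‖F ε‖ ≤ 1) :
    Integrable F PP :=
  Integrable.of_bound hF.aestronglyMeasurable 1 (Eventually.of_forall hb)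

lemma integral_half (i : ℕ) {F : (ℕ → Bool) → ℂ} (hF : Measurable F) (hb : ∀ ε, ‖F ε‖ ≤ 1) :
    ∫ ε, F ε ∂PP = ∫ ε, (F (Function.update ε i false) + F (Function.update ε i true)) / 2 ∂PP := by
  have h1 : ∀ ε, F (Function.update ε i false) + F (Function.update ε i true) =
      F ε + F (flp i ε) := by
    intro ε
    by_cases h : ε i = true
    · have e1 : Function.update ε i true = ε := by
        rw [← h]; exact Function.update_eq_self i ε
      have e2 : Function.update ε i false = flp i ε := by
        ext k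
        by_cases hk : k = i
        · subst hk; simp [flp, h]
        · simp [flp, hk]
      rw [e1, e2, add_comm]
    · have h' : ε i = false := by simpa using h
      have e1 : Function.update ε i false = ε := by
        rw [← h']; exact Function.update_eq_self i ε
      have e2 : Function.update ε i true = flp i ε := by
        ext k
        by_cases hk : k = i
        · subst hk; simp [flp, h']
        · simp [flp, hk]
      rw [e1, e2]
  simp only [h1]
  have h2 : Integrable (fun ε => F (flp i ε)) PP :=
    integrable_bdd (hF.comp (meas_flp i)) (fun ε => hb _)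
  rw [integral_div, integral_add (integrable_bdd hF hb) h2, integral_flp i hF]
  ring

lemma cont_zz : Continuous (zz q) := by
  unfold zz
  refine continuous_tsum (u := fun l => (1 / 2 : ℝ) ^ l) (fun l => ?_) summable_geometric_two ?_
  · have : (fun ε : ℕ → Bool => if ε l then cc q l else 0) =
        (fun b : Bool => if b then cc q l else 0) ∘ (fun ε : ℕ → Bool => ε l) := rfl
    rw [this]
    exact (continuous_of_discreteTopology).comp (continuous_apply l)
  · intro l ε
    rw [Real.norm_eq_abs, abs_of_nonneg (bit_nonneg ε l)]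
    exact bit_le ε l

lemma meas_zz : Measurable (zz q) := cont_zz.measurable

/-- mask the bits in a list -/
def msk (l : List ℕ) (ε : ℕ → Bool) : ℕ → Bool := fun k => ε k && !(decide (k ∈ l))

lemma meas_msk (l : List ℕ) : Measurable (msk l) := by
  apply measurable_pi_lambda
  intro k
  unfold msk
  have : (fun ε : ℕ → Bool => ε k && !(decide (k ∈ l))) =
      (fun b : Bool => b && !(decide (k ∈ l))) ∘ (fun ε => ε k) := rfl
  rw [this]
  exact (measurable_of_finite _).comp (measurable_pi_apply k)

lemma msk_nil (ε : ℕ → Bool) : msk [] ε = ε := by ext k; simp [msk]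

lemma zz_update {η : ℕ → Bool} {i : ℕ} (h : η i = false) :
    zz q (Function.update η i true) = zz q η + cc q i := by
  unfold zz
  have h1 : (fun l => if (Function.update η i true) l then cc q l else 0) =
      fun l => (if η l then cc q l else 0) + (if l = i then cc q i else 0) := by
    ext l
    by_cases hl : l = i
    · subst hl; simp [h]
    · simp [hl]
  have hs : Summable (fun l => if l = i then cc q i else 0) := (hasSum_ite_eq i (cc q i)).summable
  rw [h1, (summable_bits η).tsum_add hs, tsum_ite_eq]

lemma msk_update {l : List ℕ} {i : ℕ} (hi : i ∉ l) (ε : ℕ → Bool) (b : Bool) :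
    msk l (Function.update ε i b) = Function.update (msk (i :: l) ε) i b := by
  ext k
  by_cases hk : k = i
  · subst hk; simp [msk, hi]
  · simp [msk, hk]

lemma meas_EE {Φ : ℝ → ℂ} (hΦ : Measurable Φ) (l : List ℝ) : Measurable (EE l Φ) := by
  induction l with
  | nil => exact hΦ
  | cons x l ih =>
    have : EE (x :: l) Φ = fun t => (EE l Φ t + EE l Φ (t + x)) / 2 := rfl
    rw [this]
    exact (ih.add (ih.comp (measurable_id.add_const x))).div_const 2

lemma norm_EE_one {Φ : ℝ → ℂ} (hb : ∀ t, ‖Φ t‖ ≤ 1) (l : List ℝ) (t : ℝ) : ‖EE l Φ t‖ ≤ 1 := by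
  induction l generalizing t with
  | nil => exact hb t
  | cons x l ih =>
    simp only [EE]
    rw [norm_div, Complex.norm_ofNat]
    have h1 := norm_add_le (EE l Φ t) (EE l Φ (t + x))
    linarith [ih t, ih (t + x)]

lemma integral_zz {Φ : ℝ → ℂ} (hΦ : Measurable Φ) (hb : ∀ t, ‖Φ t‖ ≤ 1) {l : List ℕ}
    (hl : l.Nodup) :
    ∫ ε, Φ (zz q ε) ∂PP = ∫ ε, EE (l.map (cc q)) Φ (zz q (msk l ε)) ∂PP := by
  induction l with
  | nil => simp [EE, msk_nil]
  | cons i l ih =>
    obtain ⟨hi, hl'⟩ := List.nodup_cons.1 hl
    rw [ih hl']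
    rw [integral_half i]
    · refine integral_congr_ae (Eventually.of_forall fun ε => ?_)
      simp only
      rw [msk_update hi, msk_update hi]
      have h1 : (msk (i :: l) ε) i = false := by simp [msk]
      have e1 : Function.update (msk (i :: l) ε) i false = msk (i :: l) ε := by
        conv_lhs => rw [← h1]
        exact Function.update_eq_self _ _
      rw [e1, zz_update h1]
      rfl
    · exact (meas_EE hΦ _).comp (meas_zz.comp (meas_msk l))
    · intro ε; exact norm_EE_one hb _ _

lemma cont_ee : Continuous ee := by unfold ee; fun_prop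

lemma meas_Phi (ξ : ℝ) : Measurable (Phi ξ) := by
  unfold Phi
  exact cont_ee.measurable.comp (measurable_const.div (measurable_const.add measurable_id))

lemma half_le_rr : (1 : ℝ) / 2 ≤ rr := by unfold rr; norm_num

lemma rr_lt_one : rr < 1 := by unfold rr; norm_num

theorem decay (hq : ∀ n, 2 ≤ q n) (w : ℕ) {ξ : ℝ} (hξ : 2 ^ (80 * w + 24) ≤ ξ) :
    ‖∫ ε, Phi ξ (zz q ε) ∂PP‖ ≤ 2 * rr ^ w := by
  obtain ⟨il, jl, L, h1, h2, h3, h4, h5, h6, h7⟩ := exists_pairs hq w hξ
  have hξ0 : 0 < ξ := lt_of_lt_of_le (by positivity) hξ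
  rw [integral_zz (meas_Phi ξ) (fun t => by rw [Phi, norm_ee]) h1]
  have hb : ∀ ε, ‖EE ((il ++ jl).map (cc q)) (Phi ξ) (zz q (msk (il ++ jl) ε))‖ ≤ 2 * rr ^ w := by
    intro ε
    rw [List.map_append, h2, h3]
    have h8 := main_bound hξ0 h5 (t := zz q (msk (il ++ jl) ε)) (zz_nonneg _) (by
      have := zz_le (q := q) (msk (il ++ jl) ε)
      linarith)
    refine h8.trans ?_
    rw [h4]
    have h9 : 2 * Real.pi * (ξ * (L.map Prod.snd).sum ^ 2) ≤ rr ^ w := by
      have a1 : (w : ℝ) ≤ 2 ^ w := by exact_mod_cast Nat.lt_two_pow_self.le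
      have a2 : (w : ℝ) ^ 2 ≤ (2 ^ w) ^ 2 := pow_le_pow_left₀ (by positivity) a1 2
      have a3 : Real.pi ≤ 4 := Real.pi_le_four
      calc 2 * Real.pi * (ξ * (L.map Prod.snd).sum ^ 2)
          ≤ 2 * 4 * (w ^ 2 * (1 / 2) ^ (40 * w + 18)) := by
            apply mul_le_mul _ h7 (by positivity) (by norm_num)
            linarith
        _ ≤ 2 * 4 * ((2 ^ w) ^ 2 * (1 / 2) ^ (40 * w + 18)) := by gcongr
        _ = (2 ^ (2 * w) * (1 / 2) ^ (2 * w)) * (8 * (1 / 2) ^ 18) * (1 / 2) ^ (37 * w)
              * (1 / 2) ^ w := by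
            rw [show 40 * w + 18 = 2 * w + 18 + 37 * w + w by ring, pow_add, pow_add, pow_add,
              ← pow_mul, mul_comm w 2]
            ring
        _ ≤ 1 * 1 * 1 * rr ^ w := by
            have b1 : (2 : ℝ) ^ (2 * w) * (1 / 2) ^ (2 * w) = 1 := by rw [← mul_pow]; norm_num
            have b2 : (8 : ℝ) * (1 / 2) ^ 18 ≤ 1 := by norm_num
            have b3 : ((1 : ℝ) / 2) ^ (37 * w) ≤ 1 := pow_le_one₀ (by norm_num) (by norm_num)
            have b4 : ((1 : ℝ) / 2) ^ w ≤ rr ^ w := pow_le_pow_left₀ (by norm_num) half_le_rr w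
            rw [b1]
            gcongr
        _ = rr ^ w := by ring
    linarith
  have := norm_integral_le_of_norm_le_const (μ := PP) (Eventually.of_forall hb)
  simpa using this

end Pool.Agent.Helper27.Cs
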