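import Pool.Agent.Helper27.CsF

open MeasureTheory Filter Topology

namespace Pool.Agent.Helper27.Cs

variable {q : ℕ → ℕ}

/-- the terms of the exponential sums -/
noncomputable def tm (q : ℕ → ℕ) (h : ℕ) (n : ℕ) (ε : ℕ → Bool) : ℂ := Phi (h * A q n) (zz q ε)

lemma meas_tm (h n : ℕ) : Measurable (tm q h n) := (meas_Phi _).comp meas_zz

lemma norm_tm (h n : ℕ) (ε : ℕ → Bool) : ‖tm q h n ε‖ = 1 := by unfold tm Phi; exact norm_ee _

/-- correlation bound -/
lemma corr (hq : ∀ n, 2 ≤ q n) {h : ℕ} (hh : 1 ≤ h) {m N : ℕ} (hm : m < N) :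
    ‖∫ ε, tm q h m ε * (starRingEnd ℂ) (tm q h N ε) ∂PP‖ ≤ 2 * rr ^ ((N - 25) / 80) := by
  have e : ∀ ε, tm q h m ε * (starRingEnd ℂ) (tm q h N ε) =
      (starRingEnd ℂ) (Phi (h * ((A q N : ℝ) - A q m)) (zz q ε)) := by
    intro ε
    unfold tm Phi
    rw [← ee_neg, ← ee_neg, ← ee_add]
    congr 1
    ring
  simp only [e]
  rw [integral_conj, RCLike.norm_conj]
  rcases lt_or_ge N 25 with h25 | h25
  · have hb : ∀ ε, ‖Phi (h * ((A q N : ℝ) - A q m)) (zz q ε)‖ ≤ 1 := by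
      intro ε; unfold Phi; rw [norm_ee]
    have h1 := norm_integral_le_of_norm_le_const (μ := PP) (Eventually.of_forall hb)
    have h2 : (N - 25) / 80 = 0 := by
      rw [Nat.sub_eq_zero_of_le h25.le]
    rw [h2, pow_zero]
    simp only [probReal_univ, mul_one] at h1
    linarith
  · apply decay hq
    have h1 : 80 * ((N - 25) / 80) + 24 ≤ N - 1 := by omega
    have h2 : (2 : ℝ) ^ (80 * ((N - 25) / 80) + 24) ≤ 2 ^ (N - 1) :=
      pow_le_pow_right₀ (by norm_num) h1
    refine h2.trans ?_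
    have h3 : 2 * A q m ≤ A q N := by
      have a1 := A_mono hq (m := m) (n := N - 1) (by omega)
      have a2 := A_add hq (N - 1) 1
      rw [show N - 1 + 1 = N by omega] at a2
      omega
    have h4 := A_ge hq N
    have h5 : (2 : ℝ) ^ N = 2 ^ (N - 1) * 2 := by
      rw [← pow_succ]; congr 1; omega
    have h6 : (2 : ℝ) ^ N ≤ A q N := by exact_mod_cast h4
    have h7 : (2 : ℝ) * A q m ≤ A q N := by exact_mod_cast h3
    have h8 : (1 : ℝ) ≤ h := by exact_mod_cast hh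
    have h9 : (2 : ℝ) ^ (N - 1) ≤ (A q N : ℝ) - A q m := by linarith
    have h10 : (0 : ℝ) ≤ (A q N : ℝ) - A q m := le_trans (by positivity) h9
    nlinarith

/-- partial sums -/
noncomputable def SS (q : ℕ → ℕ) (h N : ℕ) (ε : ℕ → Bool) : ℂ := ∑ n ∈ Finset.range N, tm q h n ε

lemma meas_SS (h N : ℕ) : Measurable (SS q h N) := by
  unfold SS
  exact Finset.measurable_fun_sum _ fun n _ => meas_tm h n

lemma norm_SS (h N : ℕ) (ε : ℕ → Bool) : ‖SS q h N ε‖ ≤ N := by
  unfold SS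
  refine (norm_sum_le _ _).trans ?_
  simp [norm_tm]

lemma integrable_sq (h N : ℕ) : Integrable (fun ε => ‖SS q h N ε‖ ^ 2) PP := by
  refine Integrable.of_bound ((meas_SS h N).norm.pow_const 2).aestronglyMeasurable ((N : ℝ) ^ 2)
    (Eventually.of_forall fun ε => ?_)
  rw [Real.norm_eq_abs, abs_of_nonneg (by positivity)]
  exact pow_le_pow_left₀ (norm_nonneg _) (norm_SS h N ε) 2

lemma exists_bound : ∃ C : ℝ, 0 ≤ C ∧ ∀ N : ℕ, (N : ℝ) * rr ^ ((N - 25) / 80) ≤ C := by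
  have hr0 : 0 ≤ rr := by unfold rr; norm_num
  have h1 := tendsto_self_mul_const_pow_of_lt_one hr0 rr_lt_one
  obtain ⟨C1, hC1⟩ := h1.bddAbove_range
  have hC1' : ∀ n : ℕ, (n : ℝ) * rr ^ n ≤ C1 := fun n => hC1 ⟨n, rfl⟩
  have hC0 : 0 ≤ C1 := by simpa using hC1' 0
  refine ⟨80 * C1 + 104, by positivity, fun N => ?_⟩
  set w := (N - 25) / 80 with hw
  have h2 : N ≤ 80 * w + 104 := by omega
  have h3 : (N : ℝ) ≤ 80 * w + 104 := by exact_mod_cast h2
  have h4 : rr ^ w ≤ 1 := pow_le_one₀ hr0 rr_lt_one.le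
  have h5 : 0 ≤ rr ^ w := pow_nonneg hr0 w
  calc (N : ℝ) * rr ^ w ≤ (80 * w + 104) * rr ^ w := mul_le_mul_of_nonneg_right h3 h5
    _ = 80 * (w * rr ^ w) + 104 * rr ^ w := by ring
    _ ≤ 80 * C1 + 104 * 1 := by
        have := hC1' w
        linarith
    _ = _ := by ring

/-- second moment bound -/
lemma second_moment (hq : ∀ n, 2 ≤ q n) : ∃ C : ℝ, 0 ≤ C ∧ ∀ h : ℕ, 1 ≤ h → ∀ N : ℕ,
    ∫ ε, ‖SS q h N ε‖ ^ 2 ∂PP ≤ C * N := by
  obtain ⟨C, hC0, hC⟩ := exists_bound
  refine ⟨1 + 4 * C, by positivity, fun h hh N => ?_⟩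
  induction N with
  | zero => simp [SS]
  | succ N ih =>
    have e : ∀ ε, ‖SS q h (N + 1) ε‖ ^ 2 = ‖SS q h N ε‖ ^ 2 + 1 +
        2 * (SS q h N ε * (starRingEnd ℂ) (tm q h N ε)).re := by
      intro ε
      have : SS q h (N + 1) ε = SS q h N ε + tm q h N ε := by
        unfold SS; rw [Finset.sum_range_succ]
      rw [this, ← Complex.normSq_eq_norm_sq, Complex.normSq_add, Complex.normSq_eq_norm_sq,
        Complex.normSq_eq_norm_sq, norm_tm]
      norm_num
    simp only [e]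
    have hint : Integrable (fun ε => SS q h N ε * (starRingEnd ℂ) (tm q h N ε)) PP := by
      refine Integrable.of_bound ((meas_SS h N).mul
        (Complex.continuous_conj.measurable.comp (meas_tm h N))).aestronglyMeasurable (N : ℝ)
        (Eventually.of_forall fun ε => ?_)
      rw [norm_mul, RCLike.norm_conj, norm_tm, mul_one]
      exact norm_SS h N ε
    have hintre : Integrable (fun ε => (SS q h N ε * (starRingEnd ℂ) (tm q h N ε)).re) PP := hint.re
    have hsq1 : Integrable (fun ε => ‖SS q h N ε‖ ^ 2 + 1) PP :=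
      (integrable_sq h N).add (integrable_const 1)
    rw [integral_add hsq1 (hintre.const_mul 2),
      integral_add (integrable_sq h N) (integrable_const 1), integral_const_mul]
    have h1 : ∫ ε, (SS q h N ε * (starRingEnd ℂ) (tm q h N ε)).re ∂PP ≤
        ‖∫ ε, SS q h N ε * (starRingEnd ℂ) (tm q h N ε) ∂PP‖ := by
      have := integral_re hint
      simp only [RCLike.re_to_complex] at this
      rw [this]
      exact Complex.re_le_norm _
    have h2 : ‖∫ ε, SS q h N ε * (starRingEnd ℂ) (tm q h N ε) ∂PP‖ ≤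
        N * (2 * rr ^ ((N - 25) / 80)) := by
      have e2 : ∀ ε, SS q h N ε * (starRingEnd ℂ) (tm q h N ε) =
          ∑ m ∈ Finset.range N, tm q h m ε * (starRingEnd ℂ) (tm q h N ε) := by
        intro ε; unfold SS; rw [Finset.sum_mul]
      simp only [e2]
      rw [integral_finsetSum]
      · refine (norm_sum_le _ _).trans ?_
        refine (Finset.sum_le_sum fun m hm => corr hq hh (Finset.mem_range.1 hm)).trans ?_
        simp
      · intro m _
        refine Integrable.of_bound ((meas_tm h m).mul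
          (Complex.continuous_conj.measurable.comp (meas_tm h N))).aestronglyMeasurable (1 : ℝ)
          (Eventually.of_forall fun ε => ?_)
        rw [norm_mul, RCLike.norm_conj, norm_tm, norm_tm, mul_one]
    have h3 : (N : ℝ) * (2 * rr ^ ((N - 25) / 80)) ≤ 2 * C := by
      have := hC N
      nlinarith
    simp only [integral_const, probReal_univ, smul_eq_mul, mul_one]
    push_cast
    nlinarith

/-- interpolation between squares -/
lemma interpolate {a : ℕ → ℂ} (ha : ∀ n, ‖a n‖ ≤ 1)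
    (h : Tendsto (fun j : ℕ => (∑ n ∈ Finset.range ((j + 1) ^ 2), a n) / (((j : ℂ) + 1) ^ 2)) atTop
      (𝓝 0)) :
    Tendsto (fun N : ℕ => (∑ n ∈ Finset.range N, a n) / (N : ℂ)) atTop (𝓝 0) := by
  rw [tendsto_zero_iff_norm_tendsto_zero] at h ⊢
  have hsq : Tendsto (fun N : ℕ => Nat.sqrt N - 1) atTop atTop := by
    rw [tendsto_atTop_atTop]
    intro b
    refine ⟨(b + 1) ^ 2, fun n hn => ?_⟩
    have : b + 1 ≤ Nat.sqrt n := by
      rw [Nat.le_sqrt']; exact hn
    omega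
  have h1 := h.comp hsq
  have h2 : Tendsto (fun N : ℕ => (2 : ℝ) / (((Nat.sqrt N - 1 : ℕ) : ℝ) + 1)) atTop (𝓝 0) := by
    have : Tendsto (fun j : ℕ => (2 : ℝ) / ((j : ℝ) + 1)) atTop (𝓝 0) := by
      have h3 := tendsto_one_div_add_atTop_nhds_zero_nat (𝕜 := ℝ)
      have h4 := h3.const_mul 2
      simp only [mul_zero] at h4
      refine h4.congr fun j => ?_
      ring
    exact this.comp hsq
  have h3 := h1.add h2
  rw [add_zero] at h3
  refine squeeze_zero' (Eventually.of_forall fun N => norm_nonneg _) ?_ h3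
  filter_upwards [eventually_ge_atTop 1] with N hN
  set j := Nat.sqrt N with hj
  have hj1 : 1 ≤ j := by
    rw [hj, Nat.le_sqrt']; simpa using hN
  have hjN : j ^ 2 ≤ N := by rw [hj]; exact Nat.sqrt_le' N
  have hNj : N < (j + 1) ^ 2 := by
    have := Nat.lt_succ_sqrt' N
    simpa [hj] using this
  simp only [Function.comp]
  have e1 : j - 1 + 1 = j := by omega
  have e2 : (((j - 1 : ℕ) : ℂ) + 1) = (j : ℂ) := by
    exact_mod_cast congrArg (fun n : ℕ => (n : ℂ)) e1
  have e3 : (((j - 1 : ℕ) : ℝ) + 1) = (j : ℝ) := by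
    exact_mod_cast congrArg (fun n : ℕ => (n : ℝ)) e1
  rw [e1, e2, e3]
  have hjpos : (0 : ℝ) < j := by exact_mod_cast hj1
  have hNpos : (0 : ℝ) < N := by exact_mod_cast hN
  have hsplit : ‖∑ n ∈ Finset.range N, a n‖ ≤ ‖∑ n ∈ Finset.range (j ^ 2), a n‖ + 2 * j := by
    rw [← Finset.sum_range_add_sum_Ico _ hjN]
    refine (norm_add_le _ _).trans ?_
    have : ‖∑ n ∈ Finset.Ico (j ^ 2) N, a n‖ ≤ 2 * j := by
      refine (norm_sum_le _ _).trans ?_
      refine (Finset.sum_le_sum fun n _ => ha n).trans ?_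
      simp only [Finset.sum_const, Nat.card_Ico, nsmul_eq_mul, mul_one]
      have : N - j ^ 2 ≤ 2 * j := by
        have : (j + 1) ^ 2 = j ^ 2 + 2 * j + 1 := by ring
        omega
      exact_mod_cast this
    linarith
  rw [norm_div, norm_div, norm_pow, Complex.norm_natCast, Complex.norm_natCast]
  have hN2 : (j : ℝ) ^ 2 ≤ N := by exact_mod_cast hjN
  calc ‖∑ n ∈ Finset.range N, a n‖ / N ≤ (‖∑ n ∈ Finset.range (j ^ 2), a n‖ + 2 * j) / N := by
        gcongr
    _ ≤ (‖∑ n ∈ Finset.range (j ^ 2), a n‖ + 2 * j) / (j : ℝ) ^ 2 := by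
        gcongr
    _ = ‖∑ n ∈ Finset.range (j ^ 2), a n‖ / (j : ℝ) ^ 2 + 2 / j := by
        field_simp

/-- almost sure convergence -/
theorem ae_tendsto (hq : ∀ n, 2 ≤ q n) (h : ℕ) (hh : 1 ≤ h) :
    ∀ᵐ ε ∂PP, Tendsto (fun N : ℕ => (SS q h N ε) / (N : ℂ)) atTop (𝓝 0) := by
  obtain ⟨C, hC0, hC⟩ := second_moment hq
  set f : ℕ → (ℕ → Bool) → ENNReal := fun j ε =>
    ENNReal.ofReal (‖SS q h ((j + 1) ^ 2) ε‖ ^ 2 / ((j : ℝ) + 1) ^ 4) with hf
  have hmeas : ∀ j, Measurable (f j) := fun j =>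
    (((meas_SS h _).norm.pow_const 2).div_const _).ennreal_ofReal
  have hint : ∀ j, ∫⁻ ε, f j ε ∂PP ≤ ENNReal.ofReal (C / ((j : ℝ) + 1) ^ 2) := by
    intro j
    have hi : Integrable (fun ε => ‖SS q h ((j + 1) ^ 2) ε‖ ^ 2 / ((j : ℝ) + 1) ^ 4) PP :=
      (integrable_sq h _).div_const _
    rw [hf]
    simp only
    rw [← ofReal_integral_eq_lintegral_ofReal hi (Eventually.of_forall fun ε => by positivity)]
    apply ENNReal.ofReal_le_ofReal
    rw [integral_div]
    have := hC h hh ((j + 1) ^ 2)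
    rw [div_le_div_iff₀ (by positivity) (by positivity)]
    push_cast at this
    calc (∫ ε, ‖SS q h ((j + 1) ^ 2) ε‖ ^ 2 ∂PP) * ((j : ℝ) + 1) ^ 2
        ≤ (C * ((j : ℝ) + 1) ^ 2) * ((j : ℝ) + 1) ^ 2 := by gcongr
      _ = C * ((j : ℝ) + 1) ^ 4 := by ring
  have hsum : ∑' j, ∫⁻ ε, f j ε ∂PP ≠ ⊤ := by
    have hs : Summable (fun j : ℕ => C / ((j : ℝ) + 1) ^ 2) := by
      have h1 : Summable (fun n : ℕ => 1 / (n : ℝ) ^ 2) := Real.summable_one_div_nat_pow.2 (by norm_num)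
      have h2 := (summable_nat_add_iff 1).2 h1
      have h3 := h2.mul_left C
      refine h3.congr fun j => ?_
      push_cast
      ring
    refine ne_top_of_le_ne_top hs.tsum_ofReal_ne_top (ENNReal.tsum_le_tsum hint)
  rw [← lintegral_tsum (fun j => (hmeas j).aemeasurable)] at hsum
  have hae := ae_lt_top (Measurable.tsum hmeas) hsum
  filter_upwards [hae] with ε hε
  have h0 := ENNReal.tendsto_atTop_zero_of_tsum_ne_top hε.ne
  have h1 : Tendsto (fun j : ℕ => ‖SS q h ((j + 1) ^ 2) ε‖ ^ 2 / ((j : ℝ) + 1) ^ 4) atTop (𝓝 0) := by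
    have := (ENNReal.tendsto_toReal ENNReal.zero_ne_top).comp h0
    simp only [ENNReal.toReal_zero] at this
    refine this.congr fun j => ?_
    simp only [Function.comp, hf]
    rw [ENNReal.toReal_ofReal (by positivity)]
  have h2 : Tendsto (fun j : ℕ => ‖SS q h ((j + 1) ^ 2) ε‖ / ((j : ℝ) + 1) ^ 2) atTop (𝓝 0) := by
    have := (Real.continuous_sqrt.tendsto 0).comp h1
    rw [Real.sqrt_zero] at this
    refine this.congr fun j => ?_
    simp only [Function.comp]
    have e : ‖SS q h ((j + 1) ^ 2) ε‖ ^ 2 / ((j : ℝ) + 1) ^ 4 =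
        (‖SS q h ((j + 1) ^ 2) ε‖ / ((j : ℝ) + 1) ^ 2) ^ 2 := by
      rw [div_pow]; ring
    rw [e, Real.sqrt_sq (by positivity)]
  apply interpolate (fun n => (norm_tm h n ε).le)
  rw [tendsto_zero_iff_norm_tendsto_zero]
  refine h2.congr fun j => ?_
  rw [norm_div, norm_pow]
  have : ‖(j : ℂ) + 1‖ = (j : ℝ) + 1 := by
    have e : (j : ℂ) + 1 = ((j + 1 : ℕ) : ℂ) := by push_cast; ring
    rw [e, Complex.norm_natCast]; push_cast; ring
  rw [this]
  rfl

/-- existence of the point -/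
theorem exists_point (hq : ∀ n, 2 ≤ q n) :
    ∃ ε : ℕ → Bool, UDMod1 (fun n => (A q n : ℝ) * (1 / (1 + zz q ε))) := by
  have h1 : ∀ᵐ ε ∂PP, ∀ h : ℕ, 1 ≤ h →
      Tendsto (fun N : ℕ => (SS q h N ε) / (N : ℂ)) atTop (𝓝 0) := by
    rw [ae_all_iff]
    intro h
    by_cases hh : 1 ≤ h
    · filter_upwards [ae_tendsto hq h hh] with ε hε _
      exact hε
    · exact Eventually.of_forall fun ε h' => absurd h' hh
  obtain ⟨ε, hε⟩ := h1.exists
  refine ⟨ε, udMod1_of_exp_sums fun h hh => ?_⟩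
  refine (hε h hh).congr fun N => ?_
  unfold SS tm Phi
  congr 1
  refine Finset.sum_congr rfl fun n _ => ?_
  congr 1
  ring

end Pool.Agent.Helper27.Cs
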