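import Pool.Agent.Helper94.RevF

set_option autoImplicit false

namespace Pool.Agent.Helper27.D6

open Finset Pool.Agent.Helper94.Rev

theorem card_mult (a b d : ℕ) (hd : 0 < d) (hab : a ≤ b) :
    ((Ioc a b).filter (fun m => d ∣ m)).card = b / d - a / d := by
  have h1 : (Ioc 0 b).filter (fun m => d ∣ m) =
      (Ioc 0 a).filter (fun m => d ∣ m) ∪ (Ioc a b).filter (fun m => d ∣ m) := by
    ext m
    simp only [Finset.mem_filter, Finset.mem_Ioc, Finset.mem_union]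
    constructor
    · rintro ⟨⟨h1, h2⟩, h3⟩
      rcases le_or_gt m a with h | h
      · exact Or.inl ⟨⟨h1, h⟩, h3⟩
      · exact Or.inr ⟨⟨h, h2⟩, h3⟩
    · rintro (⟨⟨h1, h2⟩, h3⟩ | ⟨⟨h1, h2⟩, h3⟩)
      · exact ⟨⟨h1, by omega⟩, h3⟩
      · exact ⟨⟨by omega, h2⟩, h3⟩
  have h2 : Disjoint ((Ioc 0 a).filter (fun m => d ∣ m)) ((Ioc a b).filter (fun m => d ∣ m)) := by
    rw [Finset.disjoint_left]
    intro m hm hm'
    simp only [Finset.mem_filter, Finset.mem_Ioc] at hm hm'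
    omega
  have h3 := congrArg Finset.card h1
  rw [Finset.card_union_of_disjoint h2, Nat.Ioc_filter_dvd_card_eq_div, Nat.Ioc_filter_dvd_card_eq_div] at h3
  omega

theorem card_mult_real (a b d : ℕ) (hd : 0 < d) (hab : a ≤ b) :
    |(((Ioc a b).filter (fun m => d ∣ m)).card : ℝ) - ((b : ℝ) - a) / d| ≤ 1 := by
  rw [card_mult a b d hd hab]
  have hd0 : (0 : ℝ) < d := by exact_mod_cast hd
  have h1 : a / d ≤ b / d := Nat.div_le_div_right hab
  rw [Nat.cast_sub h1]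
  have e1 : ((b / d : ℕ) : ℝ) ≤ (b : ℝ) / d := Nat.cast_div_le
  have e2 : ((a / d : ℕ) : ℝ) ≤ (a : ℝ) / d := Nat.cast_div_le
  have e3 : (b : ℝ) / d < ((b / d : ℕ) : ℝ) + 1 := by
    rw [div_lt_iff₀ hd0]
    have := Nat.lt_div_mul_add (a := b) hd
    have h2 : b < (b / d + 1) * d := by rw [add_mul, one_mul]; omega
    exact_mod_cast h2
  have e4 : (a : ℝ) / d < ((a / d : ℕ) : ℝ) + 1 := by
    rw [div_lt_iff₀ hd0]
    have := Nat.lt_div_mul_add (a := a) hd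
    have h2 : a < (a / d + 1) * d := by rw [add_mul, one_mul]; omega
    exact_mod_cast h2
  rw [sub_div, abs_le]
  constructor <;> linarith

theorem card_Zs_le (z Q : ℕ) : (Zs z Q).card ≤ z := by
  unfold Zs
  refine (Finset.card_filter_le _ _).trans ?_
  rw [Nat.card_Icc]; omega

theorem bt_aux (a h z : ℕ) (hz : 1 ≤ z) :
    (((Ioc a (a + h)).filter Nat.Prime).card : ℝ) ≤ h / GG z 1 + z ^ 2 + z := by
  classical
  have h0 : (((Ioc a (a + h)).filter Nat.Prime).card : ℝ) ≤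
      (((Ioc a (a + h)).filter (fun p => p.Prime ∧ z < p)).card : ℝ) + z := by
    have h1 : (Ioc a (a + h)).filter Nat.Prime ⊆
        (Ioc a (a + h)).filter (fun p => p.Prime ∧ z < p) ∪ Icc 1 z := by
      intro p hp
      rw [Finset.mem_filter] at hp
      rw [Finset.mem_union, Finset.mem_filter, Finset.mem_Icc]
      rcases lt_or_ge z p with h2 | h2
      · exact Or.inl ⟨hp.1, hp.2, h2⟩
      · exact Or.inr ⟨hp.2.one_lt.le, h2⟩
    have h2 := (Finset.card_le_card h1).trans (Finset.card_union_le _ _)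
    rw [Nat.card_Icc] at h2
    have h3 : ((Ioc a (a + h)).filter Nat.Prime).card ≤
      ((Ioc a (a + h)).filter (fun p => p.Prime ∧ z < p)).card + z := by omega
    exact_mod_cast h3
  have h1 : (((Ioc a (a + h)).filter (fun p => p.Prime ∧ z < p)).card : ℝ) ≤
      ∑ m ∈ Ioc a (a + h), nu z 1 m := by
    rw [Finset.card_eq_sum_ones]
    push_cast
    calc ∑ m ∈ (Ioc a (a + h)).filter (fun p => p.Prime ∧ z < p), (1 : ℝ)
        = ∑ m ∈ (Ioc a (a + h)).filter (fun p => p.Prime ∧ z < p), nu z 1 m := by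
          apply Finset.sum_congr rfl
          intro m hm
          rw [Finset.mem_filter] at hm
          rw [nu_prime z 1 m hz hm.2.1 hm.2.2]
      _ ≤ _ := Finset.sum_le_sum_of_subset_of_nonneg (Finset.filter_subset _ _)
          (fun _ _ _ => nu_nonneg _ _ _)
  have h2 : ∑ m ∈ Ioc a (a + h), nu z 1 m = ∑ d₁ ∈ Zs z 1, ∑ d₂ ∈ Zs z 1,
      lam z 1 d₁ * lam z 1 d₂ * (((Ioc a (a + h)).filter (fun m => Nat.lcm d₁ d₂ ∣ m)).card : ℝ) := by
    rw [Finset.sum_congr rfl (fun m _ => nu_eq z 1 m), Finset.sum_comm]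
    apply Finset.sum_congr rfl
    intro d₁ _
    rw [Finset.sum_comm]
    apply Finset.sum_congr rfl
    intro d₂ _
    rw [← Finset.mul_sum]
    congr 1
    rw [Finset.sum_ite, Finset.sum_const_zero, add_zero, Finset.sum_const, nsmul_eq_mul, mul_one]
  have h3 : ∑ d₁ ∈ Zs z 1, ∑ d₂ ∈ Zs z 1,
      lam z 1 d₁ * lam z 1 d₂ * (((Ioc a (a + h)).filter (fun m => Nat.lcm d₁ d₂ ∣ m)).card : ℝ) ≤
      ∑ d₁ ∈ Zs z 1, ∑ d₂ ∈ Zs z 1, (h * (lam z 1 d₁ * lam z 1 d₂ / (Nat.lcm d₁ d₂ : ℝ)) + 1) := by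
    apply Finset.sum_le_sum
    intro d₁ hd₁
    apply Finset.sum_le_sum
    intro d₂ hd₂
    have p1 : 0 < d₁ := (mem_Zs.mp hd₁).1.1
    have p2 : 0 < d₂ := (mem_Zs.mp hd₂).1.1
    have p3 := Nat.lcm_pos p1 p2
    have q := card_mult_real a (a + h) (Nat.lcm d₁ d₂) p3 (by omega)
    set c := (((Ioc a (a + h)).filter (fun m => Nat.lcm d₁ d₂ ∣ m)).card : ℝ)
    have e : ((a + h : ℕ) : ℝ) - a = h := by push_cast; ring
    rw [e] at q
    have l1 := abs_lam_le (Q := 1) hz p1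
    have l2 := abs_lam_le (Q := 1) hz p2
    have l3 : |lam z 1 d₁ * lam z 1 d₂| ≤ 1 := by
      rw [abs_mul]; exact mul_le_one₀ l1 (abs_nonneg _) l2
    have l4 : lam z 1 d₁ * lam z 1 d₂ * c =
        h * (lam z 1 d₁ * lam z 1 d₂ / (Nat.lcm d₁ d₂ : ℝ)) +
        lam z 1 d₁ * lam z 1 d₂ * (c - h / (Nat.lcm d₁ d₂ : ℝ)) := by ring
    rw [l4]
    have l5 : lam z 1 d₁ * lam z 1 d₂ * (c - h / (Nat.lcm d₁ d₂ : ℝ)) ≤ 1 := by
      refine (le_abs_self _).trans ?_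
      rw [abs_mul]
      exact mul_le_one₀ l3 (abs_nonneg _) q
    linarith
  have h4 : ∑ d₁ ∈ Zs z 1, ∑ d₂ ∈ Zs z 1, (h * (lam z 1 d₁ * lam z 1 d₂ / (Nat.lcm d₁ d₂ : ℝ)) + 1) ≤
      h / GG z 1 + z ^ 2 := by
    have e1 : ∑ d₁ ∈ Zs z 1, ∑ d₂ ∈ Zs z 1, (h * (lam z 1 d₁ * lam z 1 d₂ / (Nat.lcm d₁ d₂ : ℝ)) + 1) =
        h * (∑ d₁ ∈ Zs z 1, ∑ d₂ ∈ Zs z 1, lam z 1 d₁ * lam z 1 d₂ / (Nat.lcm d₁ d₂ : ℝ)) +
        ((Zs z 1).card : ℝ) * (Zs z 1).card := by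
      simp only [Finset.sum_add_distrib, Finset.mul_sum, Finset.sum_const, nsmul_eq_mul, mul_one]
    rw [e1]
    have q1 := (quad_le (Q := 1) hz).1
    have q2 : ((Zs z 1).card : ℝ) ≤ z := by exact_mod_cast card_Zs_le z 1
    have q3 : (h : ℝ) * (∑ d₁ ∈ Zs z 1, ∑ d₂ ∈ Zs z 1, lam z 1 d₁ * lam z 1 d₂ / (Nat.lcm d₁ d₂ : ℝ)) ≤
        h * (1 / GG z 1) := mul_le_mul_of_nonneg_left q1 (Nat.cast_nonneg _)
    have q4 : ((Zs z 1).card : ℝ) * (Zs z 1).card ≤ z ^ 2 := by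
      rw [sq]; exact mul_le_mul q2 q2 (Nat.cast_nonneg _) (Nat.cast_nonneg _)
    have q5 : (h : ℝ) * (1 / GG z 1) = h / GG z 1 := by ring
    linarith
  linarith

/-- Brun-Titchmarsh with some constant. -/
theorem brun_titchmarsh : ∃ C : ℝ, 0 < C ∧ ∀ a h : ℕ, 2 ≤ h →
    (((Ioc a (a + h)).filter Nat.Prime).card : ℝ) ≤ C * (h / Real.log h) := by
  refine ⟨32, by norm_num, fun a h hh => ?_⟩
  set z := Nat.sqrt (Nat.sqrt h) with hz
  have hs1 : 1 ≤ Nat.sqrt h := by rw [Nat.le_sqrt]; omega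
  have hz1 : 1 ≤ z := by rw [hz, Nat.le_sqrt]; omega
  have hzz : z * z ≤ Nat.sqrt h := Nat.sqrt_le _
  have hss : Nat.sqrt h * Nat.sqrt h ≤ h := Nat.sqrt_le _
  have hz4 : h < (z + 1) ^ 4 := by
    have h1 : Nat.sqrt h < (z + 1) * (z + 1) := Nat.lt_succ_sqrt _
    have h2 : h < (Nat.sqrt h + 1) * (Nat.sqrt h + 1) := Nat.lt_succ_sqrt _
    have h3 : (Nat.sqrt h + 1) ≤ (z + 1) * (z + 1) := h1
    calc h < (Nat.sqrt h + 1) * (Nat.sqrt h + 1) := h2
      _ ≤ ((z + 1) * (z + 1)) * ((z + 1) * (z + 1)) := Nat.mul_le_mul h3 h3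
      _ = (z + 1) ^ 4 := by ring
  have b1 := bt_aux a h z hz1
  have hh0 : (0 : ℝ) < h := by positivity
  have hlog : 0 < Real.log h := Real.log_pos (by exact_mod_cast hh)
  have b2 : Real.log h / 8 ≤ GG z 1 := by
    refine le_trans ?_ (GG_lower z 1 z le_rfl (by omega))
    have h1 : (h : ℝ) ≤ ((z : ℝ) + 1) ^ 4 := by exact_mod_cast hz4.le
    have h2 : Real.log h ≤ 4 * Real.log ((z : ℝ) + 1) := by
      have := Real.log_le_log hh0 h1
      rwa [Real.log_pow] at this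
    push_cast
    linarith
  have b3 : (h : ℝ) / GG z 1 ≤ 8 * (h / Real.log h) := by
    have : (h : ℝ) / GG z 1 ≤ h / (Real.log h / 8) := by gcongr
    refine this.trans (le_of_eq ?_)
    field_simp
  have b4 : (z : ℝ) ^ 2 + z ≤ 2 * Real.sqrt h := by
    have h1 : ((z * z : ℕ) : ℝ) ≤ Nat.sqrt h := by exact_mod_cast hzz
    have h2 : ((Nat.sqrt h : ℕ) : ℝ) ≤ Real.sqrt h := Real.nat_sqrt_le_real_sqrt
    have h3 : (z : ℝ) ≤ z ^ 2 := by
      have : (1 : ℝ) ≤ z := by exact_mod_cast hz1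
      nlinarith
    push_cast at h1
    nlinarith
  have b5 : Real.sqrt h ≤ 2 * (h / Real.log h) := by
    -- log h <= 2 sqrt h
    have h1 : Real.log h ≤ 2 * Real.sqrt h := by
      have h2 : Real.log (Real.sqrt h) ≤ Real.sqrt h - 1 := Real.log_le_sub_one_of_pos (Real.sqrt_pos.mpr hh0)
      rw [Real.log_sqrt hh0.le] at h2
      linarith
    rw [← mul_div_assoc, le_div_iff₀ hlog]
    have h3 : Real.sqrt h * Real.sqrt h = h := Real.mul_self_sqrt hh0.le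
    nlinarith [Real.sqrt_nonneg (h : ℝ)]
  have b6 : 0 ≤ (h : ℝ) / Real.log h := by positivity
  linarith

end Pool.Agent.Helper27.D6
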