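import Mathlib
import Pool.Agent.Helper27.D6Det

set_option autoImplicit false

namespace Pool.Agent.Helper27.D6

open Finset

theorem sq_part_dvd (n h N : ℕ) (hn : 0 < n) :
    (∏ p ∈ pr h N, p ^ (n.factorization p / 2)) ^ 2 ∣ n := by
  rw [← Finset.prod_pow]
  apply Finset.prod_dvd_of_isRelPrime
  · intro p hp q hq hpq
    rw [Finset.mem_coe, mem_pr] at hp hq
    rw [Function.onFun, ← Nat.coprime_iff_isRelPrime]
    exact ((Nat.coprime_primes hp.2 hq.2).mpr hpq).pow_left _ |>.pow_right _ |>.pow_left _ |>.pow_right _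
  · intro p hp
    rw [mem_pr] at hp
    rw [← pow_mul]
    exact (pow_dvd_pow p (Nat.div_mul_le_self _ _)).trans (Nat.ordProj_dvd n p)

theorem sum_log_ex (S : Finset ℕ) (a b : ℕ) :
    ∑ p ∈ S.filter (fun p => ∃ n ∈ Ioc a b, p ∣ n), Real.log p ≤
      ∑ n ∈ Ioc a b, ∑ p ∈ S.filter (fun p => p ∣ n), Real.log p := by
  classical
  have h1 : ∑ n ∈ Ioc a b, ∑ p ∈ S.filter (fun p => p ∣ n), Real.log p =
      ∑ p ∈ S, ∑ n ∈ Ioc a b, if p ∣ n then Real.log p else 0 := by
    rw [Finset.sum_comm]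
    apply Finset.sum_congr rfl
    intro n _
    rw [Finset.sum_filter]
  rw [h1, Finset.sum_filter]
  apply Finset.sum_le_sum
  intro p _
  have h0 : 0 ≤ Real.log p := Real.log_natCast_nonneg p
  split_ifs with hex
  · obtain ⟨n, hn, hd⟩ := hex
    have : (if p ∣ n then Real.log p else 0) ≤ ∑ n ∈ Ioc a b, if p ∣ n then Real.log p else 0 := by
      apply Finset.single_le_sum (f := fun n => if p ∣ n then Real.log p else 0) _ hn
      intro n _
      split_ifs <;> simp [h0]
    rwa [if_pos hd] at this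
  · apply Finset.sum_nonneg
    intro n _
    split_ifs <;> simp [h0]

theorem block_mass {m w x y z : ℕ} (R : Rep m w x y z) {c h M N Bb : ℕ} (hh : 1 ≤ h)
    (hsub : Ioc c (c + h) ⊆ Ioc y x) (hMJ : x - y ≤ M) (hMz : z ≤ M) (hmN : m ≤ N) (hBb : 1 ≤ Bb)
    (hsq : ∀ n ∈ Ioc c (c + h), ∀ b : ℕ, b ^ 2 ∣ n → b ≤ Bb) :
    ∑ n ∈ Ioc c (c + h), Real.log n ≤ h * Real.log h + (pr 0 h).card * Real.log N +
      2 * h * Real.log Bb +
      ∑ p ∈ (pr h M).filter (fun p => ∃ n ∈ Ioc c (c + h), p ∣ n), Real.log p +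
      ((m : ℝ) - w) * Real.log N := by
  classical
  have hwm := R.hwm
  have hxw := R.hxw
  have hend : c + h ∈ Ioc c (c + h) := Finset.mem_Ioc.mpr ⟨by omega, le_rfl⟩
  have hend' := Finset.mem_Ioc.mp (hsub hend)
  have hchN : c + h ≤ N := by omega
  have hN1 : 1 ≤ N := by omega
  have hhN : h ≤ N := by omega
  have hLN : 0 ≤ Real.log N := Real.log_nonneg (by exact_mod_cast hN1)
  -- splitting
  have hsplit : pr 0 N = pr 0 h ∪ pr h N := by
    ext p; simp only [Finset.mem_union, mem_pr]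
    constructor
    · rintro ⟨⟨h1, h2⟩, h3⟩
      rcases le_or_gt p h with h4 | h4
      · exact Or.inl ⟨⟨h1, h4⟩, h3⟩
      · exact Or.inr ⟨⟨h4, h2⟩, h3⟩
    · rintro (⟨⟨h1, h2⟩, h3⟩ | ⟨⟨h1, h2⟩, h3⟩)
      · exact ⟨⟨h1, by omega⟩, h3⟩
      · exact ⟨⟨by omega, h2⟩, h3⟩
  have hdisj : Disjoint (pr 0 h) (pr h N) := by
    rw [Finset.disjoint_left]
    intro p h1 h2
    rw [mem_pr] at h1 h2
    omega
  have e1 : ∑ n ∈ Ioc c (c + h), Real.log n =
      ∑ p ∈ pr 0 h, (V p c (c + h) : ℝ) * Real.log p +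
      ∑ n ∈ Ioc c (c + h), ∑ p ∈ pr h N, (n.factorization p : ℝ) * Real.log p := by
    have : ∀ n ∈ Ioc c (c + h), Real.log n = ∑ p ∈ pr 0 h, (n.factorization p : ℝ) * Real.log p +
        ∑ p ∈ pr h N, (n.factorization p : ℝ) * Real.log p := by
      intro n hn
      rw [Finset.mem_Ioc] at hn
      rw [log_eq_sum n N (by omega) (by omega), hsplit, Finset.sum_union hdisj]
    rw [Finset.sum_congr rfl this, Finset.sum_add_distrib]
    congr 1
    rw [Finset.sum_comm]
    apply Finset.sum_congr rfl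
    intro p _
    unfold V
    push_cast
    rw [Finset.sum_mul]
  have e2 : ∑ p ∈ pr 0 h, (V p c (c + h) : ℝ) * Real.log p ≤
      h * Real.log h + (pr 0 h).card * Real.log N := by
    have := small_mass c (c + h) h (by omega) (by omega)
    have e : ((c + h : ℕ) : ℝ) - c = h := by push_cast; ring
    rw [e] at this
    refine this.trans ?_
    have : Real.log ((c + h : ℕ) : ℝ) ≤ Real.log N :=
      Real.log_le_log (by exact_mod_cast (by omega : 0 < c + h)) (by exact_mod_cast hchN)
    gcongr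
  have e3 : ∀ n ∈ Ioc c (c + h), ∑ p ∈ pr h N, (n.factorization p : ℝ) * Real.log p ≤
      2 * Real.log Bb + ∑ p ∈ pr h N, ((n.factorization p % 2 : ℕ) : ℝ) * Real.log p := by
    intro n hn
    have hn0 : 0 < n := by rw [Finset.mem_Ioc] at hn; omega
    set b := ∏ p ∈ pr h N, p ^ (n.factorization p / 2) with hb
    have hb1 := hsq n hn b (sq_part_dvd n h N hn0)
    have hb0 : 0 < b := Finset.prod_pos fun p hp => by
      have := (mem_pr.mp hp).2.pos; positivity
    have hlb : Real.log b = ∑ p ∈ pr h N, ((n.factorization p / 2 : ℕ) : ℝ) * Real.log p := by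
      rw [hb]
      push_cast
      rw [Real.log_prod]
      · apply Finset.sum_congr rfl
        intro p _
        rw [Real.log_pow]
      · intro p hp
        have := (mem_pr.mp hp).2.pos
        positivity
    have hlb' : Real.log b ≤ Real.log Bb := Real.log_le_log (by exact_mod_cast hb0) (by exact_mod_cast hb1)
    have : ∑ p ∈ pr h N, (n.factorization p : ℝ) * Real.log p = 2 * Real.log b +
        ∑ p ∈ pr h N, ((n.factorization p % 2 : ℕ) : ℝ) * Real.log p := by
      rw [hlb, Finset.mul_sum, ← Finset.sum_add_distrib]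
      apply Finset.sum_congr rfl
      intro p _
      have h1 : (n.factorization p : ℝ) = 2 * ((n.factorization p / 2 : ℕ) : ℝ) +
          ((n.factorization p % 2 : ℕ) : ℝ) := by
        have := Nat.div_add_mod (n.factorization p) 2
        exact_mod_cast this.symm
      rw [h1]
      ring
    rw [this]; linarith
  have e4 : ∑ n ∈ Ioc c (c + h), ∑ p ∈ pr h N, (n.factorization p : ℝ) * Real.log p ≤
      2 * h * Real.log Bb + ∑ p ∈ pr h N,
        ((∑ n ∈ Ioc c (c + h), n.factorization p % 2 : ℕ) : ℝ) * Real.log p := by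
    refine (Finset.sum_le_sum e3).trans ?_
    rw [Finset.sum_add_distrib, Finset.sum_const, Nat.card_Ioc, nsmul_eq_mul, Finset.sum_comm]
    have : ((c + h - c : ℕ) : ℝ) = h := by rw [Nat.add_sub_cancel_left]
    rw [this]
    apply le_of_eq
    congr 1
    · ring
    · apply Finset.sum_congr rfl
      intro p _
      push_cast
      rw [Finset.sum_mul]
  -- odd parts
  have e5 : ∀ p ∈ pr h N, (∑ n ∈ Ioc c (c + h), n.factorization p % 2) ≤
      (if (p ≤ M ∧ ∃ n ∈ Ioc c (c + h), p ∣ n) then 1 else 0) +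
      (if (∃ n ∈ Ioc w m, p ∣ n) then 1 else 0) := by
    intro p hp
    rw [mem_pr] at hp
    by_cases hex : ∃ n ∈ Ioc c (c + h), p ∣ n
    · obtain ⟨n, hn, hd⟩ := hex
      have h1 : ∑ n ∈ Ioc c (c + h), n.factorization p % 2 = n.factorization p % 2 := by
        rw [Finset.sum_eq_single_of_mem n hn]
        intro n' hn' hne
        have : ¬ p ∣ n' := fun hd' => hne (mult_unique (by omega) hn hn' hd hd')
        simp [Nat.factorization_eq_zero_of_not_dvd this]
      rw [h1]
      rcases le_or_gt p M with hpM | hpM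
      · rw [if_pos ⟨hpM, n, hn, hd⟩]
        omega
      · by_cases hI : ∃ n ∈ Ioc w m, p ∣ n
        · rw [if_pos hI]; omega
        · push Not at hI
          have := even_J R hp.2 (hsub hn) hI (by omega) (by omega)
          rw [Nat.even_iff] at this
          omega
    · push Not at hex
      have : ∑ n ∈ Ioc c (c + h), n.factorization p % 2 = 0 := by
        apply Finset.sum_eq_zero
        intro n hn
        simp [Nat.factorization_eq_zero_of_not_dvd (hex n hn)]
      rw [this]; exact Nat.zero_le _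
  have e6 : ∑ p ∈ pr h N, ((∑ n ∈ Ioc c (c + h), n.factorization p % 2 : ℕ) : ℝ) * Real.log p ≤
      ∑ p ∈ (pr h M).filter (fun p => ∃ n ∈ Ioc c (c + h), p ∣ n), Real.log p +
      ∑ p ∈ (pr h N).filter (fun p => ∃ n ∈ Ioc w m, p ∣ n), Real.log p := by
    have h1 : ∀ p ∈ pr h N, ((∑ n ∈ Ioc c (c + h), n.factorization p % 2 : ℕ) : ℝ) * Real.log p ≤
        (if (p ≤ M ∧ ∃ n ∈ Ioc c (c + h), p ∣ n) then Real.log p else 0) +
        (if (∃ n ∈ Ioc w m, p ∣ n) then Real.log p else 0) := by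
      intro p hp
      have hlp : 0 ≤ Real.log p := Real.log_nonneg (by
        exact_mod_cast (mem_pr.mp hp).2.one_lt.le)
      have h2 := e5 p hp
      have h3 : ((∑ n ∈ Ioc c (c + h), n.factorization p % 2 : ℕ) : ℝ) ≤
        (((if (p ≤ M ∧ ∃ n ∈ Ioc c (c + h), p ∣ n) then 1 else 0) +
        (if (∃ n ∈ Ioc w m, p ∣ n) then 1 else 0) : ℕ) : ℝ) := by exact_mod_cast h2
      refine (mul_le_mul_of_nonneg_right h3 hlp).trans (le_of_eq ?_)
      push_cast
      rw [add_mul, ite_mul, ite_mul]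
      simp
    refine (Finset.sum_le_sum h1).trans ?_
    rw [Finset.sum_add_distrib, ← Finset.sum_filter, ← Finset.sum_filter]
    refine add_le_add ?_ le_rfl
    apply Finset.sum_le_sum_of_subset_of_nonneg
    · intro p hp
      rw [Finset.mem_filter, mem_pr] at hp ⊢
      exact ⟨⟨⟨hp.1.1.1, hp.2.1⟩, hp.1.2⟩, hp.2.2⟩
    · intro p _ _
      exact Real.log_natCast_nonneg p
  have e7 : ∑ p ∈ (pr h N).filter (fun p => ∃ n ∈ Ioc w m, p ∣ n), Real.log p ≤
      ((m : ℝ) - w) * Real.log N := by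
    have h2 := sum_log_ex (pr h N) w m
    refine h2.trans ?_
    have h3 : ∀ n ∈ Ioc w m, ∑ p ∈ (pr h N).filter (fun p => p ∣ n), Real.log p ≤ Real.log N := by
      intro n hn
      rw [Finset.mem_Ioc] at hn
      refine (sum_log_dvd (pr h N) (fun p hp => (mem_pr.mp hp).2) n (by omega)).trans ?_
      exact Real.log_le_log (by exact_mod_cast (by omega : 0 < n)) (by exact_mod_cast (by omega : n ≤ N))
    refine (Finset.sum_le_sum h3).trans ?_
    rw [Finset.sum_const, Nat.card_Ioc, nsmul_eq_mul, Nat.cast_sub hwm.le]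
  rw [e1]
  linarith

end Pool.Agent.Helper27.D6
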