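import Pool.Agent.Helper27.D6Main

set_option autoImplicit false

namespace Pool.Agent.Helper27.D6

open Finset

open Classical in
theorem x4_count (s : ℕ) (hs : 400 ≤ s) : ∃ G₀ : ℕ, 2 ≤ G₀ ∧ ∀ G : ℕ, G₀ ≤ G → ∀ N : ℕ,
    G ^ (2 * s) ≤ N → N < (G + 1) ^ (2 * s) →
    (((range N).filter (fun n' => ∃ H z : ℕ, 1 ≤ H ∧ H ≤ 3 * G ^ 10 ∧ H ≤ n' ∧ (Real.log N) ^ 4 ≤ H ∧
      40 * H < z ∧ z ≤ G ^ 11 ∧ BadMid N (n' - H) (2 * H + 1) z)).card : ℝ) * (G : ℝ) ^ 3 ≤ N := by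
  obtain ⟨G₁, hG₁2, hG₁⟩ := mid_count s hs
  obtain ⟨G₂, hG₂2, hG₂⟩ := ev_pow 2 s 1
  refine ⟨max (max G₁ G₂) 10, by
    have := le_max_left (max G₁ G₂) 10
    have := le_max_left G₁ G₂
    omega, fun G hG N hN hN' => ?_⟩
  have hGG₁ : G₁ ≤ G := le_trans (le_max_left _ _) (le_trans (le_max_left _ _) hG)
  have hGG₂ : G₂ ≤ G := le_trans (le_max_right _ _) (le_trans (le_max_left _ _) hG)
  have hG10 : 10 ≤ G := le_trans (le_max_right _ _) hG
  have hN1 : 1 ≤ N := le_trans (Nat.one_le_pow _ _ (by omega)) hN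
  have hmid := hG₁ G hGG₁ N hN
  have hev := hG₂ G hGG₂ N hN1 hN'
  rw [pow_one] at hev
  set L := Real.log N with hL
  have hL0 : 0 ≤ L := Real.log_natCast_nonneg N
  have hG0 : (10 : ℝ) ≤ G := by exact_mod_cast hG10
  have hN0 : (0 : ℝ) ≤ N := Nat.cast_nonneg _
  set D := (Icc 1 (3 * G ^ 10)) ×ˢ (range (G ^ 11 + 1)) with hD
  set F : ℕ × ℕ → Finset ℕ := fun q => (range N).filter (fun n' => q.1 ≤ n' ∧ L ^ 4 ≤ q.1 ∧
      40 * q.1 < q.2 ∧ q.2 ≤ G ^ 11 ∧ BadMid N (n' - q.1) (2 * q.1 + 1) q.2) with hF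
  have hsub : ((range N).filter (fun n' => ∃ H z : ℕ, 1 ≤ H ∧ H ≤ 3 * G ^ 10 ∧ H ≤ n' ∧ L ^ 4 ≤ H ∧
      40 * H < z ∧ z ≤ G ^ 11 ∧ BadMid N (n' - H) (2 * H + 1) z)) ⊆ D.biUnion F := by
    intro n' hn'
    rw [Finset.mem_filter] at hn'
    obtain ⟨hr, H, z, h1, h2, h3, h4, h5, h6, h7⟩ := hn'
    rw [Finset.mem_biUnion]
    refine ⟨(H, z), ?_, ?_⟩
    · rw [hD, Finset.mem_product, Finset.mem_Icc, Finset.mem_range]
      exact ⟨⟨h1, h2⟩, by simpa using Nat.lt_succ_of_le h6⟩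
    · rw [hF]
      simp only
      rw [Finset.mem_filter]
      exact ⟨hr, h3, h4, h5, h6, h7⟩
  have hFc : ∀ q ∈ D, ((F q).card : ℝ) * (G : ℝ) ^ 190 ≤ N * (2 + L) := by
    intro q hq
    rw [hD, Finset.mem_product, Finset.mem_Icc] at hq
    by_cases hc : L ^ 4 ≤ q.1 ∧ 40 * q.1 < q.2 ∧ q.2 ≤ G ^ 11
    · refine le_trans ?_ (hmid q.1 q.2 hq.1.1 hc.1 hc.2.1 hc.2.2)
      apply mul_le_mul_of_nonneg_right _ (by positivity)
      have : (F q).card ≤ ((range N).filter (fun c => BadMid N c (2 * q.1 + 1) q.2)).card := by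
        apply Finset.card_le_card_of_injOn (fun n' => n' - q.1)
        · intro n' hn'
          rw [hF] at hn'
          simp only [Finset.coe_filter, Set.mem_ofPred_eq, Finset.mem_range] at hn' ⊢
          exact ⟨by omega, hn'.2.2.2.2.2⟩
        · intro a ha b hb hab
          rw [hF] at ha hb
          simp only [Finset.coe_filter, Set.mem_ofPred_eq, Finset.mem_range] at ha hb hab
          omega
      exact_mod_cast this
    · have : F q = ∅ := by
        rw [hF]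
        simp only
        rw [Finset.filter_eq_empty_iff]
        intro n' _ h
        exact hc ⟨h.2.1, h.2.2.1, h.2.2.2.1⟩
      rw [this]; simp only [Finset.card_empty, Nat.cast_zero, zero_mul]
      positivity
  set X := (((range N).filter (fun n' => ∃ H z : ℕ, 1 ≤ H ∧ H ≤ 3 * G ^ 10 ∧ H ≤ n' ∧ L ^ 4 ≤ H ∧
      40 * H < z ∧ z ≤ G ^ 11 ∧ BadMid N (n' - H) (2 * H + 1) z)).card : ℝ) with hX
  have hX1 : X * (G : ℝ) ^ 190 ≤ D.card * (N * (2 + L)) := by
    have h1 : X ≤ ∑ q ∈ D, ((F q).card : ℝ) := by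
      rw [hX]
      exact_mod_cast (Finset.card_le_card hsub).trans Finset.card_biUnion_le
    calc X * (G : ℝ) ^ 190 ≤ (∑ q ∈ D, ((F q).card : ℝ)) * (G : ℝ) ^ 190 :=
          mul_le_mul_of_nonneg_right h1 (by positivity)
      _ = ∑ q ∈ D, ((F q).card : ℝ) * (G : ℝ) ^ 190 := Finset.sum_mul _ _ _
      _ ≤ ∑ _q ∈ D, N * (2 + L) := Finset.sum_le_sum hFc
      _ = _ := by rw [Finset.sum_const, nsmul_eq_mul]
  have hDc : (D.card : ℝ) ≤ 6 * (G : ℝ) ^ 21 := by
    have : D.card ≤ 6 * G ^ 21 := by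
      rw [hD, Finset.card_product, Nat.card_Icc, Finset.card_range, Nat.add_sub_cancel]
      have h1 : G ^ 11 + 1 ≤ 2 * G ^ 11 := by
        have : 1 ≤ G ^ 11 := Nat.one_le_pow _ _ (by omega)
        omega
      calc 3 * G ^ 10 * (G ^ 11 + 1) ≤ 3 * G ^ 10 * (2 * G ^ 11) := Nat.mul_le_mul_left _ h1
        _ = 6 * G ^ 21 := by ring
    exact_mod_cast this
  have hX2 : X * (G : ℝ) ^ 190 ≤ 6 * (G : ℝ) ^ 22 * N := by
    have h2 : 2 + L ≤ G := by linarith
    calc X * (G : ℝ) ^ 190 ≤ D.card * (N * (2 + L)) := hX1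
      _ ≤ 6 * (G : ℝ) ^ 21 * (N * G) := by gcongr
      _ = 6 * (G : ℝ) ^ 22 * N := by ring
  have hX0 : 0 ≤ X := Nat.cast_nonneg _
  have h3 : (X * (G : ℝ) ^ 3) * (G : ℝ) ^ 187 ≤ N * (G : ℝ) ^ 187 := by
    calc (X * (G : ℝ) ^ 3) * (G : ℝ) ^ 187 = X * (G : ℝ) ^ 190 := by ring
      _ ≤ 6 * (G : ℝ) ^ 22 * N := hX2
      _ ≤ (G : ℝ) ^ 23 * N := by
          apply mul_le_mul_of_nonneg_right _ hN0
          have : (G : ℝ) ^ 23 = G * (G : ℝ) ^ 22 := by ring
          rw [this]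
          apply mul_le_mul_of_nonneg_right (by linarith) (by positivity)
      _ ≤ (G : ℝ) ^ 187 * N := by
          apply mul_le_mul_of_nonneg_right _ hN0
          exact pow_le_pow_right₀ (by linarith) (by norm_num)
      _ = _ := by ring
  exact le_of_mul_le_mul_right h3 (by positivity)

open Classical in
theorem badN_count (s : ℕ) (hs : 400 ≤ s) : ∃ G₀ : ℕ, 2 ≤ G₀ ∧ ∀ G : ℕ, G₀ ≤ G → ∀ N : ℕ,
    G ^ (2 * s) ≤ N → N < (G + 1) ^ (2 * s) →
    (((range N).filter (fun n' => BadN s G N n')).card : ℝ) * (G : ℝ) ^ 3 ≤ 5 * N := by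
  obtain ⟨G₁, hG₁2, hG₁⟩ := x4_count s hs
  obtain ⟨G₂, hG₂2, hG₂⟩ := badHit_count s hs
  obtain ⟨G₃, hG₃2, hG₃⟩ := six_count s hs
  refine ⟨max (max G₁ G₂) (max G₃ 10), by
    have := le_max_left (max G₁ G₂) (max G₃ 10)
    have := le_max_left G₁ G₂
    omega, fun G hG N hN hN' => ?_⟩
  have hGG₁ : G₁ ≤ G := le_trans (le_max_left _ _) (le_trans (le_max_left _ _) hG)
  have hGG₂ : G₂ ≤ G := le_trans (le_max_right _ _) (le_trans (le_max_left _ _) hG)
  have hGG₃ : G₃ ≤ G := le_trans (le_max_left _ _) (le_trans (le_max_right _ _) hG)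
  have hG10 : 10 ≤ G := le_trans (le_max_right _ _) (le_trans (le_max_right _ _) hG)
  have hN1 : 1 ≤ N := le_trans (Nat.one_le_pow _ _ (by omega)) hN
  have hNG : 2 * G ^ 10 ≤ N := by
    calc 2 * G ^ 10 ≤ G * G ^ 10 := Nat.mul_le_mul_right _ (by omega)
      _ = G ^ 11 := by ring
      _ ≤ G ^ (2 * s) := Nat.pow_le_pow_right (by omega) (by omega)
      _ ≤ N := hN
  have c1 := badSq_count G N (by omega) hNG
  have c2 := hG₂ G hGG₂ N hN hN'
  have c4 := hG₁ G hGG₁ N hN hN'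
  have c5 := hG₃ G hGG₃ N ⌊(Real.log N) ^ 7⌋₊ hN
    (Nat.floor_le (by have := Real.log_natCast_nonneg N; positivity))
  set K := ⌊(Real.log N) ^ 7⌋₊ with hK
  set S1 := (range N).filter (fun n' => BadSq G n') with hS1
  set S2 := (range (2 * N)).filter (fun c => BadHit G (G ^ (s + 3)) N c) with hS2
  set S4 := (range N).filter (fun n' => ∃ H z : ℕ, 1 ≤ H ∧ H ≤ 3 * G ^ 10 ∧ H ≤ n' ∧ (Real.log N) ^ 4 ≤ H ∧
      40 * H < z ∧ z ≤ G ^ 11 ∧ BadMid N (n' - H) (2 * H + 1) z) with hS4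
  set S5 := (Icc 1 (2 * N)).filter (fun n => Six K G n) with hS5
  set T2 := (range N).filter (fun n' => BadHit G (G ^ (s + 3)) N (n' + 1)) with hT2
  set T3 := (range N).filter (fun n' => G ^ 10 ≤ n' ∧ BadHit G (G ^ (s + 3)) N (n' - G ^ 10)) with hT3
  set T5 := (range N).filter (fun n' => Six K G (n' + 1)) with hT5
  set T6 := (range N).filter (fun n' => 2 ≤ n' ∧ Six K G (n' - 1)) with hT6
  have hT2c : T2.card ≤ S2.card := by
    apply Finset.card_le_card_of_injOn (fun n' => n' + 1)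
    · intro n' hn'
      simp only [hT2, hS2, Finset.coe_filter, Set.mem_ofPred_eq, Finset.mem_range] at hn' ⊢
      exact ⟨by omega, hn'.2⟩
    · intro a _ b _ hab
      simp only at hab; omega
  have hT3c : T3.card ≤ S2.card := by
    apply Finset.card_le_card_of_injOn (fun n' => n' - G ^ 10)
    · intro n' hn'
      simp only [hT3, hS2, Finset.coe_filter, Set.mem_ofPred_eq, Finset.mem_range] at hn' ⊢
      exact ⟨by omega, hn'.2.2⟩
    · intro a ha b hb hab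
      simp only [hT3, Finset.coe_filter, Set.mem_ofPred_eq, Finset.mem_range] at ha hb hab
      omega
  have hT5c : T5.card ≤ S5.card := by
    apply Finset.card_le_card_of_injOn (fun n' => n' + 1)
    · intro n' hn'
      simp only [hT5, hS5, Finset.coe_filter, Set.mem_ofPred_eq, Finset.mem_range, Finset.mem_Icc] at hn' ⊢
      exact ⟨by omega, hn'.2⟩
    · intro a _ b _ hab
      simp only at hab; omega
  have hT6c : T6.card ≤ S5.card := by
    apply Finset.card_le_card_of_injOn (fun n' => n' - 1)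
    · intro n' hn'
      simp only [hT6, hS5, Finset.coe_filter, Set.mem_ofPred_eq, Finset.mem_range, Finset.mem_Icc] at hn' ⊢
      exact ⟨by omega, hn'.2.2⟩
    · intro a ha b hb hab
      simp only [hT6, Finset.coe_filter, Set.mem_ofPred_eq, Finset.mem_range] at ha hb hab
      omega
  have hsub : (range N).filter (fun n' => BadN s G N n') ⊆ S1 ∪ (T2 ∪ (T3 ∪ (S4 ∪ (T5 ∪ T6)))) := by
    intro n' hn'
    rw [Finset.mem_filter] at hn'
    obtain ⟨hr, h⟩ := hn'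
    simp only [Finset.mem_union, hS1, hT2, hT3, hS4, hT5, hT6, Finset.mem_filter]
    rcases h with h | h | h | h | ⟨n, h1, h2, h3⟩
    · exact Or.inl ⟨hr, h⟩
    · exact Or.inr (Or.inl ⟨hr, h⟩)
    · exact Or.inr (Or.inr (Or.inl ⟨hr, h⟩))
    · exact Or.inr (Or.inr (Or.inr (Or.inl ⟨hr, h⟩)))
    · rcases h1 with h1 | h1
      · subst h1
        exact Or.inr (Or.inr (Or.inr (Or.inr (Or.inl ⟨hr, h3⟩))))
      · have : n = n' - 1 := by omega
        rw [this] at h3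
        exact Or.inr (Or.inr (Or.inr (Or.inr (Or.inr ⟨hr, by omega, h3⟩))))
  have hcard : ((range N).filter (fun n' => BadN s G N n')).card ≤
      S1.card + S2.card + S2.card + S4.card + S5.card + S5.card := by
    refine (Finset.card_le_card hsub).trans ?_
    have e1 := Finset.card_union_le S1 (T2 ∪ (T3 ∪ (S4 ∪ (T5 ∪ T6))))
    have e2 := Finset.card_union_le T2 (T3 ∪ (S4 ∪ (T5 ∪ T6)))
    have e3 := Finset.card_union_le T3 (S4 ∪ (T5 ∪ T6))
    have e4 := Finset.card_union_le S4 (T5 ∪ T6)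
    have e5 := Finset.card_union_le T5 T6
    omega
  have hcardr : (((range N).filter (fun n' => BadN s G N n')).card : ℝ) ≤
      S1.card + S2.card + S2.card + S4.card + S5.card + S5.card := by exact_mod_cast hcard
  have hG0 : (10 : ℝ) ≤ G := by exact_mod_cast hG10
  have hN0 : (0 : ℝ) ≤ N := Nat.cast_nonneg _
  have hpow : ∀ X : ℝ, 0 ≤ X → ∀ a : ℝ, a ≤ 10 → 0 ≤ a → X * (G : ℝ) ^ 10 ≤ a * N → X * (G : ℝ) ^ 3 ≤ N / 2 := by
    intro X hX a ha ha0 h
    have h1 : (X * (G : ℝ) ^ 3) * (G : ℝ) ^ 7 ≤ (N / 2) * (G : ℝ) ^ 7 := by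
      have h2 : (20 : ℝ) ≤ (G : ℝ) ^ 7 := by
        calc (20 : ℝ) ≤ 10 ^ 7 := by norm_num
          _ ≤ (G : ℝ) ^ 7 := pow_le_pow_left₀ (by norm_num) hG0 7
      calc (X * (G : ℝ) ^ 3) * (G : ℝ) ^ 7 = X * (G : ℝ) ^ 10 := by ring
        _ ≤ a * N := h
        _ ≤ 10 * N := mul_le_mul_of_nonneg_right ha hN0
        _ = (N / 2) * 20 := by ring
        _ ≤ _ := mul_le_mul_of_nonneg_left h2 (by positivity)
    exact le_of_mul_le_mul_right h1 (by positivity)
  have d1 := hpow S1.card (Nat.cast_nonneg _) 10 le_rfl (by norm_num) c1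
  have d5 := hpow S5.card (Nat.cast_nonneg _) 1 (by norm_num) (by norm_num) (by rw [one_mul]; exact c5)
  calc (((range N).filter (fun n' => BadN s G N n')).card : ℝ) * (G : ℝ) ^ 3
      ≤ (S1.card + S2.card + S2.card + S4.card + S5.card + S5.card) * (G : ℝ) ^ 3 :=
        mul_le_mul_of_nonneg_right hcardr (by positivity)
    _ = S1.card * (G : ℝ) ^ 3 + S2.card * (G : ℝ) ^ 3 + S2.card * (G : ℝ) ^ 3 + S4.card * (G : ℝ) ^ 3 +
        S5.card * (G : ℝ) ^ 3 + S5.card * (G : ℝ) ^ 3 := by ring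
    _ ≤ 5 * N := by linarith

open Classical in
theorem badM_count (s : ℕ) (hs : 400 ≤ s) : ∃ G₀ : ℕ, 2 ≤ G₀ ∧ ∀ G : ℕ, G₀ ≤ G → ∀ N : ℕ,
    G ^ (2 * s) ≤ N → N < (G + 1) ^ (2 * s) →
    (((Ioc (N / 2) N).filter (fun m => BadM s G N m)).card : ℝ) * G ≤ 5 * N := by
  obtain ⟨G₁, hG₁2, hG₁⟩ := badN_count s hs
  refine ⟨G₁, hG₁2, fun G hG N hN hN' => ?_⟩
  have h1 := hG₁ G hG N hN hN'
  set S := (range N).filter (fun n' => BadN s G N n') with hS
  have hsub : (Ioc (N / 2) N).filter (fun m => BadM s G N m) ⊆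
      (((range G) ×ˢ (range G)) ×ˢ S).image (fun q => q.1.1 * (q.2 / q.1.2)) := by
    intro m hm
    rw [Finset.mem_filter, Finset.mem_Ioc] at hm
    obtain ⟨⟨hm1, hm2⟩, k, k', P, hmk, hP, hkG, hk'1, hk'k, hbad⟩ := hm
    rw [Finset.mem_image]
    refine ⟨((k, k'), k' * P), ?_, ?_⟩
    · rw [Finset.mem_product, Finset.mem_product, Finset.mem_range, Finset.mem_range, hS,
        Finset.mem_filter, Finset.mem_range]
      refine ⟨⟨hkG, by simp only; omega⟩, ?_, hbad⟩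
      simp only
      have : k' * P < k * P := Nat.mul_lt_mul_of_pos_right hk'k hP.pos
      omega
    · simp only
      rw [Nat.mul_div_cancel_left _ (by omega : 0 < k'), hmk]
  have h2 : ((Ioc (N / 2) N).filter (fun m => BadM s G N m)).card ≤ G * G * S.card := by
    refine (Finset.card_le_card hsub).trans (Finset.card_image_le.trans ?_)
    rw [Finset.card_product, Finset.card_product, Finset.card_range]
  have h3 : (((Ioc (N / 2) N).filter (fun m => BadM s G N m)).card : ℝ) ≤ G * G * S.card := by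
    exact_mod_cast h2
  calc (((Ioc (N / 2) N).filter (fun m => BadM s G N m)).card : ℝ) * G ≤ (G * G * S.card) * G :=
        mul_le_mul_of_nonneg_right h3 (Nat.cast_nonneg _)
    _ = S.card * (G : ℝ) ^ 3 := by ring
    _ ≤ 5 * N := h1

end Pool.Agent.Helper27.D6
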