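import Pool.Agent.Helper27.D6Final

/-!
The dyadic form of the lower density of D_6.
-/

set_option autoImplicit false

namespace Pool.Agent.Helper27.D6

open Finset

theorem dyadic_of_R7 (h : R7Statement) : ∃ c : ℝ, 0 < c ∧ ∃ N₀ : ℕ, ∀ N : ℕ, N₀ ≤ N →
    ∃ S : Finset ℕ, S ⊆ Ioc (N / 2) N ∧ (∀ m ∈ S, N140ae710.HasMinimum m 6) ∧
      c * (N : ℝ) ≤ (S.card : ℝ) := by
  classical
  obtain ⟨s, B, hs, _, c, hc, N₀, hN₀⟩ := Helper96.D6.countGood 400
  obtain ⟨G₁, hG₁2, hG₁⟩ := exclusion s hs B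
  obtain ⟨G₂, hG₂2, hG₂⟩ := r7_use h s hs
  obtain ⟨G₃, hG₃2, hG₃⟩ := badM_count s hs
  set G₀ := max (max G₁ G₂) (max G₃ (⌈10 / c⌉₊ + 10)) with hG₀
  refine ⟨c / 2, by positivity, max N₀ (G₀ ^ (2 * s)), fun N hN => ?_⟩
  have hNN₀ : N₀ ≤ N := (le_max_left _ _).trans hN
  have hNG₀ : G₀ ^ (2 * s) ≤ N := (le_max_right _ _).trans hN
  set G := Nat.findGreatest (fun g => g ^ (2 * s) ≤ N) N with hG
  have hGspec : G ^ (2 * s) ≤ N := by
    have h0 : (0 : ℕ) ^ (2 * s) ≤ N := by rw [zero_pow (by omega)]; exact Nat.zero_le _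
    exact Nat.findGreatest_spec (P := fun g => g ^ (2 * s) ≤ N) (Nat.zero_le N) h0
  have hG₀N : G₀ ≤ N := le_trans (Nat.le_self_pow (by omega) G₀) hNG₀
  have hGG₀ : G₀ ≤ G := Nat.le_findGreatest hG₀N hNG₀
  have hGlt : N < (G + 1) ^ (2 * s) := by
    by_contra hcon
    push Not at hcon
    have h1 : G + 1 ≤ N := le_trans (Nat.le_self_pow (by omega) _) hcon
    have h2 := Nat.le_findGreatest (P := fun g => g ^ (2 * s) ≤ N) h1 hcon
    omega
  have hGG₁ : G₁ ≤ G := le_trans (le_trans (le_max_left _ _) (le_max_left _ _)) hGG₀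
  have hGG₂ : G₂ ≤ G := le_trans (le_trans (le_max_right _ _) (le_max_left _ _)) hGG₀
  have hGG₃ : G₃ ≤ G := le_trans (le_trans (le_max_left _ _) (le_max_right _ _)) hGG₀
  have hGc : ⌈10 / c⌉₊ + 10 ≤ G := le_trans (le_trans (le_max_right _ _) (le_max_right _ _)) hGG₀
  have hcount := hN₀ N hNN₀ G hGspec hGlt
  have hbad := hG₃ G hGG₃ N hGspec hGlt
  have hGr : 10 / c ≤ G := (Nat.le_ceil _).trans (by exact_mod_cast (by omega : ⌈10 / c⌉₊ ≤ G))
  have hG0 : (0 : ℝ) < G := by exact_mod_cast (by omega : 0 < G)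
  have hbad2 : (((Ioc (N / 2) N).filter (fun m => BadM s G N m)).card : ℝ) ≤ c / 2 * N := by
    have h1 : (((Ioc (N / 2) N).filter (fun m => BadM s G N m)).card : ℝ) * G ≤ (c / 2 * N) * G := by
      refine hbad.trans ?_
      rw [div_le_iff₀ hc] at hGr
      have hN0 : (0 : ℝ) ≤ N := Nat.cast_nonneg _
      nlinarith
    exact le_of_mul_le_mul_right h1 hG0
  have hNbig : 4 * (G * (G + 2)) + 100 ≤ N := by
    have h1 : 4 * (G * (G + 2)) + 100 ≤ G ^ 20 := by
      have e1 : G * (G + 2) ≤ G ^ 3 := by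
        calc G * (G + 2) ≤ G * (G * G) := Nat.mul_le_mul_left _ (by nlinarith)
          _ = G ^ 3 := by ring
      have e2 : 100 ≤ G ^ 3 := by
        calc 100 ≤ 10 ^ 3 := by norm_num
          _ ≤ G ^ 3 := Nat.pow_le_pow_left (by omega) 3
      calc 4 * (G * (G + 2)) + 100 ≤ 5 * G ^ 3 := by omega
        _ ≤ G * G ^ 3 := Nat.mul_le_mul_right _ (by omega)
        _ = G ^ 4 := by ring
        _ ≤ G ^ 20 := Nat.pow_le_pow_right (by omega) (by norm_num)
    exact h1.trans (le_trans (Nat.pow_le_pow_right (by omega) (by omega)) hGspec)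
  refine ⟨goodSet B G N \ (Ioc (N / 2) N).filter (fun m => BadM s G N m), ?_, ?_, ?_⟩
  · intro m hm
    have h1 := (Finset.mem_sdiff.mp hm).1
    rw [goodSet, Finset.mem_filter] at h1
    exact h1.1
  · intro m hm
    obtain ⟨h1, h2⟩ := Finset.mem_sdiff.mp hm
    rw [goodSet, Finset.mem_filter] at h1
    obtain ⟨hmI, hgood⟩ := h1
    have hmI' := Finset.mem_Ioc.mp hmI
    have hb : ¬ BadM s G N m := fun hb => h2 (Finset.mem_filter.mpr ⟨hmI, hb⟩)
    have hGle : 2 * G + 4 ≤ G * (G + 2) := by nlinarith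
    apply hasMin_of_good hgood (by omega) (by omega)
    intro w x y z R
    have hN2m : N < 2 * m := by omega
    exact hG₁ G hGG₁ N hGspec hGlt m hmI'.2 hN2m hgood hb w x y z R
      (hG₂ G hGG₂ N hGspec m w x y z R hmI'.2 hN2m)
  · have h1 := Finset.le_card_sdiff ((Ioc (N / 2) N).filter (fun m => BadM s G N m)) (goodSet B G N)
    have h2 : ((goodSet B G N).card : ℝ) -
        (((Ioc (N / 2) N).filter (fun m => BadM s G N m)).card : ℝ) ≤
        ((goodSet B G N \ (Ioc (N / 2) N).filter (fun m => BadM s G N m)).card : ℝ) := by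
      rw [sub_le_iff_le_add]
      exact_mod_cast (by omega :
        (goodSet B G N).card ≤ (goodSet B G N \ (Ioc (N / 2) N).filter
          (fun m => BadM s G N m)).card + ((Ioc (N / 2) N).filter (fun m => BadM s G N m)).card)
    linarith

end Pool.Agent.Helper27.D6
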