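import Pool.Agent.Helper27.D6LS

set_option autoImplicit false

namespace Pool.Agent.Helper27.D6

open Finset Pool.Agent.Helper94.Rev

/-- Number of multiples of `p` among `x, ..., x + h - 1`, minus `h / p`. -/
noncomputable def fp (h p x : ℕ) : ℝ := ∑ i ∈ range h, ((if p ∣ x + i then (1 : ℝ) else 0) - 1 / p)

noncomputable def cc (h p a : ℕ) : ℂ := (1 / p : ℂ) * ∑ i ∈ range h, ex (i * ((a : ℝ) / p))

theorem fp_eq (h p x : ℕ) (hp : 0 < p) :
    (fp h p x : ℂ) = ∑ a ∈ Ico 1 p, cc h p a * ex (x * ((a : ℝ) / p)) := by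
  have hp' : (p : ℂ) ≠ 0 := by exact_mod_cast hp.ne'
  have h1 : ∀ i ∈ range h, (((if p ∣ x + i then (1 : ℝ) else 0) - 1 / p : ℝ) : ℂ) =
      (1 / p : ℂ) * ∑ a ∈ Ico 1 p, ex ((a : ℝ) * ((x + i : ℕ) : ℤ) / p) := by
    intro i _
    have h2 := sum_ex_div p hp ((x + i : ℕ) : ℤ)
    rw [← Finset.sum_range_add_sum_Ico _ hp, Finset.sum_range_one] at h2
    have h3 : ex (((0 : ℕ) : ℝ) * (((x + i : ℕ) : ℤ) : ℝ) / p) = 1 := by
      rw [Nat.cast_zero, zero_mul, zero_div, ex_zero]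
    rw [h3] at h2
    have h4 : ∑ a ∈ Ico 1 p, ex ((a : ℝ) * ((x + i : ℕ) : ℤ) / p) =
        (if ((p : ℕ) : ℤ) ∣ ((x + i : ℕ) : ℤ) then (p : ℂ) else 0) - 1 := by
      rw [← h2]; ring
    rw [h4]
    have h5 : ((p : ℕ) : ℤ) ∣ ((x + i : ℕ) : ℤ) ↔ p ∣ x + i := Int.natCast_dvd_natCast
    by_cases h6 : p ∣ x + i
    · rw [if_pos h6, if_pos (h5.mpr h6)]
      push_cast
      field_simp
    · rw [if_neg h6, if_neg (fun h => h6 (h5.mp h))]
      push_cast
      ring
  unfold fp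
  rw [Complex.ofReal_sum, Finset.sum_congr rfl h1, ← Finset.mul_sum, Finset.sum_comm, Finset.mul_sum]
  apply Finset.sum_congr rfl
  intro a _
  unfold cc
  rw [mul_assoc, Finset.sum_mul]
  congr 1
  apply Finset.sum_congr rfl
  intro i _
  rw [← ex_add]
  congr 1
  push_cast
  ring

theorem cc_norm (h p : ℕ) (hp : 0 < p) (hh : h ≤ p) :
    ∑ a ∈ Ico 1 p, ‖cc h p a‖ ^ 2 ≤ (h : ℝ) / p := by
  have hp' : (p : ℂ) ≠ 0 := by exact_mod_cast hp.ne'
  have hp0 : (0 : ℝ) < p := by exact_mod_cast hp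
  have h1 : ∑ a ∈ Ico 1 p, ‖cc h p a‖ ^ 2 ≤ ∑ a ∈ range p, ‖cc h p a‖ ^ 2 := by
    apply Finset.sum_le_sum_of_subset_of_nonneg
    · intro a ha; rw [Finset.mem_Ico] at ha; rw [Finset.mem_range]; exact ha.2
    · intro _ _ _; positivity
  refine h1.trans (le_of_eq ?_)
  have h2 : ((∑ a ∈ range p, ‖cc h p a‖ ^ 2 : ℝ) : ℂ) = ((h : ℝ) / p : ℝ) := by
    push_cast
    have h3 : ∀ a ∈ range p, ((‖cc h p a‖ : ℂ)) ^ 2 =
        (1 / (p : ℂ) ^ 2) * ∑ i ∈ range h, ∑ j ∈ range h,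
          ex ((a : ℝ) * (((j : ℤ) - (i : ℤ) : ℤ) : ℝ) / p) := by
      intro a _
      have h4 : ((‖cc h p a‖ : ℂ)) ^ 2 = (starRingEnd ℂ) (cc h p a) * cc h p a := by
        rw [mul_comm, Complex.mul_conj, Complex.normSq_eq_norm_sq]; push_cast; rfl
      rw [h4]
      unfold cc
      simp only [map_sum, map_mul, conj_ex]
      have h5 : (starRingEnd ℂ) (1 / (p : ℂ)) = 1 / (p : ℂ) := by
        simp
      rw [h5]
      have h6 : (1 / (p : ℂ) * ∑ x ∈ range h, ex (-(↑x * (↑a / ↑p)))) *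
          (1 / (p : ℂ) * ∑ x ∈ range h, ex (↑x * (↑a / ↑p))) =
          1 / (p : ℂ) ^ 2 * ((∑ x ∈ range h, ex (-(↑x * (↑a / ↑p)))) *
            ∑ x ∈ range h, ex (↑x * (↑a / ↑p))) := by
        ring
      rw [h6, Finset.sum_mul_sum]
      congr 1
      apply Finset.sum_congr rfl
      intro i _
      apply Finset.sum_congr rfl
      intro j _
      rw [← ex_add]
      congr 1
      push_cast
      ring
    rw [Finset.sum_congr rfl h3, ← Finset.mul_sum, Finset.sum_comm]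
    have h7 : ∀ i ∈ range h, ∑ a ∈ range p, ∑ j ∈ range h,
        ex ((a : ℝ) * (((j : ℤ) - (i : ℤ) : ℤ) : ℝ) / p) = p := by
      intro i hi
      rw [Finset.mem_range] at hi
      rw [Finset.sum_comm]
      have h8 : ∀ j ∈ range h, ∑ a ∈ range p, ex ((a : ℝ) * (((j : ℤ) - (i : ℤ) : ℤ) : ℝ) / p) =
          if j = i then (p : ℂ) else 0 := by
        intro j hj
        rw [Finset.mem_range] at hj
        rw [sum_ex_div p hp]
        congr 1
        apply propext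
        constructor
        · intro h9
          have h10 := Int.eq_zero_of_abs_lt_dvd h9 (by rw [abs_lt]; constructor <;> omega)
          omega
        · rintro rfl; simp
      rw [Finset.sum_congr rfl h8, Finset.sum_ite_eq' (range h) i, if_pos (Finset.mem_range.mpr hi)]
    rw [Finset.sum_congr rfl h7, Finset.sum_const, Finset.card_range, nsmul_eq_mul]
    field_simp
  exact_mod_cast h2

section Sep

variable {κ : Type*} [Fintype κ] [DecidableEq κ]

/-- The frequency attached to a tuple. -/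
noncomputable def theta (t : κ → (_ : ℕ) × ℕ) : ℚ := ∑ j, ((t j).2 : ℚ) / (t j).1

def Idx (P : κ → Finset ℕ) (j : κ) : Finset ((_ : ℕ) × ℕ) := (P j).sigma (fun p => Ico 1 p)

theorem norm_small (p q a : ℕ) [hp : Fact p.Prime] (hq : q.Prime) (hne : q ≠ p) :
    padicNorm p ((a : ℚ) / q) ≤ 1 := by
  rw [padicNorm.div]
  have hqf : Fact q.Prime := ⟨hq⟩
  have h1 : padicNorm p (q : ℚ) = 1 := by
    apply padicNorm.padicNorm_of_prime_of_ne
    exact hne.symm
  rw [h1, div_one]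
  exact padicNorm.of_nat a
  
theorem not_int (P : κ → Finset ℕ) (hP : ∀ j, ∀ p ∈ P j, p.Prime)
    (hdis : ∀ i j, i ≠ j → Disjoint (P i) (P j))
    (t t' : κ → (_ : ℕ) × ℕ) (ht : t ∈ Fintype.piFinset (Idx P)) (ht' : t' ∈ Fintype.piFinset (Idx P))
    (hne : t ≠ t') (n : ℤ) : theta t - theta t' ≠ n := by
  intro heq
  obtain ⟨j, hj⟩ := Function.ne_iff.mp hne
  have hmem : ∀ i, (t i).1 ∈ P i ∧ 1 ≤ (t i).2 ∧ (t i).2 < (t i).1 := by
    intro i
    have := Fintype.mem_piFinset.mp ht i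
    rw [Idx, Finset.mem_sigma, Finset.mem_Ico] at this
    exact ⟨this.1, this.2.1, this.2.2⟩
  have hmem' : ∀ i, (t' i).1 ∈ P i ∧ 1 ≤ (t' i).2 ∧ (t' i).2 < (t' i).1 := by
    intro i
    have := Fintype.mem_piFinset.mp ht' i
    rw [Idx, Finset.mem_sigma, Finset.mem_Ico] at this
    exact ⟨this.1, this.2.1, this.2.2⟩
  set p := (t j).1 with hp
  have hpp : p.Prime := hP j p (hmem j).1
  have hpf : Fact p.Prime := ⟨hpp⟩
  have hother : ∀ i, i ≠ j → ∀ q ∈ P i, q ≠ p := by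
    intro i hi q hq hqp
    have := Finset.disjoint_left.mp (hdis i j hi) hq
    rw [hqp] at this
    exact this (hmem j).1
  have hsum : ∀ (s : κ → (_ : ℕ) × ℕ), (∀ i, (s i).1 ∈ P i) →
      padicNorm p (∑ i ∈ univ.erase j, ((s i).2 : ℚ) / (s i).1) ≤ 1 := by
    intro s hs
    apply padicNorm.sum_le'
    · intro i hi
      exact norm_small p _ _ (hP i _ (hs i)) (hother i (Finset.ne_of_mem_erase hi) _ (hs i))
    · norm_num
  have e1 : theta t = ((t j).2 : ℚ) / p + ∑ i ∈ univ.erase j, ((t i).2 : ℚ) / (t i).1 := by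
    exact (Finset.add_sum_erase univ (fun i => ((t i).2 : ℚ) / (t i).1) (Finset.mem_univ j)).symm
  have e2 : theta t' = ((t' j).2 : ℚ) / (t' j).1 + ∑ i ∈ univ.erase j, ((t' i).2 : ℚ) / (t' i).1 := by
    exact (Finset.add_sum_erase univ (fun i => ((t' i).2 : ℚ) / (t' i).1) (Finset.mem_univ j)).symm
  have s1 := hsum t (fun i => (hmem i).1)
  have s2 := hsum t' (fun i => (hmem' i).1)
  set A := ∑ i ∈ univ.erase j, ((t i).2 : ℚ) / (t i).1
  set A' := ∑ i ∈ univ.erase j, ((t' i).2 : ℚ) / (t' i).1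
  have hn : padicNorm p (n : ℚ) ≤ 1 := padicNorm.of_int n
  have key : padicNorm p ((n : ℚ) - A + A') ≤ 1 := by
    refine (padicNorm.nonarchimedean).trans (max_le ?_ s2)
    exact (padicNorm.sub).trans (max_le hn s1)
  by_cases hpe : (t' j).1 = p
  · have hne2 : (t j).2 ≠ (t' j).2 := by
      intro h
      apply hj
      rcases h1 : t j with ⟨a, b⟩
      rcases h2 : t' j with ⟨a', b'⟩
      rw [h1] at hp h; rw [h2] at hpe h
      simp only at hp h hpe
      rw [hpe, ← hp, h]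
    have e3 : (((t j).2 : ℤ) - ((t' j).2 : ℤ) : ℤ) / (p : ℚ) = (n : ℚ) - A + A' := by
      rw [← heq, e1, e2, hpe]; push_cast; ring
    rw [← e3, padicNorm.div, padicNorm.padicNorm_p hpp.one_lt] at key
    have h4 : padicNorm p (((((t j).2 : ℤ) - ((t' j).2 : ℤ) : ℤ)) : ℚ) = 1 := by
      rw [padicNorm.int_eq_one_iff]
      intro hd
      have l1 := (hmem j).2; have l2 := (hmem' j).2
      rw [hpe] at l2
      have := Int.eq_zero_of_abs_lt_dvd hd (by rw [abs_lt]; constructor <;> omega)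
      omega
    rw [h4] at key
    have : (1 : ℚ) < p := by exact_mod_cast hpp.one_lt
    simp only [one_div, inv_inv] at key
    linarith
  · have e3 : ((t j).2 : ℚ) / (p : ℚ) = ((n : ℚ) - A + A') + ((t' j).2 : ℚ) / (t' j).1 := by
      rw [← heq, e1, e2]; ring
    have key2 : padicNorm p (((t j).2 : ℚ) / (p : ℚ)) ≤ 1 := by
      rw [e3]
      exact (padicNorm.nonarchimedean).trans (max_le key
        (norm_small p _ _ (hP j _ (hmem' j).1) hpe))
    rw [padicNorm.div, padicNorm.padicNorm_p hpp.one_lt] at key2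
    have h4 : padicNorm p ((t j).2 : ℚ) = 1 := by
      rw [padicNorm.nat_eq_one_iff]
      intro hd
      have l1 := (hmem j).2
      have := Nat.le_of_dvd (by omega) hd
      omega
    rw [h4] at key2
    have : (1 : ℚ) < p := by exact_mod_cast hpp.one_lt
    simp only [one_div, inv_inv] at key2
    linarith

theorem theta_int (t : κ → (_ : ℕ) × ℕ) (hpos : ∀ j, 0 < (t j).1) :
    ∃ z : ℤ, theta t * (∏ j, ((t j).1 : ℚ)) = z := by
  refine ⟨∑ j, (t j).2 * ∏ i ∈ univ.erase j, ((t i).1 : ℤ), ?_⟩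
  unfold theta
  rw [Finset.sum_mul]
  push_cast
  apply Finset.sum_congr rfl
  intro j _
  rw [← Finset.mul_prod_erase univ _ (Finset.mem_univ j)]
  have : ((t j).1 : ℚ) ≠ 0 := by have := hpos j; positivity
  field_simp

theorem theta_sep (P : κ → Finset ℕ) (hP : ∀ j, ∀ p ∈ P j, p.Prime)
    (hdis : ∀ i j, i ≠ j → Disjoint (P i) (P j)) (Q : ℕ)
    (hQ : ∀ s : κ → ℕ, (∀ j, s j ∈ P j) → ∏ j, s j ≤ Q)
    (t t' : κ → (_ : ℕ) × ℕ) (ht : t ∈ Fintype.piFinset (Idx P)) (ht' : t' ∈ Fintype.piFinset (Idx P))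
    (hne : t ≠ t') (n : ℤ) : 1 / ((Q ^ 2 : ℕ) : ℝ) ≤ |(theta t : ℝ) - (theta t' : ℝ) - n| := by
  have hmem : ∀ i, (t i).1 ∈ P i := by
    intro i
    have := Fintype.mem_piFinset.mp ht i
    rw [Idx, Finset.mem_sigma, Finset.mem_Ico] at this
    exact this.1
  have hmem' : ∀ i, (t' i).1 ∈ P i := by
    intro i
    have := Fintype.mem_piFinset.mp ht' i
    rw [Idx, Finset.mem_sigma, Finset.mem_Ico] at this
    exact this.1
  have hni := not_int P hP hdis t t' ht ht' hne n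
  have hp1 : ∀ i, 0 < (t i).1 := fun i => (hP i _ (hmem i)).pos
  have hp2 : ∀ i, 0 < (t' i).1 := fun i => (hP i _ (hmem' i)).pos
  obtain ⟨z, hz⟩ := theta_int t hp1
  obtain ⟨z', hz'⟩ := theta_int t' hp2
  set D : ℕ := ∏ j, (t j).1 with hD
  set D' : ℕ := ∏ j, (t' j).1 with hD'
  have c1 : (∏ j, ((t j).1 : ℚ)) = (D : ℚ) := by rw [hD]; push_cast; rfl
  have c2 : (∏ j, ((t' j).1 : ℚ)) = (D' : ℚ) := by rw [hD']; push_cast; rfl
  rw [c1] at hz; rw [c2] at hz'
  have hD0 : 0 < D := Finset.prod_pos fun i _ => hp1 i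
  have hD0' : 0 < D' := Finset.prod_pos fun i _ => hp2 i
  have hDQ : D ≤ Q := hQ _ hmem
  have hDQ' : D' ≤ Q := hQ _ hmem'
  have hQ0 : 0 < Q := lt_of_lt_of_le hD0 hDQ
  have e1 : (theta t - theta t' - n) * (D * D') = ((z * D' - z' * D - n * D * D' : ℤ) : ℚ) := by
    push_cast; rw [← hz, ← hz']; ring
  have hne0 : (z * D' - z' * D - n * D * D' : ℤ) ≠ 0 := by
    intro h0
    rw [h0] at e1
    have : (D : ℚ) * D' ≠ 0 := by positivity
    have e1' : (theta t - theta t' - n) * ((D : ℚ) * D') = 0 := by rw [e1]; simp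
    have h1 : theta t - theta t' - n = 0 := (mul_eq_zero.mp e1').resolve_right this
    exact hni (by linarith)
  have habs : (1 : ℝ) ≤ |((z * D' - z' * D - n * D * D' : ℤ) : ℝ)| := by
    have := Int.one_le_abs hne0
    exact_mod_cast this
  have e2 : ((theta t : ℝ) - (theta t' : ℝ) - n) * (D * D') = ((z * D' - z' * D - n * D * D' : ℤ) : ℝ) := by
    have := congrArg (fun q : ℚ => (q : ℝ)) e1
    push_cast at this ⊢
    exact this
  rw [← e2, abs_mul] at habs
  have hDD : |(D : ℝ) * D'| ≤ ((Q ^ 2 : ℕ) : ℝ) := by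
    rw [abs_of_nonneg (by positivity)]
    have : D * D' ≤ Q ^ 2 := by rw [sq]; exact Nat.mul_le_mul hDQ hDQ'
    exact_mod_cast this
  have hQQ : (0 : ℝ) < ((Q ^ 2 : ℕ) : ℝ) := by positivity
  rw [div_le_iff₀ hQQ]
  calc (1 : ℝ) ≤ |(theta t : ℝ) - (theta t' : ℝ) - n| * |(D : ℝ) * D'| := habs
    _ ≤ _ := mul_le_mul_of_nonneg_left hDD (abs_nonneg _)

/-- Product form of the dual large sieve. -/
theorem product_ls (P : κ → Finset ℕ) (hP : ∀ j, ∀ p ∈ P j, p.Prime)
    (hdis : ∀ i j, i ≠ j → Disjoint (P i) (P j)) (Q : ℕ) (hQ1 : 1 ≤ Q)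
    (hQ : ∀ s : κ → ℕ, (∀ j, s j ∈ P j) → ∏ j, s j ≤ Q) (h : ℕ) (hh : ∀ j, ∀ p ∈ P j, h ≤ p)
    (w : ℕ → ℝ) (N : ℕ) :
    ∑ x ∈ range N, ∏ j, (∑ p ∈ P j, w p * fp h p x) ^ 2 ≤
      (N + (Q ^ 2 : ℕ) * (1 + Real.log (Q ^ 2 : ℕ))) * ∏ j, ∑ p ∈ P j, w p ^ 2 * (h / p) := by
  classical
  set A : (κ → (_ : ℕ) × ℕ) → ℂ := fun t => ∏ j, ((w (t j).1 : ℂ) * cc h (t j).1 (t j).2) with hA
  have e1 : ∀ x ∈ range N, ∏ j, (∑ p ∈ P j, w p * fp h p x) ^ 2 =
      ‖∑ t ∈ Fintype.piFinset (Idx P), A t * ex (x * (theta t : ℝ))‖ ^ 2 := by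
    intro x _
    have h1 : ((∏ j, (∑ p ∈ P j, w p * fp h p x) : ℝ) : ℂ) =
        ∑ t ∈ Fintype.piFinset (Idx P), A t * ex (x * (theta t : ℝ)) := by
      push_cast
      have h2 : ∀ j, ∑ p ∈ P j, (w p : ℂ) * (fp h p x : ℂ) =
          ∑ q ∈ Idx P j, ((w q.1 : ℂ) * cc h q.1 q.2) * ex (x * ((q.2 : ℝ) / q.1)) := by
        intro j
        rw [Idx, Finset.sum_sigma]
        apply Finset.sum_congr rfl
        intro p hp
        rw [fp_eq h p x (hP j p hp).pos, Finset.mul_sum]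
        apply Finset.sum_congr rfl
        intro a _
        ring
      rw [Finset.prod_congr rfl (fun j _ => h2 j), Finset.prod_univ_sum]
      apply Finset.sum_congr rfl
      intro t _
      rw [Finset.prod_mul_distrib]
      congr 1
      have h3 : ∀ s : Finset κ, ∏ j ∈ s, ex (x * (((t j).2 : ℝ) / (t j).1)) =
          ex (x * ∑ j ∈ s, (((t j).2 : ℝ) / (t j).1)) := by
        intro s
        induction s using Finset.induction_on with
        | empty => simp [ex_zero]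
        | insert a s ha ih =>
          rw [Finset.prod_insert ha, Finset.sum_insert ha, ih, ← ex_add]
          congr 1; ring
      rw [h3]
      congr 2
      unfold theta
      push_cast
      rfl
    rw [← h1, Complex.norm_real, Real.norm_eq_abs, sq_abs, Finset.prod_pow]
  rw [Finset.sum_congr rfl e1]
  have hsep := theta_sep P hP hdis Q hQ
  refine (dual_ls (Fintype.piFinset (Idx P)) (fun t => (theta t : ℝ)) (Q ^ 2)
    (Nat.one_le_pow _ _ hQ1) (fun t ht t' ht' hne n => hsep t t' ht ht' hne n) N A).trans ?_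
  apply mul_le_mul_of_nonneg_left
  · have e2 : ∑ t ∈ Fintype.piFinset (Idx P), ‖A t‖ ^ 2 =
        ∏ j, ∑ q ∈ Idx P j, (|w q.1| * ‖cc h q.1 q.2‖) ^ 2 := by
      rw [Finset.prod_univ_sum]
      apply Finset.sum_congr rfl
      intro t _
      rw [hA]
      simp only
      rw [norm_prod, ← Finset.prod_pow]
      apply Finset.prod_congr rfl
      intro j _
      rw [norm_mul, Complex.norm_real, Real.norm_eq_abs]
    rw [e2]
    apply Finset.prod_le_prod
    · intro j _; exact Finset.sum_nonneg fun _ _ => by positivity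
    · intro j _
      rw [Idx, Finset.sum_sigma]
      apply Finset.sum_le_sum
      intro p hp
      have h1 : ∀ a ∈ Ico 1 p, (|w p| * ‖cc h p a‖) ^ 2 = w p ^ 2 * ‖cc h p a‖ ^ 2 := by
        intro a _; rw [mul_pow, sq_abs]
      rw [Finset.sum_congr rfl h1, ← Finset.mul_sum]
      exact mul_le_mul_of_nonneg_left (cc_norm h p (hP j p hp).pos (hh j p hp)) (sq_nonneg _)
  · have : 0 ≤ Real.log ((Q ^ 2 : ℕ) : ℝ) :=
      Real.log_nonneg (by exact_mod_cast Nat.one_le_pow _ _ hQ1)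
    positivity

end Sep

end Pool.Agent.Helper27.D6
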