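import Pool.Agent.Helper27.D6Block
import Pool.Agent.Helper27.D6PLS

set_option autoImplicit false

namespace Pool.Agent.Helper27.D6

open Finset

def BadSq (G n' : ℕ) : Prop :=
  ∃ n b : ℕ, 1 ≤ n ∧ n ≤ n' + 2 * G ^ 10 ∧ n' ≤ n + 2 * G ^ 10 ∧ G ^ 20 < b ∧ b ^ 2 ∣ n

def BadHit (G M N c : ℕ) : Prop :=
  (1 / 16 : ℝ) * (G : ℝ) ^ 10 * Real.log N ≤ ∑ p ∈ pr (G ^ 10) M, Real.log p * fp (G ^ 10) p c

theorem hit_le (c h M : ℕ) :
    ∑ p ∈ (pr h M).filter (fun p => ∃ n ∈ Ioc c (c + h), p ∣ n), Real.log p ≤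
      ∑ p ∈ pr h M, Real.log p * fp h p (c + 1) + h * ∑ p ∈ pr h M, Real.log p / p := by
  rw [Finset.mul_sum, ← Finset.sum_add_distrib, Finset.sum_filter]
  apply Finset.sum_le_sum
  intro p _
  have h0 : 0 ≤ Real.log p := Real.log_natCast_nonneg p
  have h1 : fp h p (c + 1) = ∑ i ∈ range h, (if p ∣ c + 1 + i then (1 : ℝ) else 0) - h * (1 / p) := by
    unfold fp
    rw [Finset.sum_sub_distrib, Finset.sum_const, Finset.card_range, nsmul_eq_mul]
  have h2 : Real.log p * fp h p (c + 1) + h * (Real.log p / p) =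
      Real.log p * ∑ i ∈ range h, (if p ∣ c + 1 + i then (1 : ℝ) else 0) := by
    rw [h1]; ring
  rw [h2]
  have h3 : 0 ≤ ∑ i ∈ range h, (if p ∣ c + 1 + i then (1 : ℝ) else 0) := by
    apply Finset.sum_nonneg; intro i _; split_ifs <;> norm_num
  split_ifs with hex
  · obtain ⟨n, hn, hd⟩ := hex
    rw [Finset.mem_Ioc] at hn
    have h4 : (1 : ℝ) ≤ ∑ i ∈ range h, (if p ∣ c + 1 + i then (1 : ℝ) else 0) := by
      have hm : n - c - 1 ∈ range h := by rw [Finset.mem_range]; omega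
      have : (if p ∣ c + 1 + (n - c - 1) then (1 : ℝ) else 0) ≤
          ∑ i ∈ range h, (if p ∣ c + 1 + i then (1 : ℝ) else 0) := by
        apply Finset.single_le_sum (f := fun i => if p ∣ c + 1 + i then (1 : ℝ) else 0) _ hm
        intro i _; split_ifs <;> norm_num
      rwa [if_pos (by rwa [show c + 1 + (n - c - 1) = n by omega])] at this
    nlinarith
  · positivity

theorem reg_low {s G N : ℕ} (hG : 1 ≤ G) (h : G ^ (2 * s) ≤ N) :
    2 * s * Real.log G ≤ Real.log N := by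
  have h1 : ((G : ℝ)) ^ (2 * s) ≤ N := by exact_mod_cast h
  have h2 := Real.log_le_log (by positivity) h1
  rw [Real.log_pow] at h2
  push_cast at h2
  exact h2

theorem reg_high {s G N : ℕ} (hG : 2 ≤ G) (hN : 1 ≤ N) (h : N < (G + 1) ^ (2 * s)) :
    Real.log N ≤ 4 * s * Real.log G := by
  have h1 : (N : ℝ) ≤ ((G : ℝ) + 1) ^ (2 * s) := by exact_mod_cast h.le
  have h2 := Real.log_le_log (by exact_mod_cast hN) h1
  rw [Real.log_pow] at h2
  have hG' : (2 : ℝ) ≤ G := by exact_mod_cast hG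
  have h3 : Real.log ((G : ℝ) + 1) ≤ 2 * Real.log G := by
    have : Real.log ((G : ℝ) + 1) ≤ Real.log ((G : ℝ) ^ 2) := by
      apply Real.log_le_log (by positivity); nlinarith
    rwa [Real.log_pow] at this
  have h4 : 0 ≤ Real.log ((G : ℝ) + 1) := Real.log_nonneg (by linarith)
  push_cast at h2
  have hs : (0 : ℝ) ≤ s := Nat.cast_nonneg _
  nlinarith

theorem ev_log (K : ℝ) : ∃ G₀ : ℕ, ∀ G : ℕ, G₀ ≤ G → K ≤ Real.log G := by
  have h := (Real.tendsto_log_atTop.comp tendsto_natCast_atTop_atTop).eventually_ge_atTop K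
  rw [Filter.eventually_atTop] at h
  obtain ⟨a, ha⟩ := h
  exact ⟨a, fun G hG => ha G hG⟩

theorem large_block (s : ℕ) (hs : 400 ≤ s) (B : ℕ) : ∃ G₀ : ℕ, 2 ≤ G₀ ∧ ∀ G : ℕ, G₀ ≤ G → ∀ N : ℕ,
    G ^ (2 * s) ≤ N → ∀ m w x y z c n' : ℕ,
    Rep m w x y z → m ≤ N → N ≤ 4 * G * (c + 1) → m - w ≤ B →
    x - y ≤ G ^ (s + 3) → z ≤ G ^ (s + 3) → Ioc c (c + G ^ 10) ⊆ Ioc y x →
    (∀ n ∈ Ioc c (c + G ^ 10), n ≤ n' + 2 * G ^ 10 ∧ n' ≤ n + 2 * G ^ 10) →
    ¬ BadSq G n' → ¬ BadHit G (G ^ (s + 3)) N (c + 1) → False := by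
  obtain ⟨C, hC, hpi⟩ := pi_le
  obtain ⟨G₁, hG₁⟩ := ev_log (max (max (2 * C) (16 * B)) 1)
  refine ⟨max 2 G₁, le_max_left _ _, fun G hG N hN m w x y z c n' R hmN hNc hB hJM hzM hsub hclose hsq hhit => ?_⟩
  have hG2 : 2 ≤ G := (le_max_left _ _).trans hG
  have hlG := hG₁ G ((le_max_right _ _).trans hG)
  have hlG1 : (1 : ℝ) ≤ Real.log G := (le_max_right _ _).trans hlG
  have hlGC : 2 * C ≤ Real.log G := (le_max_left _ _).trans ((le_max_left _ _).trans hlG)
  have hlGB : 16 * (B : ℝ) ≤ Real.log G := (le_max_right _ _).trans ((le_max_left _ _).trans hlG)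
  have hG0 : (0 : ℝ) < G := by positivity
  have hG1' : (1 : ℝ) ≤ G := by exact_mod_cast (by omega : 1 ≤ G)
  have hL := reg_low (by omega : 1 ≤ G) hN
  have hs' : (400 : ℝ) ≤ s := by exact_mod_cast hs
  set L := Real.log N with hLdef
  have hL0 : 800 * Real.log G ≤ L := by nlinarith
  have hh1 : 1 ≤ G ^ 10 := Nat.one_le_pow _ _ (by omega)
  have hh1r : (1 : ℝ) ≤ (G : ℝ) ^ 10 := one_le_pow₀ hG1'
  have hN1 : 1 ≤ N := le_trans (Nat.one_le_pow _ _ (by omega)) hN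
  have hbm := block_mass R (c := c) (h := G ^ 10) (M := G ^ (s + 3)) (N := N) (Bb := G ^ 20) hh1 hsub hJM hzM
    hmN (Nat.one_le_pow _ _ (by omega)) (by
      intro n hn b hb
      by_contra hc
      push Not at hc
      obtain ⟨h1, h2⟩ := hclose n hn
      rw [Finset.mem_Ioc] at hn
      exact hsq ⟨n, b, by omega, h1, h2, hc, hb⟩)
  -- lower bound
  have hlow : (G : ℝ) ^ 10 * (L - Real.log 4 - Real.log G) ≤ ∑ n ∈ Ioc c (c + G ^ 10), Real.log n := by
    have h1 : ∀ n ∈ Ioc c (c + G ^ 10), L - Real.log 4 - Real.log G ≤ Real.log n := by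
      intro n hn
      rw [Finset.mem_Ioc] at hn
      have h2 : N ≤ 4 * G * n := hNc.trans (Nat.mul_le_mul_left _ (by omega))
      have h3 : (N : ℝ) ≤ 4 * G * n := by exact_mod_cast h2
      have hn0 : (0 : ℝ) < n := by exact_mod_cast (by omega : 0 < n)
      have h4 := Real.log_le_log (by exact_mod_cast hN1) h3
      rw [Real.log_mul (by positivity) (by positivity), Real.log_mul (by positivity) (by positivity)] at h4
      linarith
    have := Finset.sum_le_sum h1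
    rw [Finset.sum_const, Nat.card_Ioc, nsmul_eq_mul, Nat.add_sub_cancel_left] at this
    push_cast at this
    exact this
  -- pieces
  have t1 : (((G ^ 10 : ℕ) : ℝ)) * Real.log ((G ^ 10 : ℕ) : ℝ) = (G : ℝ) ^ 10 * (10 * Real.log G) := by
    push_cast; rw [Real.log_pow]; norm_num
  have t2 : ((pr 0 (G ^ 10)).card : ℝ) * L ≤ (G : ℝ) ^ 10 * (L / 16) := by
    have h1 : 2 ≤ G ^ 10 := le_trans hG2 (Nat.le_self_pow (by norm_num) G)
    have h2 := hpi (G ^ 10) h1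
    push_cast at h2
    rw [Real.log_pow] at h2
    have h3 : C * ((G : ℝ) ^ 10 / ((10 : ℕ) * Real.log G)) ≤ (G : ℝ) ^ 10 / 16 := by
      rw [← mul_div_assoc, div_le_div_iff₀ (by push_cast; positivity) (by norm_num)]
      push_cast
      have : C * 16 ≤ 10 * Real.log G := by linarith
      nlinarith [pow_pos hG0 10]
    have h4 : ((pr 0 (G ^ 10)).card : ℝ) ≤ (G : ℝ) ^ 10 / 16 := h2.trans h3
    have hL00 : 0 ≤ L := by linarith
    nlinarith
  have t3 : 2 * ((G ^ 10 : ℕ) : ℝ) * Real.log ((G ^ 20 : ℕ) : ℝ) = (G : ℝ) ^ 10 * (40 * Real.log G) := by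
    push_cast; rw [Real.log_pow]; push_cast; ring
  have t4' := hit_le c (G ^ 10) (G ^ (s + 3))
  have t4 : ∑ p ∈ pr (G ^ 10) (G ^ (s + 3)), Real.log p * fp (G ^ 10) p (c + 1) +
      ((G ^ 10 : ℕ) : ℝ) * ∑ p ∈ pr (G ^ 10) (G ^ (s + 3)), Real.log p / p ≤
      (G : ℝ) ^ 10 * (L / 16 + ((s + 3) * Real.log G + 2)) := by
    unfold BadHit at hhit
    push Not at hhit
    have h1 : ∑ p ∈ pr (G ^ 10) (G ^ (s + 3)), Real.log p / p ≤ (s + 3) * Real.log G + 2 := by
      have h2 := mertens (G ^ (s + 3)) (Nat.one_le_pow _ _ (by omega))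
      push_cast at h2
      rw [Real.log_pow] at h2
      push_cast at h2
      refine le_trans ?_ h2
      apply Finset.sum_le_sum_of_subset_of_nonneg
      · intro p hp; rw [mem_pr] at hp ⊢; exact ⟨⟨by omega, hp.1.2⟩, hp.2⟩
      · intro p _ _
        have := Real.log_natCast_nonneg p
        positivity
    have h2 : (((G ^ 10 : ℕ) : ℝ)) * ∑ p ∈ pr (G ^ 10) (G ^ (s + 3)), Real.log p / p ≤
        (G : ℝ) ^ 10 * ((s + 3) * Real.log G + 2) := by
      push_cast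
      exact mul_le_mul_of_nonneg_left h1 (by positivity)
    have h3 : (G : ℝ) ^ 10 * (L / 16 + ((s + 3) * Real.log G + 2)) =
        1 / 16 * (G : ℝ) ^ 10 * L + (G : ℝ) ^ 10 * ((s + 3) * Real.log G + 2) := by ring
    rw [h3]
    linarith
  have t5 : ((m : ℝ) - w) * L ≤ (G : ℝ) ^ 10 * (L / 16) := by
    have h1 : (m : ℝ) - w ≤ B := by
      rw [← Nat.cast_sub R.hwm.le]; exact_mod_cast hB
    have h2 : (B : ℝ) ≤ (G : ℝ) ^ 10 / 16 := by
      have h3 : Real.log G ≤ G := (Real.log_le_sub_one_of_pos hG0).trans (by linarith)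
      have h4 : (G : ℝ) ≤ (G : ℝ) ^ 10 := le_self_pow₀ hG1' (by norm_num)
      linarith
    have hL00 : 0 ≤ L := by linarith
    have : (m : ℝ) - w ≤ (G : ℝ) ^ 10 / 16 := h1.trans h2
    nlinarith
  rw [t1, t3] at hbm
  have hfin : (G : ℝ) ^ 10 * (L - Real.log 4 - Real.log G) ≤
      (G : ℝ) ^ 10 * (10 * Real.log G + L / 16 + 40 * Real.log G +
        (L / 16 + ((s + 3) * Real.log G + 2)) + L / 16) := by
    have : (G : ℝ) ^ 10 * (10 * Real.log G + L / 16 + 40 * Real.log G +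
        (L / 16 + ((s + 3) * Real.log G + 2)) + L / 16) =
        (G : ℝ) ^ 10 * (10 * Real.log G) + (G : ℝ) ^ 10 * (L / 16) + (G : ℝ) ^ 10 * (40 * Real.log G) +
        (G : ℝ) ^ 10 * (L / 16 + ((s + 3) * Real.log G + 2)) + (G : ℝ) ^ 10 * (L / 16) := by ring
    rw [this]
    linarith
  have hfin' := le_of_mul_le_mul_left hfin (by positivity)
  have hl4 : Real.log 4 ≤ 2 := by
    have : Real.log 4 = 2 * Real.log 2 := by
      rw [show (4 : ℝ) = 2 ^ 2 by norm_num, Real.log_pow]; norm_num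
    rw [this]; have := Real.log_two_lt_d9; linarith
  -- L (1 - 3/16) <= log 4 + 2 + (54 + s) log G,  s log G <= L / 2
  have h5 : (s : ℝ) * Real.log G ≤ L / 2 := by linarith
  nlinarith

end Pool.Agent.Helper27.D6
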