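import Mathlib
import Pool.Agent.Helper27.D6Large

set_option autoImplicit false

namespace Pool.Agent.Helper27.D6

open Finset

theorem ev_pow (K : ℝ) (s j : ℕ) : ∃ G₀ : ℕ, 2 ≤ G₀ ∧ ∀ G : ℕ, G₀ ≤ G → ∀ N : ℕ, 1 ≤ N →
    N < (G + 1) ^ (2 * s) → K * (1 + Real.log N) ^ j ≤ G := by
  have h1 : Filter.Tendsto (fun x : ℝ => (|K| * (1 + 4 * s) ^ j) * Real.log x ^ j / x) Filter.atTop (nhds 0) := by
    have h2 := (isLittleO_log_rpow_atTop (r := 1) (by norm_num)).tendsto_div_nhds_zero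
    have h3 := Real.isLittleO_pow_log_id_atTop (n := j)
    have h4 := h3.tendsto_div_nhds_zero
    have h5 := h4.const_mul (|K| * (1 + 4 * s) ^ j)
    simpa [mul_div_assoc] using h5
  have h2 := (h1.eventually (gt_mem_nhds (show (0 : ℝ) < 1 by norm_num)))
  rw [Filter.eventually_atTop] at h2
  obtain ⟨a, ha⟩ := h2
  obtain ⟨G₁, hG₁⟩ := ev_log 1
  refine ⟨max (max 2 G₁) ⌈a⌉₊, le_trans (le_max_left _ _) (le_max_left _ _), fun G hG N hN1 hN => ?_⟩
  have hG2 : 2 ≤ G := (le_max_left _ _).trans ((le_max_left _ _).trans hG)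
  have hG0 : (0 : ℝ) < G := by positivity
  have hlG := hG₁ G ((le_max_right _ _).trans ((le_max_left _ _).trans hG))
  have haG : a ≤ (G : ℝ) := (Nat.le_ceil a).trans (by exact_mod_cast (le_max_right _ _).trans hG)
  have h3 := ha G haG
  rw [div_lt_one hG0] at h3
  have hL := reg_high hG2 hN1 hN
  have hL0 : 0 ≤ Real.log N := Real.log_natCast_nonneg _
  calc K * (1 + Real.log N) ^ j ≤ |K| * (1 + Real.log N) ^ j :=
        mul_le_mul_of_nonneg_right (le_abs_self K) (by positivity)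
    _ ≤ |K| * ((1 + 4 * s) * Real.log G) ^ j := by
        apply mul_le_mul_of_nonneg_left _ (abs_nonneg _)
        apply pow_le_pow_left₀ (by linarith)
        nlinarith
    _ = (|K| * (1 + 4 * s) ^ j) * Real.log G ^ j := by rw [mul_pow]; ring
    _ ≤ G := h3.le

open Classical in
theorem badSq_count (G N : ℕ) (hG : 2 ≤ G) (hN : 2 * G ^ 10 ≤ N) :
    (((range N).filter (fun n' => BadSq G n')).card : ℝ) * (G : ℝ) ^ 10 ≤ 10 * N := by
  set Sq := (Icc 1 (2 * N)).filter (fun n => ∃ b : ℕ, G ^ 20 < b ∧ b ^ 2 ∣ n) with hSq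
  have hG1 : 1 ≤ G ^ 10 := Nat.one_le_pow _ _ (by omega)
  have hG0 : (0 : ℝ) < G := by positivity
  have h1 : ((range N).filter (fun n' => BadSq G n')) ⊆
      Sq.biUnion (fun n => Icc (n - 2 * G ^ 10) (n + 2 * G ^ 10)) := by
    intro n' hn'
    rw [Finset.mem_filter, Finset.mem_range] at hn'
    obtain ⟨hn'N, n, b, hn1, h2, h3, h4, h5⟩ := hn'
    rw [Finset.mem_biUnion]
    refine ⟨n, ?_, ?_⟩
    · rw [hSq, Finset.mem_filter, Finset.mem_Icc]
      exact ⟨⟨hn1, by omega⟩, b, h4, h5⟩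
    · rw [Finset.mem_Icc]; omega
  have h2 : ((range N).filter (fun n' => BadSq G n')).card ≤ Sq.card * (5 * G ^ 10) := by
    refine (Finset.card_le_card h1).trans ?_
    refine Finset.card_biUnion_le_card_mul _ _ _ ?_
    intro n _
    rw [Nat.card_Icc]; omega
  have h3 : (Sq.card : ℝ) ≤ 2 * N / (G : ℝ) ^ 20 := by
    have h4 : Sq ⊆ (Ioc (G ^ 20) (2 * N)).biUnion (fun b => (Ioc 0 (2 * N)).filter (fun n => b ^ 2 ∣ n)) := by
      intro n hn
      rw [hSq, Finset.mem_filter, Finset.mem_Icc] at hn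
      obtain ⟨⟨h1, h2⟩, b, h3, h4⟩ := hn
      rw [Finset.mem_biUnion]
      have h5 := Nat.le_of_dvd h1 h4
      have h6 : b ≤ b ^ 2 := Nat.le_self_pow (by norm_num) b
      exact ⟨b, by rw [Finset.mem_Ioc]; omega, by rw [Finset.mem_filter, Finset.mem_Ioc]; exact ⟨by omega, h4⟩⟩
    have h5 : (Sq.card : ℝ) ≤ ∑ b ∈ Ioc (G ^ 20) (2 * N), ((2 * N : ℕ) : ℝ) * ((b : ℝ) ^ 2)⁻¹ := by
      have h6 : Sq.card ≤ ∑ b ∈ Ioc (G ^ 20) (2 * N), ((Ioc 0 (2 * N)).filter (fun n => b ^ 2 ∣ n)).card :=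
        (Finset.card_le_card h4).trans Finset.card_biUnion_le
      have h7 : (Sq.card : ℝ) ≤ ∑ b ∈ Ioc (G ^ 20) (2 * N), (((Ioc 0 (2 * N)).filter (fun n => b ^ 2 ∣ n)).card : ℝ) := by
        exact_mod_cast h6
      refine h7.trans (Finset.sum_le_sum fun b _ => ?_)
      rw [Nat.Ioc_filter_dvd_card_eq_div]
      have := Nat.cast_div_le (α := ℝ) (m := 2 * N) (n := b ^ 2)
      rw [← div_eq_mul_inv]
      exact_mod_cast this
    refine h5.trans ?_
    rw [← Finset.mul_sum]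
    rcases le_or_gt (G ^ 20) (2 * N) with h6 | h6
    · have h7 := sum_Ioc_inv_sq_le_sub (α := ℝ) (k := G ^ 20) (n := 2 * N) (by positivity) h6
      have h8 : (0 : ℝ) ≤ ((2 * N : ℕ) : ℝ)⁻¹ := by positivity
      have h9 : ∑ b ∈ Ioc (G ^ 20) (2 * N), ((b : ℝ) ^ 2)⁻¹ ≤ (((G ^ 20 : ℕ)) : ℝ)⁻¹ := by linarith
      have := mul_le_mul_of_nonneg_left h9 (Nat.cast_nonneg (2 * N) : (0 : ℝ) ≤ ((2 * N : ℕ) : ℝ))
      refine this.trans (le_of_eq ?_)
      push_cast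
      rw [div_eq_mul_inv]
    · rw [Finset.Ioc_eq_empty (by omega)]
      simp only [Finset.sum_empty, mul_zero]
      positivity
  have h4 : (((range N).filter (fun n' => BadSq G n')).card : ℝ) ≤ Sq.card * (5 * (G : ℝ) ^ 10) := by
    exact_mod_cast h2
  calc (((range N).filter (fun n' => BadSq G n')).card : ℝ) * (G : ℝ) ^ 10
      ≤ (Sq.card * (5 * (G : ℝ) ^ 10)) * (G : ℝ) ^ 10 := mul_le_mul_of_nonneg_right h4 (by positivity)
    _ ≤ (2 * N / (G : ℝ) ^ 20 * (5 * (G : ℝ) ^ 10)) * (G : ℝ) ^ 10 := by gcongr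
    _ = 10 * N := by field_simp; ring

open Classical in
theorem badHit_count (s : ℕ) (hs : 400 ≤ s) : ∃ G₀ : ℕ, 2 ≤ G₀ ∧ ∀ G : ℕ, G₀ ≤ G → ∀ N : ℕ,
    G ^ (2 * s) ≤ N → N < (G + 1) ^ (2 * s) →
    (((range (2 * N)).filter (fun c => BadHit G (G ^ (s + 3)) N c)).card : ℝ) * (G : ℝ) ^ 3 ≤ N := by
  obtain ⟨G₁, hG₁2, hG₁⟩ := ev_pow (256 * 6) s 1
  obtain ⟨G₂, hG₂⟩ := ev_log 2
  refine ⟨max G₁ G₂, hG₁2.trans (le_max_left _ _), fun G hG N hN hN' => ?_⟩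
  have hG2 : 2 ≤ G := hG₁2.trans ((le_max_left _ _).trans hG)
  have hN1 : 1 ≤ N := le_trans (Nat.one_le_pow _ _ (by omega)) hN
  have hev := hG₁ G ((le_max_left _ _).trans hG) N hN1 hN'
  have hlG := hG₂ G ((le_max_right _ _).trans hG)
  have hG0 : (0 : ℝ) < G := by positivity
  have hG1' : (1 : ℝ) ≤ G := by exact_mod_cast (by omega : 1 ≤ G)
  have hL := reg_low (by omega : 1 ≤ G) hN
  have hs' : (400 : ℝ) ≤ s := by exact_mod_cast hs
  set L := Real.log N with hLdef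
  have hL0 : 800 * Real.log G ≤ L := by nlinarith
  have hL1 : 1600 ≤ L := by linarith
  rw [pow_one] at hev
  have hls := product_ls (κ := Fin 1) (fun _ => pr (G ^ 10) (G ^ (s + 3)))
    (fun _ p hp => (mem_pr.mp hp).2) (fun i j hij => absurd (Subsingleton.elim i j) hij)
    (G ^ (s + 3)) (Nat.one_le_pow _ _ (by omega))
    (by intro t ht; rw [Fin.prod_univ_one]; exact (mem_pr.mp (ht 0)).1.2) (G ^ 10)
    (fun _ p hp => (mem_pr.mp hp).1.1.le) (fun p => Real.log p) (2 * N)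
  simp only [Fin.prod_univ_one] at hls
  set M := G ^ (s + 3) with hM
  have hlM : Real.log M = (s + 3) * Real.log G := by
    rw [hM]; push_cast; rw [Real.log_pow]; push_cast; ring
  have hlM' : Real.log M + 2 ≤ L := by rw [hlM]; nlinarith
  have hlM0 : 0 ≤ Real.log M := Real.log_natCast_nonneg _
  have hsum : ∑ p ∈ pr (G ^ 10) M, Real.log p ^ 2 * (((G ^ 10 : ℕ) : ℝ) / p) ≤ (G : ℝ) ^ 10 * L ^ 2 := by
    have h1 : ∀ p ∈ pr (G ^ 10) M, Real.log p ^ 2 * (((G ^ 10 : ℕ) : ℝ) / p) ≤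
        ((G : ℝ) ^ 10 * Real.log M) * (Real.log p / p) := by
      intro p hp
      rw [mem_pr] at hp
      have hp0 : (0 : ℝ) < p := by exact_mod_cast hp.2.pos
      have h2 : Real.log p ≤ Real.log M := Real.log_le_log hp0 (by exact_mod_cast hp.1.2)
      have h3 : 0 ≤ Real.log p := Real.log_natCast_nonneg p
      have e : Real.log p ^ 2 * (((G ^ 10 : ℕ) : ℝ) / p) = ((G : ℝ) ^ 10 * Real.log p) * (Real.log p / p) := by
        push_cast; ring
      rw [e]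
      gcongr
    refine (Finset.sum_le_sum h1).trans ?_
    rw [← Finset.mul_sum]
    have h2 : ∑ p ∈ pr (G ^ 10) M, Real.log p / p ≤ Real.log M + 2 := by
      refine le_trans ?_ (mertens M (Nat.one_le_pow _ _ (by omega)))
      apply Finset.sum_le_sum_of_subset_of_nonneg
      · intro p hp; rw [mem_pr] at hp ⊢; exact ⟨⟨by omega, hp.1.2⟩, hp.2⟩
      · intro p _ _
        have := Real.log_natCast_nonneg p
        positivity
    calc (G : ℝ) ^ 10 * Real.log M * ∑ p ∈ pr (G ^ 10) M, Real.log p / p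
        ≤ (G : ℝ) ^ 10 * L * L := by
          have h3 : Real.log M ≤ L := by linarith
          have h4 : ∑ p ∈ pr (G ^ 10) M, Real.log p / p ≤ L := h2.trans hlM'
          have h5 : 0 ≤ ∑ p ∈ pr (G ^ 10) M, Real.log p / p := Finset.sum_nonneg fun p _ => by
            have := Real.log_natCast_nonneg p
            positivity
          gcongr
      _ = _ := by ring
  have hfac : ((2 * N : ℕ) : ℝ) + ((M ^ 2 : ℕ) : ℝ) * (1 + Real.log ((M ^ 2 : ℕ) : ℝ)) ≤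
      (N : ℝ) * (G : ℝ) ^ 6 * (6 * L) := by
    have h1 : ((M ^ 2 : ℕ) : ℝ) ≤ N * (G : ℝ) ^ 6 := by
      have : M ^ 2 ≤ N * G ^ 6 := by
        calc M ^ 2 = G ^ (2 * s) * G ^ 6 := by rw [hM]; ring
          _ ≤ N * G ^ 6 := Nat.mul_le_mul_right _ hN
      exact_mod_cast this
    have h2 : Real.log ((M ^ 2 : ℕ) : ℝ) ≤ 2 * L := by
      push_cast; rw [Real.log_pow]; push_cast; linarith
    have h3 : (1 : ℝ) ≤ (G : ℝ) ^ 6 := one_le_pow₀ hG1'
    have hN0 : (0 : ℝ) ≤ N := Nat.cast_nonneg _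
    have h4 : ((2 * N : ℕ) : ℝ) ≤ N * (G : ℝ) ^ 6 * 2 := by push_cast; nlinarith
    have h5 : ((M ^ 2 : ℕ) : ℝ) * (1 + Real.log ((M ^ 2 : ℕ) : ℝ)) ≤ (N * (G : ℝ) ^ 6) * (1 + 2 * L) := by
      apply mul_le_mul h1 (by linarith) _ (by positivity)
      have := Real.log_natCast_nonneg (M ^ 2)
      linarith
    have h6 : (0 : ℝ) ≤ N * (G : ℝ) ^ 6 := by positivity
    nlinarith
  have hup : ∑ x ∈ range (2 * N), (∑ p ∈ pr (G ^ 10) M, Real.log p * fp (G ^ 10) p x) ^ 2 ≤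
      (N : ℝ) * (G : ℝ) ^ 6 * (6 * L) * ((G : ℝ) ^ 10 * L ^ 2) := by
    refine hls.trans ?_
    apply mul_le_mul hfac hsum
    · exact Finset.sum_nonneg fun _ _ => by positivity
    · positivity
  have hlow : ∀ c ∈ (range (2 * N)).filter (fun c => BadHit G M N c),
      ((1 / 16 : ℝ) * (G : ℝ) ^ 10 * L) ^ 2 ≤ (∑ p ∈ pr (G ^ 10) M, Real.log p * fp (G ^ 10) p c) ^ 2 := by
    intro c hc
    rw [Finset.mem_filter] at hc
    exact pow_le_pow_left₀ (by positivity) hc.2 2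
  have h1 : (((range (2 * N)).filter (fun c => BadHit G M N c)).card : ℝ) * ((1 / 16 : ℝ) * (G : ℝ) ^ 10 * L) ^ 2 ≤
      (N : ℝ) * (G : ℝ) ^ 6 * (6 * L) * ((G : ℝ) ^ 10 * L ^ 2) := by
    refine le_trans ?_ hup
    rw [← nsmul_eq_mul]
    refine (Finset.card_nsmul_le_sum _ _ _ hlow).trans ?_
    apply Finset.sum_le_sum_of_subset_of_nonneg (Finset.filter_subset _ _)
    intro _ _ _
    exact sq_nonneg _
  set X := (((range (2 * N)).filter (fun c => BadHit G M N c)).card : ℝ) with hX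
  have hX0 : 0 ≤ X := Nat.cast_nonneg _
  -- X * G^20 L^2 / 256 <= 6 N G^16 L^3
  have h2 : (X * (G : ℝ) ^ 3) * ((G : ℝ) ^ 17 * L ^ 2) ≤ N * ((G : ℝ) ^ 17 * L ^ 2) := by
    have e1 : X * ((1 / 16 : ℝ) * (G : ℝ) ^ 10 * L) ^ 2 = (1 / 256) * ((X * (G : ℝ) ^ 3) * ((G : ℝ) ^ 17 * L ^ 2)) := by ring
    have e2 : (N : ℝ) * (G : ℝ) ^ 6 * (6 * L) * ((G : ℝ) ^ 10 * L ^ 2) = (N * ((G : ℝ) ^ 16 * L ^ 2)) * (6 * L) := by ring
    rw [e1, e2] at h1
    have h3 : (X * (G : ℝ) ^ 3) * ((G : ℝ) ^ 17 * L ^ 2) ≤ (N * ((G : ℝ) ^ 16 * L ^ 2)) * (256 * 6 * L) := by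
      linarith
    refine h3.trans ?_
    have h4 : (256 : ℝ) * 6 * L ≤ G := by linarith
    have h5 : (0 : ℝ) ≤ N * ((G : ℝ) ^ 16 * L ^ 2) := by positivity
    calc (N * ((G : ℝ) ^ 16 * L ^ 2)) * (256 * 6 * L) ≤ (N * ((G : ℝ) ^ 16 * L ^ 2)) * G :=
          mul_le_mul_of_nonneg_left h4 h5
      _ = _ := by ring
  exact le_of_mul_le_mul_right h2 (by positivity)

end Pool.Agent.Helper27.D6
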