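import Mathlib

set_option autoImplicit false

namespace Pool.Agent.Helper27.D6

open Finset

/-- `Good B G m`: the good integers of the D_6 argument. Here `G` is about `N ^ (1 / r)`. -/
def Good (B G m : ℕ) : Prop :=
  ∃ k P : ℕ, m = k * P ∧ P.Prime ∧ 2 ≤ k ∧ k < G ∧ Squarefree k ∧
    (∀ q : ℕ, q.Prime → q ∣ k → B < q) ∧
    (∃ P₂ : ℕ, P₂.Prime ∧ P₂ ∣ m - 1 ∧ ¬ P₂ ^ 2 ∣ m - 1 ∧ G ^ 12 < P₂) ∧
    (∃ i : ℕ, 1 ≤ i ∧ i < B ∧ ∃ k' p : ℕ, m - i = k' * p ∧ p.Prime ∧ k' < G) ∧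
    (∀ k' z : ℕ, 1 ≤ k' → k' < k → ¬ IsSquare (k * k' * z.factorial))

open Classical in
/-- The good integers in `(N / 2, N]`. -/
noncomputable def goodSet (B G N : ℕ) : Finset ℕ := (Ioc (N / 2) N).filter (fun m => Good B G m)

/-- Module D: positive proportion of good integers in `(N / 2, N]`.
Here `r = 2 * s`, with `s` at least any prescribed bound. -/
def CountGood : Prop :=
  ∀ s₀ : ℕ, ∃ s B : ℕ, s₀ ≤ s ∧ 2 ≤ B ∧ ∃ c : ℝ, 0 < c ∧ ∃ N₀ : ℕ, ∀ N : ℕ, N₀ ≤ N →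
    ∀ G : ℕ, G ^ (2 * s) ≤ N → N < (G + 1) ^ (2 * s) →
      c * (N : ℝ) ≤ ((goodSet B G N).card : ℝ)

end Pool.Agent.Helper27.D6
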