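import Pool.Agent.Helper27.D6Det

set_option autoImplicit false

namespace Pool.Agent.Helper27.D6

open Finset

theorem not_sq_dvd {k P : ℕ} (hP : P.Prime) (hk : 0 < k) (hkP : k < P) : ¬ P ^ 2 ∣ k * P := by
  intro h
  rw [sq] at h
  have h2 := Nat.dvd_of_mul_dvd_mul_right hP.pos h
  have := Nat.le_of_dvd hk h2
  omega

/-- Step (2). -/
theorem anchor {m w x y z : ℕ} (R : Rep m w x y z) {k P : ℕ} (hm : m = k * P) (hP : P.Prime)
    (hk : 0 < k) (hkP : k < P) (hH : m - w ≤ P) (hz : z < P) :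
    ∃ k', 1 ≤ k' ∧ k' < k ∧ k' * P ∈ Ioc y x := by
  have hmem : m ∈ Ioc w m := Finset.mem_Ioc.mpr ⟨R.hwm, le_rfl⟩
  obtain ⟨n', hn', hd⟩ := match_J R hP hmem (hm ▸ Dvd.intro_left k rfl)
    (by rw [hm]; exact not_sq_dvd hP hk hkP) hH hz
  obtain ⟨c, rfl⟩ := hd
  rw [Finset.mem_Ioc] at hn'
  refine ⟨c, ?_, ?_, ?_⟩
  · rcases Nat.eq_zero_or_pos c with rfl | h
    · omega
    · exact h
  · have h1 : P * c < k * P := by
      have := R.hxw; have := R.hwm; omega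
    rw [mul_comm] at h1
    exact Nat.lt_of_mul_lt_mul_right h1
  · rw [Finset.mem_Ioc, mul_comm]; exact hn'

theorem no_common {k B m i : ℕ} (hB : ∀ q : ℕ, q.Prime → q ∣ k → B < q) {P k₁ p : ℕ}
    (hm : m = k * P) (hi1 : 1 ≤ i) (hi : i < B) (him : i ≤ m) (hk₁ : m - i = k₁ * p)
    (hc : ¬ Nat.Coprime k k₁) : False := by
  obtain ⟨q, hq, hqk, hqk₁⟩ := Nat.Prime.not_coprime_iff_dvd.mp hc
  have h1 : q ∣ m := by rw [hm]; exact hqk.mul_right P
  have h2 : q ∣ m - i := by rw [hk₁]; exact hqk₁.mul_right p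
  have h3 : q ∣ i := by
    have := Nat.dvd_sub h1 h2
    rwa [Nat.sub_sub_self him] at this
  have := Nat.le_of_dvd hi1 h3
  have := hB q hq hqk
  omega

theorem not_coprime_of_eq {k k' k₁ k₂ : ℕ} (hk' : 1 ≤ k') (hlt : k' < k)
    (h : k₂ * k = k' * k₁) : ¬ Nat.Coprime k k₁ := by
  intro hc
  have h1 : k ∣ k' * k₁ := ⟨k₂, by rw [← h]; ring⟩
  have h2 := hc.dvd_of_dvd_mul_right h1
  have := Nat.le_of_dvd hk' h2
  omega

/-- Step (3). -/
theorem step3 {m w x y z : ℕ} (R : Rep m w x y z) {k P k' k₁ p B G i : ℕ} (hm : m = k * P)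
    (hn' : k' * P ∈ Ioc y x) (hk'1 : 1 ≤ k') (hk' : k' < k) (hkG : k < G)
    (hB : ∀ q : ℕ, q.Prime → q ∣ k → B < q) (hi1 : 1 ≤ i) (hi : i < B) (him : i < m - w)
    (hk₁ : m - i = k₁ * p) (hp : p.Prime) (hk₁G : k₁ < G) (hk₁p : k₁ < p) (hH : m - w ≤ p)
    (hz : z < p) (hT : ((m - w) + (x - y)) * G ^ 2 < m) : False := by
  have hwm := R.hwm
  have hxw := R.hxw
  have hyx := R.hyx
  have hn1 : m - i ∈ Ioc w m := by rw [Finset.mem_Ioc]; omega
  have hk₁0 : 0 < k₁ := by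
    rcases Nat.eq_zero_or_pos k₁ with h | h
    · rw [h] at hk₁; omega
    · exact h
  obtain ⟨n₂, hn₂, hd⟩ := match_J R hp hn1 (hk₁ ▸ Dvd.intro_left k₁ rfl)
    (by rw [hk₁]; exact not_sq_dvd hp hk₁0 hk₁p) hH hz
  obtain ⟨k₂, rfl⟩ := hd
  have hn₂' := hn₂
  rw [Finset.mem_Ioc] at hn' hn₂
  have hk₂ : k₂ < k₁ := by
    have h1 : p * k₂ < k₁ * p := by rw [← hk₁]; omega
    rw [mul_comm] at h1
    exact Nat.lt_of_mul_lt_mul_right h1
  apply no_common hB hm hi1 hi (by omega) hk₁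
  apply not_coprime_of_eq hk'1 hk'
  by_contra hne
  -- work over the integers
  have e1 : (m : ℤ) = k * P := by exact_mod_cast hm
  have e2 : (m : ℤ) - i = k₁ * p := by
    have : ((m - i : ℕ) : ℤ) = k₁ * p := by exact_mod_cast hk₁
    rw [Nat.cast_sub (by omega)] at this
    exact this
  have hne' : ((k₂ : ℤ) * k - k' * k₁) ≠ 0 := by
    intro h
    apply hne
    have : (k₂ : ℤ) * k = k' * k₁ := by linarith
    exact_mod_cast this
  have habs : (1 : ℤ) ≤ |(k₂ : ℤ) * k - k' * k₁| := Int.one_le_abs hne'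
  have hdiff : |(p : ℤ) * k₂ - k' * P| ≤ (x - y : ℕ) := by
    rw [Nat.cast_sub hyx, abs_le]
    have a1 : (y : ℤ) < p * k₂ := by exact_mod_cast hn₂.1
    have a2 : (p : ℤ) * k₂ ≤ x := by exact_mod_cast hn₂.2
    have a3 : (y : ℤ) < k' * P := by exact_mod_cast hn'.1
    have a4 : (k' : ℤ) * P ≤ x := by exact_mod_cast hn'.2
    constructor <;> linarith
  have key : ((k₂ : ℤ) * k - k' * k₁) * m = k * k₁ * (p * k₂ - k' * P) + k₂ * k * i := by
    have : k * k₁ * ((p : ℤ) * k₂ - k' * P) = k₂ * k * (k₁ * p) - k' * k₁ * (k * P) := by ring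
    rw [this, ← e1, ← e2]; ring
  have hm0 : (0 : ℤ) ≤ m := Int.natCast_nonneg m
  have h1 : (m : ℤ) ≤ |(k₂ : ℤ) * k - k' * k₁| * m := by nlinarith
  have h2 : |(k₂ : ℤ) * k - k' * k₁| * m = |((k₂ : ℤ) * k - k' * k₁) * m| := by
    rw [abs_mul, abs_of_nonneg hm0]
  have h3 : |(k : ℤ) * k₁ * (p * k₂ - k' * P) + k₂ * k * i| ≤
      k * k₁ * (x - y : ℕ) + k₂ * k * i := by
    refine (abs_add_le _ _).trans ?_
    rw [abs_mul, abs_of_nonneg (by positivity : (0 : ℤ) ≤ (k : ℤ) * k₁),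
      abs_of_nonneg (by positivity : (0 : ℤ) ≤ (k₂ : ℤ) * k * i)]
    have := mul_le_mul_of_nonneg_left hdiff (by positivity : (0 : ℤ) ≤ (k : ℤ) * k₁)
    linarith
  rw [h2, key] at h1
  have h4 : (m : ℤ) ≤ k * k₁ * (x - y : ℕ) + k₂ * k * i := h1.trans h3
  have h5 : m ≤ k * k₁ * (x - y) + k₂ * k * i := by exact_mod_cast h4
  have h6 : k₂ * k * i ≤ k * k₁ * (m - w) := by
    calc k₂ * k * i ≤ k₁ * k * (m - w) :=
          Nat.mul_le_mul (Nat.mul_le_mul_right _ hk₂.le) him.le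
      _ = _ := by ring
  have h7 : k * k₁ ≤ G ^ 2 := by rw [sq]; exact Nat.mul_le_mul hkG.le hk₁G.le
  have h8 : k * k₁ * (x - y) + k * k₁ * (m - w) ≤ ((m - w) + (x - y)) * G ^ 2 := by
    rw [← mul_add, mul_comm, add_comm (x - y)]
    exact Nat.mul_le_mul_left _ h7
  omega

/-- Step (4). -/
theorem step4 {m w x y z : ℕ} (R : Rep m w x y z) {k P k' P₂ B G : ℕ} (hm : m = k * P)
    (hn' : k' * P ∈ Ioc y x) (hk'1 : 1 ≤ k') (hk' : k' < k) (hkG : k < G) (hB2 : 2 ≤ B)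
    (hB : ∀ q : ℕ, q.Prime → q ∣ k → B < q) (hw2 : w + 2 ≤ m) (hp : P₂.Prime)
    (hd : P₂ ∣ m - 1) (hd2 : ¬ P₂ ^ 2 ∣ m - 1) (hH : m - w ≤ P₂) (hz : z < P₂)
    (hT : G * ((x - y) + 1) ≤ P₂) : False := by
  have hwm := R.hwm
  have hxw := R.hxw
  have hyx := R.hyx
  have hn1 : m - 1 ∈ Ioc w m := by rw [Finset.mem_Ioc]; omega
  obtain ⟨n₂, hn₂, hd'⟩ := match_J R hp hn1 hd hd2 hH hz
  obtain ⟨k₂, rfl⟩ := hd'
  obtain ⟨k₁, hk₁⟩ := hd
  rw [Finset.mem_Ioc] at hn' hn₂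
  apply no_common (i := 1) hB hm le_rfl (by omega) (by omega) (by rw [hk₁]; ring : m - 1 = k₁ * P₂)
  apply not_coprime_of_eq hk'1 hk'
  by_contra hne
  have e1 : (m : ℤ) = k * P := by exact_mod_cast hm
  have e2 : (m : ℤ) - 1 = k₁ * P₂ := by
    have : ((m - 1 : ℕ) : ℤ) = P₂ * k₁ := by exact_mod_cast hk₁
    rw [Nat.cast_sub (by omega)] at this
    rw [mul_comm]; exact_mod_cast this
  have hne' : ((k₂ : ℤ) * k - k' * k₁) ≠ 0 := by
    intro h
    apply hne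
    have : (k₂ : ℤ) * k = k' * k₁ := by linarith
    exact_mod_cast this
  have habs : (1 : ℤ) ≤ |(k₂ : ℤ) * k - k' * k₁| := Int.one_le_abs hne'
  have hdiff : |(P₂ : ℤ) * k₂ - k' * P| ≤ (x - y : ℕ) := by
    rw [Nat.cast_sub hyx, abs_le]
    have a1 : (y : ℤ) < P₂ * k₂ := by exact_mod_cast hn₂.1
    have a2 : (P₂ : ℤ) * k₂ ≤ x := by exact_mod_cast hn₂.2
    have a3 : (y : ℤ) < k' * P := by exact_mod_cast hn'.1
    have a4 : (k' : ℤ) * P ≤ x := by exact_mod_cast hn'.2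
    constructor <;> linarith
  have key : ((k₂ : ℤ) * k - k' * k₁) * P₂ = k * (P₂ * k₂ - k' * P) + k' := by
    have : (k : ℤ) * (P₂ * k₂ - k' * P) = k₂ * k * P₂ - k' * (k * P) := by ring
    rw [this, ← e1]
    have : (m : ℤ) = k₁ * P₂ + 1 := by linarith
    rw [this]; ring
  have hP0 : (0 : ℤ) ≤ P₂ := Int.natCast_nonneg _
  have h1 : (P₂ : ℤ) ≤ |(k₂ : ℤ) * k - k' * k₁| * P₂ := by nlinarith
  have h2 : |(k₂ : ℤ) * k - k' * k₁| * P₂ = |((k₂ : ℤ) * k - k' * k₁) * P₂| := by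
    rw [abs_mul, abs_of_nonneg hP0]
  have h3 : |(k : ℤ) * (P₂ * k₂ - k' * P) + k'| ≤ k * (x - y : ℕ) + k' := by
    refine (abs_add_le _ _).trans ?_
    rw [abs_mul, abs_of_nonneg (by positivity : (0 : ℤ) ≤ (k : ℤ)),
      abs_of_nonneg (by positivity : (0 : ℤ) ≤ (k' : ℤ))]
    have := mul_le_mul_of_nonneg_left hdiff (by positivity : (0 : ℤ) ≤ (k : ℤ))
    linarith
  rw [h2, key] at h1
  have h4 : (P₂ : ℤ) ≤ k * (x - y : ℕ) + k' := h1.trans h3
  have h5 : P₂ ≤ k * (x - y) + k' := by exact_mod_cast h4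
  have h6 : k * (x - y) + k' < G * ((x - y) + 1) := by
    have : k * (x - y) ≤ G * (x - y) := Nat.mul_le_mul_right _ hkG.le
    rw [mul_add, mul_one]; omega
  omega

/-- The case `H = H' = 1`. -/
theorem step_d {m w x y z : ℕ} (R : Rep m w x y z) {k P k' : ℕ} (hm : m = k * P)
    (hP : P.Prime) (hk0 : 0 < k) (hn' : k' * P ∈ Ioc y x) (hk'1 : 1 ≤ k') (hw : w + 1 = m) (hy : y + 1 = x)
    (hd : ¬ IsSquare (k * k' * z.factorial)) : False := by
  apply hd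
  have hn'' := hn'
  rw [Finset.mem_Ioc] at hn''
  have hx : x = k' * P := by omega
  apply isSquare_of_even (by have := Nat.factorial_pos z; positivity)
  intro p hp
  have h := R.par p hp
  have e1 : V p w m = m.factorization p := by
    apply V_single (Finset.mem_Ioc.mpr ⟨R.hwm, le_rfl⟩)
    intro n' hn' _
    rw [Finset.mem_Ioc] at hn'
    omega
  have e2 : V p y x = x.factorization p := by
    apply V_single (Finset.mem_Ioc.mpr ⟨by omega, le_rfl⟩)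
    intro n' hn' _
    rw [Finset.mem_Ioc] at hn'
    omega
  rw [e1, e2, V_zero, hm, hx, Nat.factorization_mul hk0.ne' hP.ne_zero,
    Nat.factorization_mul (by omega) hP.ne_zero, Finsupp.add_apply, Finsupp.add_apply] at h
  rw [Nat.factorization_mul (by positivity) (Nat.factorial_ne_zero z),
    Nat.factorization_mul hk0.ne' (by omega), Finsupp.add_apply, Finsupp.add_apply]
  rw [Nat.even_iff] at h ⊢
  omega

end Pool.Agent.Helper27.D6
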