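import Pool.Agent.Helper27.D6Cnt
import Pool.Agent.Helper96.D6F

set_option autoImplicit false

namespace Pool.Agent.Helper27.D6

open Finset

/-- The huge regime, in the form proved by helper1. -/
def R7Statement : Prop := ∃ n₀ : ℕ, ∀ n : ℕ, n₀ ≤ n → ∀ m w x y z : ℕ, Rep m w x y z → m ≤ n →
  n < 2 * m → ((m : ℝ) - w) + ((x : ℝ) - y) ≤ (n : ℝ) ^ (0.99 : ℝ)

theorem r7_use (h : R7Statement) (s : ℕ) (hs : 400 ≤ s) : ∃ G₀ : ℕ, 2 ≤ G₀ ∧ ∀ G : ℕ, G₀ ≤ G → ∀ N : ℕ,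
    G ^ (2 * s) ≤ N → ∀ m w x y z : ℕ, Rep m w x y z → m ≤ N → N < 2 * m →
    ((m - w) + (x - y)) * (2 * G ^ 2) < N := by
  obtain ⟨n₀, hn₀⟩ := h
  refine ⟨max n₀ 10, by have := le_max_right n₀ 10; omega, fun G hG N hN m w x y z R hm hm2 => ?_⟩
  have hG10 : 10 ≤ G := (le_max_right _ _).trans hG
  have hGN : G ≤ N := le_trans (Nat.le_self_pow (by omega) G) hN
  have h1 := hn₀ N (((le_max_left _ _).trans hG).trans hGN) m w x y z R hm hm2
  have hG0 : (10 : ℝ) ≤ G := by exact_mod_cast hG10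
  have hN0 : (0 : ℝ) < N := by exact_mod_cast (by omega : 0 < N)
  have h2 : (G : ℝ) ^ 8 ≤ (N : ℝ) ^ (0.01 : ℝ) := by
    have h3 : (G : ℝ) ^ 800 ≤ N := by
      have : G ^ 800 ≤ N := le_trans (Nat.pow_le_pow_right (by omega) (by omega)) hN
      exact_mod_cast this
    have h4 := Real.rpow_le_rpow (by positivity) h3 (by norm_num : (0 : ℝ) ≤ 0.01)
    rw [← Real.rpow_natCast (G : ℝ) 800, ← Real.rpow_mul (by linarith)] at h4
    have e : ((800 : ℕ) : ℝ) * (0.01 : ℝ) = ((8 : ℕ) : ℝ) := by norm_num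
    rw [e, Real.rpow_natCast] at h4
    exact h4
  have h5 : (N : ℝ) ^ (0.99 : ℝ) * (N : ℝ) ^ (0.01 : ℝ) = N := by
    rw [← Real.rpow_add hN0]; norm_num
  have h6 : ((((m - w) + (x - y)) * (2 * G ^ 2) : ℕ) : ℝ) < N := by
    push_cast
    rw [Nat.cast_sub R.hwm.le, Nat.cast_sub R.hyx]
    have h7 : 0 < (N : ℝ) ^ (0.99 : ℝ) := Real.rpow_pos_of_pos hN0 _
    have h8 : 2 * (G : ℝ) ^ 2 < (G : ℝ) ^ 8 := by
      have e : (G : ℝ) ^ 8 = (G : ℝ) ^ 6 * (G : ℝ) ^ 2 := by ring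
      rw [e]
      have h9 : (2 : ℝ) < (G : ℝ) ^ 6 := by
        calc (2 : ℝ) < 10 ^ 6 := by norm_num
          _ ≤ (G : ℝ) ^ 6 := pow_le_pow_left₀ (by norm_num) hG0 6
      exact mul_lt_mul_of_pos_right h9 (by positivity)
    calc ((m : ℝ) - w + (x - y)) * (2 * (G : ℝ) ^ 2) ≤ (N : ℝ) ^ (0.99 : ℝ) * (2 * (G : ℝ) ^ 2) :=
          mul_le_mul_of_nonneg_right h1 (by positivity)
      _ < (N : ℝ) ^ (0.99 : ℝ) * (N : ℝ) ^ (0.01 : ℝ) :=
          mul_lt_mul_of_pos_left (lt_of_lt_of_le h8 h2) h7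
      _ = N := h5
  exact_mod_cast h6

theorem hasMin_of_good {B G m : ℕ} (hg : Good B G m) (hG : 2 * G + 4 ≤ m) (hGG : G * (G + 2) < m)
    (hno : ∀ w x y z : ℕ, ¬ Rep m w x y z) : N140ae710.HasMinimum m 6 := by
  obtain ⟨k, P, hm, hP, hk2, hkG, _⟩ := hg
  refine ⟨by norm_num, ?_, ?_⟩
  · rw [hm]
    apply hasRep_six hk2
    by_contra hc
    push Not at hc
    have h1 : k * P ≤ G * (G + 2) := Nat.mul_le_mul hkG.le (by omega)
    omega
  · intro j hj hj6 hrep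
    obtain ⟨w, x, y, z, R⟩ := rep_of_hasRep hj hj6 hrep
    exact hno w x y z R

theorem main_of_R7 (h : R7Statement) : N140ae710.PositiveLowerDensitySix := by
  classical
  obtain ⟨s, B, hs, _, c, hc, N₀, hN₀⟩ := Helper96.D6.countGood 400
  obtain ⟨G₁, hG₁2, hG₁⟩ := exclusion s hs B
  obtain ⟨G₂, hG₂2, hG₂⟩ := r7_use h s hs
  obtain ⟨G₃, hG₃2, hG₃⟩ := badM_count s hs
  set G₀ := max (max G₁ G₂) (max G₃ (⌈10 / c⌉₊ + 10)) with hG₀
  refine ⟨c / 2, by positivity, max N₀ (G₀ ^ (2 * s)), fun N hN => ?_⟩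
  have hNN₀ : N₀ ≤ N := (le_max_left _ _).trans hN
  have hNG₀ : G₀ ^ (2 * s) ≤ N := (le_max_right _ _).trans hN
  set G := Nat.findGreatest (fun g => g ^ (2 * s) ≤ N) N with hG
  have hGspec : G ^ (2 * s) ≤ N := by
    have h0 : (0 : ℕ) ^ (2 * s) ≤ N := by rw [zero_pow (by omega)]; exact Nat.zero_le _
    exact Nat.findGreatest_spec (P := fun g => g ^ (2 * s) ≤ N) (Nat.zero_le N) h0
  have hG₀N : G₀ ≤ N := le_trans (Nat.le_self_pow (by omega) G₀) hNG₀
  have hGG₀ : G₀ ≤ G := Nat.le_findGreatest hG₀N hNG₀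
  have hGlt : N < (G + 1) ^ (2 * s) := by
    by_contra hcon
    push Not at hcon
    have h1 : G + 1 ≤ N := le_trans (Nat.le_self_pow (by omega) _) hcon
    have h2 := Nat.le_findGreatest (P := fun g => g ^ (2 * s) ≤ N) h1 hcon
    omega
  have hGG₁ : G₁ ≤ G := le_trans (le_trans (le_max_left _ _) (le_max_left _ _)) hGG₀
  have hGG₂ : G₂ ≤ G := le_trans (le_trans (le_max_right _ _) (le_max_left _ _)) hGG₀
  have hGG₃ : G₃ ≤ G := le_trans (le_trans (le_max_left _ _) (le_max_right _ _)) hGG₀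
  have hGc : ⌈10 / c⌉₊ + 10 ≤ G := le_trans (le_trans (le_max_right _ _) (le_max_right _ _)) hGG₀
  have hcount := hN₀ N hNN₀ G hGspec hGlt
  have hbad := hG₃ G hGG₃ N hGspec hGlt
  have hGr : 10 / c ≤ G := (Nat.le_ceil _).trans (by exact_mod_cast (by omega : ⌈10 / c⌉₊ ≤ G))
  have hG0 : (0 : ℝ) < G := by exact_mod_cast (by omega : 0 < G)
  have hbad2 : (((Ioc (N / 2) N).filter (fun m => BadM s G N m)).card : ℝ) ≤ c / 2 * N := by
    have h1 : (((Ioc (N / 2) N).filter (fun m => BadM s G N m)).card : ℝ) * G ≤ (c / 2 * N) * G := by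
      refine hbad.trans ?_
      rw [div_le_iff₀ hc] at hGr
      have hN0 : (0 : ℝ) ≤ N := Nat.cast_nonneg _
      nlinarith
    exact le_of_mul_le_mul_right h1 hG0
  -- sizes
  have hNbig : 4 * (G * (G + 2)) + 100 ≤ N := by
    have h1 : 4 * (G * (G + 2)) + 100 ≤ G ^ 20 := by
      have e1 : G * (G + 2) ≤ G ^ 3 := by
        calc G * (G + 2) ≤ G * (G * G) := Nat.mul_le_mul_left _ (by nlinarith)
          _ = G ^ 3 := by ring
      have e2 : 100 ≤ G ^ 3 := by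
        calc 100 ≤ 10 ^ 3 := by norm_num
          _ ≤ G ^ 3 := Nat.pow_le_pow_left (by omega) 3
      calc 4 * (G * (G + 2)) + 100 ≤ 5 * G ^ 3 := by omega
        _ ≤ G * G ^ 3 := Nat.mul_le_mul_right _ (by omega)
        _ = G ^ 4 := by ring
        _ ≤ G ^ 20 := Nat.pow_le_pow_right (by omega) (by norm_num)
    exact h1.trans (le_trans (Nat.pow_le_pow_right (by omega) (by omega)) hGspec)
  have hsub : goodSet B G N ⊆ ((Icc 1 N).filter (fun m => N140ae710.HasMinimum m 6)) ∪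
      (Ioc (N / 2) N).filter (fun m => BadM s G N m) := by
    intro m hm
    rw [goodSet, Finset.mem_filter] at hm
    obtain ⟨hmI, hgood⟩ := hm
    have hmI' := Finset.mem_Ioc.mp hmI
    rw [Finset.mem_union]
    by_cases hb : BadM s G N m
    · right; rw [Finset.mem_filter]; exact ⟨hmI, hb⟩
    · left
      rw [Finset.mem_filter, Finset.mem_Icc]
      refine ⟨by omega, ?_⟩
      have hGle : 2 * G + 4 ≤ G * (G + 2) := by nlinarith
      apply hasMin_of_good hgood (by omega) (by omega)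
      intro w x y z R
      have hN2m : N < 2 * m := by omega
      exact hG₁ G hGG₁ N hGspec hGlt m hmI'.2 hN2m hgood hb w x y z R
        (hG₂ G hGG₂ N hGspec m w x y z R hmI'.2 hN2m)
  have hfin : ((goodSet B G N).card : ℝ) ≤
      (((Icc 1 N).filter (fun m => N140ae710.HasMinimum m 6)).card : ℝ) +
      (((Ioc (N / 2) N).filter (fun m => BadM s G N m)).card : ℝ) := by
    exact_mod_cast (Finset.card_le_card hsub).trans (Finset.card_union_le _ _)
  have hcD : (((Icc 1 N).filter (fun m => N140ae710.HasMinimum m 6)).card : ℝ) =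
      (N140ae710.countD 6 N : ℝ) := by
    unfold N140ae710.countD
    congr 2
  rw [← hcD]
  linarith

end Pool.Agent.Helper27.D6
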