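import Pool.Agent.Helper94.RevLS

set_option autoImplicit false

namespace Pool.Agent.Helper27.D6

open Finset Pool.Agent.Helper94.Rev

theorem row_sum {ι : Type*} [DecidableEq ι] (s : Finset ι) (x : ι → ℝ) (R : ℕ) (hR : 1 ≤ R)
    (hsep : ∀ i ∈ s, ∀ j ∈ s, i ≠ j → ∀ n : ℤ, 1 / (R : ℝ) ≤ |x i - x j - n|)
    (N : ℕ) : ∀ i ∈ s, ∑ j ∈ s, ‖∑ m ∈ range N, ex (m * (x j - x i))‖ ≤
      N + R * (1 + Real.log R) := by
  have hR0 : (0 : ℝ) < R := by exact_mod_cast hR
  have hlog : 0 ≤ Real.log R := Real.log_nonneg (by exact_mod_cast hR)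
  intro i hi
  rw [← Finset.add_sum_erase s _ hi]
  have hdiag : ‖∑ m ∈ range N, ex (m * (x i - x i))‖ = N := by
    simp [ex_zero]
  rw [hdiag]
  gcongr
  set t : ι → ℝ := fun j => Int.fract (x j - x i) with ht
  have ht0 : ∀ j ∈ s.erase i, 1 / (R : ℝ) ≤ t j := by
    intro j hj
    have hj' := Finset.mem_of_mem_erase hj
    have hne := Finset.ne_of_mem_erase hj
    have h1 := hsep j hj' i hi hne ⌊x j - x i⌋
    have h2 : x j - x i - ⌊x j - x i⌋ = t j := rfl
    rw [h2, abs_of_nonneg (Int.fract_nonneg _)] at h1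
    exact h1
  have ht1 : ∀ j ∈ s.erase i, 1 / (R : ℝ) ≤ 1 - t j := by
    intro j hj
    have hj' := Finset.mem_of_mem_erase hj
    have hne := Finset.ne_of_mem_erase hj
    have h1 := hsep j hj' i hi hne (⌊x j - x i⌋ + 1)
    have h2 : x j - x i - ((⌊x j - x i⌋ + 1 : ℤ) : ℝ) = -(1 - t j) := by
      have : t j = x j - x i - ⌊x j - x i⌋ := rfl
      rw [this]; push_cast; ring
    have h3 : 0 < 1 - t j := by have := Int.fract_lt_one (x j - x i); simp only [ht]; linarith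
    rw [h2, abs_neg, abs_of_pos h3] at h1
    exact h1
  have htsep : ∀ j ∈ s.erase i, ∀ k ∈ s.erase i, j ≠ k → 1 / (R : ℝ) ≤ |t j - t k| := by
    intro j hj k hk hjk
    have h1 := hsep j (Finset.mem_of_mem_erase hj) k (Finset.mem_of_mem_erase hk) hjk
      (⌊x j - x i⌋ - ⌊x k - x i⌋)
    have h2 : x j - x k - ((⌊x j - x i⌋ - ⌊x k - x i⌋ : ℤ) : ℝ) = t j - t k := by
      have e1 : t j = x j - x i - ⌊x j - x i⌋ := rfl
      have e2 : t k = x k - x i - ⌊x k - x i⌋ := rfl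
      rw [e1, e2]; push_cast; ring
    rwa [h2] at h1
  have hb : ∀ j ∈ s.erase i, ‖∑ m ∈ range N, ex (m * (x j - x i))‖ ≤
      (1 / 2) * (1 / t j) + (1 / 2) * (1 / (1 - t j)) := by
    intro j hj
    have p0 : 0 < t j := lt_of_lt_of_le (by positivity) (ht0 j hj)
    have p1 : 0 < 1 - t j := lt_of_lt_of_le (by positivity) (ht1 j hj)
    have hdist : ∀ n : ℤ, min (t j) (1 - t j) ≤ |x j - x i - n| := by
      intro n
      have e1 : x j - x i - n = t j + ((⌊x j - x i⌋ - n : ℤ) : ℝ) := by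
        have e1 : t j = x j - x i - ⌊x j - x i⌋ := rfl
        rw [e1]; push_cast; ring
      rw [e1]
      rcases lt_or_ge (⌊x j - x i⌋ - n) 0 with hneg | hnn
      · have h5 : ((⌊x j - x i⌋ - n : ℤ) : ℝ) ≤ -1 := by
          have : (⌊x j - x i⌋ - n : ℤ) ≤ -1 := by omega
          exact_mod_cast this
        refine (min_le_right _ _).trans ?_
        rw [abs_of_nonpos (by linarith)]
        linarith
      · have h5 : (0 : ℝ) ≤ ((⌊x j - x i⌋ - n : ℤ) : ℝ) := by exact_mod_cast hnn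
        refine (min_le_left _ _).trans ?_
        rw [abs_of_nonneg (by linarith)]
        linarith
    have hmin : 0 < min (t j) (1 - t j) := lt_min p0 p1
    refine (norm_geom_le N (x j - x i) _ hmin hdist).trans ?_
    rcases le_total (t j) (1 - t j) with h | h
    · rw [min_eq_left h]
      have : 1 / (2 * t j) = (1 / 2) * (1 / t j) := by field_simp
      rw [this]
      have : 0 ≤ (1 / 2) * (1 / (1 - t j)) := by positivity
      linarith
    · rw [min_eq_right h]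
      have : 1 / (2 * (1 - t j)) = (1 / 2) * (1 / (1 - t j)) := by field_simp
      rw [this]
      have : 0 ≤ (1 / 2) * (1 / t j) := by positivity
      linarith
  refine (Finset.sum_le_sum hb).trans ?_
  rw [Finset.sum_add_distrib, ← Finset.mul_sum, ← Finset.mul_sum]
  have s1 := sum_inv_sep (s.erase i) t R hR ht0 (fun j _ => Int.fract_lt_one _) htsep
  have s2 := sum_inv_sep (s.erase i) (fun j => 1 - t j) R hR ht1
    (fun j hj => by
      have : 0 < t j := lt_of_lt_of_le (by positivity) (ht0 j hj)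
      linarith)
    (fun j hj k hk hjk => by
      have := htsep j hj k hk hjk
      have e : (1 - t j) - (1 - t k) = -(t j - t k) := by ring
      rw [e, abs_neg]; exact this)
  linarith

/-- Dual large sieve inequality. -/
theorem dual_ls {ι : Type*} [DecidableEq ι] (s : Finset ι) (x : ι → ℝ) (R : ℕ) (hR : 1 ≤ R)
    (hsep : ∀ i ∈ s, ∀ j ∈ s, i ≠ j → ∀ n : ℤ, 1 / (R : ℝ) ≤ |x i - x j - n|)
    (N : ℕ) (a : ι → ℂ) :
    ∑ m ∈ range N, ‖∑ i ∈ s, a i * ex (m * x i)‖ ^ 2 ≤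
      (N + R * (1 + Real.log R)) * ∑ i ∈ s, ‖a i‖ ^ 2 := by
  have hrow := row_sum s x R hR hsep N
  set Δ : ℝ := N + R * (1 + Real.log R) with hΔ
  set U : ℕ → ℂ := fun m => ∑ i ∈ s, a i * ex (m * x i) with hU
  have f1 : ((∑ m ∈ range N, ‖U m‖ ^ 2 : ℝ) : ℂ) =
      ∑ i ∈ s, ∑ j ∈ s, (starRingEnd ℂ) (a i) * a j * ∑ m ∈ range N, ex (m * (x j - x i)) := by
    push_cast
    have : ∀ m ∈ range N, ((‖U m‖ : ℂ)) ^ 2 = ∑ i ∈ s, ∑ j ∈ s,
        (starRingEnd ℂ) (a i) * a j * ex (m * (x j - x i)) := by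
      intro m _
      have h1 : ((‖U m‖ : ℂ)) ^ 2 = (starRingEnd ℂ) (U m) * U m := by
        rw [mul_comm, Complex.mul_conj, Complex.normSq_eq_norm_sq]; push_cast; rfl
      rw [h1, hU]
      simp only [map_sum, map_mul, conj_ex]
      rw [Finset.sum_mul_sum]
      apply Finset.sum_congr rfl
      intro i _
      apply Finset.sum_congr rfl
      intro j _
      have h2 : (m : ℝ) * (x j - x i) = -(m * x i) + m * x j := by ring
      rw [h2, ex_add]; ring
    rw [Finset.sum_congr rfl this, Finset.sum_comm]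
    apply Finset.sum_congr rfl
    intro i _
    rw [Finset.sum_comm]
    apply Finset.sum_congr rfl
    intro j _
    rw [Finset.mul_sum]
  have f2 : 0 ≤ ∑ m ∈ range N, ‖U m‖ ^ 2 := Finset.sum_nonneg fun _ _ => by positivity
  have f3 : ∑ m ∈ range N, ‖U m‖ ^ 2 = ‖((∑ m ∈ range N, ‖U m‖ ^ 2 : ℝ) : ℂ)‖ := by
    rw [Complex.norm_real, Real.norm_eq_abs, abs_of_nonneg f2]
  rw [f3, f1]
  refine (norm_sum_le _ _).trans ?_
  have f4 : ∀ i ∈ s, ‖∑ j ∈ s, (starRingEnd ℂ) (a i) * a j * ∑ m ∈ range N, ex (m * (x j - x i))‖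
      ≤ ∑ j ∈ s, ((1 / 2) * ‖a i‖ ^ 2 + (1 / 2) * ‖a j‖ ^ 2) *
        ‖∑ m ∈ range N, ex (m * (x j - x i))‖ := by
    intro i _
    refine (norm_sum_le _ _).trans (Finset.sum_le_sum fun j _ => ?_)
    rw [norm_mul, norm_mul]
    have : ‖(starRingEnd ℂ) (a i)‖ = ‖a i‖ := RCLike.norm_conj _
    rw [this]
    gcongr
    nlinarith [sq_nonneg (‖a i‖ - ‖a j‖)]
  refine (Finset.sum_le_sum f4).trans ?_
  have hsym : ∀ i j, ‖∑ m ∈ range N, ex (m * (x j - x i))‖ = ‖∑ m ∈ range N, ex (m * (x i - x j))‖ := by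
    intro i j
    have : ∑ m ∈ range N, ex (m * (x j - x i)) =
        (starRingEnd ℂ) (∑ m ∈ range N, ex (m * (x i - x j))) := by
      rw [map_sum]
      apply Finset.sum_congr rfl
      intro m _
      rw [conj_ex]; congr 1; ring
    rw [this]; exact RCLike.norm_conj _
  have g1 : ∑ i ∈ s, ∑ j ∈ s, ((1 / 2) * ‖a i‖ ^ 2 + (1 / 2) * ‖a j‖ ^ 2) *
        ‖∑ m ∈ range N, ex (m * (x j - x i))‖ =
      ∑ i ∈ s, ‖a i‖ ^ 2 * ∑ j ∈ s, ‖∑ m ∈ range N, ex (m * (x j - x i))‖ := by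
    have g2 : ∑ i ∈ s, ∑ j ∈ s, ((1 / 2) * ‖a j‖ ^ 2) * ‖∑ m ∈ range N, ex (m * (x j - x i))‖ =
        ∑ i ∈ s, ∑ j ∈ s, ((1 / 2) * ‖a i‖ ^ 2) * ‖∑ m ∈ range N, ex (m * (x j - x i))‖ := by
      rw [Finset.sum_comm]
      apply Finset.sum_congr rfl
      intro i _
      apply Finset.sum_congr rfl
      intro j _
      rw [hsym i j]
    simp only [add_mul, Finset.sum_add_distrib]
    rw [g2, ← Finset.sum_add_distrib]
    apply Finset.sum_congr rfl
    intro i _
    rw [← Finset.sum_add_distrib, Finset.mul_sum]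
    apply Finset.sum_congr rfl
    intro j _
    ring
  rw [g1, Finset.mul_sum]
  apply Finset.sum_le_sum
  intro i hi
  rw [mul_comm]
  exact mul_le_mul_of_nonneg_right (hrow i hi) (by positivity)

end Pool.Agent.Helper27.D6
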