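import Mathlib
import Pool.Agent.Helper27.D6Basic
import Pool.Agent.Helper27.D6PLS

set_option autoImplicit false

namespace Pool.Agent.Helper27.D6

open Finset

/-- Splitting a finite set in groups of equal size. -/
theorem exists_groups (S : Finset ℕ) (r l : ℕ) (h : r * l ≤ S.card) :
    ∃ P : Fin r → Finset ℕ, (∀ j, P j ⊆ S) ∧ (∀ j, (P j).card = l) ∧
      ∀ i j, i ≠ j → Disjoint (P i) (P j) := by
  classical
  set g : ℕ → ℕ := fun i => if h : i < S.card then S.orderEmbOfFin rfl ⟨i, h⟩ else 0 with hg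
  have ginj : ∀ i j, i < S.card → j < S.card → g i = g j → i = j := by
    intro i j hi hj hij
    simp only [hg, dif_pos hi, dif_pos hj] at hij
    have := (S.orderEmbOfFin rfl).injective hij
    simpa using this
  have hlt : ∀ (j : Fin r) (i : ℕ), i ∈ Ico (l * j) (l * (j + 1)) → i < S.card := by
    intro j i hi
    rw [Finset.mem_Ico] at hi
    have : l * (j + 1) ≤ l * r := Nat.mul_le_mul_left _ j.2
    have h2 : l * r = r * l := Nat.mul_comm _ _
    omega
  refine ⟨fun j => (Ico (l * (j : ℕ)) (l * (j + 1))).image g, ?_, ?_, ?_⟩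
  · intro j p hp
    rw [Finset.mem_image] at hp
    obtain ⟨i, hi, rfl⟩ := hp
    have := hlt j i hi
    simp only [hg, dif_pos this]
    exact Finset.orderEmbOfFin_mem S rfl _
  · intro j
    rw [Finset.card_image_of_injOn, Nat.card_Ico]
    · rw [mul_add, mul_one]; omega
    · intro i hi i' hi' hii
      exact ginj i i' (hlt j i hi) (hlt j i' hi') hii
  · intro i j hij
    rw [Finset.disjoint_left]
    intro p hp hp'
    rw [Finset.mem_image] at hp hp'
    obtain ⟨a, ha, rfl⟩ := hp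
    obtain ⟨b, hb, hab⟩ := hp'
    have := ginj b a (hlt j b hb) (hlt i a ha) hab
    subst this
    rw [Finset.mem_Ico] at ha hb
    apply hij
    apply Fin.ext
    rcases lt_trichotomy (i : ℕ) j with h1 | h1 | h1
    · have : l * (i + 1) ≤ l * j := Nat.mul_le_mul_left _ h1
      omega
    · exact h1
    · have : l * (j + 1) ≤ l * i := Nat.mul_le_mul_left _ h1
      omega

def BadMid (N c hw z : ℕ) : Prop :=
  (((pr (z / 2) z).filter (fun p => ¬ ∃ i < hw, p ∣ c + i)).card : ℝ) ≤ Real.log N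

open Classical in
theorem bad_mid_count (N H z r l : ℕ) (hN : 1 ≤ N) (hH : 1 ≤ H) (hz : 40 * H < z)
    (hr : z ^ (2 * r) ≤ N) (hrl : r * l ≤ (pr (z / 2) z).card)
    (hl : 3 * Real.log N ≤ l) :
    (((range N).filter (fun c => BadMid N c (2 * H + 1) z)).card : ℝ) * (l : ℝ) ^ r ≤
      N * (2 + Real.log N) := by
  set L := Real.log N with hL
  have hL0 : 0 ≤ L := Real.log_nonneg (by exact_mod_cast hN)
  obtain ⟨P, hP1, hP2, hP3⟩ := exists_groups (pr (z / 2) z) r l hrl
  rcases Nat.eq_zero_or_pos l with hl0 | hlpos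
  · -- then log N = 0, N = 1
    rw [hl0] at hl
    have hL00 : L = 0 := by push_cast at hl; linarith
    have h1 : (((range N).filter (fun c => BadMid N c (2 * H + 1) z)).card : ℝ) ≤ N := by
      have := Finset.card_filter_le (range N) (fun c => BadMid N c (2 * H + 1) z)
      rw [Finset.card_range] at this
      exact_mod_cast this
    have h2 : ((l : ℝ)) ^ r ≤ 1 := by
      rw [hl0]; push_cast
      exact pow_le_one₀ le_rfl zero_le_one
    have h3 : (0 : ℝ) ≤ ((range N).filter (fun c => BadMid N c (2 * H + 1) z)).card := Nat.cast_nonneg _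
    rw [hL00]
    nlinarith [pow_nonneg (Nat.cast_nonneg l : (0 : ℝ) ≤ l) r]
  have hl0 : (0 : ℝ) < l := by exact_mod_cast hlpos
  have hz0 : 0 < z := by omega
  have hz0r : (0 : ℝ) < z := by exact_mod_cast hz0
  have hHr : (1 : ℝ) ≤ H := by exact_mod_cast hH
  have hzr : 40 * (H : ℝ) < z := by exact_mod_cast hz
  have hpbig : ∀ j, ∀ p ∈ P j, (z : ℝ) / 2 ≤ p := by
    intro j p hp
    have := mem_pr.mp (hP1 j hp)
    have h2 : z ≤ 2 * p := by omega
    have : (z : ℝ) ≤ 2 * p := by exact_mod_cast h2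
    linarith
  have hls := product_ls P (fun j p hp => (mem_pr.mp (hP1 j hp)).2) hP3 (z ^ r) (Nat.one_le_pow _ _ hz0)
    (by
      intro s hs
      calc ∏ j, s j ≤ ∏ _j : Fin r, z := Finset.prod_le_prod' fun j _ => (mem_pr.mp (hP1 j (hs j))).1.2
        _ = z ^ r := by simp) (2 * H + 1)
    (by
      intro j p hp
      have := (mem_pr.mp (hP1 j hp)).1.1
      omega) (fun _ => 1) N
  -- right side
  have hR : ∏ j : Fin r, ∑ p ∈ P j, (1 : ℝ) ^ 2 * (((2 * H + 1 : ℕ) : ℝ) / p) ≤ ((l : ℝ) / 4) ^ r := by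
    have h1 : ∀ j ∈ (univ : Finset (Fin r)), ∑ p ∈ P j, (1 : ℝ) ^ 2 * (((2 * H + 1 : ℕ) : ℝ) / p) ≤ (l : ℝ) / 4 := by
      intro j _
      have h2 : ∀ p ∈ P j, (1 : ℝ) ^ 2 * (((2 * H + 1 : ℕ) : ℝ) / p) ≤ 1 / 4 := by
        intro p hp
        have h3 := hpbig j p hp
        rw [one_pow, one_mul, div_le_div_iff₀ (by linarith) (by norm_num)]
        push_cast
        linarith
      refine (Finset.sum_le_sum h2).trans ?_
      rw [Finset.sum_const, hP2, nsmul_eq_mul]
      linarith
    refine (Finset.prod_le_prod (fun j _ => Finset.sum_nonneg fun _ _ => by positivity) h1).trans ?_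
    rw [Finset.prod_const, Finset.card_univ, Fintype.card_fin]
  have hQ : ((z ^ r) ^ 2 : ℕ) ≤ N := by rw [← pow_mul, mul_comm]; exact hr
  have hQ1 : 1 ≤ (z ^ r) ^ 2 := Nat.one_le_pow _ _ (Nat.one_le_pow _ _ hz0)
  have hfac : (N : ℝ) + ((z ^ r) ^ 2 : ℕ) * (1 + Real.log ((z ^ r) ^ 2 : ℕ)) ≤ N * (2 + L) := by
    have h1 : Real.log (((z ^ r) ^ 2 : ℕ) : ℝ) ≤ L :=
      Real.log_le_log (by exact_mod_cast hQ1) (by exact_mod_cast hQ)
    have h2 : ((((z ^ r) ^ 2 : ℕ)) : ℝ) ≤ N := by exact_mod_cast hQ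
    have h3 : 0 ≤ Real.log (((z ^ r) ^ 2 : ℕ) : ℝ) := Real.log_natCast_nonneg _
    have : ((((z ^ r) ^ 2 : ℕ)) : ℝ) * (1 + Real.log ((z ^ r) ^ 2 : ℕ)) ≤ N * (1 + L) := by
      apply mul_le_mul h2 (by linarith) (by linarith) (Nat.cast_nonneg _)
    linarith
  have hN0 : (0 : ℝ) ≤ N := Nat.cast_nonneg _
  have hup : ∑ x ∈ range N, ∏ j : Fin r, (∑ p ∈ P j, (1 : ℝ) * fp (2 * H + 1) p x) ^ 2 ≤
      N * (2 + L) * ((l : ℝ) / 4) ^ r := by
    refine hls.trans ?_
    apply mul_le_mul hfac hR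
    · exact Finset.prod_nonneg fun _ _ => Finset.sum_nonneg fun _ _ => by positivity
    · positivity
  -- lower bound on bad points
  have hlow : ∀ c ∈ (range N).filter (fun c => BadMid N c (2 * H + 1) z),
      ((l : ℝ) / 2) ^ (2 * r) ≤ ∏ j : Fin r, (∑ p ∈ P j, (1 : ℝ) * fp (2 * H + 1) p c) ^ 2 := by
    intro c hc
    rw [Finset.mem_filter] at hc
    have hbad := hc.2
    unfold BadMid at hbad
    have h1 : ∀ j ∈ (univ : Finset (Fin r)), ((l : ℝ) / 2) ^ 2 ≤ (∑ p ∈ P j, (1 : ℝ) * fp (2 * H + 1) p c) ^ 2 := by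
      intro j _
      apply pow_le_pow_left₀ (by positivity)
      -- lower bound of the sum
      have h2 : ∀ p ∈ P j, (if (∃ i < 2 * H + 1, p ∣ c + i) then (1 : ℝ) else 0) - 3 / 20 ≤
          1 * fp (2 * H + 1) p c := by
        intro p hp
        have h3 := hpbig j p hp
        have h4 : fp (2 * H + 1) p c = ∑ i ∈ range (2 * H + 1), (if p ∣ c + i then (1 : ℝ) else 0) -
            ((2 * H + 1 : ℕ) : ℝ) * (1 / p) := by
          unfold fp
          rw [Finset.sum_sub_distrib, Finset.sum_const, Finset.card_range, nsmul_eq_mul]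
        have h5 : ((2 * H + 1 : ℕ) : ℝ) * (1 / p) ≤ 3 / 20 := by
          rw [mul_one_div, div_le_div_iff₀ (by linarith) (by norm_num)]
          push_cast
          linarith
        have h6 : (if (∃ i < 2 * H + 1, p ∣ c + i) then (1 : ℝ) else 0) ≤
            ∑ i ∈ range (2 * H + 1), (if p ∣ c + i then (1 : ℝ) else 0) := by
          split_ifs with hex
          · obtain ⟨i, hi, hd⟩ := hex
            have : (if p ∣ c + i then (1 : ℝ) else 0) ≤
                ∑ i ∈ range (2 * H + 1), (if p ∣ c + i then (1 : ℝ) else 0) := by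
              apply Finset.single_le_sum (f := fun i => if p ∣ c + i then (1 : ℝ) else 0) _
                (Finset.mem_range.mpr hi)
              intro i _; split_ifs <;> norm_num
            rwa [if_pos hd] at this
          · apply Finset.sum_nonneg; intro i _; split_ifs <;> norm_num
        rw [one_mul, h4]
        linarith
      refine le_trans ?_ (Finset.sum_le_sum h2)
      rw [Finset.sum_sub_distrib, Finset.sum_const, hP2, nsmul_eq_mul]
      have h7 : ∑ p ∈ P j, (if (∃ i < 2 * H + 1, p ∣ c + i) then (1 : ℝ) else 0) =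
          l - (((P j).filter (fun p => ¬ ∃ i < 2 * H + 1, p ∣ c + i)).card : ℝ) := by
        rw [Finset.sum_ite, Finset.sum_const, Finset.sum_const_zero, add_zero, nsmul_eq_mul, mul_one]
        have := Finset.card_filter_add_card_filter_not (s := P j) (fun p => ∃ i < 2 * H + 1, p ∣ c + i)
        rw [hP2] at this
        have h8 : (((P j).filter (fun p => ∃ i < 2 * H + 1, p ∣ c + i)).card : ℝ) +
          ((P j).filter (fun p => ¬ ∃ i < 2 * H + 1, p ∣ c + i)).card = l := by exact_mod_cast this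
        linarith
      have h9 : (((P j).filter (fun p => ¬ ∃ i < 2 * H + 1, p ∣ c + i)).card : ℝ) ≤ L := by
        refine le_trans ?_ hbad
        exact_mod_cast Finset.card_le_card (Finset.filter_subset_filter _ (hP1 j))
      rw [h7]
      linarith
    calc ((l : ℝ) / 2) ^ (2 * r) = ∏ _j : Fin r, ((l : ℝ) / 2) ^ 2 := by
          rw [Finset.prod_const, Finset.card_univ, Fintype.card_fin, ← pow_mul]
      _ ≤ _ := Finset.prod_le_prod (fun _ _ => by positivity) h1
  have hsum : (((range N).filter (fun c => BadMid N c (2 * H + 1) z)).card : ℝ) * ((l : ℝ) / 2) ^ (2 * r) ≤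
      N * (2 + L) * ((l : ℝ) / 4) ^ r := by
    refine le_trans ?_ hup
    rw [← nsmul_eq_mul]
    refine (Finset.card_nsmul_le_sum _ _ _ hlow).trans ?_
    apply Finset.sum_le_sum_of_subset_of_nonneg (Finset.filter_subset _ _)
    intro _ _ _
    exact Finset.prod_nonneg fun _ _ => sq_nonneg _
  have e1 : ((l : ℝ) / 2) ^ (2 * r) = (l : ℝ) ^ r * ((l : ℝ) / 4) ^ r := by
    rw [pow_mul, ← mul_pow]; congr 1; ring
  rw [e1, ← mul_assoc] at hsum
  exact le_of_mul_le_mul_right hsum (by positivity)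

end Pool.Agent.Helper27.D6
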