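import Mathlib
import Pool.Agent.Helper27.D6Mid
import Pool.Agent.Helper27.D6Large

set_option autoImplicit false

namespace Pool.Agent.Helper27.D6

open Finset

open Classical in
theorem mid_count (s : ℕ) (hs : 400 ≤ s) : ∃ G₀ : ℕ, 2 ≤ G₀ ∧ ∀ G : ℕ, G₀ ≤ G → ∀ N : ℕ,
    G ^ (2 * s) ≤ N → ∀ H z : ℕ, 1 ≤ H → (Real.log N) ^ 4 ≤ H → 40 * H < z → z ≤ G ^ 11 →
    (((range N).filter (fun c => BadMid N c (2 * H + 1) z)).card : ℝ) * (G : ℝ) ^ 190 ≤
      N * (2 + Real.log N) := by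
  obtain ⟨x₀, h0, hx₀⟩ := primes_half
  obtain ⟨G₁, hG₁⟩ := ev_log (max x₀ 1)
  refine ⟨max 2 G₁, le_max_left _ _, fun G hG N hN H z hH hLH hHz hzG => ?_⟩
  have hG2 : 2 ≤ G := (le_max_left _ _).trans hG
  have hlG := hG₁ G ((le_max_right _ _).trans hG)
  have hlG1 : (1 : ℝ) ≤ Real.log G := (le_max_right _ _).trans hlG
  have hlGx : (x₀ : ℝ) ≤ Real.log G := (le_max_left _ _).trans hlG
  have hL := reg_low (by omega : 1 ≤ G) hN
  have hs' : (400 : ℝ) ≤ s := by exact_mod_cast hs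
  set L := Real.log N with hLdef
  have hL0 : 800 * Real.log G ≤ L := by nlinarith
  have hL1 : 1 ≤ L := by linarith
  have hN1 : 1 ≤ N := le_trans (Nat.one_le_pow _ _ (by omega)) hN
  have hLpow : L ≤ L ^ 4 := le_self_pow₀ hL1 (by norm_num)
  have hzr : 40 * (H : ℝ) < z := by exact_mod_cast hHz
  have hz0 : (0 : ℝ) < z := by linarith [(Nat.cast_nonneg H : (0 : ℝ) ≤ H)]
  have hzx : x₀ ≤ z := by
    have : (x₀ : ℝ) ≤ z := by linarith
    exact_mod_cast this
  have hz2 : 2 ≤ z := by omega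
  have hlz : 0 < Real.log z := Real.log_pos (by exact_mod_cast (by omega : 1 < z))
  set r := Nat.log (z ^ 2) N with hr
  have hz21 : 1 < z ^ 2 := Nat.one_lt_pow (by norm_num) (by omega)
  have hr1 : (z ^ 2) ^ r ≤ N := Nat.pow_log_le_self _ (by omega)
  have hr2 : N < (z ^ 2) ^ (r + 1) := Nat.lt_pow_succ_log_self hz21 N
  have hzr1 : G ^ s < z ^ (r + 1) := by
    have h1 : (G ^ s) ^ 2 < (z ^ (r + 1)) ^ 2 := by
      calc (G ^ s) ^ 2 = G ^ (2 * s) := by rw [← pow_mul, mul_comm]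
        _ ≤ N := hN
        _ < (z ^ 2) ^ (r + 1) := hr2
        _ = (z ^ (r + 1)) ^ 2 := by rw [← pow_mul, ← pow_mul, mul_comm]
    exact lt_of_pow_lt_pow_left₀ 2 (Nat.zero_le _) h1
  have hzr2 : G ^ 380 ≤ z ^ r := by
    have h1 : G ^ s < z ^ r * G ^ 11 := by
      calc G ^ s < z ^ (r + 1) := hzr1
        _ = z ^ r * z := pow_succ _ _
        _ ≤ z ^ r * G ^ 11 := Nat.mul_le_mul_left _ hzG
    have h2 : G ^ 380 * G ^ 11 ≤ G ^ s := by
      rw [← pow_add]; exact Nat.pow_le_pow_right (by omega) (by omega)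
    have h3 : G ^ 380 * G ^ 11 < z ^ r * G ^ 11 := lt_of_le_of_lt h2 h1
    exact (Nat.lt_of_mul_lt_mul_right h3).le
  have hrpos : 0 < r := by
    rcases Nat.eq_zero_or_pos r with h | h
    · rw [h, pow_zero] at hzr2
      have : 2 ^ 380 ≤ G ^ 380 := Nat.pow_le_pow_left hG2 _
      norm_num at this
      omega
    · exact h
  set l := (pr (z / 2) z).card / r with hl
  have hrl : r * l ≤ (pr (z / 2) z).card := Nat.mul_div_le _ _
  have hcard := hx₀ z hzx
  have hrlog : 2 * (r : ℝ) * Real.log z ≤ L := by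
    have h1 : (((z : ℝ)) ^ 2) ^ r ≤ N := by exact_mod_cast hr1
    have h2 := Real.log_le_log (by positivity) h1
    rw [Real.log_pow, Real.log_pow] at h2
    push_cast at h2
    linarith
  have hr0 : (0 : ℝ) < r := by exact_mod_cast hrpos
  have hlreal : (z : ℝ) / (4 * L) ≤ l := by
    have h1 : ((pr (z / 2) z).card : ℝ) / r < l + 1 := by
      rw [div_lt_iff₀ hr0]
      have := Nat.lt_div_mul_add (a := (pr (z / 2) z).card) hrpos
      have h2 : (pr (z / 2) z).card < (l + 1) * r := by rw [add_mul, one_mul]; omega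
      exact_mod_cast h2
    have h2 : (z : ℝ) / (2 * L) ≤ ((pr (z / 2) z).card : ℝ) / r := by
      rw [div_le_div_iff₀ (by positivity) hr0]
      have h3 : (z : ℝ) * r ≤ (1 / 4 * (z / Real.log z)) * (2 * L) := by
        have : (1 / 4 * ((z : ℝ) / Real.log z)) * (2 * L) = z * (L / (2 * Real.log z)) := by
          field_simp; ring
        rw [this]
        apply mul_le_mul_of_nonneg_left _ hz0.le
        rw [le_div_iff₀ (by positivity)]
        linarith
      refine h3.trans ?_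
      exact mul_le_mul_of_nonneg_right hcard (by linarith)
    have h3 : (1 : ℝ) ≤ z / (4 * L) := by
      rw [le_div_iff₀ (by linarith)]
      linarith
    have h4 : (z : ℝ) / (2 * L) = 2 * (z / (4 * L)) := by field_simp; ring
    linarith
  have hl3 : 3 * L ≤ l := by
    refine le_trans ?_ hlreal
    rw [le_div_iff₀ (by linarith)]
    have h1 : L * L ≤ L ^ 4 := by
      have : L ^ 2 ≤ L ^ 4 := pow_le_pow_right₀ hL1 (by norm_num)
      nlinarith
    nlinarith
  have hlsq : (z : ℝ) ≤ (l : ℝ) ^ 2 := by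
    have h1 : ((z : ℝ) / (4 * L)) ^ 2 ≤ (l : ℝ) ^ 2 := pow_le_pow_left₀ (by positivity) hlreal 2
    refine le_trans ?_ h1
    rw [div_pow, le_div_iff₀ (by positivity)]
    have h2 : (4 * L) ^ 2 ≤ z := by
      have : L ^ 2 ≤ L ^ 4 := pow_le_pow_right₀ hL1 (by norm_num)
      nlinarith
    nlinarith
  have hpow : (G : ℝ) ^ 190 ≤ (l : ℝ) ^ r := by
    have h1 : ((G : ℝ) ^ 190) ^ 2 ≤ ((l : ℝ) ^ r) ^ 2 := by
      calc ((G : ℝ) ^ 190) ^ 2 = (G : ℝ) ^ 380 := by rw [← pow_mul]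
        _ ≤ (z : ℝ) ^ r := by exact_mod_cast hzr2
        _ ≤ ((l : ℝ) ^ 2) ^ r := pow_le_pow_left₀ hz0.le hlsq r
        _ = ((l : ℝ) ^ r) ^ 2 := by rw [← pow_mul, ← pow_mul, mul_comm]
    exact le_of_sq_le_sq h1 (by positivity)
  have hmain := bad_mid_count N H z r l hN1 hH hHz (by rw [pow_mul]; exact hr1) hrl hl3
  refine le_trans ?_ hmain
  exact mul_le_mul_of_nonneg_left hpow (Nat.cast_nonneg _)

theorem mid_block (s : ℕ) (hs : 400 ≤ s) : ∃ G₀ : ℕ, 2 ≤ G₀ ∧ ∀ G : ℕ, G₀ ≤ G → ∀ N : ℕ,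
    G ^ (2 * s) ≤ N → ∀ m w x y z c h n' : ℕ,
    Rep m w x y z → m ≤ N → N ≤ 4 * G * (c + 1) → m - w ≤ 1 → 1 ≤ h → x - y ≤ 4 * h → h ≤ G ^ 11 →
    (Real.log N) ^ 4 ≤ ((x - y : ℕ) : ℝ) → z ≤ 40 * (x - y) → Ioc c (c + h) ⊆ Ioc y x →
    (∀ n ∈ Ioc c (c + h), n ≤ n' + 2 * G ^ 10 ∧ n' ≤ n + 2 * G ^ 10) →
    ¬ BadSq G n' → False := by
  obtain ⟨C, hC, hpi⟩ := pi_le
  obtain ⟨G₁, hG₁⟩ := ev_log (max (max (16 * C) (Real.exp (16 * C))) 4)
  refine ⟨max 2 G₁, le_max_left _ _, fun G hG N hN m w x y z c h n' R hmN hNc hH1 hh1 hxh hhG hL4 hz40 hsub hclose hsq => ?_⟩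
  have hG2 : 2 ≤ G := (le_max_left _ _).trans hG
  have hlG := hG₁ G ((le_max_right _ _).trans hG)
  have hlG1 : (4 : ℝ) ≤ Real.log G := (le_max_right _ _).trans hlG
  have hlGC : 16 * C ≤ Real.log G := (le_max_left _ _).trans ((le_max_left _ _).trans hlG)
  have hlGE : Real.exp (16 * C) ≤ Real.log G := (le_max_right _ _).trans ((le_max_left _ _).trans hlG)
  have hG0 : (0 : ℝ) < G := by positivity
  have hG1' : (1 : ℝ) ≤ G := by exact_mod_cast (by omega : 1 ≤ G)
  have hL := reg_low (by omega : 1 ≤ G) hN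
  have hs' : (400 : ℝ) ≤ s := by exact_mod_cast hs
  set L := Real.log N with hLdef
  have hL0 : 800 * Real.log G ≤ L := by nlinarith
  have hL1 : 3200 ≤ L := by linarith
  have hN1 : 1 ≤ N := le_trans (Nat.one_le_pow _ _ (by omega)) hN
  have hh0 : (1 : ℝ) ≤ h := by exact_mod_cast hh1
  have hLh : L ≤ h := by
    have h1 : L * 4 ≤ L ^ 4 := by
      have h2 : L ^ 2 ≤ L ^ 4 := pow_le_pow_right₀ (by linarith) (by norm_num)
      nlinarith
    have h2 : ((x - y : ℕ) : ℝ) ≤ 4 * h := by exact_mod_cast hxh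
    linarith
  have hbm := block_mass R (c := c) (h := h) (M := 40 * (x - y)) (N := N) (Bb := G ^ 20) hh1 hsub
    (by omega) hz40 hmN (Nat.one_le_pow _ _ (by omega)) (by
      intro n hn b hb
      by_contra hc
      push Not at hc
      obtain ⟨h1, h2⟩ := hclose n hn
      rw [Finset.mem_Ioc] at hn
      exact hsq ⟨n, b, by omega, h1, h2, hc, hb⟩)
  have hlow : (h : ℝ) * (L - Real.log 4 - Real.log G) ≤ ∑ n ∈ Ioc c (c + h), Real.log n := by
    have h1 : ∀ n ∈ Ioc c (c + h), L - Real.log 4 - Real.log G ≤ Real.log n := by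
      intro n hn
      rw [Finset.mem_Ioc] at hn
      have h2 : N ≤ 4 * G * n := hNc.trans (Nat.mul_le_mul_left _ (by omega))
      have h3 : (N : ℝ) ≤ 4 * G * n := by exact_mod_cast h2
      have hn0 : (0 : ℝ) < n := by exact_mod_cast (by omega : 0 < n)
      have h4 := Real.log_le_log (by exact_mod_cast hN1) h3
      rw [Real.log_mul (by positivity) (by positivity), Real.log_mul (by positivity) (by positivity)] at h4
      linarith
    have := Finset.sum_le_sum h1
    rw [Finset.sum_const, Nat.card_Ioc, nsmul_eq_mul, Nat.add_sub_cancel_left] at this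
    exact this
  have hlh : 16 * C ≤ Real.log h := by
    rw [Real.le_log_iff_exp_le (by linarith)]
    linarith
  have hlh0 : 0 < Real.log h := lt_of_lt_of_le (by positivity) hlh
  have t1 : (h : ℝ) * Real.log h ≤ h * (11 * Real.log G) := by
    apply mul_le_mul_of_nonneg_left _ (by linarith)
    have h1 : (h : ℝ) ≤ (G : ℝ) ^ 11 := by exact_mod_cast hhG
    have h2 := Real.log_le_log (by linarith) h1
    rw [Real.log_pow] at h2
    exact_mod_cast h2
  have hh2 : 2 ≤ h := by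
    have : (2 : ℝ) ≤ h := by linarith
    exact_mod_cast this
  have t2 : ((pr 0 h).card : ℝ) * L ≤ h * (L / 16) := by
    have h2 := hpi h hh2
    have h3 : C * ((h : ℝ) / Real.log h) ≤ h / 16 := by
      rw [← mul_div_assoc, div_le_div_iff₀ hlh0 (by norm_num)]
      nlinarith
    have h4 : ((pr 0 h).card : ℝ) ≤ h / 16 := h2.trans h3
    nlinarith
  have t3 : 2 * (h : ℝ) * Real.log ((G ^ 20 : ℕ) : ℝ) = h * (40 * Real.log G) := by
    push_cast; rw [Real.log_pow]; push_cast; ring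
  have t4 : ∑ p ∈ pr 0 (40 * (x - y)), Real.log p ≤ h * 320 := by
    have h1 := theta_le (40 * (x - y))
    have hl4 : Real.log 4 ≤ 2 := by
      have : Real.log 4 = 2 * Real.log 2 := by
        rw [show (4 : ℝ) = 2 ^ 2 by norm_num, Real.log_pow]; norm_num
      rw [this]; have := Real.log_two_lt_d9; linarith
    have h2 : ((x - y : ℕ) : ℝ) ≤ 4 * h := by exact_mod_cast hxh
    push_cast at h1
    have h3 : (0 : ℝ) ≤ ((x - y : ℕ) : ℝ) := Nat.cast_nonneg _
    nlinarith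
  have t4' : ∀ S : Finset ℕ, S ⊆ pr 0 (40 * (x - y)) → ∑ p ∈ S, Real.log p ≤ h * 320 := by
    intro S hS
    exact (Finset.sum_le_sum_of_subset_of_nonneg hS (fun p _ _ => Real.log_natCast_nonneg p)).trans t4
  have t5 : ((m : ℝ) - w) * L ≤ h := by
    have h1 : (m : ℝ) - w ≤ 1 := by
      rw [← Nat.cast_sub R.hwm.le]; exact_mod_cast hH1
    nlinarith
  have t6 := t4' ((pr h (40 * (x - y))).filter (fun p => ∃ n ∈ Ioc c (c + h), p ∣ n)) (by
    intro p hp
    have := mem_pr.mp (Finset.mem_filter.mp hp).1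
    rw [mem_pr]; exact ⟨⟨by omega, this.1.2⟩, this.2⟩)
  rw [t3] at hbm
  have hfin : (h : ℝ) * (L - Real.log 4 - Real.log G) ≤
      h * (11 * Real.log G + L / 16 + 40 * Real.log G + 320 + 1) := by
    have : (h : ℝ) * (11 * Real.log G + L / 16 + 40 * Real.log G + 320 + 1) =
        h * (11 * Real.log G) + h * (L / 16) + h * (40 * Real.log G) + h * 320 + h := by ring
    rw [this]
    linarith
  have hfin' := le_of_mul_le_mul_left hfin (by linarith)
  have hl4 : Real.log 4 ≤ 2 := by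
    have : Real.log 4 = 2 * Real.log 2 := by
      rw [show (4 : ℝ) = 2 ^ 2 by norm_num, Real.log_pow]; norm_num
    rw [this]; have := Real.log_two_lt_d9; linarith
  linarith

end Pool.Agent.Helper27.D6
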