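import Pool.Agent.Helper27.D6Count

set_option autoImplicit false

namespace Pool.Agent.Helper27.D6

open Finset

theorem bt_k : ∃ C : ℝ, 0 < C ∧ ∀ a b k : ℕ, a ≤ b → 1 ≤ k → ∀ Λ : ℝ, 0 < Λ →
    Real.exp Λ ≤ ((b : ℝ) - a) / k → ((pr (a / k) (b / k)).card : ℝ) ≤ C * (((b : ℝ) - a) / k / Λ) := by
  obtain ⟨C, hC, h⟩ := brun_titchmarsh
  refine ⟨2 * C, by positivity, fun a b k hab hk Λ hΛ hexp => ?_⟩
  have hk0 : (0 : ℝ) < k := by exact_mod_cast hk
  have hX1 : 1 < ((b : ℝ) - a) / k := lt_of_lt_of_le (Real.one_lt_exp_iff.mpr hΛ) hexp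
  set X := ((b : ℝ) - a) / k with hX
  set t := (b - a) / k with ht
  have ht1 : 1 ≤ t := by
    rw [ht, Nat.one_le_div_iff (by omega)]
    have h1 : (k : ℝ) < (b : ℝ) - a := by
      rw [hX, lt_div_iff₀ hk0] at hX1; linarith only [hX1]
    rw [← Nat.cast_sub hab] at h1
    exact_mod_cast h1.le
  have htX : (t : ℝ) ≤ X := by
    rw [ht, hX, ← Nat.cast_sub hab]; exact Nat.cast_div_le
  have hXt : X ≤ ((t + 1 : ℕ) : ℝ) := by
    rw [hX, div_le_iff₀ hk0, ← Nat.cast_sub hab]
    have := Nat.lt_div_mul_add (a := b - a) (b := k) (by omega)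
    rw [← ht] at this
    have h2 : b - a ≤ (t + 1) * k := by rw [add_mul, one_mul]; omega
    exact_mod_cast h2
  have hsub : pr (a / k) (b / k) ⊆ (Ioc (a / k) (a / k + (t + 1))).filter Nat.Prime := by
    intro p hp
    rw [mem_pr] at hp
    rw [Finset.mem_filter, Finset.mem_Ioc]
    refine ⟨⟨hp.1.1, hp.1.2.trans ?_⟩, hp.2⟩
    have h1 : b / k < a / k + (t + 1) + 1 := by
      rw [Nat.div_lt_iff_lt_mul (by omega)]
      have e1 := Nat.lt_div_mul_add (a := a) (b := k) (by omega)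
      have e2 := Nat.lt_div_mul_add (a := b - a) (b := k) (by omega)
      rw [← ht] at e2
      have e3 : (a / k + (t + 1) + 1) * k = a / k * k + k + (t * k + k) := by ring
      rw [e3]
      omega
    omega
  have h1 := h (a / k) (t + 1) (by omega)
  have h2 : ((pr (a / k) (b / k)).card : ℝ) ≤ C * (((t + 1 : ℕ) : ℝ) / Real.log ((t + 1 : ℕ) : ℝ)) :=
    le_trans (by exact_mod_cast Finset.card_le_card hsub) h1
  refine h2.trans ?_
  have hlog : Λ ≤ Real.log ((t + 1 : ℕ) : ℝ) := by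
    rw [Real.le_log_iff_exp_le (by positivity)]
    exact hexp.trans hXt
  have h3 : ((t + 1 : ℕ) : ℝ) ≤ 2 * X := by push_cast; linarith only [hX1, htX]
  have h4 : ((t + 1 : ℕ) : ℝ) / Real.log ((t + 1 : ℕ) : ℝ) ≤ 2 * X / Λ := by
    apply div_le_div₀ (by linarith) h3 hΛ hlog
  calc C * (((t + 1 : ℕ) : ℝ) / Real.log ((t + 1 : ℕ) : ℝ)) ≤ C * (2 * X / Λ) :=
        mul_le_mul_of_nonneg_left h4 hC.le
    _ = 2 * C * (X / Λ) := by ring

theorem bt_4 : ∃ C : ℝ, 0 < C ∧ ∀ a b q : ℕ, 1 ≤ q → q ≤ a → a ≤ b → b ≤ 2 * a → ∀ Λ : ℝ, 0 < Λ →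
    Real.exp Λ ≤ ((b : ℝ) - a) * q / (4 * a) →
    (((pr (q / 2) q).filter (fun p => ∃ n ∈ Ioc a b, p ∣ n)).card : ℝ) ≤ C * (((b : ℝ) - a) / Λ) := by
  classical
  obtain ⟨C, hC, h⟩ := bt_k
  refine ⟨4 * C, by positivity, fun a b q hq hqa hab hb Λ hΛ hexp => ?_⟩
  have hq0 : (0 : ℝ) < q := by exact_mod_cast hq
  have ha0 : (0 : ℝ) < a := by exact_mod_cast (by omega : 0 < a)
  have hba : (0 : ℝ) ≤ (b : ℝ) - a := by rw [← Nat.cast_sub hab]; exact Nat.cast_nonneg _
  set K := (Icc 1 (4 * a / q)).filter (fun k => a < q * k ∧ q * k < 4 * a) with hK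
  have hsub : (pr (q / 2) q).filter (fun p => ∃ n ∈ Ioc a b, p ∣ n) ⊆
      K.biUnion (fun k => pr (a / k) (b / k)) := by
    intro p hp
    rw [Finset.mem_filter, mem_pr] at hp
    obtain ⟨⟨⟨h1, h2⟩, hpp⟩, n, hn, k, rfl⟩ := hp
    rw [Finset.mem_Ioc] at hn
    have hk1 : 0 < k := by
      rcases Nat.eq_zero_or_pos k with hk | hk
      · rw [hk] at hn; omega
      · exact hk
    have h3 : a < q * k := lt_of_lt_of_le hn.1 (Nat.mul_le_mul_right _ h2)
    have h4 : q * k < 4 * a := by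
      have : q < 2 * p := by omega
      calc q * k < 2 * p * k := Nat.mul_lt_mul_of_pos_right this hk1
        _ = 2 * (p * k) := by ring
        _ ≤ 4 * a := by omega
    rw [Finset.mem_biUnion]
    refine ⟨k, ?_, ?_⟩
    · rw [hK, Finset.mem_filter, Finset.mem_Icc]
      refine ⟨⟨hk1, ?_⟩, h3, h4⟩
      rw [Nat.le_div_iff_mul_le (by omega)]
      rw [mul_comm]; omega
    · rw [mem_pr]
      refine ⟨⟨?_, ?_⟩, hpp⟩
      · rw [Nat.div_lt_iff_lt_mul hk1]; exact hn.1
      · rw [Nat.le_div_iff_mul_le hk1]; exact hn.2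
  have h1 : (((pr (q / 2) q).filter (fun p => ∃ n ∈ Ioc a b, p ∣ n)).card : ℝ) ≤
      ∑ k ∈ K, ((pr (a / k) (b / k)).card : ℝ) := by
    exact_mod_cast (Finset.card_le_card hsub).trans Finset.card_biUnion_le
  refine h1.trans ?_
  have h2 : ∀ k ∈ K, ((pr (a / k) (b / k)).card : ℝ) ≤ C * (((b : ℝ) - a) * (q / a) / Λ) := by
    intro k hk
    rw [hK, Finset.mem_filter, Finset.mem_Icc] at hk
    obtain ⟨⟨hk1, _⟩, h3, h4⟩ := hk
    have hk0 : (0 : ℝ) < k := by exact_mod_cast hk1
    have h3' : (a : ℝ) < q * k := by exact_mod_cast h3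
    have h4' : (q : ℝ) * k < 4 * a := by exact_mod_cast h4
    have h5 : Real.exp Λ ≤ ((b : ℝ) - a) / k := by
      refine hexp.trans ?_
      rw [div_le_div_iff₀ (by positivity) hk0]
      nlinarith only [hba, h4']
    refine (h a b k hab hk1 Λ hΛ h5).trans ?_
    apply mul_le_mul_of_nonneg_left _ hC.le
    apply div_le_div_of_nonneg_right _ hΛ.le
    rw [div_eq_mul_one_div]
    apply mul_le_mul_of_nonneg_left _ hba
    rw [div_le_div_iff₀ hk0 ha0]
    linarith
  refine (Finset.sum_le_sum h2).trans ?_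
  rw [Finset.sum_const, nsmul_eq_mul]
  have h3 : (K.card : ℝ) ≤ 4 * a / q := by
    have : K.card ≤ 4 * a / q := by
      refine (Finset.card_filter_le _ _).trans ?_
      rw [Nat.card_Icc, Nat.add_sub_cancel]
    have h' : (K.card : ℝ) ≤ ((4 * a / q : ℕ) : ℝ) := by exact_mod_cast this
    refine h'.trans ?_
    have := Nat.cast_div_le (α := ℝ) (m := 4 * a) (n := q)
    push_cast at this
    exact this
  calc (K.card : ℝ) * (C * (((b : ℝ) - a) * (q / a) / Λ))
      ≤ (4 * a / q) * (C * (((b : ℝ) - a) * (q / a) / Λ)) := by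
        apply mul_le_mul_of_nonneg_right h3
        positivity
    _ = 4 * C * (((b : ℝ) - a) / Λ) := by field_simp

theorem ev_two (s : ℕ) : ∃ G₀ : ℕ, 2 ≤ G₀ ∧ ∀ G : ℕ, G₀ ≤ G → (G + 1) ^ (2 * s) ≤ 2 * G ^ (2 * s) := by
  refine ⟨4 * s + 2, by omega, fun G hG => ?_⟩
  have hG0 : (0 : ℝ) < G := by exact_mod_cast (by omega : 0 < G)
  have h1 : ((G : ℝ) + 1) ^ (2 * s) ≤ 2 * (G : ℝ) ^ (2 * s) := by
    have h2 : ((G : ℝ) + 1) ^ (2 * s) = (G : ℝ) ^ (2 * s) * (1 + 1 / G) ^ (2 * s) := by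
      rw [← mul_pow]; congr 1; field_simp
    rw [h2, mul_comm]
    apply mul_le_mul_of_nonneg_right _ (by positivity)
    have h3 : 1 + 1 / (G : ℝ) ≤ Real.exp (1 / G) := by
      have := Real.add_one_le_exp (1 / (G : ℝ)); linarith only [this]
    calc (1 + 1 / (G : ℝ)) ^ (2 * s) ≤ (Real.exp (1 / G)) ^ (2 * s) :=
          pow_le_pow_left₀ (by positivity) h3 _
      _ = Real.exp ((2 * s : ℕ) * (1 / G)) := by rw [← Real.exp_nat_mul]
      _ ≤ Real.exp (Real.log 2) := by
          apply Real.exp_le_exp.mpr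
          have hl2 := Real.log_two_gt_d9
          have h4 : ((2 * s : ℕ) : ℝ) * (1 / G) ≤ 1 / 2 := by
            rw [mul_one_div, div_le_div_iff₀ hG0 (by norm_num)]
            have : 2 * s * 2 ≤ 1 * G := by omega
            exact_mod_cast this
          linarith only [hl2, h4]
      _ = 2 := Real.exp_log (by norm_num)
  exact_mod_cast h1

theorem step6' (s : ℕ) (hs : 400 ≤ s) (B : ℕ) : ∃ G₀ : ℕ, 2 ≤ G₀ ∧ ∀ G : ℕ, G₀ ≤ G → ∀ N : ℕ,
    G ^ (2 * s) ≤ N → N < (G + 1) ^ (2 * s) → ∀ m w x y z : ℕ, Rep m w x y z → m ≤ N →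
    m - w ≤ B → G ^ (s + 2) ≤ x - y → False := by
  classical
  obtain ⟨C₁, hC₁, hbt⟩ := bt_4
  obtain ⟨Cπ, hCπ, hpi⟩ := pi_le
  obtain ⟨x₀, hx₀2, hx₀⟩ := primes_half
  set C3 : ℕ := ⌈1 + 16 * s * C₁⌉₊ with hC3
  set K : ℝ := 2 * Cπ * C3 + 2 with hK
  have hK2 : 2 ≤ K := by rw [hK]; have : 0 ≤ 2 * Cπ * (C3 : ℝ) := by positivity
                         linarith
  set c : ℝ := Real.exp (-K) with hc
  have hc0 : 0 < c := Real.exp_pos _
  have hc12 : c < 1 / 2 := by
    have h1 : c ≤ Real.exp (-1) := Real.exp_le_exp.mpr (by linarith)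
    have h2 : Real.exp (-1) < 1 / 2 := by
      rw [Real.exp_neg, inv_lt_comm₀ (Real.exp_pos _) (by norm_num)]
      have := Real.exp_one_gt_d9
      norm_num; linarith only [this]
    linarith
  obtain ⟨x₁, hx₁2, hx₁⟩ := primes_short c hc0 (by linarith)
  obtain ⟨G₁, hG₁2, hG₁⟩ := ev_pow (16 * B + 16 * B / c) s 1
  obtain ⟨G₂, hG₂2, hG₂⟩ := ev_two s
  obtain ⟨G₃, hG₃⟩ := ev_log 2
  refine ⟨max (max G₁ G₂) (max G₃ (max x₀ x₁)), hG₁2.trans ((le_max_left _ _).trans (le_max_left _ _)),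
    fun G hG N hN hN' m w x y z R hmN hB hJ => ?_⟩
  have hGa : max G₁ G₂ ≤ G := (le_max_left _ _).trans hG
  have hGb : max G₃ (max x₀ x₁) ≤ G := (le_max_right _ _).trans hG
  have hG2 : 2 ≤ G := hG₁2.trans ((le_max_left _ _).trans hGa)
  have hN1 : 1 ≤ N := le_trans (Nat.one_le_pow _ _ (by omega)) hN
  have hev := hG₁ G ((le_max_left _ _).trans hGa) N hN1 hN'
  have htwo := hG₂ G ((le_max_right _ _).trans hGa)
  have hlG := hG₃ G ((le_max_left _ _).trans hGb)
  have hGx₀ : x₀ ≤ G := (le_max_left _ _).trans ((le_max_right _ _).trans hGb)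
  have hGx₁ : x₁ ≤ G := (le_max_right _ _).trans ((le_max_right _ _).trans hGb)
  have hG0 : (0 : ℝ) < G := by positivity
  have hG1' : (2 : ℝ) ≤ G := by exact_mod_cast hG2
  have hL := reg_low (by omega : 1 ≤ G) hN
  have hLup := reg_high hG2 hN1 hN'
  have hs' : (400 : ℝ) ≤ s := by exact_mod_cast hs
  have hwm := R.hwm
  have hxw := R.hxw
  have hyx := R.hyx
  have hzy := R.hzy
  set L := Real.log N with hLdef
  have hL0 : 800 * Real.log G ≤ L := by nlinarith only [hs', hL, hlG]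
  have hL1 : 1600 ≤ L := by linarith
  rw [pow_one] at hev
  -- sizes
  set H : ℝ := (x : ℝ) - y with hH
  have hHnat : ((x - y : ℕ) : ℝ) = H := by rw [Nat.cast_sub hyx]
  have hGH : G ≤ G ^ (s + 2) := Nat.le_self_pow (by omega) G
  have hHG : (G : ℝ) ^ (s + 2) ≤ H := by rw [← hHnat]; exact_mod_cast hJ
  have hHG1 : (G : ℝ) ≤ H := le_trans (by exact_mod_cast hGH) hHG
  have hH0 : 0 < H := by linarith
  have hmw : (m : ℝ) - w ≤ B := by rw [← Nat.cast_sub hwm.le]; exact_mod_cast hB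
  have hmw0 : (0 : ℝ) ≤ (m : ℝ) - w := by rw [← Nat.cast_sub hwm.le]; exact Nat.cast_nonneg _
  have hB0 : (0 : ℝ) ≤ B := Nat.cast_nonneg _
  have hBL : 16 * (B : ℝ) * L ≤ G := by
    have h1 : (16 * (B : ℝ) + 16 * B / c) * (1 + L) ≤ G := hev
    have h2 : 0 ≤ 16 * (B : ℝ) / c := by positivity
    nlinarith only [hev, h2, hc0, hc12, hL, hLup]
  have hBL2 : 16 * (B : ℝ) / c * L ≤ G := by
    have h1 : (16 * (B : ℝ) + 16 * B / c) * (1 + L) ≤ G := hev
    have h2 : 0 ≤ 16 * (B : ℝ) / c := by positivity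
    nlinarith only [hev, h2, hL, hLup]
  -- log of half of large numbers
  have hhalf : ∀ q : ℕ, G ^ (s + 2) ≤ q → L / 4 ≤ Real.log ((q : ℝ) / 2) ∧ (1 : ℝ) < (q : ℝ) / 2 := by
    intro q hq
    have h1 : (G : ℝ) ^ (s + 1) ≤ (q : ℝ) / 2 := by
      have h2 : (G : ℝ) ^ (s + 2) ≤ q := by exact_mod_cast hq
      have h3 : (G : ℝ) ^ (s + 2) = (G : ℝ) ^ (s + 1) * G := by ring
      have h4 : 0 < (G : ℝ) ^ (s + 1) := by positivity
      nlinarith only [h2, h3, hG1', hG0]
    have h5 := Real.log_le_log (by positivity) h1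
    rw [Real.log_pow] at h5
    push_cast at h5
    refine ⟨?_, ?_⟩
    · have : L ≤ 4 * s * Real.log G := hLup
      nlinarith only [hc0, hc12, hlG, hLup, h5]
    · refine lt_of_lt_of_le ?_ h1
      exact one_lt_pow₀ (by linarith only [hc0, hc12, hG1']) (by omega)
  -- number of primes > q / 2 dividing the product of I
  have hI : ∀ q : ℕ, G ^ (s + 2) ≤ q → ∀ S : Finset ℕ, (∀ p ∈ S, p.Prime ∧ (q : ℝ) / 2 ≤ p) →
      ((S.filter (fun p => ∃ n ∈ Ioc w m, p ∣ n)).card : ℝ) ≤ 4 * B := by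
    intro q hq S hS
    obtain ⟨h1, h2⟩ := hhalf q hq
    have h3 := card_dvd_interval S ((q : ℝ) / 2) h2 hS w m N hwm.le hmN
    refine h3.trans ?_
    have h4 : L / Real.log ((q : ℝ) / 2) ≤ 4 := by
      rw [div_le_iff₀ (by linarith only [hc0, hc12, hlG, hL0, h1])]; linarith only [h1]
    have h5 : 0 ≤ L / Real.log ((q : ℝ) / 2) := by
      apply div_nonneg <;> linarith only [hc0, hc12, hlG, hL0, h1]
    nlinarith only [h4, hc0, hc12, hmw, h5]
  have hNH : (N : ℝ) ≤ 2 * (G : ℝ) ^ (2 * s) := by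
    have : N ≤ 2 * G ^ (2 * s) := by omega
    exact_mod_cast this
  -- step a
  have hza : (z : ℝ) ≤ C3 * H := by
    by_contra hcon
    push Not at hcon
    have hC31 : (1 : ℝ) ≤ C3 := by
      have h1 := Nat.le_ceil (1 + 16 * (s : ℝ) * C₁)
      have h2 : 0 ≤ 16 * (s : ℝ) * C₁ := by positivity
      rw [hC3]; linarith only [h1, h2]
    have hzH : H ≤ z := by nlinarith only [hHnat, hcon, hC31]
    have hzHn : x - y ≤ z := by
      have : ((x - y : ℕ) : ℝ) ≤ z := by rw [hHnat]; exact hzH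
      exact_mod_cast this
    have hGz : G ^ (s + 2) ≤ z := hJ.trans hzHn
    have hx2y : x ≤ 2 * y := by omega
    have hz1 : 1 ≤ z := le_trans (Nat.one_le_pow _ _ (by omega)) hGz
    have hy0 : (0 : ℝ) < y := by exact_mod_cast (by omega : 0 < y)
    have hz0 : (0 : ℝ) < z := by exact_mod_cast hz1
    have hyN : (y : ℝ) ≤ N := by exact_mod_cast (by omega : y ≤ N)
    have hexp : Real.exp (Real.log G) ≤ ((x : ℝ) - y) * z / (4 * y) := by
      rw [Real.exp_log hG0, le_div_iff₀ (by positivity)]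
      have h1 : (G : ℝ) ^ (s + 2) * (G : ℝ) ^ (s + 2) ≤ H * z := by
        apply mul_le_mul hHG (by exact_mod_cast hGz) (by positivity) hH0.le
      have h2 : (G : ℝ) ^ (s + 2) * (G : ℝ) ^ (s + 2) = (G : ℝ) ^ (2 * s) * (G ^ 3 * G) := by ring
      have h3 : (8 : ℝ) ≤ (G : ℝ) ^ 3 := by
        calc (8 : ℝ) = 2 ^ 3 := by norm_num
          _ ≤ (G : ℝ) ^ 3 := pow_le_pow_left₀ (by norm_num) hG1' 3
      calc (G : ℝ) * (4 * y) ≤ G * (4 * (2 * (G : ℝ) ^ (2 * s))) := by
            apply mul_le_mul_of_nonneg_left _ hG0.le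
            linarith only [hNH, hyN]
        _ = (G : ℝ) ^ (2 * s) * (8 * G) := by ring
        _ ≤ (G : ℝ) ^ (2 * s) * (G ^ 3 * G) := by
            apply mul_le_mul_of_nonneg_left _ (by positivity)
            exact mul_le_mul_of_nonneg_right h3 hG0.le
        _ ≤ H * z := by rw [← h2]; exact h1
    have hJc := hbt y x z hz1 hzy hyx hx2y (Real.log G) (by linarith only [hc0, hc12, hlG]) hexp
    have hcard := hx₀ z (hGx₀.trans (hGH.trans hGz))
    have hIc := hI z hGz (pr (z / 2) z) (by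
      intro p hp
      rw [mem_pr] at hp
      refine ⟨hp.2, ?_⟩
      have : z ≤ 2 * p := by omega
      have : (z : ℝ) ≤ 2 * p := by exact_mod_cast this
      linarith only [this])
    have hsub : pr (z / 2) z ⊆ (pr (z / 2) z).filter (fun p => ∃ n ∈ Ioc w m, p ∣ n) ∪
        (pr (z / 2) z).filter (fun p => ∃ n ∈ Ioc y x, p ∣ n) := by
      intro p hp
      rw [Finset.mem_union, Finset.mem_filter, Finset.mem_filter]
      rcases half_dvd R hp with h2 | h2
      · exact Or.inl ⟨hp, h2⟩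
      · exact Or.inr ⟨hp, h2⟩
    have c3 : ((pr (z / 2) z).card : ℝ) ≤ 4 * B + C₁ * (H / Real.log G) := by
      have := (Finset.card_le_card hsub).trans (Finset.card_union_le _ _)
      have h' : ((pr (z / 2) z).card : ℝ) ≤
        (((pr (z / 2) z).filter (fun p => ∃ n ∈ Ioc w m, p ∣ n)).card : ℝ) +
        (((pr (z / 2) z).filter (fun p => ∃ n ∈ Ioc y x, p ∣ n)).card : ℝ) := by exact_mod_cast this
      linarith only [hJc, hIc, h']
    have hlz : Real.log z ≤ L := Real.log_le_log hz0 (by exact_mod_cast (by omega : z ≤ N))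
    have hlz0 : 0 < Real.log z := by
      have := (hhalf z hGz).1
      have h2 : Real.log ((z : ℝ) / 2) ≤ Real.log z := Real.log_le_log (by positivity) (by linarith only [hc0, hc12, hG1', hHG1, hzH])
      linarith only [hc0, hc12, hlG, hL0, this, h2]
    have h1 : (z : ℝ) / (4 * L) ≤ 4 * B + C₁ * (H / Real.log G) := by
      refine le_trans ?_ (hcard.trans c3)
      rw [show (1 / 4 : ℝ) * ((z : ℝ) / Real.log z) = z / (4 * Real.log z) by ring]
      apply div_le_div_of_nonneg_left hz0.le (by positivity)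
      linarith only [hlz]
    rw [div_le_iff₀ (by linarith only [hc0, hc12, hlG, hL0])] at h1
    have h2 : C₁ * (H / Real.log G) * (4 * L) ≤ 16 * s * C₁ * H := by
      have h3 : L / Real.log G ≤ 4 * s := by rw [div_le_iff₀ (by linarith only [hc0, hc12, hlG])]; exact hLup
      have : C₁ * (H / Real.log G) * (4 * L) = 4 * C₁ * H * (L / Real.log G) := by ring
      rw [this]
      calc 4 * C₁ * H * (L / Real.log G) ≤ 4 * C₁ * H * (4 * s) :=
            mul_le_mul_of_nonneg_left h3 (by positivity)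
        _ = _ := by ring
    have h3 : (z : ℝ) ≤ (1 + 16 * s * C₁) * H := by
      have : (4 * (B : ℝ) + C₁ * (H / Real.log G)) * (4 * L) =
        16 * B * L + C₁ * (H / Real.log G) * (4 * L) := by ring
      rw [this] at h1
      linarith only [hHG1, hBL, h1, h2]
    have h4 : (1 + 16 * (s : ℝ) * C₁) * H ≤ C3 * H :=
      mul_le_mul_of_nonneg_right (Nat.le_ceil _) hH0.le
    linarith only [hHG1, hBL, hcon, h1, h2, h4]
  -- step b
  set P0 : ℕ := C3 * (x - y) with hP0
  have hC31 : 1 ≤ C3 := by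
    have h1 := Nat.le_ceil (1 + 16 * (s : ℝ) * C₁)
    have h2 : 0 ≤ 16 * (s : ℝ) * C₁ := by positivity
    have : (1 : ℝ) ≤ C3 := by rw [hC3]; linarith only [h1, h2]
    exact_mod_cast this
  have hP0r : (P0 : ℝ) = C3 * H := by rw [hP0]; push_cast; rw [hHnat]
  have hzP0 : z ≤ P0 := by
    have : (z : ℝ) ≤ P0 := by rw [hP0r]; exact hza
    exact_mod_cast this
  have hHP0 : x - y ≤ P0 := Nat.le_mul_of_pos_left _ hC31
  have hP0G : G ^ (s + 2) ≤ P0 := hJ.trans hHP0
  have hP0sq : N < P0 ^ 2 := by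
    have h1 : (G ^ (s + 2)) ^ 2 ≤ P0 ^ 2 := Nat.pow_le_pow_left hP0G 2
    have h2 : (G ^ (s + 2)) ^ 2 = G ^ (2 * s) * G ^ 4 := by ring
    have h3 : 2 < G ^ 4 := by
      have : 2 ^ 4 ≤ G ^ 4 := Nat.pow_le_pow_left hG2 4
      omega
    have h4 : 0 < G ^ (2 * s) := Nat.pos_of_ne_zero (by positivity)
    have h5 : 2 * G ^ (2 * s) < G ^ (2 * s) * G ^ 4 := by nlinarith only [hN', htwo, h3]
    omega
  have hP00 : (1 : ℝ) < P0 := by
    have : (G : ℝ) ≤ P0 := by exact_mod_cast hGH.trans hP0G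
    linarith only [hc0, hc12, hG1', this]
  have hlP0 : L ≤ 2 * Real.log P0 := by
    have h1 : (N : ℝ) ≤ (P0 : ℝ) ^ 2 := by exact_mod_cast hP0sq.le
    have h2 := Real.log_le_log (by exact_mod_cast hN1) h1
    rw [Real.log_pow] at h2
    exact_mod_cast h2
  have hx0 : 0 < x := by omega
  have hxN : x ≤ N := by omega
  have hlx : Real.log x ≤ L := Real.log_le_log (by exact_mod_cast hx0) (by exact_mod_cast hxN)
  have hmass : H * (Real.log x - 1) ≤ H * Real.log H + 2 * Cπ * C3 * H + H := by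
    have e1 := sum_log_ge y x hyx
    have e2 := sum_log_eq y x N hxN
    have e3 : ∑ p ∈ pr 0 N, (V p y x : ℝ) * Real.log p ≤
        ∑ p ∈ pr 0 P0, (V p y x : ℝ) * Real.log p + ∑ p ∈ pr P0 N, (V p y x : ℝ) * Real.log p := by
      have hsub : pr 0 N ⊆ pr 0 P0 ∪ pr P0 N := by
        intro p hp
        rw [mem_pr] at hp
        rw [Finset.mem_union, mem_pr, mem_pr]
        rcases le_or_gt p P0 with h | h
        · exact Or.inl ⟨⟨hp.1.1, h⟩, hp.2⟩
        · exact Or.inr ⟨⟨h, hp.1.2⟩, hp.2⟩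
      have hdis : Disjoint (pr 0 P0) (pr P0 N) := by
        rw [Finset.disjoint_left]
        intro p h1 h2
        rw [mem_pr] at h1 h2
        omega
      rw [← Finset.sum_union hdis]
      apply Finset.sum_le_sum_of_subset_of_nonneg hsub
      intro p _ _
      have := Real.log_natCast_nonneg p
      positivity
    have e4 := small_mass y x P0 hyx (by omega)
    have e5 : ((pr 0 P0).card : ℝ) * Real.log x ≤ 2 * Cπ * C3 * H := by
      have h1 := hpi P0 (by
        have : (1 : ℝ) < (P0 : ℝ) := hP00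
        exact_mod_cast this)
      have hlP00 : 0 < Real.log P0 := Real.log_pos hP00
      have hlx0 : 0 ≤ Real.log x := Real.log_natCast_nonneg x
      calc ((pr 0 P0).card : ℝ) * Real.log x ≤ (Cπ * (P0 / Real.log P0)) * (2 * Real.log P0) := by
            apply mul_le_mul h1 (by linarith only [hlP0, hlx]) hlx0 (by positivity)
        _ = 2 * Cπ * P0 := by field_simp
        _ = 2 * Cπ * C3 * H := by rw [hP0r]; ring
    have e6 : ∑ p ∈ pr P0 N, (V p y x : ℝ) * Real.log p ≤ H := by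
      have h1 : ∀ p ∈ pr P0 N, (V p y x : ℝ) * Real.log p ≤
          if (∃ n ∈ Ioc w m, p ∣ n) then Real.log p else 0 := by
        intro p hp
        rw [mem_pr] at hp
        have hlp := Real.log_natCast_nonneg p
        by_cases hV : V p y x = 0
        · rw [hV]; push_cast; rw [zero_mul]; split_ifs <;> linarith only [hlp]
        · obtain ⟨n, hn, hd⟩ := exists_of_V_ne hV
          have hnN : n ≤ N := by rw [Finset.mem_Ioc] at hn; omega
          have hn0 : n ≠ 0 := by rw [Finset.mem_Ioc] at hn; omega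
          have hp2 : ¬ p ^ 2 ∣ n := by
            intro h
            have h1 := Nat.le_of_dvd (by omega) h
            have h2 : P0 ^ 2 ≤ p ^ 2 := Nat.pow_le_pow_left (by omega) 2
            omega
          have hV1 : V p y x = 1 := by
            rw [V_single hn (fun n' hn' hd' => mult_unique (by omega) hn hn' hd hd')]
            exact fac_one hp.2 hn0 hd hp2
          rw [hV1, if_pos (match_I R hp.2 hn hd hp2 (by omega) (by omega))]
          push_cast; (clear * -; linarith)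
      refine (Finset.sum_le_sum h1).trans ?_
      rw [← Finset.sum_filter]
      refine (sum_log_ex (pr P0 N) w m).trans ?_
      have h2 : ∀ n ∈ Ioc w m, ∑ p ∈ (pr P0 N).filter (fun p => p ∣ n), Real.log p ≤ L := by
        intro n hn
        rw [Finset.mem_Ioc] at hn
        refine (sum_log_dvd _ (fun p hp => (mem_pr.mp hp).2) n (by omega)).trans ?_
        exact Real.log_le_log (by exact_mod_cast (by omega : 0 < n)) (by exact_mod_cast (by omega : n ≤ N))
      refine (Finset.sum_le_sum h2).trans ?_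
      rw [Finset.sum_const, Nat.card_Ioc, nsmul_eq_mul, Nat.cast_sub hwm.le]
      have h3 : ((m : ℝ) - w) * L ≤ B * L := mul_le_mul_of_nonneg_right hmw (by linarith only [hc0, hc12, hlG, hL0])
      have h4 : 0 ≤ (B : ℝ) * L := by have : 0 ≤ L := by linarith only [hc0, hc12, hlG, hL0]
                                      positivity
      linarith only [hc0, hc12, hG1', hHG1, hBL, h3]
    rw [e2] at e1
    linarith only [e1, e3, e4, e5, e6]
  have hxK : (x : ℝ) ≤ Real.exp K * H := by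
    have h1 : H * (Real.log x - 1) ≤ H * (Real.log H + 2 * Cπ * C3 + 1) := by
      calc H * (Real.log x - 1) ≤ H * Real.log H + 2 * Cπ * C3 * H + H := hmass
        _ = _ := by ring
    have h2 := le_of_mul_le_mul_left h1 hH0
    have h3 : Real.log x ≤ K + Real.log H := by rw [hK]; linarith only [h2]
    have hx0' : (0 : ℝ) < x := by exact_mod_cast hx0
    calc (x : ℝ) = Real.exp (Real.log x) := (Real.exp_log hx0').symm
      _ ≤ Real.exp (K + Real.log H) := Real.exp_le_exp.mpr h3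
      _ = Real.exp K * H := by rw [Real.exp_add, Real.exp_log hH0]
  -- step c
  have hcx : c * x ≤ H := by
    have : c * x ≤ c * (Real.exp K * H) := mul_le_mul_of_nonneg_left hxK hc0.le
    rw [← mul_assoc, hc, ← Real.exp_add] at this
    simpa using this
  have hxG : G ^ (s + 2) ≤ x := by omega
  have hprimes := hx₁ x (hGx₁.trans (hGH.trans hxG))
  have hxr : (0 : ℝ) < x := by exact_mod_cast hx0
  set S := (pr 0 x).filter (fun p : ℕ => (1 - c) * x < p) with hS
  have hSI : S ⊆ S.filter (fun p => ∃ n ∈ Ioc w m, p ∣ n) := by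
    intro p hp
    rw [Finset.mem_filter]
    refine ⟨hp, ?_⟩
    rw [hS, Finset.mem_filter, mem_pr] at hp
    obtain ⟨⟨⟨_, hpx⟩, hpp⟩, hplow⟩ := hp
    have hpy : y < p := by
      have : (y : ℝ) < p := by
        have : (y : ℝ) = x - H := by rw [hH]; ring
        linarith only [hcx, hplow]
      exact_mod_cast this
    have h2p : x < 2 * p := by
      have : (x : ℝ) < 2 * p := by nlinarith only [hplow, hc12]
      exact_mod_cast this
    have hV1 : V p y x = 1 := by
      rw [V_single (n := p) (Finset.mem_Ioc.mpr ⟨hpy, hpx⟩)]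
      · exact hpp.factorization_self
      · intro n hn hd
        rw [Finset.mem_Ioc] at hn
        obtain ⟨q, rfl⟩ := hd
        have hq : q < 2 := by
          by_contra hq
          have : p * 2 ≤ p * q := Nat.mul_le_mul_left _ (by omega)
          omega
        have hq0 : 0 < q := by
          rcases Nat.eq_zero_or_pos q with h | h
          · rw [h] at hn; omega
          · exact h
        have : q = 1 := by omega
        rw [this, mul_one]
    have hpar := R.par p hpp
    rw [hV1, V_low_zero (by omega : z < p), add_zero] at hpar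
    apply exists_of_V_ne
    intro h0
    rw [h0] at hpar
    exact absurd hpar (by decide)
  have hSc := hI x hxG S (by
    intro p hp
    rw [hS, Finset.mem_filter, mem_pr] at hp
    refine ⟨hp.1.2, ?_⟩
    nlinarith only [hp, hc12, hp.2])
  have h1 : (S.card : ℝ) ≤ 4 * B := le_trans (by exact_mod_cast Finset.card_le_card hSI) hSc
  have h2 : c / 2 * x / Real.log x ≤ 4 * B := hprimes.trans h1
  have hlx0 : 0 < Real.log x := by
    have := (hhalf x hxG).1
    have h2 : Real.log ((x : ℝ) / 2) ≤ Real.log x := Real.log_le_log (by positivity) (by linarith only [hc0, hc12, hG1', hHG1])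
    linarith only [hc0, hc12, hlG, hL0, this, h2]
  rw [div_le_iff₀ hlx0] at h2
  have h3 : c / 2 * x ≤ 4 * B * L := h2.trans (mul_le_mul_of_nonneg_left hlx (by positivity))
  have h4 : (x : ℝ) ≤ 8 * B * L / c := by
    rw [le_div_iff₀ hc0]; linarith only [h3]
  have h5 : 16 * (B : ℝ) / c * L = 2 * (8 * B * L / c) := by ring
  have h6 : (G : ℝ) ≤ x := by exact_mod_cast hGH.trans hxG
  rw [h5] at hBL2
  nlinarith

end Pool.Agent.Helper27.D6
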