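import Mathlib
import Pool.Agent.Helper27.D6Large

set_option autoImplicit false

namespace Pool.Agent.Helper27.D6

open Finset

/-- smooth times small times square -/
def Six (K G n : ℕ) : Prop :=
  ∃ a d t : ℕ, n = a * d * t ^ 2 ∧ a ∈ Nat.smoothNumbers K ∧ 1 ≤ d ∧ d < G ∧ 1 ≤ t

theorem prod_pr (n : ℕ) (hn : 0 < n) : ∏ p ∈ pr 0 n, p ^ n.factorization p = n := by
  conv_rhs => rw [← Nat.prod_factorization_pow_eq_self hn.ne']
  rw [Finsupp.prod]
  symm
  apply Finset.prod_subset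
  · intro p hp
    rw [Nat.support_factorization, Nat.mem_primeFactors] at hp
    rw [mem_pr]
    exact ⟨⟨hp.1.pos, Nat.le_of_dvd hn hp.2.1⟩, hp.1⟩
  · intro p _ hp
    rw [Finsupp.mem_support_iff, not_not] at hp
    rw [hp, pow_zero]

theorem six_form {m w x y z : ℕ} (R : Rep m w x y z) {k P k' n K G : ℕ} (hw : w + 1 = m)
    (hm : m = k * P) (hP : P.Prime) (hk : 1 ≤ k) (hkG : k < G) (hn : n ∈ Ioc y x)
    (hnn : n = k' * P + 1 ∨ n + 1 = k' * P) (hK1 : x - y ≤ K) (hK2 : z < K) :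
    Six K G n := by
  classical
  have hn0 : 0 < n := by rw [Finset.mem_Ioc] at hn; omega
  have hPn : ¬ P ∣ n := by
    intro h
    have h2 : P ∣ k' * P := Dvd.intro_left k' rfl
    have h3 : P ∣ 1 := by
      rcases hnn with h4 | h4
      · rw [h4] at h
        exact (Nat.dvd_add_right h2).mp h
      · rw [← h4] at h2
        exact (Nat.dvd_add_right h).mp h2
    exact hP.one_lt.ne' (Nat.dvd_one.mp h3)
  have hev : ∀ p : ℕ, p.Prime → K ≤ p → ¬ p ∣ k → Even (n.factorization p) := by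
    intro p hp hKp hpk
    by_cases hpn : p ∣ n
    · apply even_J R hp hn _ (by omega) (by omega)
      intro n' hn' hd
      have : n' = m := by rw [Finset.mem_Ioc] at hn'; omega
      rw [this, hm] at hd
      rcases (Nat.Prime.dvd_mul hp).mp hd with h | h
      · exact hpk h
      · rw [(Nat.prime_dvd_prime_iff_eq hp hP).mp h] at hpn
        exact hPn hpn
    · rw [Nat.factorization_eq_zero_of_not_dvd hpn]; exact Even.zero
  set A := (pr 0 n).filter (fun p => p < K) with hA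
  set Bs := (pr 0 n).filter (fun p => ¬ p < K) with hBs
  refine ⟨∏ p ∈ A, p ^ n.factorization p, ∏ p ∈ Bs.filter (fun p => p ∣ k ∧ n.factorization p % 2 = 1), p,
    ∏ p ∈ Bs, p ^ (n.factorization p / 2), ?_, ?_, ?_, ?_, ?_⟩
  · have h1 : ∏ p ∈ Bs.filter (fun p => p ∣ k ∧ n.factorization p % 2 = 1), p =
        ∏ p ∈ Bs, p ^ (n.factorization p % 2) := by
      rw [Finset.prod_filter]
      apply Finset.prod_congr rfl
      intro p hp
      rw [hBs, Finset.mem_filter, mem_pr] at hp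
      rcases Nat.mod_two_eq_zero_or_one (n.factorization p) with h | h
      · rw [h, if_neg (by omega), pow_zero]
      · have hpk : p ∣ k := by
          by_contra hpk
          have := hev p hp.1.2 (by omega) hpk
          rw [Nat.even_iff] at this
          omega
        rw [h, if_pos ⟨hpk, rfl⟩, pow_one]
    rw [h1, ← Finset.prod_pow, mul_assoc, ← Finset.prod_mul_distrib]
    have h2 : ∀ p ∈ Bs, p ^ (n.factorization p % 2) * (p ^ (n.factorization p / 2)) ^ 2 = p ^ n.factorization p := by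
      intro p _
      rw [← pow_mul, ← pow_add]
      congr 1
      omega
    rw [Finset.prod_congr rfl h2, hA, hBs, Finset.prod_filter_mul_prod_filter_not, prod_pr n hn0]
  · rw [Nat.mem_smoothNumbers']
    intro q hq hd
    obtain ⟨p, hp, hpd⟩ := (Prime.dvd_finsetProd_iff hq.prime _).mp hd
    rw [hA, Finset.mem_filter, mem_pr] at hp
    have h3 := (Nat.prime_dvd_prime_iff_eq hq hp.1.2).mp (hq.dvd_of_dvd_pow hpd)
    omega
  · refine Nat.succ_le_of_lt (Finset.prod_pos ?_)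
    intro p hp
    rw [Finset.mem_filter, hBs, Finset.mem_filter, mem_pr] at hp
    exact hp.1.1.2.pos
  · refine lt_of_le_of_lt ?_ hkG
    apply Nat.le_of_dvd hk
    apply Finset.prod_primes_dvd
    · intro p hp
      rw [Finset.mem_filter, hBs, Finset.mem_filter, mem_pr] at hp
      exact hp.1.1.2.prime
    · intro p hp
      rw [Finset.mem_filter] at hp
      exact hp.2.1
  · refine Nat.succ_le_of_lt (Finset.prod_pos ?_)
    intro p hp
    rw [hBs, Finset.mem_filter, mem_pr] at hp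
    have := hp.1.2.pos
    positivity

/-- the completely multiplicative function `n ^ (-9/10)` -/
noncomputable def fσ : ℕ →* ℝ where
  toFun n := (n : ℝ) ^ (-(9 / 10) : ℝ)
  map_one' := by simp
  map_mul' a b := by push_cast; exact Real.mul_rpow (Nat.cast_nonneg _) (Nat.cast_nonneg _)

theorem fσ_apply (n : ℕ) : fσ n = (n : ℝ) ^ (-(9 / 10) : ℝ) := rfl

theorem fσ_nonneg (n : ℕ) : 0 ≤ fσ n := by rw [fσ_apply]; positivity

theorem fσ_le (p : ℕ) (hp : 2 ≤ p) : fσ p ≤ 3 / 4 := by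
  rw [fσ_apply]
  have h1 : (p : ℝ) ^ (-(9 / 10) : ℝ) ≤ (2 : ℝ) ^ (-(9 / 10) : ℝ) := by
    apply Real.rpow_le_rpow_of_nonpos (by norm_num) (by exact_mod_cast hp) (by norm_num)
  refine h1.trans ?_
  have h2 : (2 : ℝ) ^ (-(9 / 10) : ℝ) ≤ (2 : ℝ) ^ (-(1 / 2) : ℝ) :=
    Real.rpow_le_rpow_of_exponent_le (by norm_num) (by norm_num)
  refine h2.trans ?_
  rw [Real.rpow_neg (by norm_num), ← Real.sqrt_eq_rpow, inv_le_comm₀ (by positivity) (by norm_num)]
  apply Real.le_sqrt_of_sq_le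
  norm_num

theorem sum_fσ_le (K : ℕ) : ∑ n ∈ Ioc 0 K, fσ n ≤ 10 * (K : ℝ) ^ (1 / 10 : ℝ) := by
  induction K with
  | zero => simp [Real.zero_rpow]
  | succ K ih =>
    rw [← Finset.insert_Ioc_right_eq_Ioc_add_one (by omega : 0 ≤ K), Finset.sum_insert (by simp)]
    have hK1 : (0 : ℝ) < (K : ℝ) + 1 := by positivity
    have h1 : (K : ℝ) ^ (1 / 10 : ℝ) ≤ ((K : ℝ) + 1) ^ (1 / 10 : ℝ) - (1 / 10) * fσ (K + 1) := by
      have h2 : (1 + -(1 / ((K : ℝ) + 1))) ^ (1 / 10 : ℝ) ≤ 1 + (1 / 10) * -(1 / ((K : ℝ) + 1)) := by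
        apply rpow_one_add_le_one_add_mul_self
        · rw [neg_le_neg_iff, div_le_one hK1]; linarith [(Nat.cast_nonneg K : (0 : ℝ) ≤ K)]
        · norm_num
        · norm_num
      have h3 : (1 + -(1 / ((K : ℝ) + 1))) = K / (K + 1) := by field_simp; ring
      rw [h3, Real.div_rpow (Nat.cast_nonneg _) hK1.le, div_le_iff₀ (Real.rpow_pos_of_pos hK1 _)] at h2
      have h4 : fσ (K + 1) = ((K : ℝ) + 1) ^ (1 / 10 : ℝ) * (1 / ((K : ℝ) + 1)) := by
        rw [fσ_apply]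
        push_cast
        rw [mul_one_div, eq_div_iff hK1.ne', ← Real.rpow_add_one hK1.ne']
        norm_num
      rw [h4]
      linarith
    push_cast
    linarith

theorem smooth_sum (K : ℕ) (S : Finset ℕ) (hS : ∀ a ∈ S, a ∈ Nat.smoothNumbers K) :
    ∑ a ∈ S, fσ a ≤ Real.exp (40 * (K : ℝ) ^ (1 / 10 : ℝ)) := by
  have h := EulerProduct.summable_and_hasSum_smoothNumbers_prod_primesBelow_geometric (f := fσ)
    (by
      intro p hp
      rw [Real.norm_of_nonneg (fσ_nonneg p)]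
      have := fσ_le p hp.two_le
      linarith) K
  have h1 : ∑ a ∈ S, fσ a ≤ ∏ p ∈ K.primesBelow, (1 - fσ p)⁻¹ := by
    have h2 := h.2
    have h3 : ∑ a ∈ S.attach, fσ a.1 = ∑ a ∈ S, fσ a := Finset.sum_attach S (fun a => fσ a)
    rw [← h3]
    set S' : Finset (Nat.smoothNumbers K) := S.attach.map
      ⟨fun a => ⟨a.1, hS a.1 a.2⟩, fun a b hab => by
        have := congrArg Subtype.val hab
        exact Subtype.ext this⟩ with hS'
    have h4 : ∑ a ∈ S.attach, fσ a.1 = ∑ a ∈ S', fσ a.1 := by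
      rw [hS', Finset.sum_map]; rfl
    rw [h4]
    exact sum_le_hasSum S' (fun a _ => fσ_nonneg _) h2
  refine h1.trans ?_
  have h2 : ∏ p ∈ K.primesBelow, (1 - fσ p)⁻¹ ≤ ∏ p ∈ K.primesBelow, Real.exp (4 * fσ p) := by
    apply Finset.prod_le_prod
    · intro p hp
      have := fσ_le p (Nat.prime_of_mem_primesBelow hp).two_le
      exact inv_nonneg.mpr (by linarith)
    · intro p hp
      have h3 := fσ_le p (Nat.prime_of_mem_primesBelow hp).two_le
      have h4 := fσ_nonneg p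
      have h5 : 1 + 4 * fσ p ≤ Real.exp (4 * fσ p) := by
        have := Real.add_one_le_exp (4 * fσ p); linarith
      rw [inv_le_comm₀ (by linarith) (Real.exp_pos _)]
      refine (inv_anti₀ (by positivity) h5).trans ?_
      rw [inv_le_comm₀ (by positivity) (by linarith)]
      rw [inv_le_iff_one_le_mul₀ (by linarith)]
      nlinarith
  refine h2.trans ?_
  rw [← Real.exp_sum]
  apply Real.exp_le_exp.mpr
  rw [← Finset.mul_sum]
  have h3 : ∑ p ∈ K.primesBelow, fσ p ≤ ∑ n ∈ Ioc 0 K, fσ n := by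
    apply Finset.sum_le_sum_of_subset_of_nonneg
    · intro p hp
      rw [Finset.mem_Ioc]
      exact ⟨(Nat.prime_of_mem_primesBelow hp).pos, (Nat.lt_of_mem_primesBelow hp).le⟩
    · intro p _ _; exact fσ_nonneg p
  have := sum_fσ_le K
  linarith

open Classical in
theorem six_card : ∃ C : ℝ, 1 ≤ C ∧ ∀ K G N : ℕ, 1 ≤ N →
    (((Icc 1 N).filter (fun n => Six K G n)).card : ℝ) ≤
      C * G * (N : ℝ) ^ (9 / 10 : ℝ) * Real.exp (40 * (K : ℝ) ^ (1 / 10 : ℝ)) := by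
  have hs : Summable (fun n : ℕ => 1 / (n : ℝ) ^ (9 / 5 : ℝ)) :=
    Real.summable_one_div_nat_rpow.mpr (by norm_num)
  set T := ∑' n : ℕ, 1 / (n : ℝ) ^ (9 / 5 : ℝ) with hT
  have hT0 : 0 ≤ T := tsum_nonneg fun _ => by positivity
  refine ⟨T + 1, by linarith, fun K G N hN => ?_⟩
  set A := (Icc 1 N).filter (fun a => a ∈ Nat.smoothNumbers K) with hA
  set D := (A ×ˢ (Ico 1 G)) ×ˢ (Icc 1 N) with hD
  have h1 : (Icc 1 N).filter (fun n => Six K G n) ⊆
      (D.filter (fun q => q.1.1 * q.1.2 * q.2 ^ 2 ≤ N)).image (fun q => q.1.1 * q.1.2 * q.2 ^ 2) := by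
    intro n hn
    rw [Finset.mem_filter, Finset.mem_Icc] at hn
    obtain ⟨⟨hn1, hnN⟩, a, d, t, hadt, ha, hd1, hdG, ht⟩ := hn
    have ha0 : 0 < a := Nat.pos_of_ne_zero (Nat.ne_zero_of_mem_smoothNumbers ha)
    rw [Finset.mem_image]
    refine ⟨((a, d), t), ?_, hadt.symm⟩
    have ht2 : t ≤ t ^ 2 := Nat.le_self_pow (by norm_num) t
    have haN : a ≤ N := by
      calc a = a * 1 * 1 := by ring
        _ ≤ a * d * t ^ 2 := Nat.mul_le_mul (Nat.mul_le_mul_left _ hd1) (Nat.one_le_pow _ _ ht)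
        _ ≤ N := by rw [← hadt]; exact hnN
    have htN : t ≤ N := by
      calc t ≤ t ^ 2 := ht2
        _ = 1 * 1 * t ^ 2 := by ring
        _ ≤ a * d * t ^ 2 := Nat.mul_le_mul_right _ (Nat.mul_le_mul ha0 hd1)
        _ ≤ N := by rw [← hadt]; exact hnN
    rw [Finset.mem_filter, hD, Finset.mem_product, Finset.mem_product, hA, Finset.mem_filter,
      Finset.mem_Icc, Finset.mem_Ico, Finset.mem_Icc]
    exact ⟨⟨⟨⟨⟨ha0, haN⟩, ha⟩, hd1, hdG⟩, ht, htN⟩, by rw [← hadt]; exact hnN⟩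
  have h2 : (((Icc 1 N).filter (fun n => Six K G n)).card : ℝ) ≤
      ((D.filter (fun q => q.1.1 * q.1.2 * q.2 ^ 2 ≤ N)).card : ℝ) := by
    exact_mod_cast (Finset.card_le_card h1).trans Finset.card_image_le
  refine h2.trans ?_
  have hN0 : (0 : ℝ) < N := by exact_mod_cast hN
  have h3 : ((D.filter (fun q => q.1.1 * q.1.2 * q.2 ^ 2 ≤ N)).card : ℝ) ≤
      ∑ q ∈ D, (N : ℝ) ^ (9 / 10 : ℝ) * (fσ q.1.1 * (1 / (q.2 : ℝ) ^ (9 / 5 : ℝ))) := by
    rw [Finset.card_eq_sum_ones]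
    push_cast
    refine le_trans (Finset.sum_le_sum
      (g := fun q : (ℕ × ℕ) × ℕ => (N : ℝ) ^ (9 / 10 : ℝ) * (fσ q.1.1 * (1 / (q.2 : ℝ) ^ (9 / 5 : ℝ)))) ?_)
      (Finset.sum_le_sum_of_subset_of_nonneg (Finset.filter_subset
        (fun q : (ℕ × ℕ) × ℕ => q.1.1 * q.1.2 * q.2 ^ 2 ≤ N) D)
      (fun q _ _ => by have := fσ_nonneg q.1.1; positivity))
    intro q hq
    rw [Finset.mem_filter, hD, Finset.mem_product, Finset.mem_product, hA, Finset.mem_filter,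
      Finset.mem_Icc, Finset.mem_Ico, Finset.mem_Icc] at hq
    obtain ⟨⟨⟨⟨⟨ha0, _⟩, _⟩, hd1, _⟩, ht, _⟩, hle⟩ := hq
    have ha0' : (0 : ℝ) < q.1.1 := by exact_mod_cast ha0
    have ht0' : (0 : ℝ) < q.2 := by exact_mod_cast ht
    have h4 : (q.1.1 : ℝ) * (q.2 : ℝ) ^ 2 ≤ N := by
      have : q.1.1 * q.2 ^ 2 ≤ N := by
        calc q.1.1 * q.2 ^ 2 = q.1.1 * 1 * q.2 ^ 2 := by ring
          _ ≤ q.1.1 * q.1.2 * q.2 ^ 2 := Nat.mul_le_mul_right _ (Nat.mul_le_mul_left _ hd1)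
          _ ≤ N := hle
      exact_mod_cast this
    have h5 := Real.rpow_le_rpow (by positivity) h4 (by norm_num : (0 : ℝ) ≤ 9 / 10)
    rw [Real.mul_rpow ha0'.le (by positivity), ← Real.rpow_natCast (q.2 : ℝ) 2, ← Real.rpow_mul ht0'.le] at h5
    have h6 : ((2 : ℕ) : ℝ) * (9 / 10 : ℝ) = 9 / 5 := by norm_num
    rw [h6] at h5
    rw [fσ_apply, Real.rpow_neg ha0'.le]
    have h7 : (N : ℝ) ^ (9 / 10 : ℝ) * (((q.1.1 : ℝ) ^ (9 / 10 : ℝ))⁻¹ * (1 / (q.2 : ℝ) ^ (9 / 5 : ℝ))) =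
        (N : ℝ) ^ (9 / 10 : ℝ) / ((q.1.1 : ℝ) ^ (9 / 10 : ℝ) * (q.2 : ℝ) ^ (9 / 5 : ℝ)) := by
      field_simp
    rw [h7, le_div_iff₀ (by positivity)]
    linarith
  refine h3.trans ?_
  rw [← Finset.mul_sum, hD, Finset.sum_product, Finset.sum_product]
  simp only
  have h4 : ∑ a ∈ A, ∑ _d ∈ Ico 1 G, ∑ t ∈ Icc 1 N, fσ a * (1 / (t : ℝ) ^ (9 / 5 : ℝ)) =
      ((G - 1 : ℕ) : ℝ) * ((∑ a ∈ A, fσ a) * ∑ t ∈ Icc 1 N, (1 / (t : ℝ) ^ (9 / 5 : ℝ))) := by
    simp only [Finset.sum_const, Nat.card_Ico, nsmul_eq_mul, ← Finset.mul_sum, ← Finset.sum_mul]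
  rw [h4]
  have h5 := smooth_sum K A (fun a ha => by rw [hA, Finset.mem_filter] at ha; exact ha.2)
  have h6 : ∑ t ∈ Icc 1 N, (1 / (t : ℝ) ^ (9 / 5 : ℝ)) ≤ T := hs.sum_le_tsum _ (fun _ _ => by positivity)
  have h7 : ((G - 1 : ℕ) : ℝ) ≤ G := by exact_mod_cast Nat.sub_le _ _
  have h8 : 0 ≤ ∑ a ∈ A, fσ a := Finset.sum_nonneg fun _ _ => fσ_nonneg _
  have h9 : 0 ≤ ∑ t ∈ Icc 1 N, (1 / (t : ℝ) ^ (9 / 5 : ℝ)) := Finset.sum_nonneg fun _ _ => by positivity
  have h10 : 0 < Real.exp (40 * (K : ℝ) ^ (1 / 10 : ℝ)) := Real.exp_pos _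
  calc (N : ℝ) ^ (9 / 10 : ℝ) * (((G - 1 : ℕ) : ℝ) * ((∑ a ∈ A, fσ a) * ∑ t ∈ Icc 1 N, (1 / (t : ℝ) ^ (9 / 5 : ℝ))))
      ≤ (N : ℝ) ^ (9 / 10 : ℝ) * (G * (Real.exp (40 * (K : ℝ) ^ (1 / 10 : ℝ)) * (T + 1))) := by
        gcongr
        linarith
    _ = _ := by ring

open Classical in
theorem six_count (s : ℕ) (hs : 400 ≤ s) : ∃ G₀ : ℕ, 2 ≤ G₀ ∧ ∀ G : ℕ, G₀ ≤ G → ∀ N K : ℕ,
    G ^ (2 * s) ≤ N → (K : ℝ) ≤ (Real.log N) ^ 7 →
    (((Icc 1 (2 * N)).filter (fun n => Six K G n)).card : ℝ) * (G : ℝ) ^ 10 ≤ N := by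
  obtain ⟨C, hC1, hC⟩ := six_card
  -- 40 L^0.7 + c <= 0.08 L for L large
  have h1 : Filter.Tendsto (fun L : ℝ => (40 * L ^ (7 / 10 : ℝ) + (1 + Real.log C)) / L) Filter.atTop (nhds 0) := by
    have e1 : Filter.Tendsto (fun L : ℝ => L ^ (7 / 10 : ℝ) / L) Filter.atTop (nhds 0) := by
      have h2 : Filter.Tendsto (fun L : ℝ => L ^ (-(3 / 10) : ℝ)) Filter.atTop (nhds 0) :=
        tendsto_rpow_neg_atTop (by norm_num)
      refine h2.congr' ?_
      filter_upwards [Filter.eventually_gt_atTop 0] with L hL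
      rw [eq_div_iff hL.ne', ← Real.rpow_add_one hL.ne']
      norm_num
    have e2 : Filter.Tendsto (fun L : ℝ => (1 + Real.log C) / L) Filter.atTop (nhds 0) :=
      tendsto_const_nhds.div_atTop Filter.tendsto_id
    have e3 := (e1.const_mul 40).add e2
    simp only [mul_zero, add_zero] at e3
    refine e3.congr fun L => ?_
    ring
  have h2 := h1.eventually (gt_mem_nhds (show (0 : ℝ) < 8 / 100 by norm_num))
  rw [Filter.eventually_atTop] at h2
  obtain ⟨a, ha⟩ := h2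
  obtain ⟨G₁, hG₁⟩ := ev_log (max a 1)
  refine ⟨max 2 G₁, le_max_left _ _, fun G hG N K hN hK => ?_⟩
  have hG2 : 2 ≤ G := (le_max_left _ _).trans hG
  have hlG := hG₁ G ((le_max_right _ _).trans hG)
  have hlG1 : (1 : ℝ) ≤ Real.log G := (le_max_right _ _).trans hlG
  have hlGa : a ≤ Real.log G := (le_max_left _ _).trans hlG
  have hG0 : (0 : ℝ) < G := by positivity
  have hL := reg_low (by omega : 1 ≤ G) hN
  have hs' : (400 : ℝ) ≤ s := by exact_mod_cast hs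
  set L := Real.log N with hLdef
  have hL0 : 800 * Real.log G ≤ L := by nlinarith
  have hL1 : 800 ≤ L := by linarith
  have hN1 : 1 ≤ N := le_trans (Nat.one_le_pow _ _ (by omega)) hN
  have hN0 : (0 : ℝ) < N := by exact_mod_cast hN1
  have h3 := ha L (by linarith)
  rw [div_lt_iff₀ (by linarith)] at h3
  have h4 := hC K G (2 * N) (by omega)
  have hKL : (K : ℝ) ^ (1 / 10 : ℝ) ≤ L ^ (7 / 10 : ℝ) := by
    have h5 := Real.rpow_le_rpow (Nat.cast_nonneg _) hK (by norm_num : (0 : ℝ) ≤ 1 / 10)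
    refine h5.trans (le_of_eq ?_)
    rw [← Real.rpow_natCast L 7, ← Real.rpow_mul (by linarith)]
    norm_num
  have hC0 : 0 < C := by linarith
  have h5 : C * G * (((2 * N : ℕ) : ℝ)) ^ (9 / 10 : ℝ) * Real.exp (40 * (K : ℝ) ^ (1 / 10 : ℝ)) * (G : ℝ) ^ 10 ≤ N := by
    have e0 : (0 : ℝ) < ((2 * N : ℕ) : ℝ) := by positivity
    have e1 : C = Real.exp (Real.log C) := (Real.exp_log hC0).symm
    have e2 : (G : ℝ) = Real.exp (Real.log G) := (Real.exp_log hG0).symm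
    have e3 : (((2 * N : ℕ) : ℝ)) ^ (9 / 10 : ℝ) = Real.exp ((9 / 10) * Real.log ((2 * N : ℕ) : ℝ)) := by
      rw [Real.rpow_def_of_pos e0]; congr 1; ring
    have e4 : (N : ℝ) = Real.exp L := (Real.exp_log hN0).symm
    have e5 : Real.log ((2 * N : ℕ) : ℝ) ≤ 1 + L := by
      push_cast
      rw [Real.log_mul (by norm_num) hN0.ne']
      have := Real.log_two_lt_d9
      linarith
    have e6 : (G : ℝ) ^ 10 = Real.exp (10 * Real.log G) := by
      rw [← Real.rpow_natCast, Real.rpow_def_of_pos hG0]; push_cast; congr 1; ring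
    calc C * G * (((2 * N : ℕ) : ℝ)) ^ (9 / 10 : ℝ) * Real.exp (40 * (K : ℝ) ^ (1 / 10 : ℝ)) * (G : ℝ) ^ 10
        = Real.exp (Real.log C + Real.log G + (9 / 10) * Real.log ((2 * N : ℕ) : ℝ) +
          40 * (K : ℝ) ^ (1 / 10 : ℝ) + 10 * Real.log G) := by
          rw [e3, e6, Real.exp_add, Real.exp_add, Real.exp_add, Real.exp_add, ← e1, ← e2]
      _ ≤ Real.exp L := by
          apply Real.exp_le_exp.mpr
          linarith
      _ = N := e4.symm
  refine le_trans ?_ h5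
  exact mul_le_mul_of_nonneg_right h4 (by positivity)

end Pool.Agent.Helper27.D6
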