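import Mathlib
import Pool.Agent.Helper27.D6Six
import Pool.Agent.Helper27.D6Prime
import Pool.Agent.Helper27.D6Defs
import Pool.Agent.Helper27.D6DetB
import Pool.Agent.Helper27.D6MidB

set_option autoImplicit false

namespace Pool.Agent.Helper27.D6

open Finset

/-- bad anchors -/
def BadN (s G N n' : ℕ) : Prop :=
  BadSq G n' ∨ BadHit G (G ^ (s + 3)) N (n' + 1) ∨
  (G ^ 10 ≤ n' ∧ BadHit G (G ^ (s + 3)) N (n' - G ^ 10)) ∨
  (∃ H z : ℕ, 1 ≤ H ∧ H ≤ 3 * G ^ 10 ∧ H ≤ n' ∧ (Real.log N) ^ 4 ≤ H ∧ 40 * H < z ∧ z ≤ G ^ 11 ∧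
    BadMid N (n' - H) (2 * H + 1) z) ∨
  (∃ n : ℕ, (n = n' + 1 ∨ n + 1 = n') ∧ 1 ≤ n ∧ Six ⌊(Real.log N) ^ 7⌋₊ G n)

def BadM (s G N m : ℕ) : Prop :=
  ∃ k k' P : ℕ, m = k * P ∧ P.Prime ∧ k < G ∧ 1 ≤ k' ∧ k' < k ∧ BadN s G N (k' * P)

theorem num_small (C L : ℝ) (hC : 0 < C) (hL : 3200 ≤ L) (hLC : 2 * C + 4 ≤ L) :
    C * (2 * L ^ 4) * L + 1 ≤ L ^ 7 := by
  have h5 : (1 : ℝ) ≤ L ^ 5 := one_le_pow₀ (by linarith only [hL])
  have h3 : C * (2 * L ^ 4) * L = (2 * C) * L ^ 5 := by ring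
  have h4 : L ^ 7 = L * L * L ^ 5 := by ring
  rw [h3, h4]
  have h6 : 2 * C + 1 ≤ L * L := by nlinarith only [hL, hLC]
  have h7 : (2 * C + 1) * L ^ 5 ≤ L * L * L ^ 5 := mul_le_mul_of_nonneg_right h6 (by linarith)
  linarith

theorem num_z (C L G q z T N : ℝ) (hC : 0 < C) (hL : 0 < L) (hG : 0 < G) (hq : 0 ≤ q)
    (hz : z ≤ C * T * L) (hT : T * (2 * G ^ 2) < N) (hN : N < 8 * G * q) (hCL : 16 * C * L ≤ G) :
    z < q := by
  have h4 : z * (2 * G ^ 2) ≤ (C * L) * (T * (2 * G ^ 2)) := by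
    calc z * (2 * G ^ 2) ≤ (C * T * L) * (2 * G ^ 2) := mul_le_mul_of_nonneg_right hz (by positivity)
      _ = _ := by ring
  have hCL0 : 0 < C * L := by positivity
  have h5 : (C * L) * (T * (2 * G ^ 2)) < (C * L) * (8 * G * q) :=
    mul_lt_mul_of_pos_left (hT.trans hN) hCL0
  have h6 : (C * L) * (8 * G * q) ≤ q * (2 * G ^ 2) := by
    have h7 : (C * L) * 16 ≤ G := by linarith
    have h9 : 0 ≤ q * G ^ 2 := by positivity
    calc (C * L) * (8 * G * q) = ((C * L) * 16) * (G * q / 2) := by ring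
      _ ≤ G * (G * q / 2) := mul_le_mul_of_nonneg_right h7 (by positivity)
      _ = q * G ^ 2 / 2 := by ring
      _ ≤ q * (2 * G ^ 2) := by linarith
  have h8 : z * (2 * G ^ 2) < q * (2 * G ^ 2) := lt_of_le_of_lt h4 (lt_of_lt_of_le h5 h6)
  exact lt_of_mul_lt_mul_right h8 (by positivity)

theorem exclusion (s : ℕ) (hs : 400 ≤ s) (B : ℕ) : ∃ G₀ : ℕ, 2 ≤ G₀ ∧ ∀ G : ℕ, G₀ ≤ G → ∀ N : ℕ,
    G ^ (2 * s) ≤ N → N < (G + 1) ^ (2 * s) → ∀ m : ℕ, m ≤ N → N < 2 * m → Good B G m →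
    ¬ BadM s G N m → ∀ w x y z : ℕ, Rep m w x y z →
    ((m - w) + (x - y)) * (2 * G ^ 2) < N → False := by
  obtain ⟨C, hC, hzb⟩ := z_bound
  obtain ⟨G₁, hG₁2, hG₁⟩ := large_block s hs B
  obtain ⟨G₂, hG₂2, hG₂⟩ := mid_block s hs
  obtain ⟨G₃, hG₃2, hG₃⟩ := step6' s hs B
  obtain ⟨G₄, hG₄2, hG₄⟩ := ev_pow (16 * C * (B + 4)) s 1
  obtain ⟨G₅, hG₅2, hG₅⟩ := ev_pow 16 s 8
  obtain ⟨G₆, hG₆⟩ := ev_log (2 * C + 4)
  refine ⟨max (max (max G₁ G₂) (max G₃ G₄)) (max (max G₅ G₆) (4 * B + 100)), by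
    have := le_max_left (max (max G₁ G₂) (max G₃ G₄)) (max (max G₅ G₆) (4 * B + 100))
    have h2 := le_max_left (max G₁ G₂) (max G₃ G₄)
    have h3 := le_max_left G₁ G₂
    omega, fun G hG N hN hN' m hmN hNm hgood hbad w x y z R hT => ?_⟩
  have hGG₁ : G₁ ≤ G := le_trans (le_trans (le_max_left _ _) (le_max_left _ _)) (le_trans (le_max_left _ _) hG)
  have hGG₂ : G₂ ≤ G := le_trans (le_trans (le_max_right _ _) (le_max_left _ _)) (le_trans (le_max_left _ _) hG)
  have hGG₃ : G₃ ≤ G := le_trans (le_trans (le_max_left _ _) (le_max_right _ _)) (le_trans (le_max_left _ _) hG)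
  have hGG₄ : G₄ ≤ G := le_trans (le_trans (le_max_right _ _) (le_max_right _ _)) (le_trans (le_max_left _ _) hG)
  have hGG₅ : G₅ ≤ G := le_trans (le_trans (le_max_left _ _) (le_max_left _ _)) (le_trans (le_max_right _ _) hG)
  have hGG₆ : G₆ ≤ G := le_trans (le_trans (le_max_right _ _) (le_max_left _ _)) (le_trans (le_max_right _ _) hG)
  have hGB : 4 * B + 100 ≤ G := le_trans (le_max_right _ _) (le_trans (le_max_right _ _) hG)
  have hN1 : 1 ≤ N := le_trans (Nat.one_le_pow _ _ (by omega)) hN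
  have hev := hG₄ G hGG₄ N hN1 hN'
  have hev8 := hG₅ G hGG₅ N hN1 hN'
  have hlG := hG₆ G hGG₆
  have hL := reg_low (by omega : 1 ≤ G) hN
  have hs' : (400 : ℝ) ≤ s := by exact_mod_cast hs
  have hwm := R.hwm
  have hxw := R.hxw
  have hyx := R.hyx
  have hzy := R.hzy
  have hG0 : (0 : ℝ) < G := by exact_mod_cast (by omega : 0 < G)
  have hG1' : (100 : ℝ) ≤ G := by exact_mod_cast (by omega : 100 ≤ G)
  set L := Real.log N with hLdef
  have hlG1 : 4 ≤ Real.log G := by linarith only [hC, hlG]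
  have hL0 : 800 * Real.log G ≤ L := by nlinarith only [hs', hL, hC, hlG]
  have hL1 : 3200 ≤ L := by linarith only [hC, hlG, hL0]
  have hLC : 2 * C + 4 ≤ L := by linarith only [hC, hlG, hL0]
  rw [pow_one] at hev
  have hG12N : G ^ 20 ≤ N := le_trans (Nat.pow_le_pow_right (by omega) (by omega)) hN
  have hGm : G ≤ m := by
    have h1 : 2 * G ≤ G ^ 20 := by
      calc 2 * G ≤ G * G := Nat.mul_le_mul_right _ (by omega)
        _ = G ^ 2 := by ring
        _ ≤ G ^ 20 := Nat.pow_le_pow_right (by omega) (by norm_num)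
    omega
  -- z bound in natural numbers
  have hzT : (z : ℝ) ≤ C * (((m - w : ℕ) : ℝ) + ((x - y : ℕ) : ℝ)) * L := by
    have := hzb m w x y z N R hmN (by
      have : 2 ^ 20 ≤ G ^ 20 := Nat.pow_le_pow_left (by omega) _
      omega)
    rwa [Nat.cast_sub hwm.le, Nat.cast_sub hyx]
  have hCL : 16 * C * (B + 4) * L ≤ G := by
    have : 0 ≤ 16 * C * (B + 4) := by positivity
    linarith only [hev, this]
  have hCL16 : 16 * C * L ≤ G := by
    have h1 : 16 * C * L ≤ 16 * C * (B + 4) * L := by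
      have : 0 ≤ 16 * C * L := by positivity
      have hB0 : (0 : ℝ) ≤ B := Nat.cast_nonneg _
      nlinarith only [this]
    linarith only [hCL, h1]
  have hzG : ∀ j : ℕ, 1 ≤ j → m - w ≤ B → x - y ≤ 3 * G ^ j → z ≤ G ^ (j + 1) := by
    intro j hj h1 h2
    have h3 : (((m - w : ℕ) : ℝ) + ((x - y : ℕ) : ℝ)) ≤ (B + 4) * (G : ℝ) ^ j := by
      have h4 : ((m - w : ℕ) : ℝ) ≤ B := by exact_mod_cast h1
      have h5 : ((x - y : ℕ) : ℝ) ≤ 3 * (G : ℝ) ^ j := by exact_mod_cast h2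
      have h6 : (1 : ℝ) ≤ (G : ℝ) ^ j := one_le_pow₀ (by linarith only [hG1'])
      have hB0 : (0 : ℝ) ≤ B := Nat.cast_nonneg _
      nlinarith only [h4, h5, h6]
    have h4 : (z : ℝ) ≤ (G : ℝ) ^ (j + 1) := by
      calc (z : ℝ) ≤ C * (((m - w : ℕ) : ℝ) + ((x - y : ℕ) : ℝ)) * L := hzT
        _ ≤ C * ((B + 4) * (G : ℝ) ^ j) * L := by gcongr
        _ = (C * (B + 4) * L) * (G : ℝ) ^ j := by ring
        _ ≤ G * (G : ℝ) ^ j := by
            apply mul_le_mul_of_nonneg_right _ (by positivity)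
            have : 0 ≤ C * (B + 4) * L := by positivity
            linarith only [hG1', hCL]
        _ = (G : ℝ) ^ (j + 1) := by ring
    exact_mod_cast h4
  obtain ⟨k, P, hm, hP, hk2, hkG, hksq, hkB, ⟨P₂, hP₂, hP₂d, hP₂sq, hP₂G⟩, ⟨i, hi1, hiB, k₁, p, hk₁, hp, hk₁G⟩, hgd⟩ := hgood
  -- P is large
  have hPG : N < 2 * G * P := by
    calc N < 2 * m := hNm
      _ = 2 * (k * P) := by rw [hm]
      _ ≤ 2 * (G * P) := Nat.mul_le_mul_left _ (Nat.mul_le_mul_right _ hkG.le)
      _ = 2 * G * P := by ring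
  have hTP : ∀ q : ℕ, N < 8 * G * q → (m - w) + (x - y) ≤ q := by
    intro q hq
    by_contra hcon
    push Not at hcon
    have h1 : q * (2 * G ^ 2) ≤ ((m - w) + (x - y)) * (2 * G ^ 2) := Nat.mul_le_mul_right _ hcon.le
    have h2 : 8 * G * q ≤ q * (2 * G ^ 2) := by
      have : 4 * G ≤ G ^ 2 := by rw [sq]; exact Nat.mul_le_mul_right _ (by omega)
      nlinarith only [hT, hGB, hi1, hiB, hmN, hGm, hq, hcon, h1]
    omega
  have hzP : ∀ q : ℕ, N < 8 * G * q → z < q := by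
    intro q hq
    have h1 : (((m - w : ℕ) : ℝ) + ((x - y : ℕ) : ℝ)) * (2 * (G : ℝ) ^ 2) < N := by exact_mod_cast hT
    have h2 : (N : ℝ) < 8 * G * q := by exact_mod_cast hq
    have h3 : (z : ℝ) < q := num_z C L G q z _ N hC (by linarith only [hC, hlG, hL0]) hG0 (Nat.cast_nonneg _) hzT h1 h2 hCL16
    exact_mod_cast h3
  have hPG8 : N < 8 * G * P := lt_of_lt_of_le hPG (Nat.mul_le_mul_right _ (by omega))
  have hTP' := hTP P hPG8
  have hzP' := hzP P hPG8
  have hPbig : 4 * G ^ 12 ≤ P := by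
    by_contra hcon
    push Not at hcon
    have h1 : 2 * G * P ≤ 2 * G * (4 * G ^ 12) := Nat.mul_le_mul_left _ hcon.le
    have h2 : 2 * G * (4 * G ^ 12) = 8 * G ^ 13 := by ring
    have h3 : 8 * G ^ 13 ≤ G ^ 20 := by
      calc 8 * G ^ 13 ≤ G * G ^ 13 := Nat.mul_le_mul_right _ (by omega)
        _ = G ^ 14 := by ring
        _ ≤ G ^ 20 := Nat.pow_le_pow_right (by omega) (by norm_num)
    omega
  have hGle12 : G ≤ G ^ 12 := Nat.le_self_pow (by norm_num) G
  have hkP : k < P := by omega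
  obtain ⟨k', hk'1, hk'k, hn'⟩ := anchor R hm hP (by omega) hkP (by omega) hzP'
  have hnotbad : ¬ BadN s G N (k' * P) := fun h => hbad ⟨k, k', P, hm, hP, hkG, hk'1, hk'k, h⟩
  have hn'P : P ≤ k' * P := Nat.le_mul_of_pos_left _ hk'1
  -- regime H >= B
  rcases le_or_gt B (m - w) with hHB | hHB
  · have hpbig : N < 8 * G * p := by
      have hi4 : 4 * i ≤ m := by omega
      have h1 : N < 4 * (m - i) := by omega
      rw [hk₁] at h1
      calc N < 4 * (k₁ * p) := h1
        _ ≤ 4 * (G * p) := Nat.mul_le_mul_left _ (Nat.mul_le_mul_right _ hk₁G.le)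
        _ ≤ 8 * G * p := by nlinarith only []
    have h1 := hTP p hpbig
    have h2 := hzP p hpbig
    have hpG : G ≤ p := by
      by_contra hcon
      push Not at hcon
      have h3 : 8 * G * p ≤ 8 * G * G := Nat.mul_le_mul_left _ hcon.le
      have h4 : 8 * G * G ≤ G ^ 20 := by
        calc 8 * G * G = 8 * G ^ 2 := by ring
          _ ≤ G * G ^ 2 := Nat.mul_le_mul_right _ (by omega)
          _ = G ^ 3 := by ring
          _ ≤ G ^ 20 := Nat.pow_le_pow_right (by omega) (by norm_num)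
      omega
    exact step3 R hm hn' hk'1 hk'k hkG hkB hi1 hiB (by omega) hk₁ hp hk₁G (by omega) (by omega) h2 (by
      have : ((m - w) + (x - y)) * (2 * G ^ 2) = 2 * (((m - w) + (x - y)) * G ^ 2) := by ring
      omega)
  -- now H < B
  have hHB' : m - w ≤ B := hHB.le
  rcases le_or_gt (G ^ (s + 2)) (x - y) with hJbig | hJbig
  · exact hG₃ G hGG₃ N hN hN' m w x y z R hmN hHB' hJbig
  rcases le_or_gt (3 * G ^ 10) (x - y) with hJ10 | hJ10
  · -- large regime
    have hz3 : z ≤ G ^ (s + 3) := hzG (s + 2) (by omega) hHB' (by omega)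
    have hxy3 : x - y ≤ G ^ (s + 3) := hJbig.le.trans (Nat.pow_le_pow_right (by omega) (by omega))
    have hn'' := Finset.mem_Ioc.mp hn'
    have hG10 : G ^ 10 ≤ G ^ 12 := Nat.pow_le_pow_right (by omega) (by norm_num)
    rcases le_or_gt (G ^ 10) (x - k' * P) with hside | hside
    · refine hG₁ G hGG₁ N hN m w x y z (k' * P) (k' * P) R hmN ?_ hHB' hxy3 hz3 ?_ ?_ ?_ ?_
      · calc N ≤ 2 * G * P := hPG.le
          _ ≤ 4 * G * (k' * P + 1) := Nat.mul_le_mul (by omega) (by omega)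
      · intro n hn; rw [Finset.mem_Ioc] at hn ⊢; omega
      · intro n hn; rw [Finset.mem_Ioc] at hn; omega
      · exact fun h => hnotbad (Or.inl h)
      · exact fun h => hnotbad (Or.inr (Or.inl h))
    · refine hG₁ G hGG₁ N hN m w x y z (k' * P - 1 - G ^ 10) (k' * P) R hmN ?_ hHB' hxy3 hz3 ?_ ?_ ?_ ?_
      · have h1 : k' * P ≤ 2 * (k' * P - 1 - G ^ 10 + 1) := by omega
        calc N ≤ 2 * G * P := hPG.le
          _ ≤ 2 * G * (k' * P) := Nat.mul_le_mul_left _ hn'P
          _ ≤ 2 * G * (2 * (k' * P - 1 - G ^ 10 + 1)) := Nat.mul_le_mul_left _ h1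
          _ = 4 * G * (k' * P - 1 - G ^ 10 + 1) := by ring
      · intro n hn; rw [Finset.mem_Ioc] at hn ⊢; omega
      · intro n hn; rw [Finset.mem_Ioc] at hn; omega
      · exact fun h => hnotbad (Or.inl h)
      · intro h
        apply hnotbad
        right; right; left
        refine ⟨by omega, ?_⟩
        rwa [show k' * P - 1 - G ^ 10 + 1 = k' * P - G ^ 10 by omega] at h
  -- now x - y < 3 G^10
  have hz11 : z ≤ G ^ 11 := hzG 10 (by norm_num) hHB' hJ10.le
  have hG1112 : G ^ 11 ≤ G ^ 12 := Nat.pow_le_pow_right (by omega) (by norm_num)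
  rcases le_or_gt 2 (m - w) with hH2 | hH1
  · -- step 4
    refine step4 R hm hn' hk'1 hk'k hkG (by omega) hkB (by omega) hP₂ hP₂d hP₂sq (by omega) (by omega) ?_
    calc G * ((x - y) + 1) ≤ G * (3 * G ^ 10) := Nat.mul_le_mul_left _ (by omega)
      _ = 3 * G ^ 11 := by ring
      _ ≤ G * G ^ 11 := Nat.mul_le_mul_right _ (by omega)
      _ = G ^ 12 := by ring
      _ ≤ P₂ := hP₂G.le
  have hw1 : w + 1 = m := by omega
  have hn'' := Finset.mem_Ioc.mp hn'
  rcases Nat.lt_or_ge (x - y) 2 with hJ1 | hJ2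
  · exact step_d R hm hP (by omega) hn' hk'1 hw1 (by omega) (hgd k' z hk'1 hk'k)
  rcases le_or_gt (L ^ 4) ((x - y : ℕ) : ℝ) with hmid | hsmall
  · -- mid regime
    have hxyge : 100 ≤ x - y := by
      have h1 : (100 : ℝ) ≤ ((x - y : ℕ) : ℝ) := by
        have : L ≤ L ^ 4 := le_self_pow₀ (by linarith only [hC, hlG, hL0]) (by norm_num)
        linarith only [hC, hlG, hL0, hmid, this]
      exact_mod_cast h1
    rcases le_or_gt z (40 * (x - y)) with hz40 | hz40
    · set h := ((x - y) - 1) / 2 with hh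
      have hh1 : 2 * h ≤ x - y - 1 := Nat.mul_div_le _ _
      have hh2 : x - y - 1 ≤ 2 * h + 1 := by omega
      have hG10 : G ^ 10 ≤ G ^ 11 := Nat.pow_le_pow_right (by omega) (by norm_num)
      have hhG : h ≤ G ^ 11 := by
        have : 3 * G ^ 10 ≤ G ^ 11 := by
          calc 3 * G ^ 10 ≤ G * G ^ 10 := Nat.mul_le_mul_right _ (by omega)
            _ = G ^ 11 := by ring
        omega
      rcases le_or_gt h (x - k' * P) with hside | hside
      · refine hG₂ G hGG₂ N hN m w x y z (k' * P) h (k' * P) R hmN ?_ (by omega) (by omega) (by omega) hhG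
          hmid hz40 ?_ ?_ ?_
        · calc N ≤ 2 * G * P := hPG.le
            _ ≤ 4 * G * (k' * P + 1) := Nat.mul_le_mul (by omega) (by omega)
        · intro n hn; rw [Finset.mem_Ioc] at hn ⊢; omega
        · intro n hn; rw [Finset.mem_Ioc] at hn; omega
        · exact fun h => hnotbad (Or.inl h)
      · refine hG₂ G hGG₂ N hN m w x y z (k' * P - 1 - h) h (k' * P) R hmN ?_ (by omega) (by omega) (by omega) hhG
          hmid hz40 ?_ ?_ ?_
        · have h1 : k' * P ≤ 2 * (k' * P - 1 - h + 1) := by omega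
          calc N ≤ 2 * G * P := hPG.le
            _ ≤ 2 * G * (k' * P) := Nat.mul_le_mul_left _ hn'P
            _ ≤ 2 * G * (2 * (k' * P - 1 - h + 1)) := Nat.mul_le_mul_left _ h1
            _ = 4 * G * (k' * P - 1 - h + 1) := by ring
        · intro n hn; rw [Finset.mem_Ioc] at hn ⊢; omega
        · intro n hn; rw [Finset.mem_Ioc] at hn; omega
        · exact fun h => hnotbad (Or.inl h)
    · apply hnotbad
      right; right; right; left
      refine ⟨x - y, z, by omega, hJ10.le, by omega, hmid, hz40, hz11, ?_⟩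
      unfold BadMid
      have hsub : (pr (z / 2) z).filter (fun p => ¬ ∃ i < 2 * (x - y) + 1, p ∣ (k' * P - (x - y)) + i) ⊆
          (pr (z / 2) z).filter (fun p => p ∣ m) := by
        intro q hq
        rw [Finset.mem_filter] at hq ⊢
        refine ⟨hq.1, ?_⟩
        rcases half_dvd R hq.1 with ⟨n, hn, hd⟩ | ⟨n, hn, hd⟩
        · rw [Finset.mem_Ioc] at hn
          have : n = m := by omega
          rwa [this] at hd
        · exfalso
          apply hq.2
          rw [Finset.mem_Ioc] at hn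
          refine ⟨n - (k' * P - (x - y)), by omega, ?_⟩
          rwa [show k' * P - (x - y) + (n - (k' * P - (x - y))) = n by omega]
      have hz100 : (6 : ℝ) ≤ z := by
        have : 6 ≤ z := by omega
        exact_mod_cast this
      have h1 := card_dvd_le (pr (z / 2) z) ((z : ℝ) / 2) (by linarith only [hz100]) (by
        intro p hp
        rw [mem_pr] at hp
        refine ⟨hp.2, ?_⟩
        have : z ≤ 2 * p := by omega
        have : (z : ℝ) ≤ 2 * p := by exact_mod_cast this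
        linarith only [this]) m N (by omega) hmN
      refine le_trans (by exact_mod_cast Finset.card_le_card hsub) (h1.trans ?_)
      have h2 : 1 ≤ Real.log ((z : ℝ) / 2) := by
        rw [Real.le_log_iff_exp_le (by linarith only [hz100])]
        have := Real.exp_one_lt_d9
        linarith only [hz100, this]
      rw [div_le_iff₀ (by linarith only [h2])]
      have : 0 ≤ Real.log N := Real.log_natCast_nonneg _
      nlinarith only [h2, hC, hlG, hL0]
  · -- small regime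
    apply hnotbad
    right; right; right; right
    have hL7 : (1 : ℝ) ≤ L := by linarith only [hC, hlG, hL0]
    have hK1 : x - y ≤ ⌊L ^ 7⌋₊ := by
      apply Nat.le_floor
      have : L ^ 4 ≤ L ^ 7 := pow_le_pow_right₀ hL7 (by norm_num)
      linarith only [hsmall, this]
    have hzr : (z : ℝ) + 1 ≤ L ^ 7 := by
      have h1 : (((m - w : ℕ) : ℝ) + ((x - y : ℕ) : ℝ)) ≤ 2 * L ^ 4 := by
        have h2 : ((m - w : ℕ) : ℝ) ≤ 1 := by exact_mod_cast (by omega : m - w ≤ 1)
        have h3 : (1 : ℝ) ≤ L ^ 4 := one_le_pow₀ hL7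
        linarith only [hsmall, h2, h3]
      have h2 : (z : ℝ) ≤ C * (2 * L ^ 4) * L := by
        refine hzT.trans ?_
        apply mul_le_mul_of_nonneg_right _ (by linarith only [hC, hlG, hL0])
        exact mul_le_mul_of_nonneg_left h1 hC.le
      have h3 := num_small C L hC hL1 hLC
      linarith only [h2, h3]
    have hK2 : z < ⌊L ^ 7⌋₊ := by
      have : z + 1 ≤ ⌊L ^ 7⌋₊ := by
        apply Nat.le_floor
        push_cast
        exact hzr
      omega
    rcases Nat.lt_or_ge (k' * P) x with h1 | h1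
    · have hn : k' * P + 1 ∈ Ioc y x := by rw [Finset.mem_Ioc]; omega
      exact ⟨k' * P + 1, Or.inl rfl, by omega,
        six_form R hw1 hm hP (by omega) hkG hn (Or.inl rfl) hK1 hK2⟩
    · have hn : k' * P - 1 ∈ Ioc y x := by rw [Finset.mem_Ioc]; omega
      have hn1 : k' * P - 1 + 1 = k' * P := by omega
      exact ⟨k' * P - 1, Or.inr hn1, by omega,
        six_form (k' := k') R hw1 hm hP (by omega) hkG hn (Or.inr hn1) hK1 hK2⟩

end Pool.Agent.Helper27.D6
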