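import Mathlib

/-!
# Non-primitive weird numbers and the largest prime factor

If `w` is a non-primitive weird number with largest prime factor `P`, then `w / P` is weird unless
some odd prime `q < P` with `w / q` weird satisfies `σ(P^a) < σ(q^c)`, where `P^a` and `q^c` are the
exact powers of `P` and `q` dividing `w`.
-/

open Finset ArithmeticFunction
open scoped ArithmeticFunction.sigma

namespace Pool.Agent.Helper27.EPP

/-- multiples of pseudoperfect numbers are pseudoperfect. -/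
lemma pseudoperfect_of_dvd {m n : ℕ} (hn : 0 < n) (h : m ∣ n) (hm : Nat.Pseudoperfect m) :
    Nat.Pseudoperfect n := by
  obtain ⟨k, rfl⟩ := h
  obtain ⟨hm0, s, hs, hsum⟩ := hm
  have hk : 0 < k := by
    rcases Nat.eq_zero_or_pos k with rfl | hk
    · simp at hn
    · exact hk
  refine ⟨hn, s.image (fun i => i * k), ?_, ?_⟩
  · intro x hx
    rw [mem_image] at hx
    obtain ⟨i, hi, rfl⟩ := hx
    have := hs hi
    rw [Nat.mem_properDivisors] at this ⊢
    exact ⟨Nat.mul_dvd_mul_right this.1 k, Nat.mul_lt_mul_of_pos_right this.2 hk⟩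
  · rw [Finset.sum_image]
    · rw [← Finset.sum_mul, hsum]
    · intro a _ b _ hab
      exact Nat.eq_of_mul_eq_mul_right hk hab

/-- `2^c * p` is pseudoperfect for an odd prime `p < 2^(c+1)`. -/
lemma pseudoperfect_two_pow_mul {c p : ℕ} (hp : p.Prime) (hp2 : p ≠ 2) (h : p < 2 ^ (c + 1)) :
    Nat.Pseudoperfect (2 ^ c * p) := by
  have hpos : 0 < 2 ^ c * p := by
    have := hp.pos
    positivity
  -- sum of all divisors
  have hcop : Nat.Coprime (2 ^ c) p := by
    apply Nat.Coprime.pow_left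
    rw [Nat.coprime_primes Nat.prime_two hp]
    exact hp2.symm
  have hσ : ∑ d ∈ (2 ^ c * p).divisors, d = (2 ^ (c + 1) - 1) * (p + 1) := by
    rw [← sigma_one_apply, isMultiplicative_sigma.map_mul_of_coprime hcop]
    have h1 : σ 1 (2 ^ c) = 2 ^ (c + 1) - 1 := by
      rw [sigma_one_apply_prime_pow Nat.prime_two]
      rw [Nat.geomSum_eq (le_refl 2)]
      simp
    have h2 : σ 1 p = p + 1 := by
      have := sigma_one_apply_prime_pow (i := 1) hp
      rw [pow_one] at this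
      rw [this]
      simp [Finset.sum_range_succ]
      ring
    rw [h1, h2]
  -- the excess is `2^(c+1) - 1 - p`, a sum of distinct powers of two
  set e : ℕ := 2 ^ (c + 1) - 1 - p with he
  have hbits := Finset.sum_toFinset_bitIndices_two_pow e
  have hlt : ∀ i ∈ e.bitIndices.toFinset, i < c + 1 := by
    intro i hi
    have h1 : 2 ^ i ≤ e := by
      rw [← hbits]
      exact Finset.single_le_sum (f := fun i => 2 ^ i) (fun _ _ => Nat.zero_le _) hi
    have h2 : 2 ^ i < 2 ^ (c + 1) := by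
      have : 0 < 2 ^ (c + 1) := by positivity
      omega
    exact (Nat.pow_lt_pow_iff_right (by norm_num)).mp h2
  set T : Finset ℕ := e.bitIndices.toFinset.image (fun i => 2 ^ i) with hT
  have hTsum : ∑ x ∈ T, x = e := by
    rw [hT, Finset.sum_image, hbits]
    intro a _ b _ hab
    exact Nat.pow_right_injective (le_refl 2) hab
  have hTsub : T ⊆ (2 ^ c * p).properDivisors := by
    intro x hx
    rw [hT, mem_image] at hx
    obtain ⟨i, hi, rfl⟩ := hx
    have hi' := hlt i hi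
    rw [Nat.mem_properDivisors]
    constructor
    · exact Dvd.dvd.mul_right (pow_dvd_pow 2 (by omega)) p
    · have h1 : 2 ^ i ≤ 2 ^ c := Nat.pow_le_pow_right (by norm_num) (by omega)
      have h2 : 2 ^ c * 1 < 2 ^ c * p := Nat.mul_lt_mul_of_pos_left hp.one_lt (by positivity)
      omega
  refine ⟨hpos, (2 ^ c * p).properDivisors \ T, Finset.sdiff_subset, ?_⟩
  have h1 := Finset.sum_sdiff (f := fun x => x) hTsub
  have h2 : ∑ x ∈ (2 ^ c * p).properDivisors, x + 2 ^ c * p = (2 ^ (c + 1) - 1) * (p + 1) := by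
    rw [← hσ]
    exact (Nat.sum_divisors_eq_sum_properDivisors_add_self).symm
  have h3 : (2 ^ (c + 1) - 1) * (p + 1) = 2 * (2 ^ c * p) + e := by
    have h4 : 1 ≤ 2 ^ (c + 1) := Nat.one_le_two_pow
    obtain ⟨m, hm⟩ := Nat.exists_eq_add_of_le h4
    have h5 : 2 * (2 ^ c * p) = (m + 1) * p := by
      have : 2 ^ (c + 1) = 2 * 2 ^ c := by ring
      have h6 : 2 * (2 ^ c * p) = 2 ^ (c + 1) * p := by rw [this]; ring
      rw [h6, hm]
      ring
    rw [h5, he, hm]
    have h6 : 1 + m - 1 = m := by omega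
    rw [h6]
    have h7 : p ≤ m := by omega
    obtain ⟨r, rfl⟩ := Nat.exists_eq_add_of_le h7
    have h8 : p + r - p = r := by omega
    rw [h8]
    ring
  rw [hTsum] at h1
  omega

/-- The main theorem. -/
theorem main {w P : ℕ} (hw : Nat.Weird w) (hP : P.Prime) (hPw : P ∣ w)
    (hmax : ∀ q : ℕ, q.Prime → q ∣ w → q ≤ P) (hnp : ∃ v : ℕ, v ∣ w ∧ v < w ∧ Nat.Weird v) :
    Nat.Weird (w / P) ∨
      ∃ q : ℕ, q.Prime ∧ q ≠ 2 ∧ q < P ∧ q ∣ w ∧ Nat.Weird (w / q) ∧
        σ 1 (P ^ w.factorization P) < σ 1 (q ^ w.factorization q) := by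
  obtain ⟨v, hvw, hvlt, hv⟩ := hnp
  obtain ⟨k, rfl⟩ := hvw
  have hw0 : 0 < v * k := hw.pos
  have hv0 : 0 < v := hv.pos
  have hk1 : k ≠ 1 := by
    rintro rfl
    omega
  obtain ⟨q, hq, hqk⟩ := Nat.exists_prime_and_dvd hk1
  have hqw : q ∣ v * k := Dvd.dvd.mul_left hqk v
  set w := v * k with hwdef
  have hdiv_not_pp : ∀ r : ℕ, r ∣ w → ¬ Nat.Pseudoperfect (w / r) := by
    intro r hr hpp
    exact hw.2 (pseudoperfect_of_dvd hw0 (Nat.div_dvd_of_dvd hr) hpp)
  have hwq : Nat.Weird (w / q) := by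
    refine ⟨?_, hdiv_not_pp q hqw⟩
    have h1 : v ∣ w / q := by
      obtain ⟨m, rfl⟩ := hqk
      refine ⟨m, ?_⟩
      rw [hwdef]
      have : v * (q * m) = q * (v * m) := by ring
      rw [this, Nat.mul_div_cancel_left _ hq.pos]
    have h2 : w / q ≠ 0 := by
      have := Nat.div_pos (Nat.le_of_dvd hw0 hqw) hq.pos
      omega
    exact hv.1.of_dvd h1 h2
  rcases (hmax q hq hqw).eq_or_lt with hqP | hqP
  · left
    rw [← hqP]
    exact hwq
  by_cases hwP : Nat.Weird (w / P)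
  · exact Or.inl hwP
  right
  have hnab : ¬ Nat.Abundant (w / P) := fun hab => hwP ⟨hab, hdiv_not_pp P hPw⟩
  -- write `w = P^a * (q^c * m)`
  set a := w.factorization P with ha
  set c := w.factorization q with hc
  have hw0' : w ≠ 0 := by omega
  have ha1 : 1 ≤ a := (hP.dvd_iff_one_le_factorization hw0').mp hPw
  have hc1 : 1 ≤ c := (hq.dvd_iff_one_le_factorization hw0').mp hqw
  obtain ⟨m, hm⟩ : ∃ m, w = P ^ a * (q ^ c * m) := by
    have h1 : P ^ a ∣ w := Nat.ordProj_dvd w P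
    have h2 : q ^ c ∣ w := Nat.ordProj_dvd w q
    have hcop : Nat.Coprime (P ^ a) (q ^ c) := by
      apply Nat.Coprime.pow
      rw [Nat.coprime_primes hP hq]
      omega
    obtain ⟨m, hm⟩ := hcop.mul_dvd_of_dvd_of_dvd h1 h2
    exact ⟨m, by rw [hm]; ring⟩
  have hPq : P ≠ q := by omega
  have hm0 : m ≠ 0 := by
    rintro rfl
    simp at hm
    omega
  have hPm : ¬ P ∣ m := by
    intro h
    have h1 : P ^ (a + 1) ∣ w := by
      rw [hm, pow_succ]
      exact Nat.mul_dvd_mul_left _ (Dvd.dvd.mul_left h _)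
    exact Nat.pow_succ_factorization_not_dvd hw0' hP h1
  have hqm : ¬ q ∣ m := by
    intro h
    have h1 : q ^ (c + 1) ∣ w := by
      rw [hm, pow_succ]
      exact Dvd.dvd.mul_left (Nat.mul_dvd_mul_left _ h) _
    exact Nat.pow_succ_factorization_not_dvd hw0' hq h1
  have hcopq : ∀ i, Nat.Coprime (q ^ i) m := fun i =>
    Nat.Coprime.pow_left i ((Nat.Prime.coprime_iff_not_dvd hq).mpr hqm)
  have hcopP : ∀ i j, Nat.Coprime (P ^ i) (q ^ j * m) := fun i j => by
    apply Nat.Coprime.mul_right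
    · apply Nat.Coprime.pow
      rw [Nat.coprime_primes hP hq]
      exact hPq
    · exact Nat.Coprime.pow_left i ((Nat.Prime.coprime_iff_not_dvd hP).mpr hPm)
  have hσ : ∀ i j, σ 1 (P ^ i * (q ^ j * m)) = σ 1 (P ^ i) * (σ 1 (q ^ j) * σ 1 m) := fun i j => by
    rw [isMultiplicative_sigma.map_mul_of_coprime (hcopP i j),
      isMultiplicative_sigma.map_mul_of_coprime (hcopq j)]
  have hdP : w / P = P ^ (a - 1) * (q ^ c * m) := by
    obtain ⟨a', ha'⟩ : ∃ a', a = a' + 1 := ⟨a - 1, by omega⟩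
    rw [hm, ha']
    have : P ^ (a' + 1) * (q ^ c * m) = P * (P ^ a' * (q ^ c * m)) := by ring
    rw [this, Nat.mul_div_cancel_left _ hP.pos]
    simp
  have hdq : w / q = P ^ a * (q ^ (c - 1) * m) := by
    obtain ⟨c', hc'⟩ : ∃ c', c = c' + 1 := ⟨c - 1, by omega⟩
    rw [hm, hc']
    have : P ^ a * (q ^ (c' + 1) * m) = q * (P ^ a * (q ^ c' * m)) := by ring
    rw [this, Nat.mul_div_cancel_left _ hq.pos]
    simp
  have hrec : ∀ (r : ℕ), r.Prime → ∀ i, 1 ≤ i → σ 1 (r ^ i) = r * σ 1 (r ^ (i - 1)) + 1 := by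
    intro r hr i hi
    obtain ⟨i', rfl⟩ : ∃ i', i = i' + 1 := ⟨i - 1, by omega⟩
    rw [sigma_one_apply_prime_pow hr, sigma_one_apply_prime_pow hr, Nat.add_sub_cancel,
      Finset.sum_range_succ', Finset.mul_sum]
    simp [pow_succ, mul_comm]
  -- the two inequalities
  have hineq1 : σ 1 (P ^ (a - 1)) * (σ 1 (q ^ c) * σ 1 m) ≤ 2 * (P ^ (a - 1) * (q ^ c * m)) := by
    rw [← hσ, ← hdP, sigma_one_apply]
    rw [Nat.abundant_iff_sum_divisors] at hnab
    omega
  have hineq2 : 2 * (P ^ a * (q ^ (c - 1) * m)) < σ 1 (P ^ a) * (σ 1 (q ^ (c - 1)) * σ 1 m) := by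
    rw [← hσ, ← hdq, sigma_one_apply]
    exact Nat.abundant_iff_sum_divisors.mp hwq.1
  have hσP := hrec P hP a ha1
  have hσq := hrec q hq c hc1
  have hmain : σ 1 (P ^ a) < σ 1 (q ^ c) := by
    by_contra hcon
    push Not at hcon
    set x := σ 1 (P ^ (a - 1)) with hx
    set y := σ 1 (q ^ (c - 1)) with hy
    set z := σ 1 m with hz
    -- P * q * (...)
    have e1 : P * q * (2 * (P ^ (a - 1) * (q ^ c * m))) = q * (2 * (q * (P ^ a * (q ^ (c - 1) * m)))) := by
      have h1 : P ^ a = P * P ^ (a - 1) := by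
        rw [← pow_succ']
        congr 1
        omega
      have h2 : q ^ c = q * q ^ (c - 1) := by
        rw [← pow_succ']
        congr 1
        omega
      rw [h1, h2]
      ring
    have h1 : P * q * (x * (σ 1 (q ^ c) * z)) ≤ P * q * (2 * (P ^ (a - 1) * (q ^ c * m))) :=
      Nat.mul_le_mul_left _ hineq1
    have h2 : q * (2 * (q * (P ^ a * (q ^ (c - 1) * m)))) < q * (q * (σ 1 (P ^ a) * (y * z))) := by
      have h3 : q * (2 * (P ^ a * (q ^ (c - 1) * m))) < q * (σ 1 (P ^ a) * (y * z)) :=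
        Nat.mul_lt_mul_of_pos_left hineq2 hq.pos
      have h4 : 2 * (q * (P ^ a * (q ^ (c - 1) * m))) = q * (2 * (P ^ a * (q ^ (c - 1) * m))) := by ring
      rw [h4]
      exact Nat.mul_lt_mul_of_pos_left h3 hq.pos
    rw [e1] at h1
    have h3 : P * q * (x * (σ 1 (q ^ c) * z)) < q * (q * (σ 1 (P ^ a) * (y * z))) := lt_of_le_of_lt h1 h2
    have h4 : P * q * (x * (σ 1 (q ^ c) * z)) = (q * z) * ((P * x) * σ 1 (q ^ c)) := by ring
    have h5 : q * (q * (σ 1 (P ^ a) * (y * z))) = (q * z) * (σ 1 (P ^ a) * (q * y)) := by ring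
    rw [h4, h5] at h3
    have h6 : (P * x) * σ 1 (q ^ c) < σ 1 (P ^ a) * (q * y) := lt_of_mul_lt_mul_left h3 (Nat.zero_le _)
    rw [hσP, hσq] at h6 hcon
    nlinarith
  have hq2 : q ≠ 2 := by
    rintro rfl
    -- `2^c * P` is pseudoperfect and divides `w`
    have h1 : σ 1 (2 ^ c) = 2 ^ (c + 1) - 1 := by
      rw [sigma_one_apply_prime_pow Nat.prime_two, Nat.geomSum_eq (le_refl 2)]
      simp
    have h2 : P + 1 ≤ σ 1 (P ^ a) := by
      rw [hσP]
      have : 1 ≤ σ 1 (P ^ (a - 1)) := by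
        rw [sigma_one_apply]
        have : 1 ∈ (P ^ (a - 1)).divisors := by
          rw [Nat.mem_divisors]
          exact ⟨one_dvd _, pow_ne_zero _ hP.ne_zero⟩
        exact Finset.single_le_sum (f := fun x => x) (fun _ _ => Nat.zero_le _) this
      nlinarith [hP.pos]
    have h3 : P < 2 ^ (c + 1) := by
      rw [h1] at hmain
      omega
    have h4 : 2 ^ c * P ∣ w := by
      rw [hm]
      have h5 : P ∣ P ^ a := dvd_pow_self P (by omega)
      have : 2 ^ c * P ∣ P ^ a * 2 ^ c := by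
        rw [mul_comm]
        exact Nat.mul_dvd_mul_right h5 _
      exact this.trans ⟨m, by ring⟩
    exact hw.2 (pseudoperfect_of_dvd hw0 h4 (pseudoperfect_two_pow_mul hP (by omega) h3))
  exact ⟨q, hq, hq2, hqP, hqw, hwq, hmain⟩

end Pool.Agent.Helper27.EPP
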