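import Mathlib

/-! Quadratic Weyl sums: basic estimates. -/

open Finset Complex

namespace Pool.Agent.Helper27.Weyl

/-- the additive character. -/
noncomputable def eR (t : ℝ) : ℂ := Complex.exp ((2 * Real.pi * t : ℝ) * I)

lemma norm_eR (t : ℝ) : ‖eR t‖ = 1 := by
  unfold eR
  exact Complex.norm_exp_ofReal_mul_I _

lemma eR_add (s t : ℝ) : eR (s + t) = eR s * eR t := by
  unfold eR
  rw [← Complex.exp_add]
  congr 1
  push_cast
  ring

lemma eR_zero : eR 0 = 1 := by
  simp [eR]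

lemma eR_int (n : ℤ) : eR n = 1 := by
  unfold eR
  rw [Complex.exp_eq_one_iff]
  exact ⟨n, by push_cast; ring⟩

lemma eR_add_int (t : ℝ) (n : ℤ) : eR (t + n) = eR t := by
  rw [eR_add, eR_int, mul_one]

lemma eR_neg (t : ℝ) : eR (-t) = (starRingEnd ℂ) (eR t) := by
  unfold eR
  rw [← Complex.exp_conj]
  congr 1
  rw [map_mul, Complex.conj_I, Complex.conj_ofReal]
  push_cast
  ring

lemma eR_mul_natCast (t : ℝ) (n : ℕ) : eR (t * n) = eR t ^ n := by
  unfold eR
  rw [← Complex.exp_nat_mul]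
  congr 1
  push_cast
  ring

lemma norm_eR_sub_one (t : ℝ) : ‖eR t - 1‖ = 2 * |Real.sin (Real.pi * t)| := by
  unfold eR
  have h : Complex.exp ((2 * Real.pi * t : ℝ) * I) - 1
      = Complex.exp ((Real.pi * t : ℝ) * I) * (2 * I * Complex.sin ((Real.pi * t : ℝ))) := by
    have h1 : Complex.exp ((2 * Real.pi * t : ℝ) * I)
        = Complex.exp ((Real.pi * t : ℝ) * I) * Complex.exp ((Real.pi * t : ℝ) * I) := by
      rw [← Complex.exp_add]
      congr 1
      push_cast
      ring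
    have h2 : (1 : ℂ) = Complex.exp ((Real.pi * t : ℝ) * I) * Complex.exp (-((Real.pi * t : ℝ)) * I) := by
      rw [← Complex.exp_add]
      simp
    have h3 : 2 * I * Complex.sin ((Real.pi * t : ℝ))
        = Complex.exp ((Real.pi * t : ℝ) * I) - Complex.exp (-((Real.pi * t : ℝ)) * I) := by
      rw [Complex.sin]
      have : I * I = -1 := I_mul_I
      linear_combination (Complex.exp (-((Real.pi * t : ℝ)) * I) - Complex.exp ((Real.pi * t : ℝ) * I)) * this
    rw [h3, mul_sub, ← h2, ← h1]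
  rw [h, norm_mul, Complex.norm_exp_ofReal_mul_I, one_mul, norm_mul, norm_mul, Complex.norm_I,
    ← Complex.ofReal_sin, Complex.norm_real]
  simp

lemma norm_eR_sub_one_le (t : ℝ) : ‖eR t - 1‖ ≤ 2 * Real.pi * |t| := by
  rw [norm_eR_sub_one]
  have : |Real.sin (Real.pi * t)| ≤ |Real.pi * t| := Real.abs_sin_le_abs
  rw [abs_mul, abs_of_pos Real.pi_pos] at this
  linarith

lemma norm_eR_sub_eR_le (s t : ℝ) : ‖eR s - eR t‖ ≤ 2 * Real.pi * |s - t| := by
  have h : eR s - eR t = eR t * (eR (s - t) - 1) := by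
    rw [mul_sub, ← eR_add]
    simp
  rw [h, norm_mul, norm_eR, one_mul]
  exact norm_eR_sub_one_le _

/-- distance to the nearest integer. -/
noncomputable def dz (t : ℝ) : ℝ := |t - round t|

lemma dz_nonneg (t : ℝ) : 0 ≤ dz t := abs_nonneg _

lemma dz_le_half (t : ℝ) : dz t ≤ 1 / 2 := abs_sub_round t

lemma dz_le (t : ℝ) (n : ℤ) : dz t ≤ |t - n| := round_le t n

lemma norm_eR_sub_one_ge (t : ℝ) : 4 * dz t ≤ ‖eR t - 1‖ := by
  have h1 : eR t = eR (t - round t) := by
    have := eR_add_int (t - round t) (round t)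
    rw [← this]
    congr 1
    ring
  rw [h1, norm_eR_sub_one]
  have h2 : |Real.sin (Real.pi * (t - round t))| = Real.sin (Real.pi * dz t) := by
    unfold dz
    rcases le_total 0 (t - round t) with h | h
    · rw [abs_of_nonneg h, abs_of_nonneg]
      apply Real.sin_nonneg_of_nonneg_of_le_pi
      · positivity
      · have := dz_le_half t
        unfold dz at this
        rw [abs_of_nonneg h] at this
        nlinarith [Real.pi_pos]
    · rw [abs_of_nonpos h, mul_neg, Real.sin_neg, abs_of_nonpos]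
      apply Real.sin_nonpos_of_nonpos_of_neg_pi_le
      · exact mul_nonpos_of_nonneg_of_nonpos Real.pi_pos.le h
      · have := dz_le_half t
        unfold dz at this
        rw [abs_of_nonpos h] at this
        nlinarith [Real.pi_pos]
  rw [h2]
  have h3 : 2 / Real.pi * (Real.pi * dz t) ≤ Real.sin (Real.pi * dz t) := by
    apply Real.mul_le_sin
    · exact mul_nonneg Real.pi_pos.le (dz_nonneg t)
    · have := dz_le_half t
      nlinarith [Real.pi_pos]
  have h4 : 2 / Real.pi * (Real.pi * dz t) = 2 * dz t := by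
    field_simp
  rw [h4] at h3
  linarith

/-- the geometric-sum bound. -/
lemma norm_geom_le (c θ : ℝ) (M : ℕ) (hθ : 0 < dz θ) :
    ‖∑ m ∈ range M, eR (c + θ * m)‖ ≤ 1 / (2 * dz θ) := by
  have h1 : ∑ m ∈ range M, eR (c + θ * m) = eR c * ∑ m ∈ range M, eR θ ^ m := by
    rw [Finset.mul_sum]
    apply Finset.sum_congr rfl
    intro m _
    rw [eR_add, eR_mul_natCast]
  rw [h1, norm_mul, norm_eR, one_mul]
  have h2 : (∑ m ∈ range M, eR θ ^ m) * (eR θ - 1) = eR θ ^ M - 1 := geom_sum_mul _ _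
  have h3 := norm_eR_sub_one_ge θ
  have h4 : ‖eR θ ^ M - 1‖ ≤ 2 := by
    calc ‖eR θ ^ M - 1‖ ≤ ‖eR θ ^ M‖ + ‖(1 : ℂ)‖ := norm_sub_le _ _
      _ = 2 := by rw [norm_pow, norm_eR]; norm_num
  rw [← h2, norm_mul] at h4
  have h5 : 0 < 4 * dz θ := by linarith
  have h6 : ‖∑ m ∈ range M, eR θ ^ m‖ * (4 * dz θ) ≤ 2 :=
    (mul_le_mul_of_nonneg_left h3 (norm_nonneg _)).trans h4
  rw [le_div_iff₀ (by linarith)]
  linarith

/-- The cut-off function min(N, 1/(2t)). -/
noncomputable def cut (N : ℝ) (t : ℝ) : ℝ := if t = 0 then N else min N (1 / (2 * t))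

lemma cut_nonneg {N : ℝ} (hN : 0 ≤ N) {t : ℝ} (ht : 0 ≤ t) : 0 ≤ cut N t := by
  unfold cut
  split_ifs
  · exact hN
  · positivity

lemma cut_le {N : ℝ} (t : ℝ) : cut N t ≤ N := by
  unfold cut
  split_ifs
  · exact le_rfl
  · exact min_le_left _ _

lemma norm_geom_le_cut (c θ : ℝ) (M N : ℕ) (hM : M ≤ N) :
    ‖∑ m ∈ range M, eR (c + θ * m)‖ ≤ cut N (dz θ) := by
  have h0 : ‖∑ m ∈ range M, eR (c + θ * m)‖ ≤ N := by
    calc ‖∑ m ∈ range M, eR (c + θ * m)‖ ≤ ∑ m ∈ range M, ‖eR (c + θ * m)‖ := norm_sum_le _ _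
      _ = M := by simp [norm_eR]
      _ ≤ N := by exact_mod_cast hM
  unfold cut
  split_ifs with h
  · exact h0
  · exact le_min h0 (norm_geom_le c θ M (lt_of_le_of_ne (dz_nonneg θ) (Ne.symm h)))

end Pool.Agent.Helper27.Weyl
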