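import Pool.Agent.Helper27.WeylA

/-! Weyl differencing for quadratic sums and sums over well-separated points. -/

open Finset Complex

namespace Pool.Agent.Helper27.Weyl

/-- The quadratic Weyl sum. -/
noncomputable def Q (x : ℝ) (N : ℕ) : ℂ := ∑ n ∈ range N, eR (x * ((n : ℝ) + 1) ^ 2)

lemma sum_lower_triangle (N : ℕ) (g : ℕ → ℕ → ℂ) :
    ∑ n ∈ range N, ∑ m ∈ range (n + 1), g n m = ∑ h ∈ range N, ∑ m ∈ range (N - h), g (m + h) m := by
  rw [Finset.sum_sigma', Finset.sum_sigma']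
  apply Finset.sum_nbij' (fun p => ⟨p.1 - p.2, p.2⟩) (fun p => ⟨p.2 + p.1, p.2⟩)
  · rintro ⟨n, m⟩ h
    simp only [mem_sigma, mem_range] at h ⊢
    omega
  · rintro ⟨n, m⟩ h
    simp only [mem_sigma, mem_range] at h ⊢
    omega
  · rintro ⟨n, m⟩ h
    simp only [mem_sigma, mem_range] at h
    simp only [Sigma.mk.injEq, heq_eq_eq, and_true]
    omega
  · rintro ⟨n, m⟩ h
    simp only [mem_sigma, mem_range] at h
    simp only [Sigma.mk.injEq, heq_eq_eq, and_true]
    omega
  · rintro ⟨n, m⟩ h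
    simp only [mem_sigma, mem_range] at h
    have : m + (n - m) = n := by omega
    simp only [this]

lemma norm_sum_lower_triangle (x : ℝ) (N : ℕ) :
    ‖∑ n ∈ range N, ∑ m ∈ range (n + 1),
      eR (x * ((n : ℝ) + 1) ^ 2) * (starRingEnd ℂ) (eR (x * ((m : ℝ) + 1) ^ 2))‖
      ≤ ∑ h ∈ range N, cut N (dz (2 * x * h)) := by
  rw [sum_lower_triangle]
  refine (norm_sum_le _ _).trans (Finset.sum_le_sum fun h _ => ?_)
  have h1 : ∀ m : ℕ, eR (x * (((m + h : ℕ) : ℝ) + 1) ^ 2) * (starRingEnd ℂ) (eR (x * ((m : ℝ) + 1) ^ 2))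
      = eR ((x * h ^ 2 + 2 * x * h) + (2 * x * h) * m) := by
    intro m
    rw [← eR_neg, ← eR_add]
    congr 1
    push_cast
    ring
  simp_rw [h1]
  exact norm_geom_le_cut _ _ _ _ (Nat.sub_le _ _)

lemma norm_Q_sq_le (x : ℝ) (N : ℕ) :
    ‖Q x N‖ ^ 2 ≤ 2 * ∑ h ∈ range N, cut N (dz (2 * x * h)) := by
  set f : ℕ → ℂ := fun n => eR (x * ((n : ℝ) + 1) ^ 2) with hf
  have h1 : ((‖Q x N‖ ^ 2 : ℝ) : ℂ) = ∑ n ∈ range N, ∑ m ∈ range N, f n * (starRingEnd ℂ) (f m) := by
    rw [← Complex.normSq_eq_norm_sq, ← Complex.mul_conj]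
    unfold Q
    rw [map_sum, Finset.sum_mul_sum]
  -- split into m ≤ n and n < m
  have h2 : ∑ n ∈ range N, ∑ m ∈ range N, f n * (starRingEnd ℂ) (f m)
      = (∑ n ∈ range N, ∑ m ∈ range (n + 1), f n * (starRingEnd ℂ) (f m))
        + (∑ m ∈ range N, ∑ n ∈ range (m + 1), f n * (starRingEnd ℂ) (f m))
        - ∑ n ∈ range N, f n * (starRingEnd ℂ) (f n) := by
    have e1 : ∀ n ∈ range N, ∑ m ∈ range N, f n * (starRingEnd ℂ) (f m)
        = ∑ m ∈ range (n + 1), f n * (starRingEnd ℂ) (f m)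
          + ∑ m ∈ Ico (n + 1) N, f n * (starRingEnd ℂ) (f m) := by
      intro n hn
      rw [mem_range] at hn
      rw [Finset.sum_range_add_sum_Ico _ (by omega)]
    rw [Finset.sum_congr rfl e1, Finset.sum_add_distrib]
    have e2 : ∑ n ∈ range N, ∑ m ∈ Ico (n + 1) N, f n * (starRingEnd ℂ) (f m)
        = ∑ m ∈ range N, ∑ n ∈ range m, f n * (starRingEnd ℂ) (f m) := by
      apply Finset.sum_comm'
      intro a b
      simp only [mem_range, mem_Ico]
      omega
    rw [e2]
    have e3 : ∑ m ∈ range N, ∑ n ∈ range (m + 1), f n * (starRingEnd ℂ) (f m)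
        = ∑ m ∈ range N, ∑ n ∈ range m, f n * (starRingEnd ℂ) (f m)
          + ∑ n ∈ range N, f n * (starRingEnd ℂ) (f n) := by
      rw [← Finset.sum_add_distrib]
      apply Finset.sum_congr rfl
      intro m _
      rw [Finset.sum_range_succ]
    rw [e3]
    ring
  have h3 : ∑ m ∈ range N, ∑ n ∈ range (m + 1), f n * (starRingEnd ℂ) (f m)
      = (starRingEnd ℂ) (∑ n ∈ range N, ∑ m ∈ range (n + 1), f n * (starRingEnd ℂ) (f m)) := by
    simp only [map_sum, map_mul, Complex.conj_conj]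
    apply Finset.sum_congr rfl
    intro m _
    apply Finset.sum_congr rfl
    intro n _
    ring
  have h4 : ∑ n ∈ range N, f n * (starRingEnd ℂ) (f n) = (N : ℂ) := by
    have : ∀ n ∈ range N, f n * (starRingEnd ℂ) (f n) = 1 := by
      intro n _
      rw [Complex.mul_conj, Complex.normSq_eq_norm_sq, hf]
      simp [norm_eR]
    rw [Finset.sum_congr rfl this]
    simp
  set T := ∑ n ∈ range N, ∑ m ∈ range (n + 1), f n * (starRingEnd ℂ) (f m) with hT
  have h5 : ‖Q x N‖ ^ 2 = 2 * T.re - N := by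
    have h6 : ((‖Q x N‖ ^ 2 : ℝ) : ℂ) = T + (starRingEnd ℂ) T - N := by
      rw [h1, h2, h3, h4]
    have h7 := congrArg Complex.re h6
    rw [Complex.ofReal_re] at h7
    rw [h7]
    simp
    ring
  have h8 : T.re ≤ ∑ h ∈ range N, cut N (dz (2 * x * h)) :=
    (Complex.re_le_norm T).trans (norm_sum_lower_triangle x N)
  have h9 : (0 : ℝ) ≤ N := Nat.cast_nonneg N
  rw [h5]
  linarith

/-- majorant indexed by the cell number. -/
noncomputable def G (N δ : ℝ) (k : ℤ) : ℝ :=
  if k = 0 ∨ k = -1 then N else 1 / (2 * (δ * (if 0 < k then (k : ℝ) else -k - 1)))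

lemma G_nonneg {N δ : ℝ} (hN : 0 ≤ N) (hδ : 0 < δ) (k : ℤ) : 0 ≤ G N δ k := by
  unfold G
  split_ifs with h1 h2
  · exact hN
  · have : (0 : ℝ) < k := by exact_mod_cast h2
    positivity
  · push Not at h1
    have : (0 : ℝ) ≤ -k - 1 := by
      have : k ≤ -1 := by omega
      have : (k : ℝ) ≤ -1 := by exact_mod_cast this
      linarith
    positivity

lemma cut_le_G {N δ t : ℝ} (hδ : 0 < δ) (k : ℤ) (hk : k = ⌊t / δ⌋) :
    cut N |t| ≤ G N δ k := by
  unfold G
  split_ifs with h1 h2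
  · exact cut_le _
  · -- k ≥ 1
    have hk1 : (k : ℝ) ≤ t / δ := by rw [hk]; exact Int.floor_le _
    have hk0 : (0 : ℝ) < k := by exact_mod_cast h2
    have ht : δ * k ≤ t := by
      rw [le_div_iff₀ hδ] at hk1
      linarith
    have hδk : 0 < δ * k := by positivity
    have ht0 : 0 < t := lt_of_lt_of_le hδk ht
    unfold cut
    rw [if_neg (by rw [abs_of_pos ht0]; exact ht0.ne'), abs_of_pos ht0]
    refine (min_le_right _ _).trans ?_
    apply one_div_le_one_div_of_le (by positivity)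
    linarith
  · -- k ≤ -2
    push Not at h1
    have hk2 : k ≤ -2 := by omega
    have hk1 : t / δ < k + 1 := by rw [hk]; exact Int.lt_floor_add_one _
    have hk0 : (k : ℝ) ≤ -2 := by exact_mod_cast hk2
    rw [div_lt_iff₀ hδ] at hk1
    have hpos : 0 < δ * (-k - 1) := by
      apply mul_pos hδ
      linarith
    have ht0 : t < 0 := by nlinarith
    unfold cut
    rw [if_neg (by rw [abs_of_neg ht0]; linarith), abs_of_neg ht0]
    refine (min_le_right _ _).trans ?_
    apply one_div_le_one_div_of_le (by positivity)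
    nlinarith

lemma sum_G_le {N δ : ℝ} (hδ : 0 < δ) (K : ℕ) :
    ∑ k ∈ Finset.Ico (-(K : ℤ) - 1) (K + 1), G N δ k ≤ 2 * N + (1 / δ) * (1 + Real.log K) := by
  -- split the sum
  have h1 : ∑ k ∈ Finset.Ico (-(K : ℤ) - 1) (K + 1), G N δ k
      = ∑ j ∈ range (K + 1), G N δ (j : ℤ) + ∑ j ∈ range (K + 1), G N δ (-(j : ℤ) - 1) := by
    have e1 : Finset.Ico (-(K : ℤ) - 1) (K + 1)
        = (range (K + 1)).image (fun j : ℕ => (j : ℤ)) ∪ (range (K + 1)).image (fun j : ℕ => -(j : ℤ) - 1) := by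
      ext k
      simp only [mem_Ico, mem_union, mem_image, mem_range]
      constructor
      · intro ⟨h1, h2⟩
        rcases le_or_gt 0 k with h | h
        · left; exact ⟨k.toNat, by omega, by omega⟩
        · right; exact ⟨(-k - 1).toNat, by omega, by omega⟩
      · rintro (⟨j, h1, h2⟩ | ⟨j, h1, h2⟩) <;> omega
    rw [e1, Finset.sum_union, Finset.sum_image, Finset.sum_image]
    · intro a _ b _ hab
      simp only at hab
      omega
    · intro a _ b _ hab
      simp only at hab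
      omega
    · rw [Finset.disjoint_left]
      intro k hk hk'
      simp only [mem_image, mem_range] at hk hk'
      obtain ⟨a, ha, rfl⟩ := hk
      obtain ⟨b, hb, hab⟩ := hk'
      omega
  have h2 : ∀ j : ℕ, G N δ (-(j : ℤ) - 1) = G N δ (j : ℤ) := by
    intro j
    unfold G
    rcases Nat.eq_zero_or_pos j with rfl | hj
    · simp
    · rw [if_neg (by omega), if_neg (by omega), if_neg (by omega), if_pos (by omega)]
      push_cast
      ring_nf
  have h3 : ∑ j ∈ range (K + 1), G N δ (j : ℤ) ≤ N + (1 / (2 * δ)) * (1 + Real.log K) := by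
    rw [Finset.sum_range_succ']
    have e0 : G N δ ((0 : ℕ) : ℤ) = N := by simp [G]
    rw [e0]
    have e1 : ∀ j ∈ range K, G N δ ((j + 1 : ℕ) : ℤ) = (1 / (2 * δ)) * ((j + 1 : ℕ) : ℝ)⁻¹ := by
      intro j _
      unfold G
      rw [if_neg (by omega), if_pos (by omega)]
      push_cast
      field_simp
    rw [Finset.sum_congr rfl e1, ← Finset.mul_sum]
    have e2 : ∑ j ∈ range K, (((j + 1 : ℕ) : ℝ))⁻¹ = ((harmonic K : ℚ) : ℝ) := by
      unfold harmonic
      push_cast
      rfl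
    rw [e2]
    have e3 := harmonic_le_one_add_log K
    have e4 : 0 < 1 / (2 * δ) := by positivity
    have e5 := mul_le_mul_of_nonneg_left e3 e4.le
    linarith
  rw [h1, Finset.sum_congr rfl (fun j _ => h2 j)]
  have h4 : 2 * (1 / (2 * δ)) = 1 / δ := by field_simp
  calc _ ≤ (N + (1 / (2 * δ)) * (1 + Real.log K)) + (N + (1 / (2 * δ)) * (1 + Real.log K)) :=
        add_le_add h3 h3
    _ = 2 * N + (2 * (1 / (2 * δ))) * (1 + Real.log K) := by ring
    _ = _ := by rw [h4]

/-- Sum of `cut` over well separated points. -/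
lemma sum_cut_separated {ι : Type*} (T : Finset ι) (θ : ι → ℝ) {N δ : ℝ} (hN : 0 ≤ N) (hδ : 0 < δ)
    (hsep : ∀ i ∈ T, ∀ j ∈ T, i ≠ j → δ ≤ dz (θ i - θ j)) (K : ℕ) (hK : 1 / (2 * δ) ≤ K) :
    ∑ i ∈ T, cut N (dz (θ i)) ≤ 2 * N + (1 / δ) * (1 + Real.log K) := by
  classical
  set k : ι → ℤ := fun i => ⌊(θ i - round (θ i)) / δ⌋ with hk
  have hinj : Set.InjOn k T := by
    intro i hi j hj hij
    by_contra hne
    have h1 := hsep i hi j hj hne
    have h2 : dz (θ i - θ j) ≤ |(θ i - round (θ i)) - (θ j - round (θ j))| := by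
      have := dz_le (θ i - θ j) (round (θ i) - round (θ j))
      push_cast at this
      convert this using 2
      ring
    have h3 : |(θ i - round (θ i)) / δ - (θ j - round (θ j)) / δ| < 1 := by
      have hij' : ⌊(θ i - round (θ i)) / δ⌋ = ⌊(θ j - round (θ j)) / δ⌋ := hij
      exact Int.abs_sub_lt_one_of_floor_eq_floor hij'
    rw [← sub_div, abs_div, abs_of_pos hδ, div_lt_one hδ] at h3
    linarith
  have hle : ∀ i ∈ T, cut N (dz (θ i)) ≤ G N δ (k i) := by
    intro i _
    exact cut_le_G hδ (k i) rfl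
  refine (Finset.sum_le_sum hle).trans ?_
  rw [← Finset.sum_image (f := G N δ) (g := k) hinj]
  refine le_trans ?_ (sum_G_le hδ K)
  apply Finset.sum_le_sum_of_subset_of_nonneg
  · intro z hz
    rw [Finset.mem_image] at hz
    obtain ⟨i, _, rfl⟩ := hz
    have h1 : |θ i - round (θ i)| ≤ 1 / 2 := abs_sub_round _
    have h2 := abs_le.mp h1
    rw [Finset.mem_Ico]
    constructor
    · rw [hk, Int.le_floor]
      push_cast
      have : -(K : ℝ) ≤ (θ i - round (θ i)) / δ := by
        rw [le_div_iff₀ hδ]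
        rw [div_le_iff₀ (by positivity)] at hK
        nlinarith
      linarith
    · rw [hk, Int.floor_lt]
      push_cast
      have : (θ i - round (θ i)) / δ ≤ K := by
        rw [div_le_iff₀ hδ]
        rw [div_le_iff₀ (by positivity)] at hK
        nlinarith
      linarith
  · intro z _ _
    exact G_nonneg hN hδ z

end Pool.Agent.Helper27.Weyl
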