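import Pool.Agent.Helper27.WeylB

/-! The upper bound for quadratic Weyl sums at numbers of given irrationality exponent. -/

open Finset Complex

namespace Pool.Agent.Helper27.Weyl

lemma dz_mul_ge {α : ℝ} {Q : ℕ} (r : ℚ) (h1 : |α - r| ≤ 1 / ((Q + 1) * r.den)) (h2 : r.den ≤ Q)
    (d : ℤ) (hd0 : d ≠ 0) (hd : 2 * |d| ≤ r.den) : 1 / (2 * (r.den : ℝ)) ≤ dz (α * d) := by
  have hq0 : (0 : ℝ) < r.den := by exact_mod_cast r.den_pos
  set n : ℤ := round (α * d) with hn
  have hne : d * r.num - n * r.den ≠ 0 := by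
    intro h
    have h3 : (r.den : ℤ) ∣ d * r.num := ⟨n, by linarith⟩
    have h4 : IsCoprime (r.den : ℤ) r.num := by
      rw [Int.isCoprime_iff_nat_coprime]
      simpa using r.reduced.symm
    have h5 : (r.den : ℤ) ∣ d := h4.dvd_of_dvd_mul_right h3
    have h6 : (r.den : ℤ) ≤ |d| := by
      apply Int.le_of_dvd (abs_pos.mpr hd0)
      rwa [dvd_abs]
    have h7 : 0 < |d| := abs_pos.mpr hd0
    omega
  have h3 : 1 / (r.den : ℝ) ≤ |(d : ℝ) * r - n| := by
    have h4 : (d : ℝ) * r - n = ((d * r.num - n * r.den : ℤ) : ℝ) / r.den := by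
      have : (r : ℝ) = r.num / r.den := by exact_mod_cast (Rat.num_div_den r).symm
      rw [this]
      push_cast
      field_simp
    rw [h4, abs_div, abs_of_pos hq0]
    apply div_le_div_of_nonneg_right _ hq0.le
    have : (1 : ℤ) ≤ |d * r.num - n * r.den| := Int.one_le_abs hne
    exact_mod_cast this
  have h4 : |(d : ℝ)| * |α - r| ≤ 1 / (2 * r.den) := by
    have hd' : |(d : ℝ)| ≤ r.den / 2 := by
      have : 2 * |(d : ℝ)| ≤ r.den := by exact_mod_cast hd
      linarith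
    have hQ : (r.den : ℝ) ≤ Q + 1 := by
      have : (r.den : ℝ) ≤ Q := by exact_mod_cast h2
      linarith
    calc |(d : ℝ)| * |α - r| ≤ (r.den / 2) * (1 / ((Q + 1) * r.den)) := by
          apply mul_le_mul hd' h1 (abs_nonneg _) (by positivity)
      _ = 1 / (2 * (Q + 1)) := by
          field_simp
      _ ≤ 1 / (2 * r.den) := by
          apply one_div_le_one_div_of_le (by positivity)
          linarith
  have h5 : |(d : ℝ) * r - n| ≤ |α * d - n| + |(d : ℝ)| * |α - r| := by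
    have : (d : ℝ) * r - n = (α * d - n) - d * (α - r) := by ring
    rw [this, ← abs_mul]
    exact abs_sub _ _
  have h6 : dz (α * d) = |α * d - n| := rfl
  rw [h6]
  have h7 : 1 / (r.den : ℝ) = 1 / (2 * r.den) + 1 / (2 * r.den) := by
    field_simp
    norm_num
  linarith

lemma sum_block {α : ℝ} {Q : ℕ} (r : ℚ) (h1 : |α - r| ≤ 1 / ((Q + 1) * r.den)) (h2 : r.den ≤ Q)
    {N : ℝ} (hN : 0 ≤ N) (T : Finset ℕ) (hT : ∀ i ∈ T, ∀ j ∈ T, 2 * |(i : ℤ) - j| ≤ r.den) :
    ∑ h ∈ T, cut N (dz (α * h)) ≤ 2 * N + (2 * r.den) * (1 + Real.log r.den) := by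
  have hq0 : (0 : ℝ) < r.den := by exact_mod_cast r.den_pos
  have h3 := sum_cut_separated T (fun h : ℕ => α * h) hN (δ := 1 / (2 * (r.den : ℝ))) (by positivity)
    (fun i hi j hj hij => by
      have h4 := dz_mul_ge r h1 h2 ((i : ℤ) - j) (by
        intro h
        apply hij
        omega) (hT i hi j hj)
      push_cast at h4
      rwa [mul_sub] at h4) r.den (by
        apply le_of_eq
        field_simp)
  refine h3.trans (le_of_eq ?_)
  field_simp

lemma sum_cut_le {α : ℝ} {Q : ℕ} (r : ℚ) (h1 : |α - r| ≤ 1 / ((Q + 1) * r.den)) (h2 : r.den ≤ Q)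
    (N : ℕ) :
    ∑ h ∈ range N, cut N (dz (α * h))
      ≤ (2 * N / r.den + 1) * (2 * N + (2 * r.den) * (1 + Real.log r.den)) := by
  have hq0 : (0 : ℝ) < r.den := by exact_mod_cast r.den_pos
  have hq1 : 1 ≤ r.den := r.den_pos
  set L : ℕ := (r.den + 1) / 2 with hL
  have hL0 : 0 < L := by omega
  have hmaps : ∀ h ∈ range N, h / L ∈ range (N / L + 1) := by
    intro h hh
    rw [mem_range] at hh ⊢
    exact Nat.lt_succ_of_le (Nat.div_le_div_right hh.le)
  rw [← Finset.sum_fiberwise_of_maps_to hmaps]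
  have hblock : ∀ j ∈ range (N / L + 1), ∑ h ∈ (range N).filter (fun h => h / L = j), cut N (dz (α * h))
      ≤ 2 * N + (2 * r.den) * (1 + Real.log r.den) := by
    intro j _
    apply sum_block r h1 h2 (Nat.cast_nonneg N)
    intro a ha b hb
    rw [mem_filter] at ha hb
    have ha1 := Nat.div_add_mod a L
    have hb1 := Nat.div_add_mod b L
    have ha2 := Nat.mod_lt a hL0
    have hb2 := Nat.mod_lt b hL0
    rw [ha.2] at ha1
    rw [hb.2] at hb1
    have : |(a : ℤ) - b| ≤ L - 1 := by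
      rw [abs_le]
      constructor <;> omega
    omega
  refine (Finset.sum_le_sum hblock).trans ?_
  rw [Finset.sum_const, card_range, nsmul_eq_mul]
  apply mul_le_mul_of_nonneg_right
  · push_cast
    have h3 : ((N / L : ℕ) : ℝ) ≤ (N : ℝ) / L := Nat.cast_div_le
    have h4 : (N : ℝ) / L ≤ 2 * N / r.den := by
      rw [div_le_div_iff₀ (by exact_mod_cast hL0) hq0]
      have : (r.den : ℝ) ≤ 2 * L := by
        have : r.den ≤ 2 * L := by omega
        exact_mod_cast this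
      have hN : (0 : ℝ) ≤ N := Nat.cast_nonneg N
      nlinarith
    linarith
  · have : 0 ≤ Real.log r.den := Real.log_natCast_nonneg _
    positivity

theorem norm_Q_sq_upper {x c τ : ℝ} (hτ : 2 ≤ τ) (hc : 0 < c)
    (hx : ∀ (p : ℤ) (q : ℕ), 0 < q → c / (q : ℝ) ^ τ ≤ |x - p / q|) :
    ∃ C : ℝ, 0 < C ∧ ∀ N : ℕ, 1 ≤ N → ‖Q x N‖ ^ 2 ≤ C * (N : ℝ) ^ (2 - 2 / τ) * (1 + Real.log N) := by
  have hτ0 : 0 < τ := by linarith
  have hτ1 : 0 < τ - 1 := by linarith
  set c' : ℝ := c ^ (1 / (τ - 1)) with hc'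
  have hc'0 : 0 < c' := Real.rpow_pos_of_pos hc _
  refine ⟨4 * (4 / c' + 4) * 2, by positivity, fun N hN => ?_⟩
  have hN0 : (0 : ℝ) < N := by exact_mod_cast hN
  have hN1 : (1 : ℝ) ≤ N := by exact_mod_cast hN
  set s : ℝ := 2 - 2 / τ with hs
  have h2τ : 2 / τ ≤ 1 := by rw [div_le_one hτ0]; exact hτ
  have h2τ0 : 0 < 2 / τ := by positivity
  have hs1 : 1 ≤ s := by linarith
  have hs2 : s ≤ 2 := by linarith
  have hNs1 : 1 ≤ (N : ℝ) ^ s := Real.one_le_rpow hN1 (by linarith)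
  set Q0 : ℕ := ⌊(N : ℝ) ^ s⌋₊ with hQ0
  have hQ0pos : 0 < Q0 := by
    rw [hQ0, Nat.floor_pos]
    exact hNs1
  obtain ⟨r, hr1, hr2⟩ := Real.exists_rat_abs_sub_le_and_den_le (2 * x) hQ0pos
  have hq0 : (0 : ℝ) < r.den := by exact_mod_cast r.den_pos
  have hq1 : (1 : ℝ) ≤ r.den := by exact_mod_cast r.den_pos
  -- upper bound for q
  have hqs : (r.den : ℝ) ≤ (N : ℝ) ^ s := by
    have h1 : (r.den : ℝ) ≤ Q0 := by exact_mod_cast hr2
    exact h1.trans (Nat.floor_le (by positivity))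
  -- lower bound for q
  have hqlow : c' * (N : ℝ) ^ (2 / τ) ≤ 2 * r.den := by
    have h1 := hx r.num (2 * r.den) (by have := r.den_pos; omega)
    have h2 : |x - r.num / ((2 * r.den : ℕ) : ℝ)| ≤ 1 / (2 * ((Q0 + 1) * r.den)) := by
      have e1 : x - r.num / ((2 * r.den : ℕ) : ℝ) = (2 * x - r) / 2 := by
        have : (r : ℝ) = r.num / r.den := by exact_mod_cast (Rat.num_div_den r).symm
        rw [this]
        push_cast
        field_simp
      rw [e1, abs_div, abs_of_pos (by norm_num : (0 : ℝ) < 2)]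
      rw [div_le_iff₀ (by norm_num)]
      refine hr1.trans (le_of_eq ?_)
      field_simp
    have h3 : c / ((2 * r.den : ℕ) : ℝ) ^ τ ≤ 1 / (2 * ((Q0 + 1) * r.den)) := h1.trans h2
    have h4 : (0 : ℝ) < ((2 * r.den : ℕ) : ℝ) := by
      push_cast
      positivity
    set y : ℝ := ((2 * r.den : ℕ) : ℝ) with hy
    have hyy : y = 2 * r.den := by rw [hy]; push_cast; ring
    have h5 : y ^ τ = y ^ (τ - 1) * y := by
      rw [← Real.rpow_add_one h4.ne']
      congr 1
      ring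
    have h6 : c * (Q0 + 1) ≤ y ^ (τ - 1) := by
      rw [h5, div_le_div_iff₀ (by positivity) (by positivity)] at h3
      have h7 : c * (2 * ((Q0 + 1) * r.den)) = (c * (Q0 + 1)) * y := by rw [hyy]; ring
      rw [h7, one_mul] at h3
      exact le_of_mul_le_mul_right h3 h4
    have h7 : c * (N : ℝ) ^ s ≤ y ^ (τ - 1) := by
      have : (N : ℝ) ^ s ≤ Q0 + 1 := (Nat.lt_floor_add_one _).le
      exact (mul_le_mul_of_nonneg_left this hc.le).trans h6
    have h8 : (c * (N : ℝ) ^ s) ^ (1 / (τ - 1)) ≤ (y ^ (τ - 1)) ^ (1 / (τ - 1)) :=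
      Real.rpow_le_rpow (by positivity) h7 (by positivity)
    rw [← Real.rpow_mul h4.le, mul_one_div_cancel hτ1.ne', Real.rpow_one,
      Real.mul_rpow hc.le (by positivity), ← Real.rpow_mul hN0.le] at h8
    have h9 : s * (1 / (τ - 1)) = 2 / τ := by
      rw [hs]
      field_simp
    rw [h9] at h8
    rw [← hyy]
    exact h8
  have hlogq0 : 0 ≤ Real.log r.den := Real.log_natCast_nonneg _
  have hlogq : Real.log r.den ≤ 2 * Real.log N := by
    have h1 : Real.log r.den ≤ Real.log ((N : ℝ) ^ s) := Real.log_le_log hq0 hqs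
    rw [Real.log_rpow hN0] at h1
    have h2 : 0 ≤ Real.log N := Real.log_natCast_nonneg _
    nlinarith
  have hlogN : 0 ≤ Real.log N := Real.log_natCast_nonneg _
  have hmain := norm_Q_sq_le x N
  have hsum := sum_cut_le r hr1 hr2 N
  -- N^2/q bound
  have hN2 : (N : ℝ) ^ (2 : ℝ) = (N : ℝ) ^ s * (N : ℝ) ^ (2 / τ) := by
    rw [← Real.rpow_add hN0]
    congr 1
    rw [hs]
    ring
  have hA : (N : ℝ) * N / r.den ≤ (2 / c') * (N : ℝ) ^ s := by
    rw [div_le_iff₀ hq0]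
    have e1 : (N : ℝ) * N = (N : ℝ) ^ s * (N : ℝ) ^ (2 / τ) := by
      rw [← hN2]
      norm_cast
      ring
    rw [e1]
    have e2 : (N : ℝ) ^ (2 / τ) ≤ (2 / c') * r.den := by
      rw [div_mul_eq_mul_div, le_div_iff₀ hc'0]
      linarith
    calc (N : ℝ) ^ s * (N : ℝ) ^ (2 / τ) ≤ (N : ℝ) ^ s * ((2 / c') * r.den) :=
          mul_le_mul_of_nonneg_left e2 (by positivity)
      _ = _ := by ring
  have hB : (N : ℝ) ≤ (N : ℝ) ^ s := by
    calc (N : ℝ) = (N : ℝ) ^ (1 : ℝ) := (Real.rpow_one _).symm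
      _ ≤ (N : ℝ) ^ s := Real.rpow_le_rpow_of_exponent_le hN1 hs1
  set X : ℝ := (N : ℝ) ^ s with hX
  set ℓ : ℝ := Real.log r.den with hℓ
  have hX0 : 0 < X := by positivity
  calc ‖Q x N‖ ^ 2 ≤ 2 * ((2 * N / r.den + 1) * (2 * N + (2 * r.den) * (1 + ℓ))) := by
        refine hmain.trans ?_
        linarith
    _ = 4 * (2 * (N * N / r.den) + 2 * N * (1 + ℓ) + N + r.den * (1 + ℓ)) := by
        field_simp
        ring
    _ ≤ 4 * (2 * (2 / c' * X) * (1 + ℓ) + 2 * X * (1 + ℓ) + X * (1 + ℓ) + X * (1 + ℓ)) := by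
        have e1 : 2 * ((N : ℝ) * N / r.den) ≤ 2 * (2 / c' * X) * (1 + ℓ) := by
          have : 0 ≤ 2 * (2 / c' * X) * ℓ := by positivity
          nlinarith
        have e2 : 2 * (N : ℝ) * (1 + ℓ) ≤ 2 * X * (1 + ℓ) := by
          apply mul_le_mul_of_nonneg_right _ (by linarith)
          linarith
        have e3 : (N : ℝ) ≤ X * (1 + ℓ) := by nlinarith
        have e4 : r.den * (1 + ℓ) ≤ X * (1 + ℓ) := mul_le_mul_of_nonneg_right hqs (by linarith)
        linarith
    _ = 4 * (4 / c' + 4) * X * (1 + ℓ) := by ring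
    _ ≤ 4 * (4 / c' + 4) * X * (2 * (1 + Real.log N)) := by
        apply mul_le_mul_of_nonneg_left _ (by positivity)
        linarith
    _ = _ := by ring

end Pool.Agent.Helper27.Weyl
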