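import Pool.Agent.Helper27.WeylC

/-! The lower bound for quadratic Weyl sums near rationals with odd square denominator. -/

open Finset Complex

namespace Pool.Agent.Helper27.Weyl

lemma eR_eq_one_iff (t : ℝ) : eR t = 1 ↔ ∃ n : ℤ, t = n := by
  constructor
  · intro h
    have h1 := norm_eR_sub_one_ge t
    rw [h, sub_self, norm_zero] at h1
    have h2 : dz t = 0 := le_antisymm (by linarith) (dz_nonneg t)
    unfold dz at h2
    rw [abs_eq_zero, sub_eq_zero] at h2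
    exact ⟨round t, h2⟩
  · rintro ⟨n, rfl⟩
    exact eR_int n

lemma inner_sum {a : ℤ} {r : ℕ} (hr : Odd r) (har : IsCoprime a r) (u : ℕ) (hu : u < r) :
    ∑ v ∈ range r, eR (2 * a * u * v / r) = if u = 0 then (r : ℂ) else 0 := by
  have hr0 : 0 < r := hr.pos
  have hrR : (r : ℝ) ≠ 0 := by exact_mod_cast hr0.ne'
  split_ifs with h
  · subst h
    simp [eR_zero]
  · have h1 : ∀ v ∈ range r, eR (2 * a * u * v / r) = eR (2 * a * u / r) ^ v := by
      intro v _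
      rw [← eR_mul_natCast]
      congr 1
      ring
    rw [Finset.sum_congr rfl h1]
    have hne : eR (2 * a * u / r) ≠ 1 := by
      intro h2
      rw [eR_eq_one_iff] at h2
      obtain ⟨n, hn⟩ := h2
      rw [div_eq_iff hrR] at hn
      have h3 : 2 * a * u = n * r := by exact_mod_cast hn
      have h4 : (r : ℤ) ∣ a * (2 * u) := ⟨n, by linarith⟩
      have h5 : (r : ℤ) ∣ 2 * u := har.symm.dvd_of_dvd_mul_left h4
      have h6 : (r : ℤ) ∣ u := by
        have h7 : IsCoprime (r : ℤ) 2 := by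
          have := hr.coprime_two_right
          exact_mod_cast this.isCoprime
        exact h7.dvd_of_dvd_mul_left h5
      have h8 : r ∣ u := by exact_mod_cast h6
      exact absurd (Nat.le_of_dvd (Nat.pos_of_ne_zero h) h8) (by omega)
    have h2 := geom_sum_mul (eR (2 * a * u / r)) r
    have h3 : eR (2 * a * u / r) ^ r = 1 := by
      rw [← eR_mul_natCast]
      have : (2 * a * u / r : ℝ) * r = ((2 * a * u : ℤ) : ℝ) := by
        push_cast
        field_simp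
      rw [this, eR_int]
    rw [h3, sub_self] at h2
    rcases mul_eq_zero.mp h2 with h4 | h4
    · exact h4
    · exact absurd (sub_eq_zero.mp h4) hne

lemma gauss_sum_sq {a : ℤ} {r : ℕ} (hr : Odd r) (har : IsCoprime a r) :
    ∑ n ∈ range (r * r), eR (a * (n : ℝ) ^ 2 / (r * r)) = (r : ℂ) := by
  have hr0 : 0 < r := hr.pos
  have hrR : (r : ℝ) ≠ 0 := by exact_mod_cast hr0.ne'
  have h1 : ∑ n ∈ range (r * r), eR (a * (n : ℝ) ^ 2 / (r * r))
      = ∑ u ∈ range r, ∑ v ∈ range r, eR (a * ((u + r * v : ℕ) : ℝ) ^ 2 / (r * r)) := by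
    rw [← Finset.sum_product']
    symm
    apply Finset.sum_nbij' (fun p => p.1 + r * p.2) (fun n => (n % r, n / r))
    · rintro ⟨u, v⟩ h
      simp only [mem_product, mem_range] at h ⊢
      nlinarith
    · intro n h
      simp only [mem_product, mem_range] at h ⊢
      exact ⟨Nat.mod_lt _ hr0, Nat.div_lt_of_lt_mul h⟩
    · rintro ⟨u, v⟩ h
      simp only [mem_product, mem_range] at h
      simp only [Prod.mk.injEq]
      constructor
      · rw [Nat.add_mul_mod_self_left, Nat.mod_eq_of_lt h.1]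
      · rw [Nat.add_mul_div_left _ _ hr0, Nat.div_eq_of_lt h.1, zero_add]
    · intro n h
      exact Nat.mod_add_div n r
    · rintro ⟨u, v⟩ h
      rfl
  rw [h1]
  have h2 : ∀ u ∈ range r, ∑ v ∈ range r, eR (a * ((u + r * v : ℕ) : ℝ) ^ 2 / (r * r))
      = eR (a * (u : ℝ) ^ 2 / (r * r)) * (if u = 0 then (r : ℂ) else 0) := by
    intro u hu
    rw [← inner_sum hr har u (mem_range.mp hu), Finset.mul_sum]
    apply Finset.sum_congr rfl
    intro v _
    rw [← eR_add]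
    have : (a : ℝ) * ((u + r * v : ℕ) : ℝ) ^ 2 / (r * r)
        = (a * (u : ℝ) ^ 2 / (r * r) + 2 * a * u * v / r) + ((a * v ^ 2 : ℤ) : ℝ) := by
      push_cast
      field_simp
      ring
    rw [this, eR_add_int]
  rw [Finset.sum_congr rfl h2]
  rw [Finset.sum_eq_single 0]
  · simp [eR_zero]
  · intro u _ hu
    simp [hu]
  · intro h
    exact absurd (mem_range.mpr hr0) h

/-- a block of length `q = r^2`. -/
lemma gauss_block {a : ℤ} {r : ℕ} (hr : Odd r) (har : IsCoprime a r) (j : ℕ) :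
    ∑ u ∈ range (r * r), eR (a * (((r * r * j + u : ℕ) : ℝ) + 1) ^ 2 / (r * r)) = (r : ℂ) := by
  have hr0 : 0 < r := hr.pos
  have hrR : (r : ℝ) ≠ 0 := by exact_mod_cast hr0.ne'
  have h1 : ∀ u ∈ range (r * r), eR (a * (((r * r * j + u : ℕ) : ℝ) + 1) ^ 2 / (r * r))
      = eR (a * ((u + 1 : ℕ) : ℝ) ^ 2 / (r * r)) := by
    intro u _
    have : (a : ℝ) * (((r * r * j + u : ℕ) : ℝ) + 1) ^ 2 / (r * r)
        = a * ((u + 1 : ℕ) : ℝ) ^ 2 / (r * r)
          + ((a * (r * r * j ^ 2 + 2 * j * (u + 1)) : ℤ) : ℝ) := by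
      push_cast
      field_simp
      ring
    rw [this, eR_add_int]
  rw [Finset.sum_congr rfl h1, ← gauss_sum_sq hr har]
  have h2 := Finset.sum_range_succ' (fun n : ℕ => eR (a * (n : ℝ) ^ 2 / (r * r))) (r * r)
  have h3 := Finset.sum_range_succ (fun n : ℕ => eR (a * (n : ℝ) ^ 2 / (r * r))) (r * r)
  rw [h2] at h3
  have h4 : eR (a * ((r * r : ℕ) : ℝ) ^ 2 / (r * r)) = eR (a * ((0 : ℕ) : ℝ) ^ 2 / (r * r)) := by
    have e1 : (a : ℝ) * ((r * r : ℕ) : ℝ) ^ 2 / (r * r) = 0 + ((a * (r * r) : ℤ) : ℝ) := by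
      push_cast
      field_simp
      ring
    rw [e1, eR_add_int]
    congr 1
    simp
  rw [h4] at h3
  exact add_right_cancel h3

lemma Q_approx {x β : ℝ} {a : ℤ} {r : ℕ} (hr : Odd r) (har : IsCoprime a r)
    (hx : x = a / (r * r) + β) (J : ℕ) :
    ‖Q x (r * r * J) - r * ∑ j ∈ range J, eR (β * ((r * r * j : ℕ) : ℝ) ^ 2)‖
      ≤ 2 * Real.pi * |β| * ((r * r : ℕ) : ℝ) ^ 3 * (J : ℝ) ^ 2 := by
  induction J with
  | zero => simp [Q]
  | succ J ih =>
    set q : ℕ := r * r with hq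
    have h1 : Q x (q * (J + 1)) = Q x (q * J) + ∑ u ∈ range q, eR (x * (((q * J + u : ℕ) : ℝ) + 1) ^ 2) := by
      unfold Q
      rw [mul_add, mul_one, Finset.sum_range_add]
    have h2 : ∑ u ∈ range q, eR (x * (((q * J + u : ℕ) : ℝ) + 1) ^ 2)
        - r * eR (β * ((q * J : ℕ) : ℝ) ^ 2)
        = ∑ u ∈ range q, eR (a * (((q * J + u : ℕ) : ℝ) + 1) ^ 2 / (r * r)) *
          (eR (β * (((q * J + u : ℕ) : ℝ) + 1) ^ 2) - eR (β * ((q * J : ℕ) : ℝ) ^ 2)) := by
      rw [← gauss_block hr har J, Finset.sum_mul, ← Finset.sum_sub_distrib]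
      apply Finset.sum_congr rfl
      intro u _
      have e1 : eR (x * (((q * J + u : ℕ) : ℝ) + 1) ^ 2)
          = eR (a * (((q * J + u : ℕ) : ℝ) + 1) ^ 2 / (r * r)) * eR (β * (((q * J + u : ℕ) : ℝ) + 1) ^ 2) := by
        rw [← eR_add]
        congr 1
        rw [hx]
        ring
      rw [e1]
      ring
    have h3 : ‖∑ u ∈ range q, eR (x * (((q * J + u : ℕ) : ℝ) + 1) ^ 2)
        - r * eR (β * ((q * J : ℕ) : ℝ) ^ 2)‖ ≤ 2 * Real.pi * |β| * (q : ℝ) ^ 3 * (2 * J + 1) := by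
      rw [h2]
      refine (norm_sum_le _ _).trans ?_
      have h4 : ∀ u ∈ range q, ‖eR (a * (((q * J + u : ℕ) : ℝ) + 1) ^ 2 / (r * r)) *
          (eR (β * (((q * J + u : ℕ) : ℝ) + 1) ^ 2) - eR (β * ((q * J : ℕ) : ℝ) ^ 2))‖
          ≤ 2 * Real.pi * |β| * ((q : ℝ) ^ 2 * (2 * J + 1)) := by
        intro u hu
        rw [norm_mul, norm_eR, one_mul]
        refine (norm_eR_sub_eR_le _ _).trans ?_
        have h5 : β * (((q * J + u : ℕ) : ℝ) + 1) ^ 2 - β * ((q * J : ℕ) : ℝ) ^ 2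
            = β * (((u : ℝ) + 1) * (2 * q * J + (u + 1))) := by
          push_cast
          ring
        rw [h5, abs_mul, ← mul_assoc]
        apply mul_le_mul_of_nonneg_left _ (by positivity)
        have h6 : (u : ℝ) + 1 ≤ q := by
          have := mem_range.mp hu
          exact_mod_cast this
        rw [abs_of_nonneg (by positivity)]
        have hJ : (0 : ℝ) ≤ J := Nat.cast_nonneg J
        have hu0 : (0 : ℝ) ≤ u := Nat.cast_nonneg u
        have hq0 : (0 : ℝ) ≤ q := Nat.cast_nonneg q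
        calc ((u : ℝ) + 1) * (2 * q * J + (u + 1)) ≤ q * (2 * q * J + q) := by
              apply mul_le_mul h6 (by linarith) (by positivity) hq0
          _ = _ := by ring
      refine (Finset.sum_le_sum h4).trans (le_of_eq ?_)
      rw [Finset.sum_const, card_range, nsmul_eq_mul]
      ring
    rw [h1, Finset.sum_range_succ, mul_add]
    calc ‖Q x (q * J) + ∑ u ∈ range q, eR (x * (((q * J + u : ℕ) : ℝ) + 1) ^ 2) -
          (r * ∑ j ∈ range J, eR (β * ((q * j : ℕ) : ℝ) ^ 2) + r * eR (β * ((q * J : ℕ) : ℝ) ^ 2))‖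
        = ‖(Q x (q * J) - r * ∑ j ∈ range J, eR (β * ((q * j : ℕ) : ℝ) ^ 2)) +
          (∑ u ∈ range q, eR (x * (((q * J + u : ℕ) : ℝ) + 1) ^ 2) - r * eR (β * ((q * J : ℕ) : ℝ) ^ 2))‖ := by
          congr 1
          ring
      _ ≤ 2 * Real.pi * |β| * (q : ℝ) ^ 3 * (J : ℝ) ^ 2 + 2 * Real.pi * |β| * (q : ℝ) ^ 3 * (2 * J + 1) :=
          (norm_add_le _ _).trans (add_le_add ih h3)
      _ = 2 * Real.pi * |β| * (q : ℝ) ^ 3 * ((J + 1 : ℕ) : ℝ) ^ 2 := by
          push_cast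
          ring

lemma main_sum_lower (β : ℝ) (q J : ℕ) :
    (J : ℝ) * (1 - 2 * Real.pi * |β| * ((q : ℝ) * J) ^ 2)
      ≤ ‖∑ j ∈ range J, eR (β * ((q * j : ℕ) : ℝ) ^ 2)‖ := by
  have h1 : ‖(J : ℂ) - ∑ j ∈ range J, eR (β * ((q * j : ℕ) : ℝ) ^ 2)‖
      ≤ J * (2 * Real.pi * |β| * ((q : ℝ) * J) ^ 2) := by
    have h2 : (J : ℂ) - ∑ j ∈ range J, eR (β * ((q * j : ℕ) : ℝ) ^ 2)
        = - ∑ j ∈ range J, (eR (β * ((q * j : ℕ) : ℝ) ^ 2) - 1) := by
      rw [Finset.sum_sub_distrib]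
      simp
    rw [h2, norm_neg]
    refine (norm_sum_le _ _).trans ?_
    have h3 : ∀ j ∈ range J, ‖eR (β * ((q * j : ℕ) : ℝ) ^ 2) - 1‖ ≤ 2 * Real.pi * |β| * ((q : ℝ) * J) ^ 2 := by
      intro j hj
      refine (norm_eR_sub_one_le _).trans ?_
      rw [abs_mul, ← mul_assoc]
      apply mul_le_mul_of_nonneg_left _ (by positivity)
      rw [abs_of_nonneg (by positivity)]
      apply pow_le_pow_left₀ (by positivity)
      push_cast
      apply mul_le_mul_of_nonneg_left _ (Nat.cast_nonneg q)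
      have := (mem_range.mp hj).le
      exact_mod_cast this
    refine (Finset.sum_le_sum h3).trans (le_of_eq ?_)
    rw [Finset.sum_const, card_range, nsmul_eq_mul]
  have h4 : (J : ℝ) ≤ ‖(J : ℂ) - ∑ j ∈ range J, eR (β * ((q * j : ℕ) : ℝ) ^ 2)‖
      + ‖∑ j ∈ range J, eR (β * ((q * j : ℕ) : ℝ) ^ 2)‖ := by
    have h5 : ‖(J : ℂ)‖ = J := by simp
    rw [← h5]
    have := norm_add_le ((J : ℂ) - ∑ j ∈ range J, eR (β * ((q * j : ℕ) : ℝ) ^ 2))
      (∑ j ∈ range J, eR (β * ((q * j : ℕ) : ℝ) ^ 2))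
    simpa using this
  linarith

lemma Q_lower {x β : ℝ} {a : ℤ} {r : ℕ} (hr : Odd r) (har : IsCoprime a r)
    (hx : x = a / (r * r) + β) (J : ℕ) {κ : ℝ}
    (hβ : 2 * Real.pi * |β| * (((r * r : ℕ) : ℝ) * J) ^ 2 ≤ κ) :
    (r : ℝ) * J * (1 - κ) - κ * (r * r) ≤ ‖Q x (r * r * J)‖ := by
  have h1 := Q_approx hr har hx J
  have h2 := main_sum_lower β (r * r) J
  have hr0 : (0 : ℝ) ≤ r := Nat.cast_nonneg r
  have hJ0 : (0 : ℝ) ≤ J := Nat.cast_nonneg J
  have h3 : ‖(r : ℂ) * ∑ j ∈ range J, eR (β * ((r * r * j : ℕ) : ℝ) ^ 2)‖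
      ≤ ‖Q x (r * r * J)‖ + ‖Q x (r * r * J) - r * ∑ j ∈ range J, eR (β * ((r * r * j : ℕ) : ℝ) ^ 2)‖ := by
    have := norm_sub_le (Q x (r * r * J)) (Q x (r * r * J) - r * ∑ j ∈ range J, eR (β * ((r * r * j : ℕ) : ℝ) ^ 2))
    simpa using this
  rw [norm_mul] at h3
  have h4 : ‖(r : ℂ)‖ = r := by simp
  rw [h4] at h3
  have h5 : (r : ℝ) * (J * (1 - κ)) ≤ r * ‖∑ j ∈ range J, eR (β * ((r * r * j : ℕ) : ℝ) ^ 2)‖ := by
    apply mul_le_mul_of_nonneg_left _ hr0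
    refine le_trans ?_ h2
    apply mul_le_mul_of_nonneg_left _ hJ0
    linarith
  have h6 : 2 * Real.pi * |β| * ((r * r : ℕ) : ℝ) ^ 3 * (J : ℝ) ^ 2 ≤ κ * (r * r) := by
    calc 2 * Real.pi * |β| * ((r * r : ℕ) : ℝ) ^ 3 * (J : ℝ) ^ 2
        = (2 * Real.pi * |β| * (((r * r : ℕ) : ℝ) * J) ^ 2) * ((r * r : ℕ) : ℝ) := by ring
      _ ≤ κ * ((r * r : ℕ) : ℝ) := mul_le_mul_of_nonneg_right hβ (by positivity)
      _ = _ := by push_cast; ring
  linarith

end Pool.Agent.Helper27.Weyl
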