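import Pool.Agent.Helper27.WeylD

/-! A Cantor set of numbers with exact irrationality exponent. -/

open Finset

namespace Pool.Agent.Helper27.Weyl

section digits

variable (d : ℕ → Fin 9)

lemma partial_sum_eq (n : ℕ) :
    ∃ A : ℕ, ∑ i ∈ range n, Real.ofDigitsTerm d i = (A : ℝ) / 9 ^ n ∧
      (0 < n → A % 9 = (d (n - 1) : ℕ)) := by
  induction n with
  | zero => exact ⟨0, by simp, by omega⟩
  | succ n ih =>
    obtain ⟨A, hA, _⟩ := ih
    refine ⟨9 * A + d n, ?_, ?_⟩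
    · rw [Finset.sum_range_succ, hA, Real.ofDigitsTerm]
      push_cast
      field_simp
      ring
    · intro _
      have := (d n).isLt
      simp only [Nat.add_sub_cancel]
      omega

lemma ofDigits_le_eighth (hd : ∀ i, (d i : ℕ) ≤ 1) : Real.ofDigits d ≤ 1 / 8 := by
  have h1 : HasSum (fun i : ℕ => (1 / 9 : ℝ) * (1 / 9 : ℝ) ^ i) (1 / 9 * (1 - 1 / 9)⁻¹) :=
    (hasSum_geometric_of_lt_one (by norm_num) (by norm_num)).mul_left _
  have h2 : Real.ofDigits d ≤ 1 / 9 * (1 - 1 / 9)⁻¹ := by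
    rw [← h1.tsum_eq]
    unfold Real.ofDigits
    apply Summable.tsum_le_tsum _ Real.summable_ofDigitsTerm h1.summable
    intro i
    unfold Real.ofDigitsTerm
    have h3 : ((d i : ℕ) : ℝ) ≤ 1 := by exact_mod_cast hd i
    have h4 : (1 / 9 : ℝ) * (1 / 9) ^ i = 1 * (((9 : ℕ) : ℝ) ^ (i + 1))⁻¹ := by
      rw [pow_succ]
      push_cast
      rw [one_div, inv_pow, mul_inv]
      ring
    rw [h4]
    apply mul_le_mul_of_nonneg_right h3 (by positivity)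
  refine h2.trans ?_
  norm_num

end digits

section construction

variable (τ : ℝ) (C k0 : ℕ)

/-- position (index) of the non-zero digit ending the zero block number `k`. -/
noncomputable def MM (k : ℕ) : ℕ := ⌈τ * (C : ℝ) ^ k⌉₊ - 1

/-- positions of the free digits. -/
noncomputable def pp (j : ℕ) : ℕ :=
  MM τ C (k0 + Nat.log C (j + 1)) + 1 + (j + 1 - C ^ Nat.log C (j + 1))

open Classical in
/-- the fixed digits. -/
noncomputable def ss (i : ℕ) : Fin 9 :=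
  if ∃ k, k0 ≤ k ∧ (i + 1 = C ^ k ∨ i = MM τ C k) then 1 else 0

/-- the digit sequence attached to a sequence of free bits. -/
noncomputable def DD (g : ℕ → Fin 2) : ℕ → Fin 9 :=
  Function.extend (pp τ C k0) (fun j => Fin.castLE (by norm_num) (g j)) (ss τ C k0)

/-- the real number attached to a sequence of free bits. -/
noncomputable def XX (g : ℕ → Fin 2) : ℝ := Real.ofDigits (DD τ C k0 g)

variable {τ C k0}

/-- the standing hypotheses. -/
structure Hyp (τ : ℝ) (C k0 : ℕ) : Prop where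
  h3 : 3 ≤ τ
  hC : τ < C
  hC2 : (C : ℝ) ≤ (τ - 1) ^ 2
  hk0 : (C : ℝ) + 1 ≤ (C - τ) * (C : ℝ) ^ k0

lemma exists_hyp (h3 : 3 ≤ τ) : ∃ C k0, Hyp τ C k0 := by
  have h1 : τ < (⌊τ⌋₊ + 1 : ℕ) := by
    push_cast
    exact Nat.lt_floor_add_one τ
  have h2 : ((⌊τ⌋₊ + 1 : ℕ) : ℝ) ≤ τ + 1 := by
    push_cast
    linarith [Nat.floor_le (by linarith : 0 ≤ τ)]
  set C := ⌊τ⌋₊ + 1 with hC
  have h4 : (1 : ℝ) < C := by linarith
  have h5 : (0 : ℝ) < C - τ := by linarith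
  obtain ⟨k0, hk0⟩ := pow_unbounded_of_one_lt (((C : ℝ) + 1) / (C - τ)) h4
  refine ⟨C, k0, h3, h1, by nlinarith, ?_⟩
  rw [div_lt_iff₀ h5] at hk0
  linarith

namespace Hyp

variable (H : Hyp τ C k0)
include H

lemma C_gt : 3 < C := by
  have := H.h3
  have := H.hC
  have : (3 : ℝ) < C := by linarith
  exact_mod_cast this

lemma C_pos : 0 < C := by
  have := H.C_gt
  omega

lemma MM_add_one (k : ℕ) : MM τ C k + 1 = ⌈τ * (C : ℝ) ^ k⌉₊ := by
  have h1 : 0 < ⌈τ * (C : ℝ) ^ k⌉₊ := by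
    rw [Nat.ceil_pos]
    have := H.h3
    have : (0 : ℝ) < C := by exact_mod_cast H.C_pos
    positivity
  unfold MM
  omega

lemma MM_ge (k : ℕ) : τ * (C : ℝ) ^ k ≤ (MM τ C k : ℝ) + 1 := by
  have h1 := H.MM_add_one k
  have h2 : ((MM τ C k + 1 : ℕ) : ℝ) = ⌈τ * (C : ℝ) ^ k⌉₊ := by rw [h1]
  push_cast at h2
  rw [h2]
  exact Nat.le_ceil _

lemma MM_lt (k : ℕ) : (MM τ C k : ℝ) < τ * (C : ℝ) ^ k := by
  have h1 := H.MM_add_one k
  have h2 : ((MM τ C k + 1 : ℕ) : ℝ) = ⌈τ * (C : ℝ) ^ k⌉₊ := by rw [h1]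
  have h3 : (⌈τ * (C : ℝ) ^ k⌉₊ : ℝ) < τ * (C : ℝ) ^ k + 1 := by
    apply Nat.ceil_lt_add_one
    have := H.h3
    positivity
  push_cast at h2
  linarith

lemma pow_lt_MM (k : ℕ) : C ^ k < MM τ C k := by
  have h1 := H.MM_ge k
  have h2 := H.h3
  have h3 : (1 : ℝ) ≤ (C : ℝ) ^ k := by
    apply one_le_pow₀
    exact_mod_cast H.C_pos
  have h4 : ((C ^ k : ℕ) : ℝ) < MM τ C k := by
    push_cast
    nlinarith
  exact_mod_cast h4

lemma MM_block (l : ℕ) : MM τ C (k0 + l) + C ^ (l + 1) + 2 ≤ C ^ (k0 + l + 1) := by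
  have h1 := H.MM_lt (k0 + l)
  have h2 := H.hk0
  have h3 : (1 : ℝ) ≤ (C : ℝ) ^ l := by
    apply one_le_pow₀
    exact_mod_cast H.C_pos
  have h4 : (MM τ C (k0 + l) : ℝ) + (C : ℝ) ^ (l + 1) + 1 < (C : ℝ) ^ (k0 + l + 1) := by
    have e1 : (C : ℝ) ^ (k0 + l + 1) = C * ((C : ℝ) ^ k0 * (C : ℝ) ^ l) := by ring
    have e2 : τ * (C : ℝ) ^ (k0 + l) = τ * ((C : ℝ) ^ k0 * (C : ℝ) ^ l) := by ring
    have e3 : (C : ℝ) ^ (l + 1) = C * (C : ℝ) ^ l := by ring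
    rw [e1, e3]
    rw [e2] at h1
    nlinarith
  have h5 : MM τ C (k0 + l) + C ^ (l + 1) + 1 < C ^ (k0 + l + 1) := by exact_mod_cast h4
  omega

lemma MM_lt_pow {k : ℕ} (hk : k0 ≤ k) : MM τ C k + 3 ≤ C ^ (k + 1) := by
  obtain ⟨l, rfl⟩ := Nat.exists_eq_add_of_le hk
  have h1 := H.MM_block l
  have h2 : 1 ≤ C ^ (l + 1) := Nat.one_le_pow _ _ H.C_pos
  omega

lemma pow_mono {a b : ℕ} (h : a ≤ b) : C ^ a ≤ C ^ b := Nat.pow_le_pow_right H.C_pos h

lemma pow_lt_iff {a b : ℕ} : C ^ a < C ^ b ↔ a < b :=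
  Nat.pow_lt_pow_iff_right (by have := H.C_gt; omega)

lemma MM_mono {a b : ℕ} (h : a ≤ b) : MM τ C a ≤ MM τ C b := by
  unfold MM
  apply Nat.sub_le_sub_right
  apply Nat.ceil_le_ceil
  apply mul_le_mul_of_nonneg_left _ (by linarith [H.h3])
  exact_mod_cast H.pow_mono h

/-- the free positions in block `l`. -/
lemma pp_bounds (j : ℕ) : MM τ C (k0 + Nat.log C (j + 1)) < pp τ C k0 j ∧
    pp τ C k0 j + 2 < C ^ (k0 + Nat.log C (j + 1) + 1) := by
  have h1 := H.MM_block (Nat.log C (j + 1))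
  have h2 : j + 1 < C ^ (Nat.log C (j + 1) + 1) :=
    Nat.lt_pow_succ_log_self (by have := H.C_gt; omega) _
  have h3 : C ^ Nat.log C (j + 1) ≤ j + 1 := Nat.pow_log_le_self _ (by omega)
  have h4 : 1 ≤ C ^ Nat.log C (j + 1) := Nat.one_le_pow _ _ H.C_pos
  unfold pp
  omega

lemma pp_strictMono : StrictMono (pp τ C k0) := by
  intro i j hij
  have hi := H.pp_bounds i
  have hj := H.pp_bounds j
  have hlog : Nat.log C (i + 1) ≤ Nat.log C (j + 1) := Nat.log_mono_right (by omega)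
  rcases hlog.eq_or_lt with h | h
  · have h3 : C ^ Nat.log C (i + 1) ≤ i + 1 := Nat.pow_log_le_self _ (by omega)
    have h4 : C ^ Nat.log C (j + 1) ≤ j + 1 := Nat.pow_log_le_self _ (by omega)
    unfold pp
    rw [h] at h3 ⊢
    omega
  · have h1 : C ^ (k0 + Nat.log C (i + 1) + 1) ≤ C ^ (k0 + Nat.log C (j + 1)) := H.pow_mono (by omega)
    have h2 := H.pow_lt_MM (k0 + Nat.log C (j + 1))
    omega

lemma pp_le (j : ℕ) : pp τ C k0 j + 1 ≤ C ^ (k0 + 1) * (j + 1) := by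
  have h1 := H.pp_bounds j
  have h3 : C ^ Nat.log C (j + 1) ≤ j + 1 := Nat.pow_log_le_self _ (by omega)
  have h4 : C ^ (k0 + Nat.log C (j + 1) + 1) = C ^ (k0 + 1) * C ^ Nat.log C (j + 1) := by ring
  have h5 : C ^ (k0 + 1) * C ^ Nat.log C (j + 1) ≤ C ^ (k0 + 1) * (j + 1) :=
    Nat.mul_le_mul_left _ h3
  omega

lemma DD_pp (g : ℕ → Fin 2) (j : ℕ) : ((DD τ C k0 g (pp τ C k0 j)) : ℕ) = g j := by
  unfold DD
  rw [H.pp_strictMono.injective.extend_apply]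
  simp

omit H in
lemma DD_of_not_free (g : ℕ → Fin 2) (i : ℕ) (hi : ∀ j, pp τ C k0 j ≠ i) :
    DD τ C k0 g i = ss τ C k0 i := by
  unfold DD
  apply Function.extend_apply'
  rintro ⟨j, hj⟩
  exact hi j hj

lemma not_free_pow {k : ℕ} (j : ℕ) : pp τ C k0 j + 1 ≠ C ^ k := by
  intro h
  have h1 := H.pp_bounds j
  have h2 : C ^ k < C ^ (k0 + Nat.log C (j + 1) + 1) := by omega
  rw [H.pow_lt_iff] at h2
  have h3 : C ^ k ≤ C ^ (k0 + Nat.log C (j + 1)) := H.pow_mono (by omega)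
  have h4 := H.pow_lt_MM (k0 + Nat.log C (j + 1))
  omega

lemma not_free_zero {k i : ℕ} (h1 : C ^ k ≤ i + 1) (h2 : i ≤ MM τ C k) (j : ℕ) :
    pp τ C k0 j ≠ i := by
  intro h
  have h3 := H.pp_bounds j
  have h4 : C ^ k < C ^ (k0 + Nat.log C (j + 1) + 1) := by omega
  rw [H.pow_lt_iff] at h4
  have h5 : MM τ C k ≤ MM τ C (k0 + Nat.log C (j + 1)) := H.MM_mono (by omega)
  omega

lemma DD_pow (g : ℕ → Fin 2) {k : ℕ} (hk : k0 ≤ k) : ((DD τ C k0 g (C ^ k - 1)) : ℕ) = 1 := by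
  have h0 : 1 ≤ C ^ k := Nat.one_le_pow _ _ H.C_pos
  rw [DD_of_not_free]
  · unfold ss
    rw [if_pos ⟨k, hk, Or.inl (by omega)⟩]
    rfl
  · intro j hj
    exact H.not_free_pow (k := k) j (by omega)

lemma DD_MM (g : ℕ → Fin 2) {k : ℕ} (hk : k0 ≤ k) : ((DD τ C k0 g (MM τ C k)) : ℕ) = 1 := by
  rw [DD_of_not_free]
  · unfold ss
    rw [if_pos ⟨k, hk, Or.inr rfl⟩]
    rfl
  · have := H.pow_lt_MM k
    exact H.not_free_zero (k := k) (by omega) le_rfl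

lemma DD_zero (g : ℕ → Fin 2) {k i : ℕ} (hk : k0 ≤ k) (h1 : C ^ k ≤ i) (h2 : i < MM τ C k) :
    ((DD τ C k0 g i) : ℕ) = 0 := by
  rw [DD_of_not_free]
  · unfold ss
    rw [if_neg]
    · rfl
    · rintro ⟨k', hk', h | h⟩
      · have h3 : C ^ k < C ^ k' := by omega
        rw [H.pow_lt_iff] at h3
        have h4 : C ^ (k + 1) ≤ C ^ k' := H.pow_mono (by omega)
        have h5 := H.MM_lt_pow hk
        omega
      · rcases le_or_gt k k' with h3 | h3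
        · have := H.MM_mono h3
          omega
        · have h4 : C ^ (k' + 1) ≤ C ^ k := H.pow_mono (by omega)
          have h5 := H.MM_lt_pow hk'
          omega
  · exact H.not_free_zero (k := k) (by omega) h2.le

lemma DD_le_one (g : ℕ → Fin 2) (i : ℕ) : ((DD τ C k0 g i) : ℕ) ≤ 1 := by
  by_cases h : ∃ j, pp τ C k0 j = i
  · obtain ⟨j, rfl⟩ := h
    rw [H.DD_pp]
    have := (g j).isLt
    omega
  · push Not at h
    rw [DD_of_not_free g i h]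
    unfold ss
    split_ifs <;> simp

/-- rational approximations to `XX g`. -/
lemma approx (g : ℕ → Fin 2) {k : ℕ} (hk : k0 ≤ k) :
    ∃ A : ℕ, A % 9 = 1 ∧ ((9 : ℝ) ^ (MM τ C k + 1))⁻¹ ≤ XX τ C k0 g - A / 9 ^ (C ^ k) ∧
      XX τ C k0 g - A / 9 ^ (C ^ k) ≤ 2 * ((9 : ℝ) ^ (MM τ C k + 1))⁻¹ := by
  obtain ⟨A, hA1, hA2⟩ := partial_sum_eq (DD τ C k0 g) (C ^ k)
  have h0 : 0 < C ^ k := Nat.pow_pos H.C_pos
  refine ⟨A, ?_, ?_⟩
  · rw [hA2 h0, H.DD_pow g hk]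
  have h1 : XX τ C k0 g - A / 9 ^ (C ^ k)
      = ((9 : ℝ) ^ (MM τ C k))⁻¹ * Real.ofDigits (fun i => DD τ C k0 g (i + MM τ C k)) := by
    unfold XX
    rw [Real.ofDigits_eq_sum_add_ofDigits _ (MM τ C k), ← hA1]
    have h2 : ∑ i ∈ range (MM τ C k), Real.ofDigitsTerm (DD τ C k0 g) i
        = ∑ i ∈ range (C ^ k), Real.ofDigitsTerm (DD τ C k0 g) i := by
      symm
      apply Finset.sum_subset
      · intro i hi
        rw [mem_range] at hi ⊢
        have := H.pow_lt_MM k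
        omega
      · intro i hi1 hi2
        rw [mem_range] at hi1 hi2
        unfold Real.ofDigitsTerm
        rw [H.DD_zero g hk (by omega) hi1]
        simp
    rw [h2]
    push_cast
    ring
  have h2 := Real.ofDigits_eq_sum_add_ofDigits (fun i => DD τ C k0 g (i + MM τ C k)) 1
  have h3 := ofDigits_le_eighth (fun i => DD τ C k0 g (i + 1 + MM τ C k)) (fun i => H.DD_le_one g _)
  have h4 := Real.ofDigits_nonneg (fun i => DD τ C k0 g (i + 1 + MM τ C k))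
  simp only [Finset.sum_range_one, Real.ofDigitsTerm, zero_add, pow_one] at h2
  rw [H.DD_MM g hk] at h2
  rw [h1, h2, pow_succ, mul_inv]
  push_cast
  constructor
  · rw [mul_add]
    have : 0 ≤ ((9 : ℝ) ^ (MM τ C k))⁻¹ * ((9 : ℝ)⁻¹ * Real.ofDigits (fun i => DD τ C k0 g (i + 1 + MM τ C k))) := by
      positivity
    linarith
  · have h5 : 0 ≤ ((9 : ℝ) ^ (MM τ C k))⁻¹ := by positivity
    have h6 : (1 : ℝ) * 9⁻¹ + (9 : ℝ)⁻¹ * Real.ofDigits (fun i => DD τ C k0 g (i + 1 + MM τ C k)) ≤ 2 * 9⁻¹ := by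
      linarith
    calc _ ≤ ((9 : ℝ) ^ (MM τ C k))⁻¹ * (2 * 9⁻¹) := mul_le_mul_of_nonneg_left h6 h5
      _ = _ := by ring

end Hyp

end construction

end Pool.Agent.Helper27.Weyl
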