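import Pool.Agent.Helper27.WeylE

/-! Diophantine properties of the numbers `XX g`. -/

open Finset

namespace Pool.Agent.Helper27.Weyl

namespace Hyp

variable {τ : ℝ} {C k0 : ℕ} (H : Hyp τ C k0)
include H

lemma approx_rpow (g : ℕ → Fin 2) {k : ℕ} (hk : k0 ≤ k) :
    ∃ A : ℕ, A % 9 = 1 ∧ ((9 : ℝ) ^ (C ^ k)) ^ (-τ) / 9 ≤ XX τ C k0 g - A / 9 ^ (C ^ k) ∧
      XX τ C k0 g - A / 9 ^ (C ^ k) ≤ 2 * ((9 : ℝ) ^ (C ^ k)) ^ (-τ) := by
  obtain ⟨A, hA, h1, h2⟩ := H.approx g hk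
  have e1 : ((9 : ℝ) ^ (C ^ k)) ^ (-τ) = (9 : ℝ) ^ (-(τ * (C : ℝ) ^ k)) := by
    rw [← Real.rpow_natCast, ← Real.rpow_mul (by norm_num)]
    congr 1
    push_cast
    ring
  have e2 : ((9 : ℝ) ^ (MM τ C k + 1))⁻¹ = (9 : ℝ) ^ (-((MM τ C k : ℝ) + 1)) := by
    rw [Real.rpow_neg (by norm_num)]
    congr 1
    rw [← Real.rpow_natCast]
    push_cast
    rfl
  have h3 := H.MM_ge k
  have h4 := H.MM_lt k
  refine ⟨A, hA, ?_, ?_⟩
  · refine le_trans ?_ h1
    rw [e1, e2, div_eq_mul_inv]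
    have : (9 : ℝ)⁻¹ = (9 : ℝ) ^ (-1 : ℝ) := by rw [Real.rpow_neg_one]
    rw [this, ← Real.rpow_add (by norm_num)]
    apply Real.rpow_le_rpow_of_exponent_le (by norm_num)
    linarith
  · refine h2.trans ?_
    rw [e1, e2]
    apply mul_le_mul_of_nonneg_left _ (by norm_num)
    apply Real.rpow_le_rpow_of_exponent_le (by norm_num)
    linarith

theorem diophantine (g : ℕ → Fin 2) :
    ∃ c : ℝ, 0 < c ∧ ∀ (p : ℤ) (q : ℕ), 0 < q → c / (q : ℝ) ^ τ ≤ |XX τ C k0 g - p / q| := by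
  have hτ := H.h3
  set x := XX τ C k0 g with hx
  set c : ℝ := min (1 / 9) (min (1 / (2 * 9 ^ (C ^ k0))) (1 / (2 * 4 ^ (τ - 1)))) with hc
  have hc0 : 0 < c := by
    rw [hc]
    positivity
  have hc1 : c ≤ 1 / 9 := min_le_left _ _
  have hc2 : c ≤ 1 / (2 * 9 ^ (C ^ k0)) := (min_le_right _ _).trans (min_le_left _ _)
  have hc3 : c ≤ 1 / (2 * 4 ^ (τ - 1)) := (min_le_right _ _).trans (min_le_right _ _)
  refine ⟨c, hc0, fun p q hq => ?_⟩
  have hq0 : (0 : ℝ) < q := by exact_mod_cast hq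
  have hq1 : (1 : ℝ) ≤ q := by exact_mod_cast hq
  have hqτ : 0 < (q : ℝ) ^ τ := Real.rpow_pos_of_pos hq0 _
  have hex : ∃ l : ℕ, 4 * (q : ℝ) ≤ ((9 : ℝ) ^ (C ^ (k0 + l))) ^ (τ - 1) := by
    refine ⟨4 * q, ?_⟩
    have h1 : 4 * q < C ^ (k0 + 4 * q) := by
      have hC1 : 1 < C := by have := H.C_gt; omega
      calc 4 * q ≤ k0 + 4 * q := by omega
        _ < C ^ (k0 + 4 * q) := Nat.lt_pow_self hC1
    have h2 : C ^ (k0 + 4 * q) < 9 ^ (C ^ (k0 + 4 * q)) := Nat.lt_pow_self (by norm_num)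
    have h3 : 4 * (q : ℝ) ≤ (9 : ℝ) ^ (C ^ (k0 + 4 * q)) := by exact_mod_cast (h1.trans h2).le
    refine h3.trans ?_
    have h4 : (1 : ℝ) ≤ (9 : ℝ) ^ (C ^ (k0 + 4 * q)) := one_le_pow₀ (by norm_num)
    calc (9 : ℝ) ^ (C ^ (k0 + 4 * q)) = ((9 : ℝ) ^ (C ^ (k0 + 4 * q))) ^ (1 : ℝ) := (Real.rpow_one _).symm
      _ ≤ _ := Real.rpow_le_rpow_of_exponent_le h4 (by linarith)
  classical
  set l := Nat.find hex with hl
  have hl1 : 4 * (q : ℝ) ≤ ((9 : ℝ) ^ (C ^ (k0 + l))) ^ (τ - 1) := Nat.find_spec hex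
  set k := k0 + l with hk
  obtain ⟨A, hA, h1, h2⟩ := H.approx_rpow g (k := k) (by omega)
  set Y : ℝ := (9 : ℝ) ^ (C ^ k) with hY
  have hY0 : 0 < Y := by positivity
  have hYτ : 0 < Y ^ (-τ) := Real.rpow_pos_of_pos hY0 _
  have hxA0 : 0 < x - A / Y := lt_of_lt_of_le (by positivity) h1
  by_cases heq : (p : ℝ) / q = A / Y
  · -- the good approximation itself
    have hdiv : (9 ^ (C ^ k)) ∣ q := by
      have h3 : (p : ℝ) * Y = A * q := by
        rw [div_eq_div_iff hq0.ne' hY0.ne'] at heq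
        linarith
      have h4 : p * 9 ^ (C ^ k) = A * q := by
        rw [hY] at h3
        exact_mod_cast h3
      have h5 : ((9 ^ (C ^ k) : ℕ) : ℤ) ∣ ((A * q : ℕ) : ℤ) := ⟨p, by push_cast; linarith⟩
      have h6 : 9 ^ (C ^ k) ∣ A * q := by exact_mod_cast h5
      have h7 : Nat.Coprime (9 ^ (C ^ k)) A := by
        apply Nat.Coprime.pow_left
        rw [Nat.coprime_iff_gcd_eq_one, Nat.gcd_rec, hA]
        norm_num
      exact h7.dvd_of_dvd_mul_left h6
    have hqY : Y ≤ q := by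
      have := Nat.le_of_dvd hq hdiv
      rw [hY]
      exact_mod_cast this
    rw [heq, abs_of_pos hxA0]
    refine le_trans ?_ h1
    have h3 : ((q : ℝ) ^ τ)⁻¹ ≤ Y ^ (-τ) := by
      rw [Real.rpow_neg hY0.le]
      apply inv_anti₀ (Real.rpow_pos_of_pos hY0 _)
      exact Real.rpow_le_rpow hY0.le hqY (by linarith)
    calc c / (q : ℝ) ^ τ = c * ((q : ℝ) ^ τ)⁻¹ := div_eq_mul_inv _ _
      _ ≤ (1 / 9) * Y ^ (-τ) := mul_le_mul hc1 h3 (by positivity) (by norm_num)
      _ = Y ^ (-τ) / 9 := by ring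
  · -- other rationals
    have h3 : 1 / (q * Y) ≤ |(A : ℝ) / Y - p / q| := by
      have h4 : (A : ℝ) / Y - p / q = ((A * q - p * 9 ^ (C ^ k) : ℤ) : ℝ) / (q * Y) := by
        push_cast
        rw [← hY]
        field_simp
      have h5 : (A * q - p * 9 ^ (C ^ k) : ℤ) ≠ 0 := by
        intro h6
        rw [h6] at h4
        simp only [Int.cast_zero, zero_div] at h4
        exact heq (by linarith)
      rw [h4, abs_div, abs_of_pos (by positivity : (0 : ℝ) < q * Y)]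
      apply div_le_div_of_nonneg_right _ (by positivity)
      have := Int.one_le_abs h5
      exact_mod_cast this
    have h4 : 2 * Y ^ (-τ) ≤ 1 / (2 * (q * Y)) := by
      have e1 : Y ^ (-τ) = (Y ^ (τ - 1) * Y)⁻¹ := by
        rw [← Real.rpow_add_one hY0.ne', Real.rpow_neg hY0.le]
        congr 2
        ring
      rw [e1, ← one_div, mul_one_div, div_le_div_iff₀ (by positivity) (by positivity)]
      nlinarith
    have h5 : 1 / (2 * (q * Y)) ≤ |x - p / q| := by
      have e1 : |(A : ℝ) / Y - p / q| ≤ |x - A / Y| + |x - p / q| := by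
        have : (A : ℝ) / Y - p / q = (x - p / q) - (x - A / Y) := by ring
        rw [this]
        have := abs_sub (x - p / q) (x - A / Y)
        linarith
      rw [abs_of_pos hxA0] at e1
      have e2 : 1 / (q * Y) = 1 / (2 * (q * Y)) + 1 / (2 * (q * Y)) := by
        field_simp
        norm_num
      linarith
    refine le_trans ?_ h5
    have hqpow : (q : ℝ) ^ τ = q ^ (τ - 1) * q := by
      rw [← Real.rpow_add_one hq0.ne']
      congr 1
      ring
    have hqτ1 : (1 : ℝ) ≤ (q : ℝ) ^ (τ - 1) := Real.one_le_rpow hq1 (by linarith)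
    rcases Nat.eq_zero_or_pos l with hl0 | hlpos
    · have hk' : k = k0 := by omega
      have e1 : c ≤ 1 / (2 * Y) := by
        rw [hY, hk']
        exact hc2
      rw [div_le_iff₀ hqτ]
      refine e1.trans ?_
      rw [hqpow]
      rw [div_le_iff₀ (by positivity)]
      field_simp
      linarith
    · -- l > 0 : minimality
      have hmin : ¬ (4 * (q : ℝ) ≤ ((9 : ℝ) ^ (C ^ (k0 + (l - 1)))) ^ (τ - 1)) :=
        Nat.find_min hex (by omega)
      push Not at hmin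
      set Z : ℝ := (9 : ℝ) ^ (C ^ (k0 + (l - 1))) with hZ
      have hZ1 : 1 ≤ Z := one_le_pow₀ (by norm_num)
      have hYZ : Y = Z ^ (C : ℝ) := by
        rw [Real.rpow_natCast, hZ, ← pow_mul, hY, hk]
        congr 1
        have : k0 + l = (k0 + (l - 1)) + 1 := by omega
        rw [this, pow_succ]
      have h6 : Y ≤ (4 * q) ^ (τ - 1) := by
        rw [hYZ]
        calc Z ^ (C : ℝ) ≤ Z ^ ((τ - 1) * (τ - 1)) := by
              apply Real.rpow_le_rpow_of_exponent_le hZ1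
              have := H.hC2
              nlinarith
          _ = (Z ^ (τ - 1)) ^ (τ - 1) := Real.rpow_mul (by linarith) _ _
          _ ≤ (4 * q) ^ (τ - 1) := by
              apply Real.rpow_le_rpow (by positivity) hmin.le (by linarith)
      rw [Real.mul_rpow (by norm_num) hq0.le] at h6
      rw [div_le_div_iff₀ hqτ (by positivity)]
      have h4τ : (0 : ℝ) < 4 ^ (τ - 1) := by positivity
      have h7 : c * (2 * 4 ^ (τ - 1)) ≤ 1 := by
        rw [le_div_iff₀ (by positivity)] at hc3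
        exact hc3
      calc c * (2 * (q * Y)) ≤ c * (2 * (q * (4 ^ (τ - 1) * q ^ (τ - 1)))) := by
            apply mul_le_mul_of_nonneg_left _ hc0.le
            apply mul_le_mul_of_nonneg_left _ (by norm_num)
            exact mul_le_mul_of_nonneg_left h6 hq0.le
        _ = (c * (2 * 4 ^ (τ - 1))) * (q ^ (τ - 1) * q) := by ring
        _ ≤ 1 * (q ^ (τ - 1) * q) := mul_le_mul_of_nonneg_right h7 (by positivity)
        _ = _ := by rw [hqpow]

end Hyp

end Pool.Agent.Helper27.Weyl
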