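import Pool.Agent.Helper27.WeylF

/-! Positive Hausdorff dimension of the Cantor set. -/

open Finset
open scoped NNReal ENNReal

namespace Pool.Agent.Helper27.Weyl

namespace Hyp

variable {τ : ℝ} {C k0 : ℕ} (H : Hyp τ C k0)
include H

lemma DD_eq_of_lt (g g' : ℕ → Fin 2) (j : ℕ) (hlt : ∀ i < j, g i = g' i) (i : ℕ)
    (hi : i < pp τ C k0 j) : DD τ C k0 g i = DD τ C k0 g' i := by
  by_cases h : ∃ j', pp τ C k0 j' = i
  · obtain ⟨j', rfl⟩ := h
    have hj' : j' < j := H.pp_strictMono.lt_iff_lt.mp hi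
    apply Fin.ext
    rw [H.DD_pp, H.DD_pp, hlt j' hj']
  · push Not at h
    rw [DD_of_not_free g i h, DD_of_not_free g' i h]

lemma XX_sep (g g' : ℕ → Fin 2) (j : ℕ) (hlt : ∀ i < j, g i = g' i) (hne : g j ≠ g' j) :
    ((9 : ℝ) ^ (pp τ C k0 j + 1))⁻¹ / 2 ≤ |XX τ C k0 g - XX τ C k0 g'| := by
  set P := pp τ C k0 j with hP
  have h1 : XX τ C k0 g - XX τ C k0 g'
      = ((9 : ℝ) ^ P)⁻¹ * (Real.ofDigits (fun i => DD τ C k0 g (i + P))
        - Real.ofDigits (fun i => DD τ C k0 g' (i + P))) := by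
    unfold XX
    rw [Real.ofDigits_eq_sum_add_ofDigits (DD τ C k0 g) P, Real.ofDigits_eq_sum_add_ofDigits (DD τ C k0 g') P]
    have h2 : ∑ i ∈ range P, Real.ofDigitsTerm (DD τ C k0 g) i
        = ∑ i ∈ range P, Real.ofDigitsTerm (DD τ C k0 g') i := by
      apply Finset.sum_congr rfl
      intro i hi
      unfold Real.ofDigitsTerm
      rw [H.DD_eq_of_lt g g' j hlt i (mem_range.mp hi)]
    rw [h2]
    push_cast
    ring
  have h2 : ∀ g : ℕ → Fin 2, Real.ofDigits (fun i => DD τ C k0 g (i + P))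
      = ((g j : ℕ) : ℝ) * 9⁻¹ + (9 : ℝ)⁻¹ * Real.ofDigits (fun i => DD τ C k0 g (i + 1 + P)) := by
    intro g
    have h3 := Real.ofDigits_eq_sum_add_ofDigits (fun i => DD τ C k0 g (i + P)) 1
    simp only [Finset.sum_range_one, Real.ofDigitsTerm, zero_add, pow_one] at h3
    rw [hP, H.DD_pp, ← hP] at h3
    rw [h3]
    push_cast
    ring
  have h3 : ∀ g : ℕ → Fin 2, Real.ofDigits (fun i => DD τ C k0 g (i + 1 + P)) ≤ 1 / 8 := fun g =>
    ofDigits_le_eighth _ (fun i => H.DD_le_one g _)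
  have h4 : ∀ g : ℕ → Fin 2, 0 ≤ Real.ofDigits (fun i => DD τ C k0 g (i + 1 + P)) := fun g =>
    Real.ofDigits_nonneg _
  rw [h1, abs_mul, abs_of_pos (by positivity : (0 : ℝ) < ((9 : ℝ) ^ P)⁻¹), h2 g, h2 g']
  have h5 : (1 : ℝ) / 18 ≤ |((g j : ℕ) : ℝ) * 9⁻¹ + (9 : ℝ)⁻¹ * Real.ofDigits (fun i => DD τ C k0 g (i + 1 + P))
      - (((g' j : ℕ) : ℝ) * 9⁻¹ + (9 : ℝ)⁻¹ * Real.ofDigits (fun i => DD τ C k0 g' (i + 1 + P)))| := by
    have a1 := h3 g
    have a2 := h3 g'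
    have a3 := h4 g
    have a4 := h4 g'
    have h6 : ((g j : ℕ) = 0 ∧ (g' j : ℕ) = 1) ∨ ((g j : ℕ) = 1 ∧ (g' j : ℕ) = 0) := by
      have b1 := (g j).isLt
      have b2 := (g' j).isLt
      have b3 : (g j : ℕ) ≠ g' j := fun h => hne (Fin.ext h)
      omega
    rcases h6 with ⟨c1, c2⟩ | ⟨c1, c2⟩
    · rw [c1, c2, le_abs]
      right
      push_cast
      linarith
    · rw [c1, c2, le_abs]
      left
      push_cast
      linarith
  have h6 : (0 : ℝ) ≤ ((9 : ℝ) ^ P)⁻¹ := by positivity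
  calc ((9 : ℝ) ^ (P + 1))⁻¹ / 2 = ((9 : ℝ) ^ P)⁻¹ * (1 / 18) := by
        rw [pow_succ, mul_inv]
        ring
    _ ≤ _ := mul_le_mul_of_nonneg_left h5 h6

omit H in
lemma first_diff {g g' : ℕ → Fin 2} (h : g ≠ g') : ∃ j, (∀ i < j, g i = g' i) ∧ g j ≠ g' j := by
  classical
  have hex : ∃ j, g j ≠ g' j := by
    by_contra hcon
    push Not at hcon
    exact h (funext hcon)
  refine ⟨Nat.find hex, fun i hi => ?_, Nat.find_spec hex⟩
  have := Nat.find_min hex hi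
  push Not at this
  exact this

lemma XX_injective : Function.Injective (XX τ C k0) := by
  intro g g' h
  by_contra hne
  obtain ⟨j, h1, h2⟩ := first_diff hne
  have h3 := H.XX_sep g g' j h1 h2
  rw [h, sub_self, abs_zero] at h3
  have : (0 : ℝ) < ((9 : ℝ) ^ (pp τ C k0 j + 1))⁻¹ / 2 := by positivity
  linarith

/-- the Hölder exponent. -/
lemma holder_est : ∃ s : ℝ, 0 < s ∧ ∃ K : ℝ, 0 < K ∧ ∀ g g' : ℕ → Fin 2,
    |Real.ofDigits g - Real.ofDigits g'| ≤ K * |XX τ C k0 g - XX τ C k0 g'| ^ s := by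
  set A : ℕ := C ^ (k0 + 1) with hA
  have hA0 : 0 < A := Nat.pow_pos H.C_pos
  have hAR : (0 : ℝ) < A := by exact_mod_cast hA0
  set s : ℝ := Real.log 2 / (A * Real.log 9) with hs
  have hlog2 : 0 < Real.log 2 := Real.log_pos (by norm_num)
  have hlog9 : 0 < Real.log 9 := Real.log_pos (by norm_num)
  have hs0 : 0 < s := by positivity
  refine ⟨s, hs0, 2 * 2 ^ s, by positivity, fun g g' => ?_⟩
  by_cases h : g = g'
  · subst h
    simp
    positivity
  obtain ⟨j, h1, h2⟩ := first_diff h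
  have h3 := H.XX_sep g g' j h1 h2
  have h4 : |Real.ofDigits g - Real.ofDigits g'| ≤ (((2 : ℕ) : ℝ) ^ j)⁻¹ :=
    Real.abs_ofDigits_sub_ofDigits_le h1
  refine h4.trans ?_
  have h5 : ((9 : ℝ) ^ (A * (j + 1)))⁻¹ / 2 ≤ |XX τ C k0 g - XX τ C k0 g'| := by
    refine le_trans ?_ h3
    apply div_le_div_of_nonneg_right _ (by norm_num)
    apply inv_anti₀ (by positivity)
    exact pow_le_pow_right₀ (by norm_num) (H.pp_le j)
  have h6 : (((9 : ℝ) ^ (A * (j + 1)))⁻¹ / 2) ^ s ≤ |XX τ C k0 g - XX τ C k0 g'| ^ s :=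
    Real.rpow_le_rpow (by positivity) h5 hs0.le
  have h7 : (((9 : ℝ) ^ (A * (j + 1)))⁻¹ / 2) ^ s = ((2 : ℝ) ^ (j + 1))⁻¹ / 2 ^ s := by
    rw [Real.div_rpow (by positivity) (by norm_num), Real.inv_rpow (by positivity)]
    congr 2
    rw [← Real.rpow_natCast, ← Real.rpow_mul (by norm_num), ← Real.rpow_natCast (2 : ℝ)]
    rw [Real.rpow_def_of_pos (by norm_num), Real.rpow_def_of_pos (by norm_num)]
    congr 1
    rw [hs]
    push_cast
    field_simp
  rw [h7] at h6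
  have h2s : (0 : ℝ) < 2 ^ s := by positivity
  calc (((2 : ℕ) : ℝ) ^ j)⁻¹ = 2 * 2 ^ s * (((2 : ℝ) ^ (j + 1))⁻¹ / 2 ^ s) := by
        push_cast
        field_simp
        ring
    _ ≤ _ := mul_le_mul_of_nonneg_left h6 (by positivity)

theorem dimH_range_pos : 0 < dimH (Set.range (XX τ C k0)) := by
  obtain ⟨s, hs, K, hK, hest⟩ := H.holder_est
  set f : ℝ → ℝ := fun x => Real.ofDigits (Function.invFun (XX τ C k0) x) with hf
  have hfX : ∀ g, f (XX τ C k0 g) = Real.ofDigits g := by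
    intro g
    simp only [hf]
    rw [Function.leftInverse_invFun H.XX_injective g]
  have hhold : HolderOnWith K.toNNReal s.toNNReal f (Set.range (XX τ C k0)) := by
    rintro _ ⟨g, rfl⟩ _ ⟨g', rfl⟩
    rw [hfX, hfX, edist_dist, edist_dist, Real.dist_eq, Real.dist_eq, Real.coe_toNNReal s hs.le]
    rw [ENNReal.ofReal_rpow_of_nonneg (abs_nonneg _) hs.le]
    have hKK : ((K.toNNReal : ℝ≥0) : ℝ≥0∞) = ENNReal.ofReal K := rfl
    rw [hKK, ← ENNReal.ofReal_mul hK.le]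
    exact ENNReal.ofReal_le_ofReal (hest g g')
  have h1 := hhold.dimH_image_le (Real.toNNReal_pos.mpr hs)
  have h2 : Set.Icc (0 : ℝ) 1 ⊆ f '' Set.range (XX τ C k0) := by
    intro y hy
    obtain ⟨g, _, hg⟩ := Real.ofDigits_SurjOn (b := 2) (by norm_num) hy
    exact ⟨XX τ C k0 g, ⟨g, rfl⟩, by rw [hfX, hg]⟩
  have h3 : dimH (Set.Icc (0 : ℝ) 1) = 1 := by
    rw [Real.dimH_of_nonempty_interior]
    · simp
    · rw [interior_Icc]
      exact ⟨1 / 2, by norm_num, by norm_num⟩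
  have h4 : (1 : ℝ≥0∞) ≤ dimH (Set.range (XX τ C k0)) / (s.toNNReal : ℝ≥0∞) := by
    rw [← h3]
    exact (dimH_mono h2).trans h1
  by_contra hcon
  have h5 : dimH (Set.range (XX τ C k0)) = 0 := le_antisymm (not_lt.mp hcon) bot_le
  rw [h5, ENNReal.zero_div] at h4
  exact absurd h4 (by norm_num)

end Hyp

end Pool.Agent.Helper27.Weyl
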