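import Pool.Agent.Helper27.WeylG

/-! The growth exponent of the quadratic Weyl sum at `XX g`. -/

open Finset Filter Asymptotics

namespace Pool.Agent.Helper27.Weyl

lemma isCoprime_of_mod {A n : ℕ} (hA : A % 9 = 1) : IsCoprime (A : ℤ) ((3 ^ n : ℕ) : ℤ) := by
  have h : Nat.Coprime A (3 ^ n) := by
    apply Nat.Coprime.pow_right
    have h1 : ¬ 3 ∣ A := by omega
    exact ((Nat.Prime.coprime_iff_not_dvd Nat.prime_three).mpr h1).symm
  exact_mod_cast h.isCoprime

namespace Hyp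

variable {τ : ℝ} {C k0 : ℕ} (H : Hyp τ C k0)
include H

theorem upper (g : ℕ → Fin 2) {ε : ℝ} (hε : 0 < ε) :
    ∀ᶠ N : ℕ in atTop, ‖Q (XX τ C k0 g) N‖ ≤ (N : ℝ) ^ (1 - 1 / τ + ε) := by
  have hτ := H.h3
  obtain ⟨c, hc, hx⟩ := H.diophantine g
  obtain ⟨K, hK, hupper⟩ := norm_Q_sq_upper (by linarith) hc hx
  have h1 : (fun y : ℝ => K * (1 + Real.log y)) =o[atTop] fun y => y ^ (2 * ε) := by
    apply IsLittleO.const_mul_left
    apply IsLittleO.add
    · apply isLittleO_const_left.mpr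
      right
      exact tendsto_norm_atTop_atTop.comp (tendsto_rpow_atTop (by positivity))
    · exact isLittleO_log_rpow_atTop (by positivity)
  have h2 : ∀ᶠ y : ℝ in atTop, ‖K * (1 + Real.log y)‖ ≤ 1 * ‖y ^ (2 * ε)‖ :=
    (isLittleO_iff.mp h1) one_pos
  have h3 := tendsto_natCast_atTop_atTop.eventually h2
  filter_upwards [h3, eventually_ge_atTop 1] with N hN1 hN2
  have hN0 : (0 : ℝ) < N := by exact_mod_cast hN2
  have hlog : 0 ≤ Real.log N := Real.log_natCast_nonneg _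
  rw [one_mul, Real.norm_of_nonneg (by positivity), Real.norm_of_nonneg (by positivity)] at hN1
  have h4 := hupper N hN2
  have h5 : ‖Q (XX τ C k0 g) N‖ ^ 2 ≤ ((N : ℝ) ^ (1 - 1 / τ + ε)) ^ 2 := by
    calc ‖Q (XX τ C k0 g) N‖ ^ 2 ≤ K * (N : ℝ) ^ (2 - 2 / τ) * (1 + Real.log N) := h4
      _ = (N : ℝ) ^ (2 - 2 / τ) * (K * (1 + Real.log N)) := by ring
      _ ≤ (N : ℝ) ^ (2 - 2 / τ) * (N : ℝ) ^ (2 * ε) := mul_le_mul_of_nonneg_left hN1 (by positivity)
      _ = ((N : ℝ) ^ (1 - 1 / τ + ε)) ^ 2 := by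
          rw [← Real.rpow_add hN0, ← Real.rpow_natCast, ← Real.rpow_mul hN0.le]
          congr 1
          push_cast
          ring
  exact le_of_sq_le_sq h5 (by positivity)

theorem lower_at (g : ℕ → Fin 2) {k : ℕ} (hk : k0 ≤ k) (hk2 : 6 ≤ k) :
    ∃ N : ℕ, k ≤ N ∧ (N : ℝ) ^ (1 - 1 / τ) / 800 ≤ ‖Q (XX τ C k0 g) N‖ := by
  have hτ := H.h3
  obtain ⟨A, hA, h1, h2⟩ := H.approx_rpow g hk
  set r : ℕ := 3 ^ (C ^ k) with hr
  have hkC : k < C ^ k := Nat.lt_pow_self (by have := H.C_gt; omega)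
  have hr200 : 200 ≤ r := by
    have : 3 ^ 6 ≤ 3 ^ (C ^ k) := Nat.pow_le_pow_right (by norm_num) (by omega)
    omega
  have hkr : k < r := hkC.trans (Nat.lt_pow_self (by norm_num))
  have hrR : (200 : ℝ) ≤ r := by exact_mod_cast hr200
  have hr0 : (0 : ℝ) < r := by linarith
  have hodd : Odd r := by
    rw [hr]
    exact Odd.pow (by decide)
  have hY : (9 : ℝ) ^ (C ^ k) = r * r := by
    rw [hr]
    push_cast
    rw [← mul_pow]
    norm_num
  rw [hY] at h1 h2
  have hrr : (0 : ℝ) < r * r := by positivity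
  set β : ℝ := XX τ C k0 g - A / (r * r) with hβ
  have hβ0 : 0 < β := lt_of_lt_of_le (by positivity) h1
  -- choice of J
  set z : ℝ := (r : ℝ) ^ (τ - 2) / 200 with hz
  have hz1 : (r : ℝ) / 200 ≤ z := by
    rw [hz]
    apply div_le_div_of_nonneg_right _ (by norm_num)
    calc (r : ℝ) = (r : ℝ) ^ (1 : ℝ) := (Real.rpow_one _).symm
      _ ≤ _ := Real.rpow_le_rpow_of_exponent_le (by linarith) (by linarith)
  have hz2 : 1 ≤ z := by
    refine le_trans ?_ hz1
    rw [le_div_iff₀ (by norm_num)]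
    linarith
  set J : ℕ := ⌊z⌋₊ with hJ
  have hJz : (J : ℝ) ≤ z := Nat.floor_le (by linarith)
  have hJz2 : z / 2 ≤ J := by
    have h3 : z < J + 1 := Nat.lt_floor_add_one z
    have h4 : (1 : ℝ) ≤ J := by
      have : 1 ≤ J := by
        rw [hJ, Nat.one_le_floor_iff]
        exact hz2
      exact_mod_cast this
    linarith
  have hJ0 : (0 : ℝ) < J := by linarith
  have hrτ : (r : ℝ) ^ τ = r ^ (τ - 2) * (r * r) := by
    have : (r : ℝ) * r = r ^ (2 : ℝ) := by
      rw [Real.rpow_two]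
      ring
    rw [this, ← Real.rpow_add hr0]
    congr 1
    ring
  have hrτ2 : ((r : ℝ) * r) ^ (-τ) = ((r : ℝ) ^ τ * r ^ τ)⁻¹ := by
    rw [Real.rpow_neg hrr.le, Real.mul_rpow hr0.le hr0.le]
  have hκ : 2 * Real.pi * |β| * (((r * r : ℕ) : ℝ) * J) ^ 2 ≤ 1 / 2000 := by
    rw [abs_of_pos hβ0]
    have h5 : (((r * r : ℕ) : ℝ) * J) ≤ r ^ τ / 200 := by
      rw [hrτ]
      push_cast
      calc (r : ℝ) * r * J ≤ r * r * z := mul_le_mul_of_nonneg_left hJz hrr.le
        _ = _ := by rw [hz]; ring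
    have h6 : (((r * r : ℕ) : ℝ) * J) ^ 2 ≤ (r ^ τ / 200) ^ 2 :=
      pow_le_pow_left₀ (by positivity) h5 2
    calc 2 * Real.pi * β * (((r * r : ℕ) : ℝ) * J) ^ 2
        ≤ 2 * Real.pi * (2 * ((r : ℝ) ^ τ * r ^ τ)⁻¹) * (r ^ τ / 200) ^ 2 := by
          apply mul_le_mul _ h6 (by positivity) (by positivity)
          apply mul_le_mul_of_nonneg_left _ (by positivity)
          rw [← hrτ2]
          exact h2
      _ = Real.pi / 10000 := by
          field_simp
          norm_num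
      _ ≤ 1 / 2000 := by
          have := Real.pi_le_four
          linarith
  have hmain := Q_lower (x := XX τ C k0 g) (β := β) (a := (A : ℤ)) hodd (isCoprime_of_mod hA)
    (by rw [hβ]; push_cast; ring) J hκ
  refine ⟨r * r * J, ?_, ?_⟩
  · have h5 : 1 ≤ J := by
      have : 0 < J := by exact_mod_cast hJ0
      omega
    nlinarith
  · refine le_trans ?_ hmain
    have h5 : (r : ℝ) * r ≤ 400 * (r * J) := by
      have h6 : (r : ℝ) / 400 ≤ J := by
        have : (r : ℝ) / 400 = (r / 200) / 2 := by ring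
        rw [this]
        linarith
      nlinarith
    have h6 : (r : ℝ) * J / 2 ≤ (r : ℝ) * J * (1 - 1 / 2000) - 1 / 2000 * (r * r) := by
      have : 0 < (r : ℝ) * J := by positivity
      linarith
    refine le_trans ?_ h6
    -- N^(1-1/τ) / 800 ≤ r J / 2
    have hN0 : (0 : ℝ) < ((r * r * J : ℕ) : ℝ) := by
      push_cast
      positivity
    have h7 : ((r * r * J : ℕ) : ℝ) ^ (1 - 1 / τ) * ((r * r * J : ℕ) : ℝ) ^ (1 / τ) = (r * J) * r := by
      rw [← Real.rpow_add hN0]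
      have : (1 : ℝ) - 1 / τ + 1 / τ = 1 := by ring
      rw [this, Real.rpow_one]
      push_cast
      ring
    have h8 : (r : ℝ) / 400 ≤ ((r * r * J : ℕ) : ℝ) ^ (1 / τ) := by
      have h9 : (r : ℝ) ^ τ / 400 ≤ ((r * r * J : ℕ) : ℝ) := by
        rw [hrτ]
        push_cast
        calc (r : ℝ) ^ (τ - 2) * (r * r) / 400 = (r * r) * (z / 2) := by rw [hz]; ring
          _ ≤ r * r * J := mul_le_mul_of_nonneg_left hJz2 hrr.le
      have h10 : ((r : ℝ) / 400) ^ τ ≤ ((r * r * J : ℕ) : ℝ) := by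
        refine le_trans ?_ h9
        rw [Real.div_rpow hr0.le (by norm_num)]
        apply div_le_div_of_nonneg_left (by positivity) (by norm_num)
        calc (400 : ℝ) = (400 : ℝ) ^ (1 : ℝ) := (Real.rpow_one _).symm
          _ ≤ _ := Real.rpow_le_rpow_of_exponent_le (by norm_num) (by linarith)
      calc (r : ℝ) / 400 = (((r : ℝ) / 400) ^ τ) ^ (1 / τ) := by
            rw [← Real.rpow_mul (by positivity), mul_one_div_cancel (by linarith), Real.rpow_one]
        _ ≤ _ := Real.rpow_le_rpow (by positivity) h10 (by positivity)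
    set P := ((r * r * J : ℕ) : ℝ) ^ (1 - 1 / τ) with hP
    have hP0 : 0 < P := Real.rpow_pos_of_pos hN0 _
    have h9 : P * (r / 400) ≤ (r * J) * r := by
      rw [← h7]
      exact mul_le_mul_of_nonneg_left h8 hP0.le
    have h10 : P / 400 ≤ r * J := by
      have : (P / 400) * r ≤ (r * J) * r := by
        calc (P / 400) * r = P * (r / 400) := by ring
          _ ≤ _ := h9
      exact le_of_mul_le_mul_right this hr0
    linarith

theorem lower (g : ℕ → Fin 2) {ε : ℝ} (hε : 0 < ε) :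
    ∃ᶠ N : ℕ in atTop, (N : ℝ) ^ (1 - 1 / τ - ε) ≤ ‖Q (XX τ C k0 g) N‖ := by
  have hτ := H.h3
  -- eventually N^ε ≥ 800
  have h1 : ∀ᶠ N : ℕ in atTop, (800 : ℝ) ≤ (N : ℝ) ^ ε := by
    have : Tendsto (fun N : ℕ => (N : ℝ) ^ ε) atTop atTop :=
      (tendsto_rpow_atTop hε).comp tendsto_natCast_atTop_atTop
    exact this.eventually_ge_atTop 800
  obtain ⟨N1, hN1⟩ := eventually_atTop.mp h1
  rw [frequently_atTop]
  intro M
  obtain ⟨N, hN, hQ⟩ := H.lower_at g (k := k0 + 6 + M + N1 + 1) (by omega) (by omega)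
  refine ⟨N, by omega, ?_⟩
  have h800 := hN1 N (by omega)
  have hN0 : (0 : ℝ) < N := by
    have : 0 < N := by omega
    exact_mod_cast this
  refine le_trans ?_ hQ
  rw [Real.rpow_sub hN0]
  apply div_le_div_of_nonneg_left (by positivity) (by norm_num) h800

end Hyp

end Pool.Agent.Helper27.Weyl
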